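import Pool.Agent.Lib_helper55.ESF.Defs

-- block P5 of the strong form of EllipticSurfaces, by helper8

/-!
# ES, block P5: the elements of the ideal are linear combinations of group elements
-/

set_option autoImplicit false

namespace Pool.Agent.ES

open Equiv Module Filter Topology

variable {G R : Type*} [Group G] [Fintype R] {m : R → ℕ} {N : ℕ}
  {ρ : G →* Matrix (Fin N) (Fin N) ℤ_[2]} {π : ∀ r, G →* Perm (Fin (m r))} {S : R → Set G}

theorem es_idl_span (H : Subgroup G) (T : Set G) (hTH : T ⊆ H) (z : Rg m N)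
    (hz : z ∈ idl ρ π H T) :
    z.1 ∈ Submodule.span ℤ_[2] {M : Matrix (Fin N) (Fin N) ℤ_[2] | ∃ x ∈ H, ∃ s ∈ T, ∃ y ∈ H,
      M = ρ x * (ρ s - 1) * ρ y} := by
  set Z : Submodule ℤ_[2] (Matrix (Fin N) (Fin N) ℤ_[2]) :=
    Submodule.span ℤ_[2] {M : Matrix (Fin N) (Fin N) ℤ_[2] | ∃ x ∈ H, ∃ s ∈ T, ∃ y ∈ H,
      M = ρ x * (ρ s - 1) * ρ y} with hZ
  have hmul : ∀ a ∈ Z, ∀ b ∈ Z, a * b ∈ Z := by
    have h1 : Z * Z ≤ Z := by
      rw [hZ, Submodule.span_mul_span, Submodule.span_le]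
      rintro _ ⟨_, ⟨x, hx, s, hs, y, hy, rfl⟩, _, ⟨x', hx', s', hs', y', hy', rfl⟩, rfl⟩
      have e : ρ x * (ρ s - 1) * ρ y * (ρ x' * (ρ s' - 1) * ρ y') =
          ρ x * (ρ s - 1) * ρ (y * x' * s' * y') - ρ x * (ρ s - 1) * ρ (y * x' * y') := by
        simp only [map_mul]
        noncomm_ring
      show ρ x * (ρ s - 1) * ρ y * (ρ x' * (ρ s' - 1) * ρ y') ∈ _
      rw [e]
      exact Submodule.sub_mem _
        (Submodule.subset_span ⟨x, hx, s, hs, _,
          H.mul_mem (H.mul_mem (H.mul_mem hy hx') (hTH hs')) hy', rfl⟩)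
        (Submodule.subset_span ⟨x, hx, s, hs, _, H.mul_mem (H.mul_mem hy hx') hy', rfl⟩)
    exact fun a ha b hb => h1 (Submodule.mul_mem_mul ha hb)
  have hcl : IsClosed (Z : Set (Matrix (Fin N) (Fin N) ℤ_[2])) :=
    (Submodule.isCompact_of_fg (IsNoetherian.noetherian Z)).isClosed
  let W : NonUnitalSubring (Rg m N) :=
    { carrier := {w | w.1 ∈ Z}
      add_mem' := fun {a b} ha hb => Z.add_mem ha hb
      zero_mem' := Z.zero_mem
      mul_mem' := fun {a b} ha hb => hmul _ ha _ hb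
      neg_mem' := fun {a} ha => Z.neg_mem ha }
  have hWcl : IsClosed (W : Set (Rg m N)) := hcl.preimage continuous_fst
  have hle : idl ρ π H T ≤ W := by
    unfold idl
    apply NonUnitalSubring.topologicalClosure_minimal _ _ hWcl
    rw [NonUnitalSubring.closure_le]
    rintro _ ⟨x, hx, s, hs, y, hy, rfl⟩
    exact Submodule.subset_span ⟨x, hx, s, hs, y, hy, rfl⟩
  exact hle hz

end Pool.Agent.ES
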