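import Pool.Agent.Lib_helper55.ESF.P4
import Pool.Agent.Lib_helper55.ESF.P5

-- block P11 of the strong form of EllipticSurfaces, by helper62

/-! # ES block P11: the permutation is determined by the action on the piece -/

set_option autoImplicit false

namespace Pool.Agent.ES

open Equiv Module Filter Topology

section

variable {G R : Type*} [Group G] [Fintype R] {m : R → ℕ} {N : ℕ}
  {ρ : G →* Matrix (Fin N) (Fin N) ℤ_[2]} {π : ∀ r, G →* Perm (Fin (m r))} {S : R → Set G}

theorem p11_idl_mono {R : Type*} {m : R → ℕ} {N : ℕ} (ρ : G →* Matrix (Fin N) (Fin N) ℤ_[2])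
    (π : ∀ r, G →* Perm (Fin (m r))) {H H' : Subgroup G} {T T' : Set G} (hH : H ≤ H')
    (hT : T ⊆ T') : idl ρ π H T ≤ idl ρ π H' T' := by
  apply NonUnitalSubring.topologicalClosure_mono
  apply NonUnitalSubring.closure_mono
  rintro z ⟨x, hx, s, hs, y, hy, rfl⟩
  exact ⟨x, hH hx, s, hT hs, y, hH hy, rfl⟩

theorem p11_pm {k : ℕ} (σ : Perm (Fin k)) (a : Fin k) :
    (pm σ).mulVec (Pi.single a 1) = Pi.single (σ a) 1 := by
  funext i
  rw [Matrix.mulVec_single_one]
  simp only [pm, Matrix.col_apply, Matrix.of_apply, Pi.single_apply]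
  by_cases h : σ a = i
  · rw [if_pos h, if_pos h.symm]
  · rw [if_neg h, if_neg (Ne.symm h)]

/-- the combinatorial part -/
theorem p11_perm {k : ℕ} (hk : 8 ≤ k) (σ : Perm (Fin k))
    (h : ∀ v w : Fin k → ZMod 2, ∑ i, v i = 0 → ∑ i, w i = 0 →
      w ⬝ᵥ (pm σ).mulVec v = w ⬝ᵥ v) : σ = 1 := by
  have h2 : (1 : ZMod 2) + 1 = 0 := by decide
  ext1 a
  rw [Perm.one_apply]
  by_contra ha
  obtain ⟨b, hb⟩ : ∃ b, b ∉ ({a, σ a} : Finset (Fin k)) := by
    by_contra hcon
    push Not at hcon
    have h3 : (Finset.univ : Finset (Fin k)) ⊆ {a, σ a} := fun x _ => hcon x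
    have h4 := Finset.card_le_card h3
    have h5 : ({a, σ a} : Finset (Fin k)).card ≤ 2 := Finset.card_le_two
    rw [Finset.card_univ, Fintype.card_fin] at h4
    omega
  obtain ⟨i, hi⟩ : ∃ i, i ∉ ({a, b, σ a, σ b} : Finset (Fin k)) := by
    by_contra hcon
    push Not at hcon
    have h3 : (Finset.univ : Finset (Fin k)) ⊆ {a, b, σ a, σ b} := fun x _ => hcon x
    have h4 := Finset.card_le_card h3
    have h5 : ({a, b, σ a, σ b} : Finset (Fin k)).card ≤ 4 := Finset.card_le_four
    rw [Finset.card_univ, Fintype.card_fin] at h4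
    omega
  simp only [Finset.mem_insert, Finset.mem_singleton, not_or] at hb hi
  obtain ⟨hba, hbs⟩ := hb
  obtain ⟨hia, hib, hisa, hisb⟩ := hi
  have hsab : σ a ≠ σ b := fun h => hba (σ.injective h).symm
  have h6 := h (Pi.single a 1 + Pi.single b 1) (Pi.single (σ a) 1 + Pi.single i 1)
    (by simp [Finset.sum_add_distrib, h2]) (by simp [Finset.sum_add_distrib, h2])
  rw [Matrix.mulVec_add, p11_pm, p11_pm] at h6
  simp only [add_dotProduct, single_one_dotProduct, Pi.add_apply, Pi.single_eq_same] at h6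
  rw [Pi.single_eq_of_ne hsab, Pi.single_eq_of_ne hisa, Pi.single_eq_of_ne hisb,
    Pi.single_eq_of_ne ha, Pi.single_eq_of_ne (Ne.symm hbs), Pi.single_eq_of_ne hia,
    Pi.single_eq_of_ne hib] at h6
  simp at h6

variable {E : Type*} [Field E] (ι : ℤ_[2] →+* E) (hι : Function.Injective ι)

theorem p11_act (x : G) (v : Fin N → E) :
    act ρ ι x v = ((ρ x).map ι).mulVec v := rfl

/-- the piece is stable -/
theorem p11_stable (T : Set G) (x : G) (hx : x ∈ Subgroup.closure T) (u : Fin N → E)
    (hu : u ∈ mv (act ρ ι) T) : act ρ ι x u ∈ mv (act ρ ι) T := by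
  have hrange : ∀ s ∈ T, ∀ v, act ρ ι s v - v ∈ mv (act ρ ι) T := by
    intro s hs v
    have h1 : LinearMap.range (act ρ ι s - 1) ≤ mv (act ρ ι) T :=
      le_iSup₂_of_le (f := fun s (_ : s ∈ T) => LinearMap.range (act ρ ι s - 1)) s hs le_rfl
    exact h1 ⟨v, by simp⟩
  induction hx using Subgroup.closure_induction generalizing u with
  | mem s hs =>
    have h1 := Submodule.add_mem _ (hrange s hs u) hu
    rwa [sub_add_cancel] at h1
  | one =>
    rw [map_one, Module.End.one_apply]
    exact hu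
  | mul x y hx hy ihx ihy =>
    rw [map_mul, Module.End.mul_apply]
    exact ihx _ (ihy _ hu)
  | inv x hx ih =>
    -- the restriction of `act x` to the piece is injective, so surjective
    have hfin : FiniteDimensional E (mv (act ρ ι) T) := inferInstance
    have hres : ∀ v ∈ mv (act ρ ι) T, act ρ ι x v ∈ mv (act ρ ι) T := fun v hv => ih v hv
    have hinj : Function.Injective ((act ρ ι x).restrict hres) := by
      intro v v' hvv'
      have h1 : act ρ ι x v = act ρ ι x v' := congrArg Subtype.val hvv'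
      have h2 : act ρ ι x⁻¹ (act ρ ι x v) = act ρ ι x⁻¹ (act ρ ι x v') := by rw [h1]
      rw [← Module.End.mul_apply, ← Module.End.mul_apply, ← map_mul, inv_mul_cancel, map_one,
        Module.End.one_apply, Module.End.one_apply] at h2
      exact Subtype.ext h2
    have hsurj : Function.Surjective ((act ρ ι x).restrict hres) :=
      LinearMap.injective_iff_surjective.1 hinj
    obtain ⟨v, hv⟩ := hsurj ⟨u, hu⟩
    have h1 : act ρ ι x v = u := congrArg Subtype.val hv
    rw [← h1, ← Module.End.mul_apply, ← map_mul, inv_mul_cancel, map_one, Module.End.one_apply]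
    exact v.2

theorem p11_range (T : Set G) (z : Rg m N) (hz : z ∈ idl ρ π (Subgroup.closure T) T)
    (v : Fin N → E) : (z.1.map ι).mulVec v ∈ mv (act ρ ι) T := by
  have h1 := es_idl_span (Subgroup.closure T) T Subgroup.subset_closure z hz
  generalize z.1 = M₀ at h1
  induction h1 using Submodule.span_induction with
  | mem M hM =>
    obtain ⟨x, hx, s, hs, y, hy, rfl⟩ := hM
    have h2 : ((ρ x * (ρ s - 1) * ρ y).map ι).mulVec v =
        act ρ ι x ((act ρ ι s - 1) (act ρ ι y v)) := by
      rw [LinearMap.sub_apply, Module.End.one_apply, p11_act, p11_act, p11_act, Matrix.map_mul,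
        Matrix.map_mul, Matrix.map_sub ι (map_sub ι), Matrix.map_one ι (map_zero ι) (map_one ι),
        ← Matrix.mulVec_mulVec, ← Matrix.mulVec_mulVec, Matrix.sub_mulVec, Matrix.one_mulVec]
    rw [h2]
    apply p11_stable ι T x hx
    exact (le_iSup₂_of_le (f := fun s (_ : s ∈ T) => LinearMap.range (act ρ ι s - 1)) s hs le_rfl)
      ⟨_, rfl⟩
  | zero =>
    rw [Matrix.map_zero ι (map_zero ι), Matrix.zero_mulVec]
    exact Submodule.zero_mem _
  | add M M' _ _ ih ih' =>
    rw [Matrix.map_add ι (map_add ι), Matrix.add_mulVec]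
    exact Submodule.add_mem _ ih ih'
  | smul a M _ ih =>
    have h2 : (a • M).map ι = ι a • M.map ι := by
      ext i j
      simp
    rw [h2, Matrix.smul_mulVec]
    exact Submodule.smul_mem _ _ ih

include hι

theorem es_faith (hR : Res m N ρ π S) (r : R) (x : G) (c : E) (hc : c = 1 ∨ c = -1)
    (hx : ∀ u ∈ mv (act ρ ι) (S r), act ρ ι x u = c • u) : π r x = 1 := by
  classical
  apply p11_perm (hR.big r)
  intro v w hv hw
  obtain ⟨z, hz, hz2⟩ := es_idl_one hR r v w hv hw
  have hz' : z ∈ idl ρ π ⊤ (⋃ r, S r) :=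
    p11_idl_mono ρ π le_top (Set.subset_iUnion S r) hz
  have hxz : phi ρ π x * z ∈ idl ρ π ⊤ (⋃ r, S r) := by
    refine (es_idl_mul ⊤ (⋃ r, S r) z hz' (phi ρ π x) ?_).1
    exact Subring.le_topologicalClosure _ (Subring.subset_closure ⟨x, trivial, rfl⟩)
  have h1 : ∀ v : Fin N → E, ((ρ x * z.1).map ι).mulVec v = c • (z.1.map ι).mulVec v := by
    intro v
    rw [Matrix.map_mul, ← Matrix.mulVec_mulVec, ← p11_act (ρ := ρ) ι x]
    exact hx _ (p11_range ι (S r) z hz v)
  have h2 : (ρ x * z.1).map ι = c • z.1.map ι := by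
    apply Matrix.toLin'.injective
    refine LinearMap.ext fun v => ?_
    rw [Matrix.toLin'_apply, Matrix.toLin'_apply, h1, Matrix.smul_mulVec]
  have h3 : PadicInt.toZMod (ρ x * z.1).trace = PadicInt.toZMod z.1.trace := by
    rcases hc with hc | hc
    · have h4 : ρ x * z.1 = z.1 := by
        ext i j
        have h5 := congrFun (congrFun h2 i) j
        rw [hc, one_smul] at h5
        exact hι h5 ▸ rfl
      rw [h4]
    · have h4 : ρ x * z.1 = -z.1 := by
        ext i j
        have h5 := congrFun (congrFun h2 i) j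
        rw [hc] at h5
        simp only [Matrix.map_apply, Matrix.smul_apply, neg_smul, one_smul] at h5
        rw [← map_neg] at h5
        rw [hι h5]
        rfl
      rw [h4, Matrix.trace_neg, map_neg]
      have h6 : ∀ a : ZMod 2, -a = a := by decide
      exact h6 _
  have h7 := es_idl_tr hR ⊤ _ hxz
  have h8 := es_idl_tr hR ⊤ _ hz'
  rw [Finset.sum_eq_single r, hz2, Pi.single_eq_same, Matrix.trace_vecMulVec] at h8
  rotate_left
  · intro r' _ hr'
    rw [hz2, Pi.single_eq_of_ne hr', Matrix.trace_zero]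
  · intro h
    exact absurd (Finset.mem_univ r) h
  have h9 : ∀ r', ((phi ρ π x * z).2 r') = pm (π r' x) * (z.2 r') := fun r' => rfl
  have h10 : (phi ρ π x * z).1 = ρ x * z.1 := rfl
  rw [h10] at h7
  simp only [h9] at h7
  rw [Finset.sum_eq_single r, hz2, Pi.single_eq_same, Matrix.mul_vecMulVec,
    Matrix.trace_vecMulVec] at h7
  rotate_left
  · intro r' _ hr'
    rw [hz2, Pi.single_eq_of_ne hr', Matrix.mul_zero, Matrix.trace_zero]
  · intro h
    exact absurd (Finset.mem_univ r) h
  rw [dotProduct_comm w, dotProduct_comm w, ← h7, ← h8, h3]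

end

end Pool.Agent.ES
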