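import Pool.Agent.Lib_helper55.ESF.P7

-- block P12 of the strong form of EllipticSurfaces, by helper97

/-!
# Block P12 of the wanted list `ES.WP` (MP_97f789_ag): `es_pro2`
-/

set_option autoImplicit false

namespace Pool.Agent.ES

open Equiv Module Filter Topology

section

variable {G R : Type*} [Group G] [Fintype R] {m : R → ℕ} {N : ℕ}
  {ρ : G →* Matrix (Fin N) (Fin N) ℤ_[2]} {π : ∀ r, G →* Perm (Fin (m r))} {S : R → Set G}

theorem p12_pm_one {k : ℕ} : pm (1 : Perm (Fin k)) = 1 := by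
  ext i j
  rw [pm, Matrix.of_apply, Matrix.one_apply]
  simp only [Perm.coe_one, id]
  exact if_congr eq_comm rfl rfl

/-- an idempotent `(e, 0)` in the closure of the group ring vanishes -/
theorem p12_idem (hR : Res m N ρ π S) (z : Rg m N)
    (hz : z ∈ (Subring.closure (phi ρ π '' ((⊤ : Subgroup G) : Set G))).topologicalClosure)
    (hzz : z * z = z) (hz2 : z.2 = 0) : z = 0 := by
  classical
  by_contra hne
  have hp : (1 - z) * (1 - z) = 1 - z := by
    rw [mul_sub, sub_mul, sub_mul, hzz]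
    simp
  have hpc : 1 - z ∈
      (Subring.closure (phi ρ π '' ((⊤ : Subgroup G) : Set G))).topologicalClosure :=
    sub_mem (one_mem _) hz
  obtain ⟨ε, h1, h2⟩ := p7_lift hR (⊤ : Subgroup G) (fun r => le_top) (1 - z) hp
    (by rw [Prod.snd_sub, hz2, sub_zero, Prod.snd_one])
    (fun x hx => (es_idl_mul _ _ _ (es_idl_mul _ _ x hx _ hpc).1 _ hpc).2)
  have h3 := es_count (p7_op (1 - z).1) (by rw [← p7_op_mul, ← Prod.fst_mul, hp])
    (fun i => p7_op (ε i).1) (fun i j => by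
      rw [← p7_op_mul, ← Prod.fst_mul, h2 i j]
      split_ifs
      · rfl
      · exact p7_op_zero) (fun i h => (h1 i).2.2.1 (p7_op_inj (h.trans p7_op_zero.symm)))
    (fun i => ⟨by rw [← p7_op_mul, ← Prod.fst_mul, (h1 i).2.2.2.1],
      by rw [← p7_op_mul, ← Prod.fst_mul, (h1 i).2.2.2.2]⟩)
  have h4 : Fintype.card (Σ r : R, Fin (m r - 2)) = N := by
    rw [Fintype.card_sigma, hR.dim]
    exact Finset.sum_congr rfl fun r _ => Fintype.card_fin _
  rw [h4] at h3
  -- the kernel of `1 - z.1` contains the range of `z.1`, so it is everything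
  have h5 := LinearMap.finrank_range_add_finrank_ker (p7_op (1 - z).1)
  rw [Module.finrank_fin_fun] at h5
  have h6 : finrank ℚ_[2] (LinearMap.ker (p7_op (1 - z).1)) = 0 := by
    have := h3.1
    omega
  have h7 : LinearMap.ker (p7_op (1 - z).1) = ⊥ := Submodule.finrank_eq_zero.1 h6
  have h8 : p7_op (1 - z).1 * p7_op z.1 = 0 := by
    rw [← p7_op_mul, ← Prod.fst_mul, sub_mul, one_mul, hzz, sub_self, Prod.fst_zero, p7_op_zero]
  have h9 : p7_op z.1 = 0 := by
    ext1 i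
    apply LinearMap.ext
    intro a
    have h10 : (LinearMap.single ℚ_[2] (fun _ => ℚ_[2]) i a : Fin N → ℚ_[2]) ∈
        LinearMap.ker (p7_op (1 - z).1 * p7_op z.1) := by
      rw [h8]
      trivial
    have h11 : p7_op z.1 (LinearMap.single ℚ_[2] (fun _ => ℚ_[2]) i a) ∈
        LinearMap.ker (p7_op (1 - z).1) := h10
    rw [h7] at h11
    exact h11
  have h10 : z.1 = 0 := p7_op_inj (h9.trans p7_op_zero.symm)
  exact hne (Prod.ext h10 hz2)

/-- `0` is a limit of powers of `ρ(x) - 1`, so some power is zero modulo two -/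
theorem p12_nil (hR : Res m N ρ π S) (x : G) (hx : ∀ r, π r x = 1) :
    ∃ n : ℕ, ((ρ x - 1).map PadicInt.toZMod) ^ (n + 1) = 0 := by
  have hc1 : CompactSpace (Matrix (Fin N) (Fin N) ℤ_[2]) :=
    inferInstanceAs (CompactSpace (Fin N → Fin N → ℤ_[2]))
  have hc2 : ∀ r, CompactSpace (Matrix (Fin (m r)) (Fin (m r)) (ZMod 2)) := fun r =>
    inferInstanceAs (CompactSpace (Fin (m r) → Fin (m r) → ZMod 2))
  set y : Rg m N := phi ρ π x - 1 with hy
  have hy2 : y.2 = 0 := by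
    rw [hy, Prod.snd_sub, Prod.snd_one]
    funext r
    show pm (π r x) - 1 = 0
    rw [hx r, p12_pm_one, sub_self]
  set T : Set (Rg m N) := closure (Set.range fun n : ℕ => y ^ (n + 1)) with hT
  have hTc : IsCompact T := isClosed_closure.isCompact
  have hTn : T.Nonempty := ⟨y ^ (0 + 1), subset_closure ⟨0, rfl⟩⟩
  have hTm : ∀ a ∈ T, ∀ b ∈ T, a * b ∈ T := by
    intro a ha b hb
    have h1 : (a, b) ∈ closure ((Set.range fun n : ℕ => y ^ (n + 1)) ×ˢ
        (Set.range fun n : ℕ => y ^ (n + 1))) := by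
      rw [closure_prod_eq]
      exact ⟨ha, hb⟩
    refine map_mem_closure (f := fun p : Rg m N × Rg m N => p.1 * p.2) continuous_mul h1 ?_
    rintro ⟨a, b⟩ ⟨⟨i, rfl⟩, ⟨j, rfl⟩⟩
    exact ⟨i + j + 1, by simp only; rw [← pow_add]; congr 1; ring⟩
  obtain ⟨z, hzT, hzz⟩ := exists_idempotent_in_compact_subsemigroup
    (fun r => (continuous_mul_const r)) T hTn hTc hTm
  have hz0 : z = 0 := by
    refine p12_idem hR z ?_ hzz ?_
    · refine closure_minimal ?_ (Subring.isClosed_topologicalClosure _) hzT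
      rintro _ ⟨n, rfl⟩
      refine Subring.le_topologicalClosure _ (pow_mem (sub_mem ?_ (one_mem _)) _)
      exact Subring.subset_closure ⟨x, trivial, rfl⟩
    · have h1 : IsClosed {w : Rg m N | w.2 = 0} := isClosed_eq continuous_snd continuous_const
      refine closure_minimal ?_ h1 hzT
      rintro _ ⟨n, rfl⟩
      show (y ^ (n + 1)).2 = 0
      rw [Prod.pow_snd, hy2, zero_pow (Nat.succ_ne_zero n)]
  rw [hz0] at hzT
  -- the set of the elements which vanish modulo two is open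
  have hopen : IsOpen {w : Rg m N | ∀ i j, ‖w.1 i j‖ < 1} := by
    simp only [Set.ofPred_forall]
    refine isOpen_iInter_of_finite fun i => isOpen_iInter_of_finite fun j => ?_
    exact isOpen_lt (continuous_norm.comp (continuous_fst.matrix_elem i j)) continuous_const
  obtain ⟨w, hw1, n, hw2⟩ := mem_closure_iff.1 hzT _ hopen (by
    intro i j
    show ‖(0 : ℤ_[2])‖ < 1
    rw [norm_zero]
    exact one_pos)
  refine ⟨n, ?_⟩
  have h3 : ((ρ x - 1).map PadicInt.toZMod) ^ (n + 1) = ((ρ x - 1) ^ (n + 1)).map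
      PadicInt.toZMod := by
    exact (map_pow (PadicInt.toZMod (p := 2)).mapMatrix (ρ x - 1) (n + 1)).symm
  rw [h3]
  ext i j
  rw [Matrix.map_apply, Matrix.zero_apply]
  have h4 : w.1 = (ρ x - 1) ^ (n + 1) := by
    rw [← hw2]
    rfl
  have h5 : ‖((ρ x - 1) ^ (n + 1)) i j‖ < 1 := by
    rw [← h4]
    exact hw1 i j
  have h6 : ((ρ x - 1) ^ (n + 1)) i j ∈ RingHom.ker (PadicInt.toZMod (p := 2)) := by
    rw [PadicInt.ker_toZMod]
    exact (IsLocalRing.mem_maximalIdeal _).2 (PadicInt.mem_nonunits.2 h5)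
  exact h6

theorem p12_two {M : Matrix (Fin N) (Fin N) ℤ_[2]} (h : M.map PadicInt.toZMod = 0) :
    ∃ z : Matrix (Fin N) (Fin N) ℤ_[2], M = (2 : ℤ_[2]) • z := by
  have h1 : ∀ i j, ∃ a : ℤ_[2], M i j = 2 * a := by
    intro i j
    have h2 : M i j ∈ RingHom.ker (PadicInt.toZMod (p := 2)) := congrFun (congrFun h i) j
    rw [PadicInt.ker_toZMod, PadicInt.maximalIdeal_eq_span_p,
      Ideal.mem_span_singleton] at h2
    obtain ⟨a, ha⟩ := h2
    exact ⟨a, by rw [ha]; norm_num⟩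
  choose a ha using h1
  exact ⟨Matrix.of a, by
    ext i j
    rw [Matrix.smul_apply, Matrix.of_apply, smul_eq_mul, ha]⟩

theorem p12_sq (z : Matrix (Fin N) (Fin N) ℤ_[2]) (M : Matrix (Fin N) (Fin N) ℤ_[2])
    (hM : M = 1 + (2 : ℤ_[2]) • z) (j : ℕ) :
    ∃ w : Matrix (Fin N) (Fin N) ℤ_[2], M ^ 2 ^ j = 1 + ((2 : ℤ_[2]) ^ (j + 1)) • w := by
  induction j with
  | zero => exact ⟨z, by rw [pow_zero, pow_one, zero_add, pow_one, hM]⟩
  | succ j ih =>
    obtain ⟨w, hw⟩ := ih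
    refine ⟨w + ((2 : ℤ_[2]) ^ j) • (w * w), ?_⟩
    rw [pow_succ, pow_mul, hw, sq, add_mul, mul_add, mul_add, one_mul, mul_one, one_mul,
      smul_mul_assoc, mul_smul_comm, smul_smul, smul_add, smul_smul]
    have h1 : (2 : ℤ_[2]) ^ (j + 1 + 1) * 2 ^ j = 2 ^ (j + 1) * 2 ^ (j + 1) := by ring
    have h2 : (2 : ℤ_[2]) ^ (j + 1 + 1) • w = (2 : ℤ_[2]) ^ (j + 1) • w +
        (2 : ℤ_[2]) ^ (j + 1) • w := by
      rw [← add_smul]
      congr 1
      ring
    rw [h1, h2]
    abel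

theorem es_pro2 (hR : Res m N ρ π S) (x : G) (hx : ∀ r, π r x = 1) :
    Tendsto (fun j : ℕ => ρ x ^ 2 ^ j) atTop (𝓝 1) := by
  obtain ⟨n, hn⟩ := p12_nil hR x hx
  -- some power is one modulo two
  obtain ⟨k, hk⟩ : ∃ k : ℕ, n + 1 ≤ 2 ^ k := ⟨n + 1, (Nat.lt_two_pow_self).le⟩
  have h1 : ((ρ x) ^ 2 ^ k - 1).map (PadicInt.toZMod (p := 2)) = 0 := by
    have h2 : ((ρ x) ^ 2 ^ k - 1).map (PadicInt.toZMod (p := 2)) =
        ((ρ x).map PadicInt.toZMod) ^ 2 ^ k - 1 := by
      have h3 := map_sub (PadicInt.toZMod (p := 2)).mapMatrix ((ρ x) ^ 2 ^ k)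
        (1 : Matrix (Fin N) (Fin N) ℤ_[2])
      rw [map_pow, map_one] at h3
      exact h3
    have h4 : (ρ x).map (PadicInt.toZMod (p := 2)) = (ρ x - 1).map PadicInt.toZMod + 1 := by
      have h3 := map_sub (PadicInt.toZMod (p := 2)).mapMatrix (ρ x)
        (1 : Matrix (Fin N) (Fin N) ℤ_[2])
      rw [map_one] at h3
      have h5 : (ρ x - 1).map (PadicInt.toZMod (p := 2)) = (ρ x).map PadicInt.toZMod - 1 := h3
      rw [h5, sub_add_cancel]
    rw [h2, h4]
    rcases isEmpty_or_nonempty (Fin N) with hN | hN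
    · exact Subsingleton.elim _ _
    · have : CharP (Matrix (Fin N) (Fin N) (ZMod 2)) 2 := inferInstance
      rw [add_pow_char_pow_of_commute _ _ (Commute.one_right _), one_pow,
        pow_eq_zero_of_le hk hn, zero_add, sub_self]
  obtain ⟨z, hz⟩ := p12_two h1
  have hz' : (ρ x) ^ 2 ^ k = 1 + (2 : ℤ_[2]) • z := by rw [← hz]; abel
  have h3 : ∀ j : ℕ, ∃ w : Matrix (Fin N) (Fin N) ℤ_[2],
      ρ x ^ 2 ^ (j + k) = 1 + ((2 : ℤ_[2]) ^ (j + 1)) • w := by
    intro j
    obtain ⟨w, hw⟩ := p12_sq z _ hz' j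
    refine ⟨w, ?_⟩
    rw [← hw, ← pow_mul, ← pow_add, add_comm]
  choose w hw using h3
  rw [← tendsto_add_atTop_iff_nat k]
  refine tendsto_pi_nhds.2 fun i => tendsto_pi_nhds.2 fun j => ?_
  rw [tendsto_iff_norm_sub_tendsto_zero]
  have h4 : Tendsto (fun a : ℕ => (1 / 2 : ℝ) ^ (a + 1)) atTop (𝓝 0) :=
    (tendsto_add_atTop_iff_nat 1).2
      (tendsto_pow_atTop_nhds_zero_of_lt_one (by norm_num) (by norm_num))
  refine squeeze_zero (fun a => norm_nonneg _) (fun a => ?_) h4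
  rw [hw a, Matrix.add_apply, add_sub_cancel_left, Matrix.smul_apply, smul_eq_mul, norm_mul,
    norm_pow]
  have h5 : ‖(2 : ℤ_[2])‖ = 1 / 2 := by
    have := PadicInt.norm_p (p := 2)
    rw [Nat.cast_ofNat] at this
    rw [this]
    norm_num
  rw [h5]
  exact mul_le_of_le_one_right (by positivity) (PadicInt.norm_le_one _)

end

end Pool.Agent.ES
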