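import Pool.Agent.Lib_helper55.ESF.Defs

-- block P13 of the strong form of EllipticSurfaces, by helper36

/-!
# Block P13: elements of order three over the 3-cycles
-/

set_option autoImplicit false

namespace Pool.Agent.ES

open Equiv Module Filter Topology

section

variable {G R : Type*} [Group G] [Fintype R] {m : R → ℕ} {N : ℕ}
  {ρ : G →* Matrix (Fin N) (Fin N) ℤ_[2]} {π : ∀ r, G →* Perm (Fin (m r))} {S : R → Set G}

/-- ES9: elements of order three over the `3`-cycles. -/
theorem es_order3 [TopologicalSpace G] [IsTopologicalGroup G] [CompactSpace G]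
    (hρ : Continuous ρ) (hπ : ∀ r, IsOpen ((π r).ker : Set G))
    (h : ∀ x, (∀ r, π r x = 1) → Tendsto (fun j : ℕ => ρ x ^ 2 ^ j) atTop (𝓝 1)) (g : G)
    (hg : ∀ r, π r g ^ 3 = 1) : ∃ s, ρ s ^ 3 = 1 ∧ ∀ r, π r s = π r g := by
  classical
  let F : Ultrafilter ℕ := Ultrafilter.of atTop
  have hF : (F : Filter ℕ) ≤ atTop := Ultrafilter.of_le atTop
  let x : ℕ → G := fun j => g ^ 4 ^ j
  obtain ⟨s, -, hs⟩ := isCompact_univ.ultrafilter_le_nhds (F.map x) (by simp)
  have hs' : Tendsto x F (𝓝 s) := hs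
  refine ⟨s, ?_, ?_⟩
  · have h1 : Tendsto (fun j => ρ (x j) ^ 3) F (𝓝 (ρ s ^ 3)) :=
      ((hρ.tendsto s).comp hs').pow 3
    have h2 : Tendsto (fun j : ℕ => ρ (g ^ 3) ^ 2 ^ j) atTop (𝓝 1) := by
      apply h
      intro r
      rw [map_pow]
      exact hg r
    have h3 : Tendsto (fun j : ℕ => 2 * j) atTop atTop :=
      tendsto_id.const_mul_atTop' (by norm_num)
    have h4 : Tendsto (fun j => ρ (x j) ^ 3) F (𝓝 1) := by
      have h5 := (h2.comp h3).mono_left hF
      refine h5.congr fun j => ?_
      simp only [Function.comp, x]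
      rw [← map_pow, ← map_pow, ← pow_mul, ← pow_mul, pow_mul 2 2 j]
      norm_num
      ring_nf
    exact tendsto_nhds_unique h1 h4
  · intro r
    have h1 : IsOpen {y : G | π r y = π r s} := by
      have h2 : {y : G | π r y = π r s} = (fun y => s⁻¹ * y) ⁻¹' ((π r).ker : Set G) := by
        ext y
        simp only [Set.mem_setOf_eq, Set.mem_preimage, SetLike.mem_coe, MonoidHom.mem_ker, map_mul,
          map_inv]
        constructor
        · intro h3
          rw [h3, inv_mul_cancel]
        · intro h3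
          exact (inv_mul_eq_one.mp h3).symm
      rw [h2]
      exact (hπ r).preimage (continuous_const.mul continuous_id)
    have h2 : ∀ᶠ j in (F : Filter ℕ), x j ∈ {y : G | π r y = π r s} :=
      hs'.eventually (h1.mem_nhds rfl)
    obtain ⟨j, hj⟩ := h2.exists
    simp only [Set.mem_setOf_eq, x, map_pow] at hj
    rw [← hj]
    have h3 : 4 ^ j % 3 = 1 := by
      rw [Nat.pow_mod]
      norm_num
    rw [← Nat.div_add_mod (4 ^ j) 3, h3, pow_add, pow_mul, hg r, one_pow, one_mul, pow_one]

end

end Pool.Agent.ES
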