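import Pool.Agent.Lib_helper55.ESF.Q1

-- block Q2 of the strong form of EllipticSurfaces, by helper15

/-! ES, block Q2: normal `2`-subgroups. -/

set_option autoImplicit false

namespace Pool.Agent.ES

open Equiv Module Filter Topology

section

variable {E V G : Type*} [Field E] [IsAlgClosed E] [CharZero E] [AddCommGroup V] [Module E V]
  [FiniteDimensional E V] [Group G] {b : LinearMap.BilinForm E V} {ρ : G →* Module.End E V}
  {T : Set G}

theorem q2_inv (ρ : G →* Module.End E V) (g : G) : ρ g * ρ g⁻¹ = 1 ∧ ρ g⁻¹ * ρ g = 1 := by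
  constructor
  · rw [← map_mul, mul_inv_cancel, map_one]
  · rw [← map_mul, inv_mul_cancel, map_one]

/-- the operator of a group element as an equivalence -/
noncomputable def q2_eq (ρ : G →* Module.End E V) (g : G) : V ≃ₗ[E] V :=
  LinearEquiv.ofLinearMap (ρ g) (ρ g⁻¹) (q2_inv ρ g).1 (q2_inv ρ g).2

/-- the group elements that act by scalars -/
def q2_Z (ρ : G →* Module.End E V) : Subgroup G where
  carrier := {g | ∃ c : E, ρ g = c • 1}
  mul_mem' := by
    rintro x y ⟨c, hc⟩ ⟨d, hd⟩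
    refine ⟨c * d, ?_⟩
    rw [map_mul, hc, hd, smul_mul_smul_comm, one_mul]
  one_mem' := ⟨1, by rw [map_one, one_smul]⟩
  inv_mem' := by
    rintro x ⟨c, hc⟩
    refine ⟨c⁻¹, ?_⟩
    by_cases h0 : c = 0
    · have h1 := (q2_inv ρ x).1
      rw [hc, h0, zero_smul, zero_mul] at h1
      have h2 : ∀ f : Module.End E V, f = 0 := fun f => by rw [← one_mul f, ← h1, zero_mul]
      rw [h2 (ρ x⁻¹), h2 (c⁻¹ • (1 : Module.End E V))]
    · have h1 := (q2_inv ρ x).1
      rw [hc, smul_mul_assoc, one_mul] at h1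
      rw [← h1, smul_smul, inv_mul_cancel₀ h0, one_smul]

instance q2_Zn (ρ : G →* Module.End E V) : (q2_Z ρ).Normal := by
  refine ⟨?_⟩
  rintro n ⟨c, hc⟩ g
  refine ⟨c, ?_⟩
  rw [map_mul, map_mul, hc, mul_smul_comm, mul_one, smul_mul_assoc, (q2_inv ρ g).1]

theorem q2_mem {x : G} : x ∈ q2_Z ρ ↔ ∃ c : E, ρ x = c • 1 := Iff.rfl

/-- a central element of order two modulo the scalars -/
theorem q2_central (P : Subgroup G)
    (hP : ∀ x ∈ P, ∃ k : ℕ, ρ x ^ 2 ^ k = 1) (hfin : (ρ '' (P : Set G)).Finite)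
    (hns : ∃ x ∈ P, ∀ c : E, ρ x ≠ c • 1) :
    ∃ x ∈ P, (∀ c : E, ρ x ≠ c • 1) ∧
      (QuotientGroup.mk' (q2_Z ρ) x) * (QuotientGroup.mk' (q2_Z ρ) x) = 1 ∧
      ∀ q ∈ P, Commute (QuotientGroup.mk' (q2_Z ρ) x) (QuotientGroup.mk' (q2_Z ρ) q) := by
  classical
  set π := QuotientGroup.mk' (q2_Z ρ) with hπ
  have hker : ∀ x : G, π x = 1 ↔ ∃ c : E, ρ x = c • 1 := by
    intro x
    rw [hπ, QuotientGroup.mk'_apply, QuotientGroup.eq_one_iff]
    rfl
  set Q := P.map π with hQ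
  have hQfin : (Q : Set (G ⧸ q2_Z ρ)).Finite := by
    set φ : Module.End E V → G ⧸ q2_Z ρ := fun f => if h : ∃ x ∈ P, ρ x = f then π h.choose else 1
      with hφ
    refine (hfin.image φ).subset ?_
    rintro _ ⟨x, hx, rfl⟩
    refine ⟨ρ x, ⟨x, hx, rfl⟩, ?_⟩
    have h : ∃ y ∈ P, ρ y = ρ x := ⟨x, hx, rfl⟩
    rw [hφ]
    simp only
    rw [dif_pos h]
    have h1 := h.choose_spec.2
    have h2 : π ((h.choose)⁻¹ * x) = 1 := by
      rw [hker]
      refine ⟨1, ?_⟩
      have h4 := (q2_inv ρ h.choose).2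
      rw [h1] at h4
      rw [map_mul, one_smul]
      exact h4
    rw [map_mul, map_inv, inv_mul_eq_one] at h2
    exact h2
  have hF : Finite Q := hQfin
  have hpg : IsPGroup 2 Q := by
    rintro ⟨_, x, hx, rfl⟩
    obtain ⟨k, hk⟩ := hP x hx
    refine ⟨k, Subtype.ext ?_⟩
    show (π x) ^ 2 ^ k = 1
    rw [← map_pow, hker]
    exact ⟨1, by rw [map_pow, hk, one_smul]⟩
  have hnt : Nontrivial Q := by
    obtain ⟨x, hx, hc⟩ := hns
    refine ⟨⟨⟨π x, x, hx, rfl⟩, 1, ?_⟩⟩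
    intro h
    have h2 : π x = 1 := congrArg Subtype.val h
    obtain ⟨c, h3⟩ := (hker x).1 h2
    exact hc c h3
  have hcn : Nontrivial (Subgroup.center Q) := hpg.center_nontrivial
  obtain ⟨z, hz⟩ := exists_ne (1 : Subgroup.center Q)
  have hzk : ∃ k : ℕ, z ^ 2 ^ k = 1 := by
    obtain ⟨k, hk⟩ := hpg (z : Q)
    refine ⟨k, Subtype.ext ?_⟩
    simpa using hk
  have hk := Nat.find_spec hzk
  have hmin := @Nat.find_min _ _ hzk
  set k := Nat.find hzk with hkd
  have hk0 : k ≠ 0 := by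
    intro h0
    rw [h0] at hk
    simp at hk
    exact hz hk
  obtain ⟨j, hj⟩ := Nat.exists_eq_succ_of_ne_zero hk0
  have hj1 : z ^ 2 ^ j ≠ 1 := hmin (by omega)
  have hj2 : z ^ 2 ^ j * z ^ 2 ^ j = 1 := by
    rw [← sq, ← pow_mul, ← pow_succ, ← Nat.succ_eq_add_one, ← hj]
    exact hk
  set w := z ^ 2 ^ j with hw
  obtain ⟨x, hx, hxw⟩ := (w : Q).2
  refine ⟨x, hx, ?_, ?_, ?_⟩
  · intro c hc
    apply hj1
    refine Subtype.ext (Subtype.ext ?_)
    show ((w : Q) : G ⧸ q2_Z ρ) = 1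
    rw [← hxw]
    exact (hker x).2 ⟨c, hc⟩
  · rw [hxw]
    have := congrArg (fun t : Subgroup.center Q => ((t : Q) : G ⧸ q2_Z ρ)) hj2
    exact this
  · intro q hq
    rw [hxw]
    have h1 := (Subgroup.mem_center_iff.1 w.2) ⟨π q, q, hq, rfl⟩
    have h2 := congrArg (fun t : Q => (t : G ⧸ q2_Z ρ)) h1
    exact h2.symm

/-- an element that commutes with all `ρ s` is a scalar -/
theorem q2_schur (C : Grp b ρ T) (hdim : 5 ≤ finrank E V) (f : Module.End E V)
    (hf : ∀ s ∈ T, ρ s * f = f * ρ s) : ∃ c : E, f = c • 1 := by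
  have hnt : Nontrivial V := Module.nontrivial_of_finrank_pos (R := E) (by omega)
  obtain ⟨c, hc⟩ := Module.End.exists_eigenvalue f
  refine ⟨c, ?_⟩
  have h1 : Module.End.eigenspace f c ≠ ⊥ := hc
  have h2 := C.irr (Module.End.eigenspace f c) (by
    intro s hs u hu
    rw [Module.End.mem_eigenspace_iff] at hu ⊢
    have := congrArg (fun g : Module.End E V => g u) (hf s hs)
    simp only [Module.End.mul_apply] at this
    rw [← this, hu, map_smul])
  rcases h2 with h2 | h2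
  · exact absurd h2 h1
  · refine LinearMap.ext fun v => ?_
    have hv : v ∈ Module.End.eigenspace f c := by rw [h2]; trivial
    rw [Module.End.mem_eigenspace_iff] at hv
    rw [hv]
    rfl

/-- the rank of a conjugate of the inverse -/
theorem q2_rank (s g : G) :
    finrank E (LinearMap.range (ρ (g * s⁻¹ * g⁻¹) - 1)) =
      finrank E (LinearMap.range (ρ s - 1)) := by
  have h1 : ρ (g * s⁻¹ * g⁻¹) - 1 = (-(ρ (g * s⁻¹))) * ((ρ s - 1) * ρ g⁻¹) := by
    rw [map_mul, map_mul]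
    have e1 := (q2_inv ρ s).2
    have e2 := (q2_inv ρ g).1
    have : (-(ρ g * ρ s⁻¹)) * ((ρ s - 1) * ρ g⁻¹) =
        ρ g * ρ s⁻¹ * ρ g⁻¹ - ρ g * (ρ s⁻¹ * ρ s) * ρ g⁻¹ := by
      noncomm_ring
    rw [this, e1, mul_one, e2]
  have h2 : LinearMap.range (ρ (g * s⁻¹ * g⁻¹) - 1) =
      (LinearMap.range (ρ s - 1)).map (q2_eq ρ (g * s⁻¹) : V →ₗ[E] V) := by
    rw [h1]
    ext v
    constructor
    · rintro ⟨x, rfl⟩
      refine ⟨-(ρ s - 1) (ρ g⁻¹ x), Submodule.neg_mem _ ⟨_, rfl⟩, ?_⟩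
      show ρ (g * s⁻¹) (-(ρ s - 1) (ρ g⁻¹ x)) = _
      simp only [Module.End.mul_apply, LinearMap.neg_apply, map_neg]
    · rintro ⟨_, ⟨x, rfl⟩, rfl⟩
      refine ⟨-(ρ g x), ?_⟩
      show _ = ρ (g * s⁻¹) ((ρ s - 1) x)
      have e2 : ρ g⁻¹ (ρ g x) = x := by
        have := congrArg (fun f : Module.End E V => f x) (q2_inv ρ g).2
        exact this
      simp only [Module.End.mul_apply, LinearMap.neg_apply, map_neg, e2, neg_neg]
  rw [h2]
  exact LinearEquiv.finrank_map_eq _ _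

/-- ES14: a normal `2`-subgroup acts by scalars, or contains a commutative one that does not. -/
theorem es_two (C : Grp b ρ T) (hdim : 5 ≤ finrank E V) (P : Subgroup G) (hPn : P.Normal)
    (hP : ∀ x ∈ P, ∃ k : ℕ, ρ x ^ 2 ^ k = 1) (hfin : (ρ '' (P : Set G)).Finite) :
    (∀ x ∈ P, ∃ c : E, ρ x = c • 1) ∨ ∃ A : Subgroup G, A.Normal ∧ A ≤ P ∧
      (∀ x ∈ A, ∀ y ∈ A, ρ x * ρ y = ρ y * ρ x) ∧ ∃ x ∈ A, ∀ c : E, ρ x ≠ c • 1 := by
  by_cases hns : ∃ x ∈ P, ∀ c : E, ρ x ≠ c • 1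
  swap
  · left
    push Not at hns
    exact hns
  right
  obtain ⟨x, hxP, hxn, hx2, hxc⟩ := q2_central P hP hfin hns
  set π := QuotientGroup.mk' (q2_Z ρ) with hπ
  have hker : ∀ x : G, π x = 1 ↔ ∃ c : E, ρ x = c • 1 := by
    intro x
    rw [hπ, QuotientGroup.mk'_apply, QuotientGroup.eq_one_iff]
    rfl
  -- an element of `T` that does not commute with `x`
  have h1 : ∃ s ∈ T, ρ s * ρ x ≠ ρ x * ρ s := by
    by_contra hcon
    push Not at hcon
    obtain ⟨c, hc⟩ := q2_schur C hdim (ρ x) hcon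
    exact hxn c hc
  obtain ⟨s, hsT, hsx⟩ := h1
  set y := s * x * s⁻¹ with hy
  have hyP : y ∈ P := hPn.conj_mem x hxP s
  have hyc : ∀ q ∈ P, Commute (π y) (π q) := by
    intro q hq
    have h2 : s⁻¹ * q * s ∈ P := by
      have := hPn.conj_mem q hq s⁻¹
      rwa [inv_inv] at this
    have h3 := hxc _ h2
    have e1 : π y = π s * π x * (π s)⁻¹ := by rw [hy, map_mul, map_mul, map_inv]
    have e2 : π q = π s * π (s⁻¹ * q * s) * (π s)⁻¹ := by
      rw [map_mul, map_mul, map_inv]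
      group
    rw [e1, e2]
    unfold Commute SemiconjBy at h3 ⊢
    calc π s * π x * (π s)⁻¹ * (π s * π (s⁻¹ * q * s) * (π s)⁻¹)
        = π s * (π x * π (s⁻¹ * q * s)) * (π s)⁻¹ := by group
      _ = π s * (π (s⁻¹ * q * s) * π x) * (π s)⁻¹ := by rw [h3]
      _ = _ := by group
  have hy2 : π y * π y = 1 := by
    have e1 : π y = π s * π x * (π s)⁻¹ := by rw [hy, map_mul, map_mul, map_inv]
    rw [e1]
    calc π s * π x * (π s)⁻¹ * (π s * π x * (π s)⁻¹) = π s * (π x * π x) * (π s)⁻¹ := by group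
      _ = 1 := by rw [hx2]; group
  set u := y * x⁻¹ with hu
  have huP : u ∈ P := P.mul_mem hyP (P.inv_mem hxP)
  have huc : ∀ q ∈ P, Commute (π u) (π q) := by
    intro q hq
    rw [hu, map_mul, map_inv]
    exact (hyc q hq).mul_left (hxc q hq).inv_left
  have hu2 : π u * π u = 1 := by
    have h3 : Commute (π y) (π x)⁻¹ := (hyc x hxP).inv_right
    rw [hu, map_mul, map_inv]
    calc π y * (π x)⁻¹ * (π y * (π x)⁻¹) = π y * ((π x)⁻¹ * π y) * (π x)⁻¹ := by group
      _ = π y * (π y * (π x)⁻¹) * (π x)⁻¹ := by rw [h3.eq]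
      _ = (π y * π y) * (π x * π x)⁻¹ := by group
      _ = 1 := by rw [hy2, hx2]; group
  -- the two operators of order three
  set t := x * s⁻¹ * x⁻¹ with ht
  have hust : u = s * t := by
    rw [hu, hy, ht]
    group
  have hρu : ρ u = ρ s * ρ t := by rw [hust, map_mul]
  have h3s : ρ s ^ 3 = 1 := C.cube s hsT
  have h3t : ρ t ^ 3 = 1 := by
    have e1 : t ^ 3 = x * (s ^ 3)⁻¹ * x⁻¹ := by
      rw [ht, conj_pow, inv_pow]
    have e2 : ρ (s ^ 3)⁻¹ = 1 := by
      have := (q2_inv ρ (s ^ 3)).1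
      rwa [map_pow, h3s, one_mul] at this
    rw [← map_pow, e1, map_mul, map_mul, e2, mul_one, (q2_inv ρ x).1]
  have hrs := C.rank s hsT
  have hrt : finrank E (LinearMap.range (ρ t - 1)) = 2 := by
    rw [ht, q2_rank, hrs]
  have hne : ρ u ≠ 1 := by
    intro h1
    apply hsx
    have e1 : s * x = u * (x * s) := by
      rw [hu, hy]
      group
    rw [← map_mul, e1, map_mul, h1, one_mul, map_mul]
  have hle : LinearMap.range (ρ u - 1) ≤
      LinearMap.range (ρ s - 1) ⊔ LinearMap.range (ρ t - 1) := by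
    rintro _ ⟨v, rfl⟩
    have e1 : (ρ u - 1) v = (ρ s - 1) ((ρ t - 1) v + v) + (ρ t - 1) v := by
      rw [hρu]
      simp only [LinearMap.sub_apply, Module.End.one_apply, Module.End.mul_apply, map_add, map_sub]
      abel
    rw [e1]
    exact Submodule.add_mem_sup ⟨_, rfl⟩ ⟨_, rfl⟩
  have hdimsum := Submodule.finrank_sup_add_finrank_inf_eq (LinearMap.range (ρ s - 1))
    (LinearMap.range (ρ t - 1))
  have hfle := Submodule.finrank_mono hle
  rw [hrs, hrt] at hdimsum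
  -- the square is one
  obtain ⟨c, hc⟩ : ∃ c : E, ρ (u * u) = c • 1 := by
    rw [← hker, map_mul]
    exact hu2
  have hker2 : ∃ v : V, v ≠ 0 ∧ ρ u v = v := by
    have h5 := LinearMap.finrank_range_add_finrank_ker (ρ u - 1)
    have h6 : 0 < finrank E (LinearMap.ker (ρ u - 1)) := by omega
    obtain ⟨⟨v, hv⟩, hv0⟩ := (Module.finrank_pos_iff_exists_ne_zero (R := E)).1 h6
    refine ⟨v, fun h0 => hv0 (Subtype.ext h0), ?_⟩
    rw [LinearMap.mem_ker, LinearMap.sub_apply, Module.End.one_apply] at hv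
    exact sub_eq_zero.1 hv
  obtain ⟨v, hv0, hv⟩ := hker2
  have hc1 : c = 1 := by
    have e1 : ρ (u * u) v = v := by
      rw [map_mul, Module.End.mul_apply, hv, hv]
    rw [hc, LinearMap.smul_apply, Module.End.one_apply] at e1
    have e2 : (c - 1) • v = 0 := by rw [sub_smul, one_smul, e1, sub_self]
    rcases smul_eq_zero.1 e2 with h | h
    · exact sub_eq_zero.1 h
    · exact absurd h hv0
  have hsq : (ρ s * ρ t) ^ 2 = 1 := by
    rw [← hρu, sq, ← map_mul, hc, hc1, one_smul]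
  have hz := es_z b C.symm C.nondeg (ρ s) (ρ t) (C.orth s) (C.orth t) h3s h3t hrs hrt hsq
  have hz2 : 0 < finrank E (LinearMap.range (ρ s - 1) ⊓ LinearMap.range (ρ t - 1) :
      Submodule E V) := by
    rw [Nat.pos_iff_ne_zero]
    intro h0
    exact hz (Submodule.finrank_eq_zero.1 h0)
  have hdet : LinearMap.det (ρ u) = 1 := by
    rw [hρu, map_mul, es_det b C.symm C.nondeg (ρ s) (C.orth s) h3s,
      es_det b C.symm C.nondeg (ρ t) (C.orth t) h3t, one_mul]
  have hu22 : ρ u ^ 2 = 1 := by rw [hρu, hsq]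
  obtain ⟨he, htr⟩ := es_even (ρ u) hu22 hdet
  have hrk0 : finrank E (LinearMap.range (ρ u - 1)) ≠ 0 := by
    intro h0
    rw [Submodule.finrank_eq_zero, LinearMap.range_eq_bot] at h0
    exact hne (sub_eq_zero.1 h0)
  have hrk : finrank E (LinearMap.range (ρ u - 1)) = 2 := by
    obtain ⟨j, hj⟩ := he
    omega
  have htr0 : LinearMap.trace E V (ρ u) ≠ 0 := by
    rw [htr, hrk]
    intro h0
    have e1 : ((finrank E V : ℕ) : E) = ((4 : ℕ) : E) := by
      push_cast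
      push_cast at h0
      linear_combination h0
    have e2 := Nat.cast_injective e1
    omega
  -- `ρ u` commutes with `ρ q`
  have hcomm : ∀ q ∈ P, ρ u * ρ q = ρ q * ρ u := by
    intro q hq
    have e1 : π (q * u * q⁻¹ * u⁻¹) = 1 := by
      have e2 := (huc q hq).eq
      rw [map_mul, map_mul, map_mul, map_inv, map_inv, ← e2]
      group
    obtain ⟨d, hd⟩ := (hker _).1 e1
    have e3 : ρ (q * u * q⁻¹) = d • ρ u := by
      have e4 : q * u * q⁻¹ = (q * u * q⁻¹ * u⁻¹) * u := by group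
      rw [e4, map_mul, hd, smul_mul_assoc, one_mul]
    have e5 : LinearMap.trace E V (ρ (q * u * q⁻¹)) = LinearMap.trace E V (ρ u) := by
      rw [map_mul ρ, map_mul ρ, LinearMap.trace_mul_comm, ← mul_assoc, (q2_inv ρ q).2, one_mul]
    rw [e3, map_smul, smul_eq_mul] at e5
    have e6 : d = 1 := by
      have e7 : d * LinearMap.trace E V (ρ u) = 1 * LinearMap.trace E V (ρ u) := by
        rw [e5, one_mul]
      exact mul_right_cancel₀ htr0 e7
    rw [e6, one_smul] at e3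
    have e8 : ρ (q * u) = ρ (q * u * q⁻¹) * ρ q := by
      rw [← map_mul]
      congr 1
      group
    rw [← map_mul ρ q u, e8, e3]
  refine ⟨{ carrier := {a | a ∈ P ∧ ∀ q ∈ P, ρ a * ρ q = ρ q * ρ a}
            mul_mem' := ?_, one_mem' := ?_, inv_mem' := ?_ }, ?_, ?_, ?_, u, ?_, ?_⟩
  · rintro a a' ⟨ha, ha'⟩ ⟨hb, hb'⟩
    refine ⟨P.mul_mem ha hb, fun q hq => ?_⟩
    rw [map_mul, mul_assoc, hb' q hq, ← mul_assoc, ha' q hq, mul_assoc]
  · exact ⟨P.one_mem, fun q _ => by rw [map_one, one_mul, mul_one]⟩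
  · rintro a ⟨ha, ha'⟩
    refine ⟨P.inv_mem ha, fun q hq => ?_⟩
    calc ρ a⁻¹ * ρ q = ρ a⁻¹ * (ρ q * ρ a) * ρ a⁻¹ := by
          rw [mul_assoc, mul_assoc, (q2_inv ρ a).1, mul_one]
      _ = ρ a⁻¹ * (ρ a * ρ q) * ρ a⁻¹ := by rw [ha' q hq]
      _ = ρ q * ρ a⁻¹ := by rw [← mul_assoc, (q2_inv ρ a).2, one_mul]
  · refine ⟨?_⟩
    rintro a ⟨ha, ha'⟩ g
    refine ⟨hPn.conj_mem a ha g, fun q hq => ?_⟩
    have h2 : g⁻¹ * q * g ∈ P := by
      have := hPn.conj_mem q hq g⁻¹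
      rwa [inv_inv] at this
    have h3 := ha' _ h2
    rw [← map_mul, ← map_mul] at h3 ⊢
    have e1 : g * a * g⁻¹ * q = g * (a * (g⁻¹ * q * g)) * g⁻¹ := by group
    have e2 : q * (g * a * g⁻¹) = g * ((g⁻¹ * q * g) * a) * g⁻¹ := by group
    rw [e1, e2, map_mul, map_mul, h3, ← map_mul, ← map_mul]
  · intro a ha
    exact ha.1
  · intro a ha a' ha'
    exact ha.2 a' ha'.1
  · exact ⟨huP, hcomm⟩
  · intro d hd
    have e1 : ρ u - 1 = (d - 1) • (1 : Module.End E V) := by rw [hd, sub_smul, one_smul]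
    rw [e1] at hrk
    by_cases h0 : d - 1 = 0
    · rw [h0, zero_smul, LinearMap.range_zero, finrank_bot] at hrk
      omega
    · rw [LinearMap.range_smul _ _ h0] at hrk
      have e2 : LinearMap.range (1 : Module.End E V) = ⊤ := LinearMap.range_id
      rw [e2, finrank_top] at hrk
      omega

end

end Pool.Agent.ES
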