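import Pool.Agent.Lib_helper55.ESF.Defs

-- block Q3 of the strong form of EllipticSurfaces, by helper88

/-!
# Block Q3: a commutative normal subgroup gives an orthonormal frame
-/

set_option autoImplicit false

namespace Pool.Agent.ES

open Equiv Module Filter Topology

section

variable {E V G : Type*} [Field E] [AddCommGroup V] [Module E V] [Group G]

/-- the joint eigenspace -/
def q3_W (ρ : G →* Module.End E V) (A : Subgroup G) (χ : A → E) : Submodule E V :=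
  ⨅ x : A, (ρ x).eigenspace (χ x)

theorem q3_mem {ρ : G →* Module.End E V} {A : Subgroup G} {χ : A → E} {v : V} :
    v ∈ q3_W ρ A χ ↔ ∀ x : A, ρ x v = χ x • v := by
  simp [q3_W]

theorem q3_ss [CharZero E] {f : Module.End E V} {k : ℕ} (hk : 0 < k) (h : f ^ k = 1) :
    f.IsSemisimple := by
  refine Module.End.isSemisimple_of_squarefree_aeval_eq_zero (p := Polynomial.X ^ k - 1) ?_ ?_
  · have h1 : (Polynomial.X ^ k - 1 : Polynomial E).Separable := by
      rw [Polynomial.X_pow_sub_one_separable_iff]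
      exact_mod_cast hk.ne'
    exact h1.squarefree
  · simp [h]

theorem q3_eq [IsAlgClosed E] [CharZero E] [FiniteDimensional E V] {ρ : G →* Module.End E V}
    {A : Subgroup G} (hfin : ∀ x ∈ A, ∃ k : ℕ, 0 < k ∧ ρ x ^ k = 1) (χ : A → E) :
    q3_W ρ A χ = ⨅ x : A, (ρ x).maxGenEigenspace (χ x) := by
  unfold q3_W
  congr 1
  funext x
  obtain ⟨k, hk, h⟩ := hfin x x.2
  rw [(q3_ss hk h).isFinitelySemisimple.maxGenEigenspace_eq_eigenspace]

theorem q3_top [IsAlgClosed E] [CharZero E] [FiniteDimensional E V] {ρ : G →* Module.End E V}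
    {A : Subgroup G} (hfin : ∀ x ∈ A, ∃ k : ℕ, 0 < k ∧ ρ x ^ k = 1)
    (hcomm : ∀ x ∈ A, ∀ y ∈ A, ρ x * ρ y = ρ y * ρ x) : ⨆ χ : A → E, q3_W ρ A χ = ⊤ := by
  have h := Module.End.iSup_iInf_maxGenEigenspace_eq_top_of_iSup_maxGenEigenspace_eq_top_of_commute
    (fun x : A => ρ x) (fun i j _ => hcomm i i.2 j j.2)
    (fun i => Module.End.iSup_maxGenEigenspace_eq_top (ρ i))
  rw [← h]
  congr 1
  funext χ
  rw [q3_eq hfin]

theorem q3_ind [IsAlgClosed E] [CharZero E] [FiniteDimensional E V] {ρ : G →* Module.End E V}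
    {A : Subgroup G} (hfin : ∀ x ∈ A, ∃ k : ℕ, 0 < k ∧ ρ x ^ k = 1)
    (hcomm : ∀ x ∈ A, ∀ y ∈ A, ρ x * ρ y = ρ y * ρ x) : iSupIndep (q3_W ρ A) := by
  have h := Module.End.independent_iInf_maxGenEigenspace_of_forall_mapsTo (fun x : A => ρ x)
    (fun i j φ => Module.End.mapsTo_maxGenEigenspace_of_comm (hcomm j j.2 i i.2) φ)
  have h2 : q3_W ρ A = fun χ : A → E => ⨅ i : A, (ρ i).maxGenEigenspace (χ i) := by
    funext χ
    rw [q3_eq hfin]
  rw [h2]
  exact h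

theorem q3_comp {ι : Type*} {p : ι → Submodule E V} (hp : iSupIndep p) {i : ι} {u r : V}
    (hu : u ∈ p i) (hr : r ∈ ⨆ j, ⨆ (_ : j ≠ i), p j) (h : u + r = 0) : u = 0 := by
  have h1 : u ∈ ⨆ j, ⨆ (_ : j ≠ i), p j := by
    rw [eq_neg_of_add_eq_zero_left h]
    exact Submodule.neg_mem _ hr
  have h2 := (hp i).le_bot ⟨hu, h1⟩
  simpa using h2

theorem q3_in {ι : Type*} {p : ι → Submodule E V} {i j : ι} {r : V} (hji : j ≠ i)
    (hr : r ∈ p j) : r ∈ ⨆ j, ⨆ (_ : j ≠ i), p j :=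
  Submodule.mem_iSup_of_mem j (Submodule.mem_iSup_of_mem hji hr)

/-- the action on the weights -/
def q3_act {A : Subgroup G} (hA : A.Normal) (g : G) (χ : A → E) : A → E :=
  fun x => χ ⟨g⁻¹ * x * g, by simpa using hA.conj_mem x x.2 g⁻¹⟩

theorem q3_act_mul {A : Subgroup G} (hA : A.Normal) (g h : G) (χ : A → E) :
    q3_act hA (g * h) χ = q3_act hA g (q3_act hA h χ) := by
  funext x
  unfold q3_act
  congr 1
  apply Subtype.ext
  simp [mul_assoc]

theorem q3_act_one {A : Subgroup G} (hA : A.Normal) (χ : A → E) : q3_act hA 1 χ = χ := by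
  funext x
  unfold q3_act
  congr 1
  apply Subtype.ext
  simp

theorem q3_act_inv {A : Subgroup G} (hA : A.Normal) (g : G) (χ : A → E) :
    q3_act hA g⁻¹ (q3_act hA g χ) = χ := by
  rw [← q3_act_mul, inv_mul_cancel, q3_act_one]

theorem q3_map {ρ : G →* Module.End E V} {A : Subgroup G} (hA : A.Normal) (g : G) {χ : A → E}
    {v : V} (hv : v ∈ q3_W ρ A χ) : ρ g v ∈ q3_W ρ A (q3_act hA g χ) := by
  rw [q3_mem] at hv ⊢
  intro x
  have h1 : ρ x (ρ g v) = ρ g (ρ (g⁻¹ * x * g) v) := by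
    rw [← Module.End.mul_apply, ← Module.End.mul_apply, ← map_mul, ← map_mul]
    congr 2
    group
  have h2 := hv ⟨g⁻¹ * x * g, by simpa using hA.conj_mem x x.2 g⁻¹⟩
  rw [h1, h2, map_smul]
  rfl

theorem q3_inj (ρ : G →* Module.End E V) (g : G) : Function.Injective (ρ g) := by
  have h : ∀ v, ρ g⁻¹ (ρ g v) = v := by
    intro v
    rw [← Module.End.mul_apply, ← map_mul, inv_mul_cancel, map_one]
    rfl
  intro v w hvw
  rw [← h v, ← h w, hvw]

theorem q3_uniq {ρ : G →* Module.End E V} {A : Subgroup G} {χ ψ : A → E} {v : V} (hv0 : v ≠ 0)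
    (h1 : v ∈ q3_W ρ A χ) (h2 : v ∈ q3_W ρ A ψ) : χ = ψ := by
  rw [q3_mem] at h1 h2
  funext x
  have h3 : χ x • v = ψ x • v := by rw [← h1 x, ← h2 x]
  exact smul_left_injective E hv0 h3

theorem q3_nbot {ρ : G →* Module.End E V} {A : Subgroup G} (hA : A.Normal) (g : G) {χ : A → E}
    (h : q3_W ρ A χ ≠ ⊥) : q3_W ρ A (q3_act hA g χ) ≠ ⊥ := by
  obtain ⟨v, hv, hv0⟩ := Submodule.exists_mem_ne_zero_of_ne_bot h
  intro hb
  have h1 := q3_map hA g hv
  rw [hb, Submodule.mem_bot] at h1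
  exact hv0 (q3_inj ρ g (by rw [h1, map_zero]))

theorem q3_orth {b : LinearMap.BilinForm E V} {ρ : G →* Module.End E V}
    (horth : ∀ g x y, b (ρ g x) (ρ g y) = b x y) {A : Subgroup G} {χ ψ : A → E} {v y : V}
    (hv0 : v ≠ 0) (hv : v ∈ q3_W ρ A χ) (hy : y ∈ q3_W ρ A ψ) (h : ψ ≠ χ⁻¹) : b v y = 0 := by
  obtain ⟨x, hx⟩ := Function.ne_iff.mp h
  have h1 := horth x v y
  rw [q3_mem.1 hv x, q3_mem.1 hy x, map_smul, map_smul, LinearMap.smul_apply, smul_eq_mul,
    smul_eq_mul] at h1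
  by_contra hb
  apply hx
  rw [Pi.inv_apply]
  apply eq_inv_of_mul_eq_one_left
  apply mul_right_cancel₀ hb
  linear_combination h1

theorem q3_dle [FiniteDimensional E V] {ρ : G →* Module.End E V} {A : Subgroup G}
    (hA : A.Normal) (g : G) (χ : A → E) :
    finrank E (q3_W ρ A χ) ≤ finrank E (q3_W ρ A (q3_act hA g χ)) := by
  refine LinearMap.finrank_le_finrank_of_injective
    (f := (ρ g).restrict (p := q3_W ρ A χ) (q := q3_W ρ A (q3_act hA g χ))
      (fun x hx => q3_map hA g hx)) ?_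
  intro x y hxy
  apply Subtype.ext
  apply q3_inj ρ g
  exact congrArg Subtype.val hxy

theorem q3_deq [FiniteDimensional E V] {ρ : G →* Module.End E V} {A : Subgroup G}
    (hA : A.Normal) (g : G) (χ : A → E) :
    finrank E (q3_W ρ A (q3_act hA g χ)) = finrank E (q3_W ρ A χ) := by
  refine le_antisymm ?_ (q3_dle hA g χ)
  have h := q3_dle (ρ := ρ) hA g⁻¹ (q3_act hA g χ)
  rwa [q3_act_inv] at h

theorem q3_rk [FiniteDimensional E V] (s : Module.End E V) (M N : Submodule E V)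
    (hr : finrank E (LinearMap.range (s - 1)) = 2)
    (h : ∀ v ∈ M, ∀ v' ∈ M, ∀ n ∈ N, (s - 1) (v + s v' + n) = 0 → v = 0 ∧ v' = 0 ∧ n = 0) :
    2 * finrank E M + finrank E N ≤ 2 := by
  have h1 : Function.Injective
      ((s - 1) ∘ₗ ((M.subtype.coprod (s ∘ₗ M.subtype)).coprod N.subtype)) := by
    rw [injective_iff_map_eq_zero]
    rintro ⟨⟨⟨v, hv⟩, ⟨v', hv'⟩⟩, ⟨n, hn⟩⟩ h2
    obtain ⟨h3, h4, h5⟩ := h v hv v' hv' n hn h2
    subst h3 h4 h5
    rfl
  have h2 := LinearMap.finrank_range_of_inj h1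
  have h3 : LinearMap.range ((s - 1) ∘ₗ ((M.subtype.coprod (s ∘ₗ M.subtype)).coprod N.subtype)) ≤
      LinearMap.range (s - 1) := LinearMap.range_comp_le_range _ _
  have h4 := Submodule.finrank_mono h3
  rw [h2, hr, Module.finrank_prod, Module.finrank_prod] at h4
  omega

end

section

variable {E V G : Type*} [Field E] [IsAlgClosed E] [CharZero E] [AddCommGroup V] [Module E V]
  [FiniteDimensional E V] [Group G] {b : LinearMap.BilinForm E V} {ρ : G →* Module.End E V}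
  {T : Set G}

theorem q3_all (C : Grp b ρ T) {A : Subgroup G} (hA : A.Normal) (hind : iSupIndep (q3_W ρ A))
    (P : (A → E) → Prop) (hP : ∀ g χ, P χ → P (q3_act hA g χ)) {χ₀ : A → E} (h0 : P χ₀)
    (hw : q3_W ρ A χ₀ ≠ ⊥) {ψ : A → E} (hψ : q3_W ρ A ψ ≠ ⊥) : P ψ := by
  by_contra hcon
  have h1 := C.irr (⨆ χ, ⨆ (_ : P χ), q3_W ρ A χ) (by
    intro s _ u hu
    have h2 : (⨆ χ, ⨆ (_ : P χ), q3_W ρ A χ) ≤
        (⨆ χ, ⨆ (_ : P χ), q3_W ρ A χ).comap (ρ s) := by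
      refine iSup₂_le fun χ hχ v hv => ?_
      exact Submodule.mem_iSup_of_mem (q3_act hA s χ)
        (Submodule.mem_iSup_of_mem (hP s χ hχ) (q3_map hA s hv))
    exact h2 hu)
  rcases h1 with h1 | h1
  · apply hw
    rw [eq_bot_iff, ← h1]
    exact le_iSup₂_of_le χ₀ h0 le_rfl
  · apply hψ
    have h3 : (⨆ χ, ⨆ (_ : P χ), q3_W ρ A χ) ≤ ⨆ χ, ⨆ (_ : χ ≠ ψ), q3_W ρ A χ := by
      refine iSup₂_le fun χ hχ => ?_
      have : χ ≠ ψ := by
        rintro rfl
        exact hcon hχ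
      exact le_iSup₂_of_le χ this le_rfl
    rw [h1, top_le_iff] at h3
    have h4 := hind ψ
    rw [h3, disjoint_top] at h4
    exact h4

theorem q3_moved (C : Grp b ρ T) {A : Subgroup G} (hA : A.Normal)
    (htop : ⨆ χ : A → E, q3_W ρ A χ = ⊤) (hns : ∃ x ∈ A, ∀ c : E, ρ x ≠ c • 1) :
    ∃ s ∈ T, ∃ χ : A → E, q3_W ρ A χ ≠ ⊥ ∧ q3_act hA s χ ≠ χ := by
  by_contra hcon
  push Not at hcon
  obtain ⟨x, hx, hxc⟩ := hns
  obtain ⟨χ, hχ⟩ : ∃ χ : A → E, q3_W ρ A χ ≠ ⊥ := by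
    by_contra h
    push Not at h
    have h1 : (⊤ : Submodule E V) = ⊥ := by
      rw [← htop]
      simp [h]
    apply hxc 0
    ext v
    have : v ∈ (⊤ : Submodule E V) := Submodule.mem_top
    rw [h1, Submodule.mem_bot] at this
    simp [this]
  have h1 := C.irr (q3_W ρ A χ) (by
    intro s hs u hu
    have h2 := q3_map hA s hu
    rwa [hcon s hs χ hχ] at h2)
  rcases h1 with h1 | h1
  · exact hχ h1
  · apply hxc (χ ⟨x, hx⟩)
    ext v
    have h3 : v ∈ q3_W ρ A χ := by rw [h1]; exact Submodule.mem_top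
    simpa using q3_mem.1 h3 ⟨x, hx⟩

theorem q3_dual (C : Grp b ρ T) {A : Subgroup G} (htop : ⨆ χ : A → E, q3_W ρ A χ = ⊤)
    {χ : A → E} (hχ : q3_W ρ A χ ≠ ⊥) : q3_W ρ A χ⁻¹ ≠ ⊥ := by
  intro hb
  obtain ⟨v, hv, hv0⟩ := Submodule.exists_mem_ne_zero_of_ne_bot hχ
  apply hv0
  apply C.nondeg
  intro y
  have hy : y ∈ ⨆ χ : A → E, q3_W ρ A χ := by rw [htop]; exact Submodule.mem_top
  induction hy using Submodule.iSup_induction' with
  | mem ψ y hy =>
    by_cases h : ψ = χ⁻¹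
    · rw [h, hb, Submodule.mem_bot] at hy
      rw [hy, map_zero]
    · exact q3_orth C.orth hv0 hv hy h
  | zero => rw [map_zero]
  | add y z _ _ hy hz => rw [map_add, hy, hz, add_zero]

theorem q3_key (C : Grp b ρ T) {A : Subgroup G} (hA : A.Normal) (hind : iSupIndep (q3_W ρ A))
    (htop : ⨆ χ : A → E, q3_W ρ A χ = ⊤) {s : G} (hs : s ∈ T) {χ : A → E}
    (hχ : q3_W ρ A χ ≠ ⊥) (hsχ : q3_act hA s χ ≠ χ) :
    finrank E (q3_W ρ A χ) = 1 ∧ χ⁻¹ = χ := by
  obtain ⟨χ₁, e1⟩ : ∃ χ₁, χ₁ = q3_act hA s χ := ⟨_, rfl⟩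
  obtain ⟨χ₂, e2⟩ : ∃ χ₂, χ₂ = q3_act hA s χ₁ := ⟨_, rfl⟩
  have m1 : ∀ v ∈ q3_W ρ A χ, ρ s v ∈ q3_W ρ A χ₁ := fun v hv => by
    rw [e1]; exact q3_map hA s hv
  have m2 : ∀ v ∈ q3_W ρ A χ, ρ s (ρ s v) ∈ q3_W ρ A χ₂ := fun v hv => by
    rw [e2]; exact q3_map hA s (m1 v hv)
  have hc : ∀ v, ρ s (ρ s (ρ s v)) = v := by
    intro v
    have h := congrArg (fun f : Module.End E V => f v) (C.cube s hs)
    simpa [pow_succ, Module.End.mul_apply] using h
  have e3 : q3_act hA s χ₂ = χ := by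
    obtain ⟨v, hv, hv0⟩ := Submodule.exists_mem_ne_zero_of_ne_bot hχ
    have h1 := q3_map hA s (m2 v hv)
    rw [hc] at h1
    exact q3_uniq hv0 h1 hv
  have n1 : χ₁ ≠ χ := by rw [e1]; exact hsχ
  have n2 : χ₂ ≠ χ₁ := by
    intro h
    have h1 := congrArg (q3_act hA s) h
    rw [e3, ← e2, h] at h1
    exact n1 h1.symm
  have n3 : χ₂ ≠ χ := by
    intro h
    have h1 := congrArg (q3_act hA s) h
    rw [e3, ← e1] at h1
    exact n1 h1.symm
  have d1 : finrank E (q3_W ρ A χ) = 1 := by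
    have h1 := q3_rk (ρ s) (q3_W ρ A χ) ⊥ (C.rank s hs) (by
      intro v hv v' hv' n hn h
      rw [Submodule.mem_bot] at hn
      subst hn
      have h2 : -v + (ρ s (v - v') + ρ s (ρ s v')) = 0 := by
        rw [← h]
        simp only [LinearMap.sub_apply, Module.End.one_apply, map_add, map_sub, map_zero]
        abel
      have h3 := q3_comp hind (Submodule.neg_mem _ hv) (Submodule.add_mem _
        (q3_in n1 (m1 _ (Submodule.sub_mem _ hv hv'))) (q3_in n3 (m2 _ hv'))) h2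
      rw [neg_eq_zero] at h3
      subst h3
      rw [neg_zero, zero_add, add_comm, zero_sub, map_neg] at h2
      have h4 := q3_comp hind (m2 _ hv') (Submodule.neg_mem _ (q3_in n2.symm (m1 _ hv'))) h2
      refine ⟨rfl, ?_, rfl⟩
      apply q3_inj ρ s
      apply q3_inj ρ s
      rw [h4, map_zero, map_zero])
    have h2 : 0 < finrank E (q3_W ρ A χ) := by
      rw [Nat.pos_iff_ne_zero]
      intro h
      exact hχ (Submodule.finrank_eq_zero.1 h)
    omega
  refine ⟨d1, ?_⟩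
  by_contra hinv
  have hd := q3_dual C htop hχ
  have e4 : q3_act hA s χ⁻¹ = χ₁⁻¹ := by rw [e1]; rfl
  have n4 : χ₁⁻¹ ≠ χ⁻¹ := fun h => n1 (inv_injective h)
  have m4 : ∀ v ∈ q3_W ρ A χ⁻¹, ρ s v ∈ q3_W ρ A χ₁⁻¹ := fun v hv => by
    rw [← e4]; exact q3_map hA s hv
  have n5 : χ⁻¹ ≠ χ₁ := by
    intro h
    have h1 := congrArg (q3_act hA s) h
    rw [e4, ← e2, ← h, inv_inv] at h1
    exact n3 h1.symm
  have n6 : χ⁻¹ ≠ χ₂ := by
    intro h
    have h1 := congrArg (q3_act hA s) h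
    rw [e4, e3] at h1
    rw [← h1, inv_inv] at h
    exact n2 h.symm
  have h1 := q3_rk (ρ s) (q3_W ρ A χ) (q3_W ρ A χ⁻¹) (C.rank s hs) (by
    intro v hv v' hv' n hn h
    have h2 : -n + (ρ s n + (-v + (ρ s (v - v') + ρ s (ρ s v')))) = 0 := by
      rw [← h]
      simp only [LinearMap.sub_apply, Module.End.one_apply, map_add, map_sub]
      abel
    have h3 := q3_comp hind (Submodule.neg_mem _ hn) (Submodule.add_mem _ (q3_in n4 (m4 _ hn))
      (Submodule.add_mem _ (Submodule.neg_mem _ (q3_in (Ne.symm hinv) hv)) (Submodule.add_mem _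
        (q3_in n5.symm (m1 _ (Submodule.sub_mem _ hv hv'))) (q3_in n6.symm (m2 _ hv'))))) h2
    rw [neg_eq_zero] at h3
    subst h3
    rw [neg_zero, zero_add, map_zero, zero_add] at h2
    have h3 := q3_comp hind (Submodule.neg_mem _ hv) (Submodule.add_mem _
      (q3_in n1 (m1 _ (Submodule.sub_mem _ hv hv'))) (q3_in n3 (m2 _ hv'))) h2
    rw [neg_eq_zero] at h3
    subst h3
    rw [neg_zero, zero_add, add_comm, zero_sub, map_neg] at h2
    have h4 := q3_comp hind (m2 _ hv') (Submodule.neg_mem _ (q3_in n2.symm (m1 _ hv'))) h2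
    refine ⟨rfl, ?_, rfl⟩
    apply q3_inj ρ s
    apply q3_inj ρ s
    rw [h4, map_zero, map_zero])
  have h2 : 0 < finrank E (q3_W ρ A χ⁻¹) := by
    rw [Nat.pos_iff_ne_zero]
    intro h
    exact hd (Submodule.finrank_eq_zero.1 h)
  omega

theorem es_frame (C : Grp b ρ T) (A : Subgroup G) (hA : A.Normal)
    (hfin : ∀ x ∈ A, ∃ k : ℕ, 0 < k ∧ ρ x ^ k = 1)
    (hcomm : ∀ x ∈ A, ∀ y ∈ A, ρ x * ρ y = ρ y * ρ x) (hns : ∃ x ∈ A, ∀ c : E, ρ x ≠ c • 1) :
    ∃ w : Basis (Fin (finrank E V)) E V, (∀ i j, b (w i) (w j) = if i = j then 1 else 0) ∧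
      ∀ g i, ∃ j, ρ g (w i) = w j ∨ ρ g (w i) = - w j := by
  classical
  have htop := q3_top hfin hcomm
  have hind := q3_ind hfin hcomm
  obtain ⟨s, hs, χ₀, h0, hs0⟩ := q3_moved C hA htop hns
  have hall : ∀ ψ : A → E, q3_W ρ A ψ ≠ ⊥ → finrank E (q3_W ρ A ψ) = 1 ∧ ψ⁻¹ = ψ := by
    intro ψ hψ
    refine q3_all C hA hind (fun ψ => finrank E (q3_W ρ A ψ) = 1 ∧ ψ⁻¹ = ψ) ?_
      (q3_key C hA hind htop hs h0 hs0) h0 hψ
    rintro g χ ⟨h1, h2⟩
    refine ⟨by rw [q3_deq, h1], ?_⟩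
    have h3 : (q3_act hA g χ)⁻¹ = q3_act hA g χ⁻¹ := rfl
    rw [h3, h2]
  have hex : ∀ ψ : {ψ : A → E // q3_W ρ A ψ ≠ ⊥}, ∃ v ∈ q3_W ρ A ψ.1, b v v = 1 ∧
      ∀ y ∈ q3_W ρ A ψ.1, ∃ c : E, y = c • v := by
    rintro ⟨ψ, hψ⟩
    obtain ⟨v, hv, hv0⟩ := Submodule.exists_mem_ne_zero_of_ne_bot hψ
    obtain ⟨h1, h2⟩ := hall ψ hψ
    have h3 : ∀ y ∈ q3_W ρ A ψ, ∃ c : E, y = c • v := by
      intro y hy
      have hv0' : (⟨v, hv⟩ : q3_W ρ A ψ) ≠ 0 := fun h => hv0 (congrArg Subtype.val h)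
      obtain ⟨c, hc⟩ := exists_smul_eq_of_finrank_eq_one h1 hv0' ⟨y, hy⟩
      exact ⟨c, (congrArg Subtype.val hc).symm⟩
    have h4 : b v v ≠ 0 := by
      intro hvv
      apply hv0
      apply C.nondeg
      intro y
      have hy : y ∈ ⨆ χ : A → E, q3_W ρ A χ := by rw [htop]; exact Submodule.mem_top
      induction hy using Submodule.iSup_induction' with
      | mem φ y hy =>
        by_cases h : φ = ψ⁻¹
        · rw [h2] at h
          subst h
          obtain ⟨c, rfl⟩ := h3 y hy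
          rw [map_smul, hvv, smul_zero]
        · exact q3_orth C.orth hv0 hv hy h
      | zero => rw [map_zero]
      | add y z _ _ hy hz => rw [map_add, hy, hz, add_zero]
    obtain ⟨c, hc⟩ := IsAlgClosed.exists_pow_nat_eq (b v v)⁻¹ (n := 2) (by norm_num)
    have hc0 : c ≠ 0 := by
      rintro rfl
      apply h4
      rw [← inv_eq_zero, ← hc]
      norm_num
    refine ⟨c • v, Submodule.smul_mem _ _ hv, ?_, ?_⟩
    · rw [map_smul, map_smul, LinearMap.smul_apply, smul_eq_mul, smul_eq_mul, ← mul_assoc, ← sq, hc,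
        inv_mul_cancel₀ h4]
    · intro y hy
      obtain ⟨d, rfl⟩ := h3 y hy
      exact ⟨d * c⁻¹, by rw [smul_smul, mul_assoc, inv_mul_cancel₀ hc0, mul_one]⟩
  choose w hw1 hw2 hw3 using hex
  have horth : ∀ i j, b (w i) (w j) = if i = j then 1 else 0 := by
    intro i j
    by_cases hij : i = j
    · rw [if_pos hij, hij, hw2]
    · rw [if_neg hij]
      have hi0 : w i ≠ 0 := by
        intro h
        have := hw2 i
        rw [h, map_zero] at this
        simp at this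
      refine q3_orth C.orth hi0 (hw1 i) (hw1 j) ?_
      rw [(hall i.1 i.2).2]
      exact fun h => hij (Subtype.ext h.symm)
  have hli : LinearIndependent E w := by
    rw [linearIndependent_iff']
    intro t g hg i hi
    have h1 := congrArg (b (w i)) hg
    rw [map_sum, map_zero, Finset.sum_eq_single i] at h1
    · rw [map_smul, horth, if_pos rfl, smul_eq_mul, mul_one] at h1
      exact h1
    · intro j _ hj
      rw [map_smul, horth, if_neg hj.symm, smul_zero]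
    · intro h
      exact absurd hi h
  have hsp : ⊤ ≤ Submodule.span E (Set.range w) := by
    rw [← htop]
    refine iSup_le fun χ => ?_
    by_cases h : q3_W ρ A χ = ⊥
    · rw [h]; exact bot_le
    · intro y hy
      obtain ⟨c, rfl⟩ := hw3 ⟨χ, h⟩ y hy
      exact Submodule.smul_mem _ _ (Submodule.subset_span ⟨_, rfl⟩)
  obtain ⟨B, hB⟩ : ∃ B : Basis {ψ : A → E // q3_W ρ A ψ ≠ ⊥} E V, ∀ i, B i = w i :=
    ⟨Basis.mk hli hsp, fun i => Basis.mk_apply hli hsp i⟩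
  have : Fintype {ψ : A → E // q3_W ρ A ψ ≠ ⊥} := FiniteDimensional.fintypeBasisIndex B
  have hcard := Module.finrank_eq_card_basis B
  refine ⟨B.reindex (Fintype.equivFinOfCardEq hcard.symm), ?_, ?_⟩
  · intro i j
    rw [Basis.reindex_apply, Basis.reindex_apply, hB, hB, horth]
    simp
  · intro g i
    obtain ⟨k, hk⟩ : ∃ k, k = (Fintype.equivFinOfCardEq hcard.symm).symm i := ⟨_, rfl⟩
    rw [Basis.reindex_apply, ← hk, hB]
    have h1 := q3_map hA g (hw1 k)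
    obtain ⟨c, hc⟩ := hw3 ⟨q3_act hA g k.1, q3_nbot hA g k.2⟩ _ h1
    refine ⟨Fintype.equivFinOfCardEq hcard.symm ⟨q3_act hA g k.1, q3_nbot hA g k.2⟩, ?_⟩
    rw [Basis.reindex_apply, Equiv.symm_apply_apply, hB]
    have h2 := C.orth g (w k) (w k)
    rw [hc, map_smul, map_smul, LinearMap.smul_apply, hw2, hw2, smul_eq_mul, smul_eq_mul,
      mul_one] at h2
    rcases mul_self_eq_one_iff.1 h2 with h3 | h3
    · left
      rw [hc, h3, one_smul]
    · right
      rw [hc, h3, neg_smul, one_smul]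

end

end Pool.Agent.ES
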