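import Pool.Agent.Lib_helper55.ESF.P9

/-!
# Block Q4 (es_noframe): no frame of a piece is permuted up to signs
-/

set_option autoImplicit false

namespace Pool.Agent.ES

open Equiv Module Filter Topology

/-- Permutation matrices over the `2`-adic integers. -/
noncomputable def q4_pm (n : ℕ) : Perm (Fin n) →* Matrix (Fin n) (Fin n) ℤ_[2] where
  toFun σ := Matrix.of fun i j => if σ j = i then 1 else 0
  map_one' := by
    ext i j
    simp only [Matrix.of_apply, Perm.coe_one, id, Matrix.one_apply]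
    congr 1
    exact propext eq_comm
  map_mul' σ τ := by
    ext i j
    simp only [Matrix.mul_apply, Matrix.of_apply, Perm.coe_mul, Function.comp_apply, mul_ite,
      mul_one, mul_zero]
    rw [Finset.sum_eq_single (τ j)]
    · rw [if_pos rfl]
      congr
    · intro k _ hk
      rw [if_neg (fun h => hk h.symm)]
    · intro h
      exact absurd (Finset.mem_univ _) h

theorem q4_apply {n : ℕ} (σ : Perm (Fin n)) (i j : Fin n) :
    q4_pm n σ i j = if σ j = i then 1 else 0 := rfl

theorem q4_trace {n : ℕ} (σ : Perm (Fin n)) : (q4_pm n σ).trace = (fx σ : ℤ_[2]) := by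
  rw [Matrix.trace, fx, Fintype.card_subtype, Finset.card_filter]
  push_cast
  rfl

theorem q4_sum {n : ℕ} (σ : Perm (Fin n)) (e : Fin n → ℤ) (he : ∀ i, e i = 1 ∨ e i = -1) :
    ((∑ i, (if σ i = i then e i else 0) : ℤ) : ZMod 2) = (fx σ : ZMod 2) := by
  rw [fx, Fintype.card_subtype, Finset.card_filter]
  push_cast
  refine Finset.sum_congr rfl fun i _ => ?_
  split_ifs with h
  · rcases he i with h1 | h1
    · rw [h1]
      simp
    · rw [h1]
      decide
  · rfl

/-- ES16: no frame of a piece is permuted (up to signs). -/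
theorem es_noframe {G R E : Type*} [Group G] [Fintype R] [Field E] {m : R → ℕ} {N : ℕ}
    {ρ : G →* Matrix (Fin N) (Fin N) ℤ_[2]} {π : ∀ r, G →* Perm (Fin (m r))} {S : R → Set G}
    (ι : ℤ_[2] →+* E) (hι : Function.Injective ι) (hR : Res m N ρ π S)
    (h3 : ∀ r, ∀ s ∈ S r, ρ s ^ 3 = 1) (A : Finset R) (hA : A.Nonempty)
    (W : Submodule E (Fin N → E)) (hW : ∀ g, ∀ u ∈ W, act ρ ι g u ∈ W)
    (hWA : ∀ r ∈ A, mv (act ρ ι) (S r) ≤ W) (n : ℕ) (hn : n = ∑ r ∈ A, (m r - 2))
    (w : Basis (Fin n) E W)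
    (hw : ∀ g i, ∃ j, act ρ ι g (w i) = w j ∨ act ρ ι g (w i) = - (w j : Fin N → E)) :
    False := by
  classical
  have hw' : ∀ g i, ∃ (j : Fin n) (e : ℤ), (e = 1 ∨ e = -1) ∧
      act ρ ι g (w i) = (e : E) • (w j : Fin N → E) := by
    intro g i
    obtain ⟨j, h | h⟩ := hw g i
    · exact ⟨j, 1, Or.inl rfl, by rw [h]; simp⟩
    · exact ⟨j, -1, Or.inr rfl, by rw [h]; simp⟩
  choose p e he hp using hw'
  have hune : ∀ {a b : ℤ} {j k : Fin n}, a ≠ 0 → (a : E) ≠ 0 →
      (a : E) • (w j : Fin N → E) = (b : E) • (w k : Fin N → E) → j = k := by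
    intro a b j k _ ha h
    by_contra hne
    have h1 : (a : E) • w j = (b : E) • w k := Subtype.ext h
    have h2 := congrArg (fun v => w.repr v j) h1
    simp only [map_smul, Basis.repr_self, Finsupp.smul_single, smul_eq_mul, mul_one,
      Finsupp.single_eq_same] at h2
    rw [Finsupp.single_eq_of_ne (by exact hne)] at h2
    exact ha h2
  have hee : ∀ g i, e g i ≠ 0 := by
    intro g i
    rcases he g i with h | h <;> rw [h] <;> norm_num
  have heE : ∀ g i, (e g i : E) ≠ 0 := by
    intro g i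
    rcases he g i with h | h <;> rw [h] <;> simp
  have hmul : ∀ g h i, p (g * h) i = p g (p h i) := by
    intro g h i
    have h1 : act ρ ι (g * h) (w i) = ((e h i * e g (p h i) : ℤ) : E) •
        (w (p g (p h i)) : Fin N → E) := by
      rw [map_mul, Module.End.mul_apply, hp h i, map_smul, hp g, smul_smul]
      push_cast
      rfl
    rw [hp] at h1
    exact hune (hee _ _) (heE _ _) h1
  have hone : ∀ i, p 1 i = i := by
    intro i
    have h1 := hp 1 i
    rw [map_one, Module.End.one_apply] at h1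
    have h2 : ((1 : ℤ) : E) • (w i : Fin N → E) = ((e 1 i : ℤ) : E) • (w (p 1 i) : Fin N → E) := by
      rw [← h1]
      simp
    exact (hune one_ne_zero (by simp) h2).symm
  let πJ : G →* Perm (Fin n) :=
    { toFun := fun g => ⟨p g, p g⁻¹, fun i => by rw [← hmul, inv_mul_cancel, hone],
        fun i => by rw [← hmul, mul_inv_cancel, hone]⟩
      map_one' := Equiv.ext hone
      map_mul' := fun g h => Equiv.ext (hmul g h) }
  have hπJ : ∀ g i, πJ g i = p g i := fun g i => rfl
  let ρJ : G →* Matrix (Fin n) (Fin n) ℤ_[2] := (q4_pm n).comp πJ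
  -- the traces on `W`
  have htrW : ∀ g, LinearMap.trace E W ((act ρ ι g).restrict (hW g)) =
      ((∑ i, (if πJ g i = i then e g i else 0) : ℤ) : E) := by
    intro g
    rw [LinearMap.trace_eq_matrix_trace E w, Matrix.trace]
    push_cast
    refine Finset.sum_congr rfl fun i _ => ?_
    rw [Matrix.diag_apply, LinearMap.toMatrix_apply]
    have h1 : (act ρ ι g).restrict (hW g) (w i) = (e g i : E) • w (p g i) := Subtype.ext (hp g i)
    rw [h1, map_smul, Basis.repr_self, Finsupp.smul_single, smul_eq_mul, mul_one, hπJ]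
    split_ifs with h
    · rw [h, Finsupp.single_eq_same]
    · rw [Finsupp.single_eq_of_ne (fun h' => h h'.symm)]
  have htrV : ∀ g, LinearMap.trace E (Fin N → E) (act ρ ι g) = ι (ρ g).trace := by
    intro g
    have h1 : LinearMap.trace E (Fin N → E) (act ρ ι g) = ((ρ g).map ι).trace :=
      Matrix.trace_toLin'_eq _
    rw [h1, Matrix.trace, Matrix.trace, map_sum]
    rfl
  have hdiff : ∀ r ∈ A, ∀ s ∈ S r, ∀ x,
      LinearMap.trace E W ((act ρ ι (s * x)).restrict (hW (s * x))) -
        LinearMap.trace E W ((act ρ ι x).restrict (hW x)) =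
      ι ((ρ (s * x)).trace - (ρ x).trace) := by
    intro r hr s hs x
    have h1 : ∀ v, (act ρ ι (s * x) - act ρ ι x) v ∈ W := by
      intro v
      refine hWA r hr ((le_iSup₂ (f := fun s (_ : s ∈ S r) =>
        LinearMap.range (act ρ ι s - 1)) s hs) ⟨act ρ ι x v, ?_⟩)
      rw [map_mul]
      rfl
    have h2 := LinearMap.trace_restrict_eq_of_forall_mem W (act ρ ι (s * x) - act ρ ι x) h1
    rw [map_sub ι, ← htrV, ← htrV, ← map_sub, ← map_sub, ← h2]
    rfl
  -- the residual hypotheses for the permutation representation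
  have hRJ : Res (fun r : {r // r ∈ A} => m r.1) n ρJ (fun r => π r.1) (fun r => S r.1) := by
    refine ⟨fun r => hR.big r.1, ?_, fun r => hR.cyc r.1, fun r s hs r' hr' =>
      hR.one r.1 s hs r'.1 (fun h => hr' (Subtype.ext h)), fun r => hR.full r.1, ?_⟩
    · rw [hn]
      exact (Finset.sum_coe_sort A fun r => m r - 2).symm
    · intro r s hs x
      have h1 := hdiff r.1 r.2 s hs x
      rw [htrW, htrW, ← Int.cast_sub] at h1
      have h2 : (((∑ i, (if πJ (s * x) i = i then e (s * x) i else 0)) -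
          (∑ i, (if πJ x i = i then e x i else 0)) : ℤ) : ℤ_[2]) =
          (ρ (s * x)).trace - (ρ x).trace := by
        apply hι
        rw [map_intCast]
        exact h1
      have h3 := hR.tr r.1 s hs x
      rw [← h2, map_intCast, Int.cast_sub, q4_sum _ _ (he _), q4_sum _ _ (he _)] at h3
      rw [← h3, map_sub]
      change PadicInt.toZMod (q4_pm n (πJ (s * x))).trace -
        PadicInt.toZMod (q4_pm n (πJ x)).trace = _
      rw [q4_trace, q4_trace, map_natCast, map_natCast]
  have h3J : ∀ r : {r // r ∈ A}, ∀ s ∈ S r.1, ρJ s ^ 3 = 1 := by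
    intro r s hs
    rw [← map_pow]
    have h1 : πJ (s ^ 3) = 1 := by
      apply Equiv.ext
      intro i
      have h2 : act ρ ι (s ^ 3) = 1 := by
        ext1 x
        have h4 : ρ (s ^ 3) = 1 := by rw [map_pow, h3 r.1 s hs]
        ext1
        change Matrix.toLin' ((ρ (s ^ 3)).map ι) _ = _
        rw [h4, Matrix.map_one ι (map_zero ι) (map_one ι), Matrix.toLin'_one]
        rfl
      have h4 := hp (s ^ 3) i
      rw [h2, Module.End.one_apply] at h4
      have h5 : ((1 : ℤ) : E) • (w i : Fin N → E) =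
          ((e (s ^ 3) i : ℤ) : E) • (w (p (s ^ 3) i) : Fin N → E) := by
        rw [← h4]
        simp
      exact (hune one_ne_zero (by simp) h5).symm
    change q4_pm n (πJ (s ^ 3)) = 1
    rw [h1, map_one]
  have hιF : Function.Injective (algebraMap ℤ_[2] ℚ_[2]) := FaithfulSMul.algebraMap_injective _ _
  have hstab : ∀ g, ∀ u ∈ Submodule.span ℚ_[2] {(fun _ => 1 : Fin n → ℚ_[2])},
      act ρJ (algebraMap ℤ_[2] ℚ_[2]) g u ∈
        Submodule.span ℚ_[2] {(fun _ => 1 : Fin n → ℚ_[2])} := by
    intro g u hu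
    obtain ⟨c, rfl⟩ := Submodule.mem_span_singleton.mp hu
    rw [map_smul]
    refine Submodule.smul_mem _ _ ?_
    have h1 : act ρJ (algebraMap ℤ_[2] ℚ_[2]) g (fun _ => 1) = fun _ => 1 := by
      ext i
      change ((q4_pm n (πJ g)).map (algebraMap ℤ_[2] ℚ_[2])).mulVec (fun _ => 1) i = 1
      rw [Matrix.mulVec, dotProduct]
      simp only [Matrix.map_apply, q4_apply, mul_one]
      rw [Finset.sum_eq_single ((πJ g).symm i)]
      · rw [Equiv.apply_symm_apply, if_pos rfl, map_one]
      · intro j _ hj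
        rw [if_neg, map_zero]
        intro h
        exact hj ((πJ g).eq_symm_apply.mpr h)
      · intro h
        exact absurd (Finset.mem_univ _) h
    rw [h1]
    exact Submodule.mem_span_singleton_self _
  have hne : Submodule.span ℚ_[2] {(fun _ => 1 : Fin n → ℚ_[2])} ≠ ⊥ := by
    rw [Ne, Submodule.span_singleton_eq_bot]
    intro h
    obtain ⟨r, hr⟩ := hA
    have h8 := hR.big r
    have hle : m r - 2 ≤ n := by
      rw [hn]
      exact Finset.single_le_sum (f := fun r => m r - 2) (fun _ _ => Nat.zero_le _) hr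
    have := congrFun h ⟨0, by omega⟩
    simp at this
  obtain ⟨r, hr⟩ := es_some (algebraMap ℤ_[2] ℚ_[2]) hιF hRJ h3J _
    (fun r s _ u hu => hstab s u hu) hne
  have h8 := hR.big r.1
  obtain ⟨s, hs, -⟩ := hRJ.full r (swap ⟨0, by omega⟩ ⟨1, by omega⟩ * swap ⟨0, by omega⟩
    ⟨2, by omega⟩) (Perm.isThreeCycle_swap_mul_swap_same (by simp [Fin.ext_iff])
      (by simp [Fin.ext_iff]) (by simp [Fin.ext_iff]))
  have h9 := es_rank2 (algebraMap ℤ_[2] ℚ_[2]) hιF hRJ r s hs (h3J r s hs)
  have h10 := Submodule.finrank_mono (hr s hs)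
  have h11 : (fun _ => 1 : Fin n → ℚ_[2]) ≠ 0 := by
    intro h
    exact hne (Submodule.span_singleton_eq_bot.mpr h)
  rw [h9, finrank_span_singleton h11] at h10
  omega

end Pool.Agent.ES
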