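import Pool.Agent.Lib_helper18.TD.TD9

/-!
# Vectors with the Gram matrix of a Dynkin diagram of type A
-/

set_option autoImplicit false

namespace Pool.Agent.ES

theorem es_cart {F V : Type*} [Field F] [CharZero F] [AddCommGroup V] [Module F V]
    (b : LinearMap.BilinForm F V) (hs : ∀ x y, b x y = b y x) {r : ℕ}
    (v : Fin r → V) (N : F) (hN : N ≠ 0) (hv : ∀ i, b (v i) (v i) = N)
    (h1 : ∀ i j : Fin r, (i : ℕ) + 1 = j → (2 * b (v i) (v j) / N) ^ 2 = 1)
    (h0 : ∀ i j : Fin r, (i : ℕ) + 1 < j → b (v i) (v j) = 0) : LinearIndependent F v :=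
  Pool.Agent.TD.td_cart b hs v N hN hv h1 h0

end Pool.Agent.ES
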