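import Pool.Agent.Lib_helper55.ESF.Q6
import Pool.Agent.Lib_helper55.ESF.Cart

-- block Q7 of the strong form of EllipticSurfaces, by helper76

/-!
# Block Q7: the Cartan matrix of a system of operators over the `3`-cycles
-/

set_option autoImplicit false

namespace Pool.Agent.ES

open Equiv Module Filter Topology

theorem q7_three {m : ℕ} {a b c : Fin m} (hab : a ≠ b) (hac : a ≠ c) (hbc : b ≠ c) :
    (c3 a b c).IsThreeCycle :=
  Perm.isThreeCycle_swap_mul_swap_same hac hab hbc.symm

theorem q7_c3a {m : ℕ} {a b c : Fin m} (hab : a ≠ b) (hbc : b ≠ c) : c3 a b c a = b := by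
  simp only [c3, Perm.coe_mul, Function.comp, swap_apply_left]
  exact swap_apply_of_ne_of_ne hab.symm hbc

theorem q7_c3b {m : ℕ} {a b c : Fin m} : c3 a b c b = c := by
  simp [c3, Perm.coe_mul]

theorem q7_c3c {m : ℕ} {a b c : Fin m} (hac : a ≠ c) (hbc : b ≠ c) : c3 a b c c = a := by
  simp only [c3, Perm.coe_mul, Function.comp]
  rw [swap_apply_of_ne_of_ne hac.symm hbc.symm, swap_apply_right]

theorem q7_c3u {m : ℕ} {a b c u : Fin m} (ha : u ≠ a) (hb : u ≠ b) (hc : u ≠ c) :
    c3 a b c u = u := by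
  simp only [c3, Perm.coe_mul, Function.comp]
  rw [swap_apply_of_ne_of_ne ha hb, swap_apply_of_ne_of_ne ha hc]

theorem q7_rot {m : ℕ} {a b c : Fin m} (hab : a ≠ b) (hac : a ≠ c) (hbc : b ≠ c) :
    c3 b c a = c3 a b c := by
  ext u
  by_cases h1 : u = a
  · subst h1; rw [q7_c3a hab hbc, q7_c3c hab.symm hac.symm]
  by_cases h2 : u = b
  · subst h2; rw [q7_c3b, q7_c3a hbc hac.symm]
  by_cases h3 : u = c
  · subst h3; rw [q7_c3c hac hbc, q7_c3b]
  · rw [q7_c3u h1 h2 h3, q7_c3u h2 h3 h1]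

theorem q7_conj {m : ℕ} (g : Perm (Fin m)) (a b c : Fin m) :
    g * c3 a b c * g⁻¹ = c3 (g a) (g b) (g c) := by
  have h2 : ∀ x y : Fin m, g * swap x y * g⁻¹ = swap (g x) (g y) := fun x y => by
    rw [Equiv.mul_swap_eq_swap_mul, mul_inv_cancel_right]
  have h1 : g * c3 a b c * g⁻¹ = (g * swap a c * g⁻¹) * (g * swap a b * g⁻¹) := by
    rw [c3]; group
  rw [h1, h2, h2, c3]

theorem q7_disj {m : ℕ} {a b c x y z : Fin m} (hax : a ≠ x) (hay : a ≠ y) (haz : a ≠ z)
    (hbx : b ≠ x) (hby : b ≠ y) (hbz : b ≠ z) (hcx : c ≠ x) (hcy : c ≠ y) (hcz : c ≠ z) :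
    (c3 a b c).Disjoint (c3 x y z) := by
  intro u
  by_cases h1 : u = a
  · subst h1; right; exact q7_c3u hax hay haz
  by_cases h2 : u = b
  · subst h2; right; exact q7_c3u hbx hby hbz
  by_cases h3 : u = c
  · subst h3; right; exact q7_c3u hcx hcy hcz
  · left; exact q7_c3u h1 h2 h3

section

variable {F V : Type*} [Field F] [CharZero F] [AddCommGroup V] [Module F V]
  [FiniteDimensional F V] {m : ℕ} {b : LinearMap.BilinForm F V}
  {τ : Perm (Fin m) → Module.End F V}

omit [CharZero F] [FiniteDimensional F V] in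
/-- `v + s v + s² v = 0` on the range of `s - 1` -/
theorem q7_sum (C : Car b τ) {c : Perm (Fin m)} (hc : c.IsThreeCycle) {v : V}
    (hv : v ∈ LinearMap.range (τ c - 1)) : v + τ c v + τ c (τ c v) = 0 := by
  obtain ⟨w, rfl⟩ := hv
  have h := C.cube c hc
  have h' : τ c (τ c (τ c w)) = w := by
    have := congrArg (fun f : Module.End F V => f w) h
    simpa [pow_succ] using this
  simp only [LinearMap.sub_apply, Module.End.one_apply, map_sub, h']
  abel

omit [CharZero F] [FiniteDimensional F V] in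
theorem q7_half (C : Car b τ) {c : Perm (Fin m)} (hc : c.IsThreeCycle) {v : V}
    (hv : v ∈ LinearMap.range (τ c - 1)) : 2 * b v (τ c v) = - b v v := by
  have h := C.cube c hc
  have h' : τ c (τ c (τ c v)) = v := by
    have := congrArg (fun f : Module.End F V => f v) h
    simpa [pow_succ] using this
  have h1 : b v (τ c (τ c v)) = b v (τ c v) := by
    rw [← C.orth c hc v (τ c (τ c v)), h', C.symm]
  have h2 : b v (v + τ c v + τ c (τ c v)) = 0 := by rw [q7_sum C hc hv, map_zero]
  rw [map_add, map_add, h1] at h2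
  linear_combination h2

/-- an anisotropic plane has no isotropic vector -/
theorem q7_aniso (hF : ∀ x : F, x ^ 2 + x + 1 ≠ 0) (C : Car b τ) {c : Perm (Fin m)}
    (hc : c.IsThreeCycle) {v : V} (hv : v ∈ LinearMap.range (τ c - 1)) (hv0 : v ≠ 0) :
    b v v ≠ 0 := by
  intro hq
  have h := C.cube c hc
  have h3 : ∀ w, τ c (τ c (τ c w)) = w := fun w => by
    have := congrArg (fun f : Module.End F V => f w) h
    simpa [pow_succ] using this
  have h1 : b v (τ c v) = 0 := by
    have := q7_half C hc hv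
    rw [hq, neg_zero] at this
    exact (mul_eq_zero.1 this).resolve_left two_ne_zero
  have hsv : τ c v ∈ LinearMap.range (τ c - 1) := by
    obtain ⟨w, rfl⟩ := hv
    exact ⟨τ c w, by simp [LinearMap.sub_apply]⟩
  -- `v`, `τ c v` are independent
  have hli : LinearIndependent F ![v, τ c v] := by
    rw [LinearIndependent.pair_iff' hv0]
    intro a ha
    have h2 := q7_sum C hc hv
    rw [← ha, map_smul, ← ha] at h2
    have h4 : (a ^ 2 + a + 1) • v = 0 := by
      rw [← h2, add_smul, add_smul, pow_two, mul_smul, one_smul]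
      abel
    exact (smul_ne_zero (hF a) hv0) h4
  have hspan : ∀ u ∈ LinearMap.range (τ c - 1), b v u = 0 := by
    have hle : Submodule.span F (Set.range ![v, τ c v]) ≤ LinearMap.range (τ c - 1) := by
      rw [Submodule.span_le]
      rintro _ ⟨i, rfl⟩
      fin_cases i
      · exact hv
      · exact hsv
    have heq : Submodule.span F (Set.range ![v, τ c v]) = LinearMap.range (τ c - 1) := by
      apply Submodule.eq_of_le_of_finrank_eq hle
      rw [finrank_span_eq_card hli, C.rank c hc]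
      simp
    intro u hu
    rw [← heq] at hu
    have hle2 : Submodule.span F (Set.range ![v, τ c v]) ≤ LinearMap.ker (b v) := by
      rw [Submodule.span_le]
      rintro _ ⟨i, rfl⟩
      fin_cases i
      · exact hq
      · exact h1
    exact hle2 hu
  apply hv0
  apply C.nondeg
  intro x
  -- `x` splits as a fixed vector and a vector of the plane
  have hfix : b v (x + τ c x + τ c (τ c x)) = 0 := by
    obtain ⟨w, rfl⟩ := hv
    set y := x + τ c x + τ c (τ c x) with hy
    have hy' : τ c y = y := by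
      rw [hy, map_add, map_add, h3]; abel
    have := C.orth c hc w y
    rw [hy'] at this
    simp only [LinearMap.sub_apply, Module.End.one_apply, map_sub]
    rw [this, sub_self]
  have hrest : x + x + x - (x + τ c x + τ c (τ c x)) ∈ LinearMap.range (τ c - 1) := by
    refine ⟨-(τ c x + x + x), ?_⟩
    simp only [LinearMap.sub_apply, Module.End.one_apply, map_neg, map_add]
    abel
  have h4 := hspan _ hrest
  rw [map_sub, hfix, sub_zero, map_add, map_add] at h4
  have h5 : (3 : F) * b v x = 0 := by linear_combination h4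
  exact (mul_eq_zero.1 h5).resolve_left three_ne_zero

/-- the line of `a`, `b'` -/
def Q7L {F V : Type*} [Field F] [AddCommGroup V] [Module F V] {m : ℕ}
    (τ : Perm (Fin m) → Module.End F V) (a b' : Fin m) (v : V) : Prop :=
  ∀ x, x ≠ a → x ≠ b' → v ∈ LinearMap.range (τ (c3 a b' x) - 1)

theorem q7_exists (hF : ∀ x : F, x ^ 2 + x + 1 ≠ 0) (hm : 8 ≤ m) (C : Car b τ) {a b' : Fin m}
    (hab : a ≠ b') : ∃ v : V, v ≠ 0 ∧ Q7L τ a b' v := by
  have hcard : ∀ s : Finset (Fin m), s.card < 8 → ∃ x, x ∉ s := fun s hs => by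
    by_contra hcon
    push Not at hcon
    have : s = Finset.univ := Finset.eq_univ_iff_forall.2 hcon
    rw [this, Finset.card_univ, Fintype.card_fin] at hs
    omega
  obtain ⟨x, hx⟩ := hcard {a, b'} (lt_of_le_of_lt Finset.card_le_two (by norm_num))
  obtain ⟨y, hy⟩ := hcard {a, b', x} (lt_of_le_of_lt Finset.card_le_three (by norm_num))
  simp only [Finset.mem_insert, Finset.mem_singleton, not_or] at hx hy
  have h1 := es_line C hab (Ne.symm hx.1) (Ne.symm hy.1) (Ne.symm hx.2) (Ne.symm hy.2.1)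
    (Ne.symm hy.2.2)
  obtain ⟨v, hv, hv0⟩ := Submodule.exists_mem_ne_zero_of_ne_bot
    (p := LinearMap.range (τ (c3 a b' x) - 1) ⊓ LinearMap.range (τ (c3 a b' y) - 1)) (by
      intro h0
      rw [h0, finrank_bot] at h1
      exact absurd h1 (by norm_num))
  refine ⟨v, hv0, fun u hua hub => ?_⟩
  by_cases hux : u = x
  · subst hux; exact (Submodule.mem_inf.1 hv).1
  by_cases huy : u = y
  · subst huy; exact (Submodule.mem_inf.1 hv).2
  · exact es_common hF hm C hab (Ne.symm hx.1) (Ne.symm hy.1) (Ne.symm hua) (Ne.symm hx.2)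
      (Ne.symm hy.2.1) (Ne.symm hub) (Ne.symm hy.2.2) (Ne.symm hux) (Ne.symm huy) hv

omit [CharZero F] [FiniteDimensional F V] in
theorem q7_move (C : Car b τ) {a b' x : Fin m} (hab : a ≠ b') (hax : a ≠ x) (hbx : b' ≠ x)
    {v : V} (hv : Q7L τ a b' v) : Q7L τ b' x (τ (c3 a b' x) v) := by
  intro u hub hux
  by_cases hua : u = a
  · subst hua
    rw [q7_rot hab hax hbx]
    obtain ⟨w, rfl⟩ := hv x hax.symm hbx.symm
    exact ⟨τ (c3 u b' x) w, by simp [LinearMap.sub_apply]⟩
  · obtain ⟨w, hw⟩ := hv u hua hub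
    have h1 := C.conj (c3 a b' x) (c3 a b' u) (q7_three hab hax hbx)
      (q7_three hab (Ne.symm hua) (Ne.symm hub))
    rw [q7_conj, q7_c3a hab hbx, q7_c3b, q7_c3u hua hub hux] at h1
    refine ⟨τ (c3 a b' x) w, ?_⟩
    have h2 := congrArg (fun f : Module.End F V => f w) h1
    simp only [Module.End.mul_apply] at h2
    rw [← hw]
    simp only [LinearMap.sub_apply, Module.End.one_apply, map_sub]
    rw [h2]

/-- the chain of vectors -/
noncomputable def q7v {F V : Type*} [Field F] [AddCommGroup V] [Module F V] {m : ℕ}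
    (τ : Perm (Fin m) → Module.End F V) (v₀ : V) : ℕ → V
  | 0 => v₀
  | (i + 1) => if h : i + 2 < m then
      τ (c3 ⟨i, by omega⟩ ⟨i + 1, by omega⟩ ⟨i + 2, h⟩) (q7v τ v₀ i) else 0

theorem es_cartan (hF : ∀ x : F, x ^ 2 + x + 1 ≠ 0) (hm : 8 ≤ m) (C : Car b τ) :
    m - 1 ≤ finrank F V := by
  have hne : ∀ {i j : ℕ} (hi : i < m) (hj : j < m), i ≠ j → (⟨i, hi⟩ : Fin m) ≠ ⟨j, hj⟩ :=
    fun hi hj h h' => h (Fin.mk.inj_iff.1 h')
  obtain ⟨v₀, hv0, hL0⟩ := q7_exists hF hm C (a := ⟨0, by omega⟩) (b' := ⟨1, by omega⟩)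
    (hne _ _ (by norm_num))
  have hv : ∀ i (h : i + 1 < m), Q7L τ ⟨i, by omega⟩ ⟨i + 1, h⟩ (q7v τ v₀ i) := by
    intro i
    induction i with
    | zero => intro _; exact hL0
    | succ i ih =>
      intro h
      have h1 := q7_move C (a := ⟨i, by omega⟩) (b' := ⟨i + 1, by omega⟩) (x := ⟨i + 2, h⟩)
        (hne _ _ (by omega)) (hne _ _ (by omega)) (hne _ _ (by omega)) (ih (by omega))
      have h2 : q7v τ v₀ (i + 1) = τ (c3 ⟨i, by omega⟩ ⟨i + 1, by omega⟩ ⟨i + 2, h⟩)
          (q7v τ v₀ i) := by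
        rw [q7v, dif_pos h]
      rw [h2]
      exact h1
  have hstep : ∀ i (h : i + 2 < m), q7v τ v₀ (i + 1) =
      τ (c3 ⟨i, by omega⟩ ⟨i + 1, by omega⟩ ⟨i + 2, h⟩) (q7v τ v₀ i) := fun i h => by
    rw [q7v, dif_pos h]
  have h3c : ∀ i (h : i + 2 < m),
      (c3 (⟨i, by omega⟩ : Fin m) ⟨i + 1, by omega⟩ ⟨i + 2, h⟩).IsThreeCycle := fun i h =>
    q7_three (hne _ _ (by omega)) (hne _ _ (by omega)) (hne _ _ (by omega))
  have hq : ∀ i, i + 1 < m → b (q7v τ v₀ i) (q7v τ v₀ i) = b v₀ v₀ := by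
    intro i
    induction i with
    | zero => intro _; rfl
    | succ i ih =>
      intro h
      rw [hstep i h, C.orth _ (h3c i h), ih (by omega)]
  have hq0 : b v₀ v₀ ≠ 0 :=
    q7_aniso hF C (h3c 0 (by omega))
      (hL0 ⟨2, by omega⟩ (hne _ _ (by norm_num)) (hne _ _ (by norm_num))) hv0
  have hli : LinearIndependent F (fun i : Fin (m - 1) => q7v τ v₀ i) := by
    refine es_cart b C.symm _ (b v₀ v₀) hq0 (fun i => hq i (by omega)) ?_ ?_
    · intro i j hij
      have hj : (i : ℕ) + 2 < m := by omega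
      rw [← hij, hstep i hj]
      have h1 := q7_half C (h3c i hj) (hv i (by omega) ⟨i + 2, hj⟩ (hne _ _ (by omega))
        (hne _ _ (by omega)))
      rw [hq i (by omega)] at h1
      rw [h1, neg_div, div_self hq0]
      norm_num
    · intro i j hij
      have hcard : ∀ s : Finset (Fin m), s.card < 8 → ∃ x, x ∉ s := fun s hs => by
        by_contra hcon
        push Not at hcon
        have : s = Finset.univ := Finset.eq_univ_iff_forall.2 hcon
        rw [this, Finset.card_univ, Fintype.card_fin] at hs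
        omega
      have hi1 : (i : ℕ) + 1 < m := by omega
      have hj1 : (j : ℕ) + 1 < m := by omega
      obtain ⟨z, hz⟩ := hcard {⟨i, by omega⟩, ⟨i + 1, hi1⟩, ⟨j, by omega⟩, ⟨j + 1, hj1⟩}
        (lt_of_le_of_lt Finset.card_le_four (by norm_num))
      obtain ⟨w, hw⟩ := hcard {⟨i, by omega⟩, ⟨i + 1, hi1⟩, ⟨j, by omega⟩, ⟨j + 1, hj1⟩, z}
        (lt_of_le_of_lt Finset.card_le_five (by norm_num))
      simp only [Finset.mem_insert, Finset.mem_singleton, not_or] at hz hw
      obtain ⟨z1, z2, z3, z4⟩ := hz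
      obtain ⟨w1, w2, w3, w4, w5⟩ := hw
      exact es_disj hF hm C
        (q7_three (hne _ _ (by omega)) (Ne.symm z1) (Ne.symm z2))
        (q7_three (hne _ _ (by omega)) (Ne.symm w3) (Ne.symm w4))
        (q7_disj (hne _ _ (by omega)) (hne _ _ (by omega)) (Ne.symm w1)
          (hne _ _ (by omega)) (hne _ _ (by omega)) (Ne.symm w2) z3 z4 (Ne.symm w5))
        (hv i hi1 z z1 z2) (hv j hj1 w w3 w4)
  simpa using hli.fintype_card_le_finrank

end

end Pool.Agent.ES
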