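import Pool.Agent.Lib_helper55.ESF.S1

/-!
# Block S3 (es_irr): irreducibility under the conjugates of one element
-/

set_option autoImplicit false

namespace Pool.Agent.ES

open Equiv Module Filter Topology

section

variable {G R E : Type*} [Group G] [Fintype R] [Field E] {m : R → ℕ} {N : ℕ}
  {ρ : G →* Matrix (Fin N) (Fin N) ℤ_[2]} {π : ∀ r, G →* Perm (Fin (m r))} {S : R → Set G}
  {ι : ℤ_[2] →+* E} {b : LinearMap.BilinForm E (Fin N → E)}

/-- The conjugacy class. -/
def s3_cl (σ : G) : Set G := {x | ∃ g, x = g * σ * g⁻¹}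

theorem s3_conj {k : ℕ} (hk : 5 ≤ k) (P : Subgroup (Perm (Fin k)))
    (hP : ∀ c : Perm (Fin k), c.IsThreeCycle → c ∈ P) {c d : Perm (Fin k)} (hc : c.IsThreeCycle)
    (hd : d.IsThreeCycle) : ∃ t ∈ P, t * c * t⁻¹ = d := by
  have h1 : IsConj (⟨c, hc.mem_alternatingGroup⟩ : alternatingGroup (Fin k))
      ⟨d, hd.mem_alternatingGroup⟩ := by
    apply alternatingGroup.isConj_of
    · rw [Perm.isConj_iff_cycleType_eq]
      exact hc.trans hd.symm
    · change c.support.card + 2 ≤ _
      rw [hc.card_support, Fintype.card_fin]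
      exact hk
  obtain ⟨t, ht⟩ := isConj_iff.mp h1
  refine ⟨t, ?_, congrArg Subtype.val ht⟩
  have h2 : alternatingGroup (Fin k) ≤ P := by
    rw [← Perm.closure_three_cycles_eq_alternating, Subgroup.closure_le]
    exact hP
  exact h2 t.2

theorem s3_res (C : Str ρ π S ι b) (r : R) (σ : G) (hσ : σ ∈ S r) [DecidableEq R] :
    Res m N ρ π (Function.update S r (s3_cl σ)) := by
  have hsub : ∀ r', Function.update S r (s3_cl σ) r' ⊆ S r' := by
    intro r'
    by_cases h : r' = r
    · subst h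
      rw [Function.update_self]
      rintro _ ⟨g, rfl⟩
      exact C.conj _ σ hσ g
    · rw [Function.update_of_ne h]
  refine ⟨C.res.big, C.res.dim, fun r' s hs => C.res.cyc r' s (hsub r' hs),
    fun r' s hs => C.res.one r' s (hsub r' hs), fun r' c hc => ?_,
    fun r' s hs => C.res.tr r' s (hsub r' hs)⟩
  by_cases h : r' = r
  · subst h
    rw [Function.update_self]
    have h8 := C.res.big r'
    obtain ⟨t, ht, h1⟩ := s3_conj (by omega) (π r').range (by
      intro d hd
      obtain ⟨s, -, h2⟩ := C.res.full r' d hd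
      exact ⟨s, h2⟩) (C.res.cyc r' σ hσ) hc
    obtain ⟨g, rfl⟩ := ht
    exact ⟨g * σ * g⁻¹, ⟨g, rfl⟩, by rw [map_mul, map_mul, map_inv, h1]⟩
  · rw [Function.update_of_ne h]
    exact C.res.full r' c hc

theorem s3_le {S : Set G} {V : Type*} [AddCommGroup V] [Module E V] (ρ : G →* Module.End E V)
    (U : Submodule E V) : mv ρ S ≤ U ↔ ∀ s ∈ S, LinearMap.range (ρ s - 1) ≤ U := by
  rw [mv, iSup₂_le_iff]

theorem s3_stab {V : Type*} [AddCommGroup V] [Module E V] (ρ : G →* Module.End E V) (σ : G)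
    (g : G) (u : V) (hu : u ∈ mv ρ (s3_cl σ)) : ρ g u ∈ mv ρ (s3_cl σ) := by
  have h : mv ρ (s3_cl σ) ≤ (mv ρ (s3_cl σ)).comap (ρ g) := by
    rw [s3_le]
    rintro _ ⟨x, rfl⟩ _ ⟨y, rfl⟩
    rw [Submodule.mem_comap]
    refine (s3_le ρ (mv ρ (s3_cl σ))).mp le_rfl (g * x * σ * (g * x)⁻¹) ⟨g * x, rfl⟩
      ⟨ρ g y, ?_⟩
    have h1 : ρ (g * x * σ * (g * x)⁻¹) * ρ g = ρ g * ρ (x * σ * x⁻¹) := by
      rw [← map_mul, ← map_mul]
      congr 1
      group
    have h2 := LinearMap.congr_fun h1 y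
    rw [Module.End.mul_apply, Module.End.mul_apply] at h2
    rw [LinearMap.sub_apply, LinearMap.sub_apply, map_sub, h2]
    rfl
  exact h hu

theorem s3_big (C : Str ρ π S ι b) (r : R) (σ : G) (hσ : σ ∈ S r) :
    mv (act ρ ι) (S r) ≤ mv (act ρ ι) (s3_cl σ) := by
  rw [s3_le]
  rcases es_dich ι C.inj C.res r (C.cube r) (mv (act ρ ι) (s3_cl σ))
    (fun s _ u hu => s3_stab _ σ s u hu) with h | h
  · exact h
  · exfalso
    have h2 := es_rank2 ι C.inj C.res r σ hσ (C.cube r σ hσ)
    have h3 : act ρ ι σ ^ 3 = 1 := by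
      rw [← map_pow]
      ext1 x
      have h4 : ρ (σ ^ 3) = 1 := by rw [map_pow, C.cube r σ hσ]
      ext1
      change Matrix.toLin' ((ρ (σ ^ 3)).map ι) _ = _
      rw [h4, Matrix.map_one ι (map_zero ι) (map_one ι), Matrix.toLin'_one]
      rfl
    have h5 : (3 : E) ≠ 0 := by
      have h : ι 3 ≠ 0 := by
        rw [map_ne_zero_iff ι C.inj]
        norm_num
      rwa [map_ofNat] at h
    have h6 : ∀ x, act ρ ι σ x = x := by
      intro x
      have h7 : ∀ y, act ρ ι σ ((act ρ ι σ - 1) y) = (act ρ ι σ - 1) y := by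
        intro y
        refine h σ hσ _ ((s3_le _ (mv (act ρ ι) (s3_cl σ))).mp le_rfl σ ⟨1, by simp⟩ ⟨y, rfl⟩)
      have h8 : act ρ ι σ (act ρ ι σ (act ρ ι σ x)) = x := by
        have := LinearMap.congr_fun h3 x
        simpa [pow_succ, Module.End.mul_apply] using this
      have h9 := h7 x
      have h10 := h7 (act ρ ι σ x)
      simp only [LinearMap.sub_apply, Module.End.one_apply, map_sub] at h9 h10
      rw [h8] at h10
      -- `σ x - x` is fixed by `σ`
      have h11 : (3 : E) • (act ρ ι σ x - x) = 0 := by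
        have h12 : act ρ ι σ (act ρ ι σ x) = act ρ ι σ x + (act ρ ι σ x - x) := by
          rw [← h9]
          abel
        have h13 : x - act ρ ι σ (act ρ ι σ x) = act ρ ι σ (act ρ ι σ x) - act ρ ι σ x := h10
        rw [h12] at h13
        have h14 : (3 : E) • (act ρ ι σ x - x) =
            (act ρ ι σ x - x) + (act ρ ι σ x - x) + (act ρ ι σ x - x) := by
          rw [show (3 : E) = 1 + 1 + 1 by norm_num, add_smul, add_smul, one_smul]
        rw [h14]
        have h15 : x - (act ρ ι σ x + (act ρ ι σ x - x)) -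
            (act ρ ι σ x + (act ρ ι σ x - x) - act ρ ι σ x) = 0 := sub_eq_zero.mpr h13
        rw [← neg_eq_zero, ← h15]
        abel
      exact sub_eq_zero.mp ((smul_eq_zero.mp h11).resolve_left h5)
    have h7 : act ρ ι σ - 1 = 0 := by
      apply LinearMap.ext
      intro x
      rw [LinearMap.sub_apply, h6]
      simp
    rw [h7, LinearMap.range_zero, finrank_bot] at h2
    omega

/-- ES12: the pieces are irreducible under the conjugates of one element. -/
theorem es_irr (C : Str ρ π S ι b) (r : R) (σ : G) (hσ : σ ∈ S r) (U : Submodule E (Fin N → E))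
    (hU : U ≤ mv (act ρ ι) (S r)) (hs : ∀ g, ∀ u ∈ U, act ρ ι (g * σ * g⁻¹) u ∈ U) :
    U = ⊥ ∨ U = mv (act ρ ι) (S r) := by
  classical
  have hR := s3_res C r σ hσ
  have hS : Function.update S r (s3_cl σ) r = s3_cl σ := Function.update_self _ _ _
  have hbig := s3_big C r σ hσ
  rcases es_dich ι C.inj hR r (by
    rw [hS]
    rintro _ ⟨g, rfl⟩
    exact C.cube r _ (C.conj r σ hσ g)) U (by
    rw [hS]
    rintro _ ⟨g, rfl⟩
    exact hs g) with h | h
  · right
    rw [hS, ← s3_le] at h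
    exact le_antisymm hU (hbig.trans h)
  · left
    rw [hS] at h
    rw [Submodule.eq_bot_iff]
    intro u hu
    apply es_nondeg C r u (hU hu)
    intro y hy
    have h1 : mv (act ρ ι) (s3_cl σ) ≤ LinearMap.ker (b u) := by
      rw [s3_le]
      rintro s hs' _ ⟨z, rfl⟩
      rw [LinearMap.mem_ker, LinearMap.sub_apply, Module.End.one_apply, map_sub]
      have h2 := C.orth s u z
      rw [h s hs' u hu] at h2
      rw [h2, sub_self]
    exact h1 (hbig hy)

end

end Pool.Agent.ES
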