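import Pool.Agent.Lib_helper55.ESF.S2
import Pool.Agent.Lib_helper55.ESF.S3
import Pool.Agent.Lib_helper55.ESF.Q2
import Pool.Agent.Lib_helper55.ESF.Q3
import Pool.Agent.Lib_helper55.ESF.Q4
import Pool.Agent.Lib_helper55.ESF.Q7
import Pool.Agent.Lib_helper55.ESF.P11
import Pool.Agent.Lib_helper55.ESF.P12
import Pool.Agent.Lib_helper55.ESF.P13

/-!
# Finite images on a piece are impossible: preparations (MP_97f789_ag, strong form)
-/

set_option autoImplicit false

namespace Pool.Agent.ES

open Equiv Module Filter Topology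

section Gen

variable {E V G : Type*} [Field E] [AddCommGroup V] [Module E V] [Group G]

theorem mv_le_iff (ρ : G →* Module.End E V) (S : Set G) (U : Submodule E V) :
    mv ρ S ≤ U ↔ ∀ s ∈ S, LinearMap.range (ρ s - 1) ≤ U := by
  rw [mv, iSup₂_le_iff]

theorem range_le_mv (ρ : G →* Module.End E V) {S : Set G} {s : G} (hs : s ∈ S) :
    LinearMap.range (ρ s - 1) ≤ mv ρ S :=
  (mv_le_iff ρ S (mv ρ S)).mp le_rfl s hs

end Gen

section Act

variable {G : Type*} [Group G] {N : ℕ} {ρ : G →* Matrix (Fin N) (Fin N) ℤ_[2]}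
  {E : Type*} [Field E] (ι : ℤ_[2] →+* E)

theorem act_apply (g : G) (x : Fin N → E) : act ρ ι g x = ((ρ g).map ι).mulVec x := rfl

theorem act_sub (g h : G) : act ρ ι g - act ρ ι h = Matrix.toLin' ((ρ g - ρ h).map ι) := by
  ext x
  simp [act, Matrix.toLin'_apply, Matrix.map_sub, Matrix.sub_mulVec]

theorem act_sub_one (g : G) : act ρ ι g - 1 = Matrix.toLin' ((ρ g - 1).map ι) := by
  have h := act_sub ι (ρ := ρ) g 1
  rwa [map_one, map_one] at h

/-- Operators on the sum of the ranges in terms of integral matrices. -/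
theorem mv_iff (hι : Function.Injective ι) (M : Matrix (Fin N) (Fin N) ℤ_[2]) (c : ℤ_[2])
    (S : Set G) : (∀ u ∈ mv (act ρ ι) S, (M.map ι).mulVec u = ι c • u) ↔
      ∀ s ∈ S, M * (ρ s - 1) = c • (ρ s - 1) := by
  constructor
  · intro h s hs
    have h1 : ∀ x : Fin N → E, ((M * (ρ s - 1)).map ι).mulVec x =
        ((c • (ρ s - 1)).map ι).mulVec x := by
      intro x
      have h2 := h ((act ρ ι s - 1) x) (range_le_mv _ hs ⟨x, rfl⟩)
      rw [act_sub_one, Matrix.toLin'_apply, Matrix.mulVec_mulVec, ← Matrix.map_mul] at h2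
      rw [h2]
      have h3 : (c • (ρ s - 1)).map ι = ι c • ((ρ s - 1).map ι) := by
        ext i j
        simp
      rw [h3, Matrix.smul_mulVec]
    have h4 : (M * (ρ s - 1)).map ι = (c • (ρ s - 1)).map ι := by
      apply Matrix.toLin'.injective
      apply LinearMap.ext
      intro x
      rw [Matrix.toLin'_apply, Matrix.toLin'_apply, h1]
    exact (Matrix.map_injective hι) h4
  · intro h u hu
    have h1 : mv (act ρ ι) S ≤ LinearMap.ker (Matrix.toLin' (M.map ι) - ι c • LinearMap.id) := by
      rw [mv_le_iff]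
      rintro s hs _ ⟨x, rfl⟩
      rw [LinearMap.mem_ker, LinearMap.sub_apply, LinearMap.smul_apply, LinearMap.id_apply,
        act_sub_one, Matrix.toLin'_apply, Matrix.toLin'_apply, Matrix.mulVec_mulVec,
        ← Matrix.map_mul, h s hs]
      have h3 : (c • (ρ s - 1)).map ι = ι c • ((ρ s - 1).map ι) := by
        ext i j
        simp
      rw [h3, Matrix.smul_mulVec, sub_self]
    have h2 := h1 hu
    rw [LinearMap.mem_ker, LinearMap.sub_apply, LinearMap.smul_apply, LinearMap.id_apply,
      sub_eq_zero, Matrix.toLin'_apply] at h2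
    exact h2

end Act

end Pool.Agent.ES
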