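import Pool.Agent.Lib_helper55.ESF.Wedge
import Pool.Agent.Lib_helper11.SD.Logs

/-!
# The decomposition of the representation and the logarithms (MP_97f789_ag, strong form)
-/

set_option autoImplicit false

namespace Pool.Agent.ES

open Equiv Module Filter Topology Pool.Agent.TBL

theorem no_cube_root (x : ℚ_[2]) : x ^ 2 + x + 1 ≠ 0 := by
  intro h
  have h1 : x ^ 3 = 1 := by linear_combination (x - 1) * h
  have h2 : ‖x‖ ≤ 1 := by
    have h3 : ‖x‖ ^ 3 = 1 := by rw [← norm_pow, h1, norm_one]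
    by_contra hcon
    have h4 : 1 < ‖x‖ ^ 3 := one_lt_pow₀ (not_le.mp hcon) (by norm_num)
    linarith
  obtain ⟨y, rfl⟩ : ∃ y : ℤ_[2], (y : ℚ_[2]) = x := ⟨⟨x, h2⟩, rfl⟩
  have h3 : y ^ 2 + y + 1 = 0 := by
    apply Subtype.ext
    push_cast
    exact h
  have h4 := congrArg (PadicInt.toZMod (p := 2)) h3
  rw [map_add, map_add, map_pow, map_one, map_zero] at h4
  have h5 : ∀ z : ZMod 2, z ^ 2 + z + 1 ≠ 0 := by decide
  exact h5 _ h4

section

variable {G R : Type*} [Group G] [Fintype R] {m : R → ℕ} {N : ℕ}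
  {ρ : G →* Matrix (Fin N) (Fin N) ℤ_[2]} {π : ∀ r, G →* Perm (Fin (m r))}

/-- The elements over the `3`-cycles of one set. -/
def Ov (π : ∀ r, G →* Perm (Fin (m r))) (r : R) : Set G :=
  {s | (π r s).IsThreeCycle ∧ ∀ r', r' ≠ r → π r' s = 1}

/-- The elements of order three over the `3`-cycles of one set. -/
def Tr (ρ : G →* Matrix (Fin N) (Fin N) ℤ_[2]) (π : ∀ r, G →* Perm (Fin (m r))) (r : R) :
    Set G :=
  {s | ρ s ^ 3 = 1 ∧ (π r s).IsThreeCycle ∧ ∀ r', r' ≠ r → π r' s = 1}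

theorem tr_of (hπt : ∀ g, PadicInt.toZMod (ρ g).trace = ∑ r, (fx (π r g) : ZMod 2)) (r : R)
    (s x : G) (h1 : ∀ r', r' ≠ r → π r' s = 1) :
    PadicInt.toZMod ((ρ (s * x)).trace - (ρ x).trace) =
      (fx (π r (s * x)) : ZMod 2) - fx (π r x) := by
  classical
  rw [map_sub, hπt, hπt, ← Finset.sum_sub_distrib, Finset.sum_eq_single r]
  · intro r' _ hr'
    rw [map_mul, h1 r' hr', one_mul, sub_self]
  · intro h
    exact absurd (Finset.mem_univ r) h

theorem res_ov (h8 : ∀ r, 8 ≤ m r) (hN : N = ∑ r, (m r - 2))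
    (hπt : ∀ g, PadicInt.toZMod (ρ g).trace = ∑ r, (fx (π r g) : ZMod 2))
    (hfull : ∀ r c, Perm.IsThreeCycle c → ∃ g, π r g = c ∧ ∀ r', r' ≠ r → π r' g = 1) :
    Res m N ρ π (Ov π) where
  big := h8
  dim := hN
  cyc r s hs := hs.1
  one r s hs := hs.2
  full r c hc := by
    obtain ⟨g, h1, h2⟩ := hfull r c hc
    exact ⟨g, ⟨by rw [h1]; exact hc, h2⟩, h1⟩
  tr r s hs x := tr_of hπt r s x hs.2

theorem res_tr (h8 : ∀ r, 8 ≤ m r) (hN : N = ∑ r, (m r - 2))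
    (hπt : ∀ g, PadicInt.toZMod (ρ g).trace = ∑ r, (fx (π r g) : ZMod 2))
    (hfull : ∀ r c, Perm.IsThreeCycle c → ∃ g, π r g = c ∧ ∀ r', r' ≠ r → π r' g = 1)
    [TopologicalSpace G] [IsTopologicalGroup G] [CompactSpace G] (hρ : Continuous ρ)
    (hπ : ∀ r, IsOpen ((π r).ker : Set G)) : Res m N ρ π (Tr ρ π) where
  big := h8
  dim := hN
  cyc r s hs := hs.2.1
  one r s hs := hs.2.2
  full r c hc := by
    obtain ⟨g, h1, h2⟩ := hfull r c hc
    have h3 : ∀ r', π r' g ^ 3 = 1 := by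
      intro r'
      by_cases hr : r' = r
      · subst hr
        rw [h1, ← hc.orderOf, pow_orderOf_eq_one]
      · rw [h2 r' hr, one_pow]
    obtain ⟨s, h4, h5⟩ := es_order3 hρ hπ (es_pro2 (res_ov h8 hN hπt hfull)) g h3
    refine ⟨s, ⟨h4, ?_, ?_⟩, ?_⟩
    · rw [h5, h1]
      exact hc
    · intro r' hr'
      rw [h5, h2 r' hr']
    · rw [h5, h1]
  tr r s hs x := tr_of hπt r s x hs.2.2

theorem str_tr {E : Type*} [Field E] {ι : ℤ_[2] →+* E} (hι : Function.Injective ι)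
    {b : LinearMap.BilinForm E (Fin N → E)} (hR : Res m N ρ π (Tr ρ π))
    (hs : ∀ x y, b x y = b y x) (hn : ∀ x, (∀ y, b x y = 0) → x = 0)
    (ho : ∀ g x y, b (act ρ ι g x) (act ρ ι g y) = b x y) : Str ρ π (Tr ρ π) ι b where
  res := hR
  cube r s hs := hs.1
  conj r s hs g := by
    refine ⟨?_, ?_, ?_⟩
    · rw [← map_pow, conj_pow, map_mul, map_mul, map_pow, hs.1, mul_one, ← map_mul,
        mul_inv_cancel, map_one]
    · rw [map_mul, map_mul, map_inv]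
      have := hs.2.1
      rw [Perm.IsThreeCycle, Perm.cycleType_conj]
      exact this
    · intro r' hr'
      rw [map_mul, map_mul, hs.2.2 r' hr', mul_one, ← map_mul, mul_inv_cancel, map_one]
  inj := hι
  symm := hs
  nondeg := hn
  orth := ho

end

attribute [local instance] matRing matAlg matUltra matComplete

/-- The matrices of the representation over the completion of the algebraic closure. -/
noncomputable def AC {G : Type*} [Group G] {N : ℕ} (ρ : G →* Matrix (Fin N) (Fin N) ℤ_[2]) :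
    G →* Matrix (Fin N) (Fin N) ℂ_[2] :=
  (((algebraMap ℚ_[2] ℂ_[2]).comp (algebraMap ℤ_[2] ℚ_[2])).mapMatrix.toMonoidHom).comp ρ

theorem form_of {N : ℕ} {E : Type*} [Field E] (J : Matrix (Fin N) (Fin N) E)
    (hJ : J.transpose = J) (hJ0 : J.det ≠ 0) :
    (∀ x y, Matrix.toBilin' J x y = Matrix.toBilin' J y x) ∧
      ∀ x, (∀ y, Matrix.toBilin' J x y = 0) → x = 0 := by
  constructor
  · intro x y
    rw [Matrix.toBilin'_apply', Matrix.toBilin'_apply', Matrix.dotProduct_mulVec,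
      ← Matrix.mulVec_transpose, hJ, dotProduct_comm]
  · intro x h
    have h1 : Matrix.vecMul x J = 0 := by
      apply dotProduct_eq
      intro y
      rw [← Matrix.dotProduct_mulVec, zero_dotProduct]
      have := h y
      rwa [Matrix.toBilin'_apply'] at this
    by_contra hx
    exact hJ0 (Matrix.exists_vecMul_eq_zero_iff.mp ⟨x, hx, h1⟩)

theorem form_inv {N : ℕ} {E : Type*} [Field E] (J M : Matrix (Fin N) (Fin N) E)
    (h : M.transpose * J * M = J) (x y : Fin N → E) :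
    Matrix.toBilin' J (M.mulVec x) (M.mulVec y) = Matrix.toBilin' J x y := by
  rw [Matrix.toBilin'_apply', Matrix.toBilin'_apply', Matrix.mulVec_mulVec,
    ← Matrix.vecMul_transpose, ← Matrix.dotProduct_mulVec, Matrix.mulVec_mulVec,
    ← Matrix.mul_assoc, h]

theorem es_big {G R : Type*} [Group G] [TopologicalSpace G] [IsTopologicalGroup G]
    [CompactSpace G] [Fintype R] {m : R → ℕ} {N : ℕ}
    (ρ : G →* Matrix (Fin N) (Fin N) ℤ_[2]) (hρ : Continuous ρ)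
    (π : ∀ r, G →* Perm (Fin (m r))) (hπ : ∀ r, IsOpen ((π r).ker : Set G))
    (h8 : ∀ r, 8 ≤ m r) (hev : ∀ r, Even (m r)) (hN : N = ∑ r, (m r - 2))
    (hπt : ∀ g, PadicInt.toZMod (ρ g).trace = ∑ r, (fx (π r g) : ZMod 2))
    (hfull : ∀ r c, Perm.IsThreeCycle c → ∃ g, π r g = c ∧ ∀ r', r' ≠ r → π r' g = 1)
    (J : Matrix (Fin N) (Fin N) ℚ_[2]) (hJ : J.transpose = J) (hJ0 : J.det ≠ 0)
    (hJρ : ∀ g, ((ρ g).map (algebraMap ℤ_[2] ℚ_[2])).transpose * J *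
      (ρ g).map (algebraMap ℤ_[2] ℚ_[2]) = J)
    (H : Subgroup G) (hHn : H.Normal) [H.FiniteIndex]
    (hH : ∀ h ∈ H, ‖AC ρ h - 1‖ ≤ ‖((2 : ℕ) : ℂ_[2])‖ ^ 2) :
    ∃ W : R → Submodule ℂ_[2] (Fin N → ℂ_[2]), ⨆ r, W r = ⊤ ∧
      (∀ i j, W i = W j ∨ ∀ x ∈ W i, ∀ y ∈ W j,
        Matrix.toBilin' (J.map (algebraMap ℚ_[2] ℂ_[2])) x y = 0) ∧
      (∀ i g, ∀ v ∈ W i, (AC ρ g).mulVec v ∈ W i) ∧ (∀ i, Even (finrank ℂ_[2] (W i))) ∧
      ∀ i, ∀ x ∈ W i, ∀ y ∈ W i, ∃ X ∈ sp (AC ρ) H 2, ∀ v ∈ W i, X.mulVec v =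
        Matrix.toBilin' (J.map (algebraMap ℚ_[2] ℂ_[2])) y v • x -
          Matrix.toBilin' (J.map (algebraMap ℚ_[2] ℂ_[2])) x v • y := by
  classical
  set ιF : ℤ_[2] →+* ℚ_[2] := algebraMap ℤ_[2] ℚ_[2] with hιF
  set ι : ℤ_[2] →+* ℂ_[2] := (algebraMap ℚ_[2] ℂ_[2]).comp (algebraMap ℤ_[2] ℚ_[2]) with hι
  set JC : Matrix (Fin N) (Fin N) ℂ_[2] := J.map (algebraMap ℚ_[2] ℂ_[2]) with hJC
  have hAC : ∀ g, AC ρ g = (ρ g).map ι := fun g => rfl
  have hιFi : Function.Injective ιF := FaithfulSMul.algebraMap_injective _ _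
  have hιi : Function.Injective ι := (algebraMap ℚ_[2] ℂ_[2]).injective.comp hιFi
  have hJCt : JC.transpose = JC := by rw [hJC, ← Matrix.transpose_map, hJ]
  have hJC0 : JC.det ≠ 0 := by
    have h1 : JC.det = algebraMap ℚ_[2] ℂ_[2] J.det := by
      rw [RingHom.map_det]
      rfl
    rw [h1, map_ne_zero_iff _ (algebraMap ℚ_[2] ℂ_[2]).injective]
    exact hJ0
  have hJCρ : ∀ g, ((ρ g).map ι).transpose * JC * (ρ g).map ι = JC := by
    intro g
    have h1 := congrArg (fun M : Matrix (Fin N) (Fin N) ℚ_[2] => M.map (algebraMap ℚ_[2] ℂ_[2]))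
      (hJρ g)
    simp only [Matrix.map_mul, Matrix.transpose_map, Matrix.map_map] at h1
    exact h1
  have hR := res_tr h8 hN hπt hfull hρ hπ
  have hP := es_pro2 (res_ov h8 hN hπt hfull)
  obtain ⟨hsF, hnF⟩ := form_of J hJ hJ0
  obtain ⟨hsC, hnC⟩ := form_of JC hJCt hJC0
  have CF : Str ρ π (Tr ρ π) ιF (Matrix.toBilin' J) :=
    str_tr hιFi hR hsF hnF fun g x y => form_inv J _ (hJρ g) x y
  have CC : Str ρ π (Tr ρ π) ι (Matrix.toBilin' JC) :=
    str_tr hιi hR hsC hnC fun g x y => form_inv JC _ (hJCρ g) x y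
  have hp0 : ((2 : ℕ) : ℂ_[2]) ≠ 0 := Nat.cast_ne_zero.mpr two_ne_zero
  have hp1 : ‖((2 : ℕ) : ℂ_[2])‖ < 1 := by
    have h1 : ((2 : ℕ) : ℂ_[2]) = algebraMap ℚ_[2] ℂ_[2] ((2 : ℕ) : ℚ_[2]) := by
      rw [map_natCast]
    rw [h1, norm_algebraMap']
    exact_mod_cast Padic.norm_p_lt_one (p := 2)
  refine ⟨fun r => mv (act ρ ι) (Tr ρ π r), es_top CC, es_eq_or CC,
    fun r g v hv => es_stab CC r g v hv, fun r => ?_, fun r x hx y hy => ?_⟩
  · rw [es_dim CC r]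
    refine Finset.even_sum _ fun r' _ => ?_
    have h1 := h8 r'
    obtain ⟨k, hk⟩ := hev r'
    exact ⟨k - 1, by omega⟩
  · have hsk : ∀ X ∈ sp (AC ρ) H 2, ∀ x y, Matrix.toBilin' JC (X.mulVec x) y =
        -Matrix.toBilin' JC x (X.mulVec y) := fun X hX x y =>
      SD.lo_skew hp0 hp1 (AC ρ) H hH (Matrix.toBilin' JC)
        (fun g _ x y => form_inv JC _ (hJCρ g) x y) hX x y
    have hpr : ∀ X ∈ sp (AC ρ) H 2, ∀ v ∈ mv (act ρ ι) (Tr ρ π r),
        X.mulVec v ∈ mv (act ρ ι) (Tr ρ π r) := fun X hX v hv =>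
      SD.lo_pres hp0 hp1 (AC ρ) H hH _ (fun g _ v hv => es_stab CC r g v hv) hX v hv
    refine wedge_mem CC r (sp (AC ρ) H 2) hsk
      (fun X hX Y hY => sp_bracket (AC ρ) H hp0 hp1 hHn hH hX hY)
      (fun g X hX => sp_conj (AC ρ) H hp0 hp1 hHn hH g hX) hpr ?_ hx hy
    by_contra hcon
    push Not at hcon
    refine not_finite no_cube_root CF CC r hP H fun g hg => ?_
    have h1 := (mv_iff (ρ := ρ) ι hιi (ρ g) 1 (Tr ρ π r)).mp
    simp only [map_one, one_smul] at h1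
    refine h1 fun u hu => ?_
    have h2 := hcon _ (lg_mem_sp (AC ρ) H 2 hg) u hu
    exact (SD.lo_fix hp0 hp1 (hH g hg) u).mp h2

end Pool.Agent.ES
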