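import Mathlib

/-!
# Definitions for elliptic surfaces with a section of order two, strong form (MP_97f789_ag)
-/

set_option autoImplicit false

namespace Pool.Agent.ES

open Equiv

/-- The number of fixed points of a permutation. -/
def fx {k : ℕ} (σ : Perm (Fin k)) : ℕ := Fintype.card {x // σ x = x}

/-- The matrix modulo `2` of a permutation. -/
def pm {k : ℕ} (σ : Perm (Fin k)) : Matrix (Fin k) (Fin k) (ZMod 2) :=
  Matrix.of fun i j => if σ j = i then 1 else 0

/-- The permutation `a ↦ b ↦ c ↦ a`. -/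
def c3 {k : ℕ} (a b c : Fin k) : Perm (Fin k) := swap a c * swap a b

/-- The compact ring that contains `ρ(g)` and the permutation matrices modulo `2`. -/
abbrev Rg {R : Type*} (m : R → ℕ) (N : ℕ) : Type _ :=
  Matrix (Fin N) (Fin N) ℤ_[2] × (∀ r, Matrix (Fin (m r)) (Fin (m r)) (ZMod 2))

section

variable {G R : Type*} [Group G] {m : R → ℕ} {N : ℕ} (ρ : G →* Matrix (Fin N) (Fin N) ℤ_[2])
  (π : ∀ r, G →* Perm (Fin (m r)))

/-- The image of a group element in the compact ring. -/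
noncomputable def phi (x : G) : Rg m N := (ρ x, fun r => pm (π r x))

/-- The closed subring generated by the products `φ(x) (φ(s) - 1) φ(y)` with `x, y ∈ H` and
`s ∈ S`. -/
noncomputable def idl (H : Subgroup G) (S : Set G) : NonUnitalSubring (Rg m N) :=
  (NonUnitalSubring.closure {z | ∃ x ∈ H, ∃ s ∈ S, ∃ y ∈ H,
    z = phi ρ π x * (phi ρ π s - 1) * phi ρ π y}).topologicalClosure

/-- The matrices `ρ(g)` over the field `E`. -/
noncomputable def act {E : Type*} [Field E] (ι : ℤ_[2] →+* E) :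
    G →* Module.End E (Fin N → E) where
  toFun g := Matrix.toLin' ((ρ g).map ι)
  map_one' := by
    rw [map_one, Matrix.map_one ι (map_zero ι) (map_one ι), Matrix.toLin'_one]
    rfl
  map_mul' x y := by
    rw [map_mul, Matrix.map_mul, Matrix.toLin'_mul]
    rfl

end

/-- The residual hypotheses: over every `3`-cycle of `X_r = Fin (m r)` there is an element of
`S r`, it acts trivially on the other sets, and the traces modulo `2` are those of the permutation
representation. -/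
structure Res {G R : Type*} [Group G] [Fintype R] (m : R → ℕ) (N : ℕ)
    (ρ : G →* Matrix (Fin N) (Fin N) ℤ_[2]) (π : ∀ r, G →* Perm (Fin (m r)))
    (S : R → Set G) : Prop where
  big : ∀ r, 8 ≤ m r
  dim : N = ∑ r, (m r - 2)
  cyc : ∀ r, ∀ s ∈ S r, (π r s).IsThreeCycle
  one : ∀ r, ∀ s ∈ S r, ∀ r', r' ≠ r → π r' s = 1
  full : ∀ r c, Perm.IsThreeCycle c → ∃ s ∈ S r, π r s = c
  tr : ∀ r, ∀ s ∈ S r, ∀ x, PadicInt.toZMod ((ρ (s * x)).trace - (ρ x).trace) =
    (fx (π r (s * x)) : ZMod 2) - fx (π r x)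

/-- The sum of the ranges of `ρ(s) - 1`, `s ∈ S`. -/
def mv {E V G : Type*} [Field E] [AddCommGroup V] [Module E V] [Group G]
    (ρ : G →* Module.End E V) (S : Set G) : Submodule E V :=
  ⨆ s ∈ S, LinearMap.range (ρ s - 1)

open Module

section

variable {G R : Type*} [Group G] [Fintype R] {m : R → ℕ} {N : ℕ}

/-- An idempotent over a rank one idempotent of the heart of `X_r`. -/
def Good [DecidableEq R] (r : R) (z : Rg m N) : Prop :=
  z * z = z ∧ ∃ v w : Fin (m r) → ZMod 2, ∑ i, v i = 0 ∧ ∑ i, w i = 0 ∧ w ⬝ᵥ v = 1 ∧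
    z.2 = Pi.single r (Matrix.vecMulVec v w)

end

/-- The standing assumptions of the structure theorem. -/
structure Str {G R E : Type*} [Group G] [Fintype R] [Field E] {m : R → ℕ} {N : ℕ}
    (ρ : G →* Matrix (Fin N) (Fin N) ℤ_[2]) (π : ∀ r, G →* Perm (Fin (m r))) (S : R → Set G)
    (ι : ℤ_[2] →+* E) (b : LinearMap.BilinForm E (Fin N → E)) : Prop where
  res : Res m N ρ π S
  cube : ∀ r, ∀ s ∈ S r, ρ s ^ 3 = 1
  conj : ∀ r, ∀ s ∈ S r, ∀ g, g * s * g⁻¹ ∈ S r
  inj : Function.Injective ι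
  symm : ∀ x y, b x y = b y x
  nondeg : ∀ x, (∀ y, b x y = 0) → x = 0
  orth : ∀ g x y, b (act ρ ι g x) (act ρ ι g y) = b x y

/-- The assumptions on a group of orthogonal operators. -/
structure Grp {E V G : Type*} [Field E] [AddCommGroup V] [Module E V] [Group G]
    (b : LinearMap.BilinForm E V) (ρ : G →* Module.End E V) (T : Set G) : Prop where
  symm : ∀ x y, b x y = b y x
  nondeg : ∀ x, (∀ y, b x y = 0) → x = 0
  orth : ∀ g x y, b (ρ g x) (ρ g y) = b x y
  cube : ∀ s ∈ T, ρ s ^ 3 = 1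
  rank : ∀ s ∈ T, finrank E (LinearMap.range (ρ s - 1)) = 2
  irr : ∀ U : Submodule E V, (∀ s ∈ T, ∀ u ∈ U, ρ s u ∈ U) → U = ⊥ ∨ U = ⊤

/-- A system of orthogonal operators of order three and rank two over the `3`-cycles. -/
structure Car {F V : Type*} [Field F] [AddCommGroup V] [Module F V] {m : ℕ}
    (b : LinearMap.BilinForm F V) (τ : Perm (Fin m) → Module.End F V) : Prop where
  symm : ∀ x y, b x y = b y x
  nondeg : ∀ x, (∀ y, b x y = 0) → x = 0
  orth : ∀ c, Perm.IsThreeCycle c → ∀ x y, b (τ c x) (τ c y) = b x y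
  cube : ∀ c, Perm.IsThreeCycle c → τ c ^ 3 = 1
  rank : ∀ c, Perm.IsThreeCycle c → finrank F (LinearMap.range (τ c - 1)) = 2
  inv : ∀ c, Perm.IsThreeCycle c → τ c⁻¹ = τ c ^ 2
  conj : ∀ c d, Perm.IsThreeCycle c → Perm.IsThreeCycle d →
    τ c * τ d = τ (c * d * c⁻¹) * τ c
  sq : ∀ a b x y : Fin m, a ≠ b → a ≠ x → a ≠ y → b ≠ x → b ≠ y → x ≠ y →
    (τ (c3 a b x) * τ (c3 a b y)) ^ 2 = 1
  ne : ∀ a b x y : Fin m, a ≠ b → a ≠ x → a ≠ y → b ≠ x → b ≠ y → x ≠ y →
    τ (c3 a b x) * τ (c3 a b y) ≠ 1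

end Pool.Agent.ES
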