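import Pool.Agent.Lib_helper55.ESF.Basic

/-!
# Finite images on a piece are impossible: the sign lemma (MP_97f789_ag, strong form)
-/

set_option autoImplicit false

namespace Pool.Agent.ES

open Equiv Module Filter Topology

section Pow

variable {G : Type*} [Group G] {N : ℕ} {ρ : G →* Matrix (Fin N) (Fin N) ℤ_[2]}

theorem pow_fix {M X : Matrix (Fin N) (Fin N) ℤ_[2]} (h : M * X = X) (n : ℕ) :
    M ^ n * X = X := by
  induction n with
  | zero => simp
  | succ n ih => rw [pow_succ, mul_assoc, h, ih]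

/-- Elements with `ρ(x) ^ (2 ^ j) → 1` have the order of a power of two on a piece on which the
image is finite. -/
theorem pow_two {x : G} (h : Tendsto (fun j : ℕ => ρ x ^ 2 ^ j) atTop (𝓝 1)) (S : Set G)
    (K : Subgroup G) [K.FiniteIndex] (hK : ∀ g ∈ K, ∀ s ∈ S, ρ g * (ρ s - 1) = ρ s - 1) :
    ∃ k : ℕ, ∀ s ∈ S, ρ x ^ 2 ^ k * (ρ s - 1) = ρ s - 1 := by
  obtain ⟨n, hn0, -, hn⟩ := K.exists_pow_mem_of_index_ne_zero
    (Subgroup.FiniteIndex.index_ne_zero) x
  obtain ⟨a, q, hq, rfl⟩ := Nat.exists_eq_two_pow_mul_odd hn0.ne'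
  refine ⟨a, fun s hs => ?_⟩
  have hcop : Nat.Coprime 2 q := (Nat.coprime_two_left).mpr hq
  have hq1 : (ρ x ^ 2 ^ a) ^ q * (ρ s - 1) = ρ s - 1 := by
    rw [← pow_mul, ← map_pow]
    exact hK _ hn s hs
  have hconst : ∀ i : ℕ, ρ x ^ 2 ^ (a + q.totient * i) * (ρ s - 1) =
      ρ x ^ 2 ^ a * (ρ s - 1) := by
    intro i
    have h1 : 2 ^ (q.totient * i) ≡ 1 [MOD q] := by
      have := (Nat.ModEq.pow_totient hcop).pow i
      rwa [← pow_mul, one_pow] at this
    have h2 : 1 ≤ 2 ^ (q.totient * i) := Nat.one_le_two_pow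
    obtain ⟨c, hc⟩ := (Nat.modEq_iff_dvd' h2).mp h1.symm
    have h3 : 2 ^ (a + q.totient * i) = 2 ^ a + 2 ^ a * (q * c) := by
      have : 2 ^ (q.totient * i) = 1 + q * c := by omega
      rw [pow_add, this]
      ring
    rw [h3, pow_add, mul_assoc, pow_mul, pow_mul, pow_fix hq1]
  have hlim : Tendsto (fun i : ℕ => ρ x ^ 2 ^ (a + q.totient * i) * (ρ s - 1)) atTop
      (𝓝 (1 * (ρ s - 1))) := by
    refine Tendsto.mul_const _ (h.comp ?_)
    refine tendsto_atTop_mono (fun i => ?_) tendsto_id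
    have : 1 ≤ q.totient := Nat.totient_pos.mpr hq.pos
    simp only [id]
    nlinarith
  rw [one_mul] at hlim
  simp_rw [hconst] at hlim
  exact tendsto_nhds_unique tendsto_const_nhds hlim

end Pow

end Pool.Agent.ES
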