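import Pool.Agent.Lib_helper55.ESF.Fin1

/-!
# Finite images on a piece are impossible: the sign lemma, continued (MP_97f789_ag, strong form)
-/

set_option autoImplicit false

namespace Pool.Agent.ES

open Equiv Module Filter Topology

section

variable {G R E : Type*} [Group G] [Fintype R] [Field E] {m : R → ℕ} {N : ℕ}
  {ρ : G →* Matrix (Fin N) (Fin N) ℤ_[2]} {π : ∀ r, G →* Perm (Fin (m r))} {S : R → Set G}
  {ι : ℤ_[2] →+* E} {b : LinearMap.BilinForm E (Fin N → E)}

/-- The representation on a piece. -/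
noncomputable def rs (C : Str ρ π S ι b) (r : R) : G →* Module.End E (mv (act ρ ι) (S r)) where
  toFun g := (act ρ ι g).restrict (es_stab C r g)
  map_one' := by
    ext x
    simp
  map_mul' g h := by
    ext x
    simp

theorem rs_apply (C : Str ρ π S ι b) (r : R) (g : G) (x : mv (act ρ ι) (S r)) :
    ((rs C r g x : mv (act ρ ι) (S r)) : Fin N → E) = act ρ ι g x := rfl

theorem exists_mem (hR : Res m N ρ π S) (r : R) : ∃ s, s ∈ S r := by
  have h8 := hR.big r
  have h := hR.full r (c3 ⟨0, by omega⟩ ⟨1, by omega⟩ ⟨2, by omega⟩) (by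
    rw [c3]
    apply Perm.isThreeCycle_swap_mul_swap_same <;> simp [Fin.ext_iff])
  obtain ⟨s, hs, -⟩ := h
  exact ⟨s, hs⟩

theorem act_cube (C : Str ρ π S ι b) {r : R} {s : G} (hs : s ∈ S r) : act ρ ι s ^ 3 = 1 := by
  rw [← map_pow]
  ext1 x
  have h : ρ (s ^ 3) = 1 := by rw [map_pow, C.cube r s hs]
  ext1
  rw [LinearMap.comp_apply, act_apply, h, Matrix.map_one ι (map_zero ι) (map_one ι),
    Matrix.one_mulVec]
  rfl

theorem three_ne (C : Str ρ π S ι b) : (3 : E) ≠ 0 := by
  have h : ι 3 ≠ 0 := by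
    rw [map_ne_zero_iff ι C.inj]
    norm_num
  rwa [map_ofNat] at h

/-- A vector of the range of `s - 1` comes from the range itself. -/
theorem range_range {V : Type*} [AddCommGroup V] [Module E V] {s : Module.End E V}
    (h : s ^ 3 = 1) (h3 : (3 : E) ≠ 0) {x : V} (hx : x ∈ LinearMap.range (s - 1)) :
    ∃ y ∈ LinearMap.range (s - 1), (s - 1) y = x := by
  obtain ⟨z, rfl⟩ := hx
  have h1 : s (s (s z)) = z := by
    have := congrArg (fun f : Module.End E V => f z) h
    simpa [pow_succ, Module.End.mul_apply] using this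
  refine ⟨(s - 1) ((3 : E)⁻¹ • (s (s z) - z)), ⟨_, rfl⟩, ?_⟩
  simp only [map_smul, LinearMap.sub_apply, map_sub, Module.End.one_apply, h1]
  rw [inv_smul_eq_iff₀ h3]
  rw [show (3 : E) • (s z - z) = (s z - z) + (s z - z) + (s z - z) by
    rw [show (3 : E) = 1 + 1 + 1 by norm_num, add_smul, add_smul, one_smul]]
  abel

theorem rs_rank (C : Str ρ π S ι b) (r : R) {s : G} (hs : s ∈ S r) :
    finrank E (LinearMap.range (rs C r s - 1)) = 2 := by
  rw [← es_rank2 ι C.inj C.res r s hs (C.cube r s hs)]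
  have h1 : LinearMap.range (act ρ ι s - 1) =
      (LinearMap.range (rs C r s - 1)).map (mv (act ρ ι) (S r)).subtype := by
    apply le_antisymm
    · intro x hx
      obtain ⟨y, hy, rfl⟩ := range_range (act_cube C hs) (three_ne C) hx
      have hy' := range_le_mv (act ρ ι) hs hy
      exact ⟨(rs C r s - 1) ⟨y, hy'⟩, ⟨_, rfl⟩, rfl⟩
    · rintro _ ⟨_, ⟨y, rfl⟩, rfl⟩
      exact ⟨(y : Fin N → E), rfl⟩
  rw [h1]
  exact (LinearEquiv.finrank_eq (Submodule.equivMapOfInjective _ (Submodule.injective_subtype _)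
    _))

theorem rs_irr (C : Str ρ π S ι b) (r : R) {σ : G} (hσ : σ ∈ S r)
    (U : Submodule E (mv (act ρ ι) (S r))) (hU : ∀ g, ∀ u ∈ U, rs C r (g * σ * g⁻¹) u ∈ U) :
    U = ⊥ ∨ U = ⊤ := by
  have h := es_irr C r σ hσ (U.map (mv (act ρ ι) (S r)).subtype) (by
    rintro _ ⟨x, -, rfl⟩
    exact x.2) (by
    rintro g _ ⟨x, hx, rfl⟩
    exact ⟨_, hU g x hx, rfl⟩)
  rcases h with h | h
  · left
    apply Submodule.map_injective_of_injective (Submodule.injective_subtype _)
    rw [h, Submodule.map_bot]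
  · right
    apply Submodule.map_injective_of_injective (Submodule.injective_subtype _)
    rw [h, Submodule.map_subtype_top]

theorem rs_grp (C : Str ρ π S ι b) (r : R) :
    Grp (b.restrict (mv (act ρ ι) (S r))) (rs C r) (S r) where
  symm x y := C.symm x y
  nondeg x h := by
    have h1 := es_nondeg C r x x.2 fun y hy => h ⟨y, hy⟩
    exact Subtype.ext h1
  orth g x y := C.orth g x y
  cube s hs := by
    rw [← map_pow]
    ext x
    rw [rs_apply, map_pow, act_cube C hs]
    rfl
  rank s hs := rs_rank C r hs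
  irr U hU := by
    obtain ⟨σ, hσ⟩ := exists_mem C.res r
    exact rs_irr C r hσ U fun g u hu => hU _ (C.conj r σ hσ g) u hu

end

end Pool.Agent.ES
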