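import Pool.Agent.Lib_helper55.ESF.Fin2

/-!
# Finite images on a piece are impossible: the sign lemma, end (MP_97f789_ag, strong form)
-/

set_option autoImplicit false

namespace Pool.Agent.ES

open Equiv Module Filter Topology

section

variable {G R E : Type*} [Group G] [Fintype R] [Field E] {m : R → ℕ} {N : ℕ}
  {ρ : G →* Matrix (Fin N) (Fin N) ℤ_[2]} {π : ∀ r, G →* Perm (Fin (m r))} {S : R → Set G}
  {ι : ℤ_[2] →+* E} {b : LinearMap.BilinForm E (Fin N → E)}

theorem rs_eq_one_iff (C : Str ρ π S ι b) (r : R) (g : G) :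
    rs C r g = 1 ↔ ∀ s ∈ S r, ρ g * (ρ s - 1) = ρ s - 1 := by
  have h := mv_iff (ρ := ρ) ι C.inj (ρ g) 1 (S r)
  simp only [map_one, one_smul] at h
  rw [← h]
  constructor
  · intro h1 u hu
    exact congrArg Subtype.val (LinearMap.congr_fun h1 (⟨u, hu⟩ : mv (act ρ ι) (S r)))
  · intro h1
    ext1 x
    exact Subtype.ext (h1 x x.2)

theorem rs_eq_neg_iff (C : Str ρ π S ι b) (r : R) (g : G) :
    rs C r g = -1 ↔ ∀ s ∈ S r, ρ g * (ρ s - 1) = -(ρ s - 1) := by
  have h := mv_iff (ρ := ρ) ι C.inj (ρ g) (-1) (S r)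
  simp only [map_neg, map_one, neg_smul, one_smul] at h
  rw [← h]
  constructor
  · intro h1 u hu
    exact congrArg Subtype.val (LinearMap.congr_fun h1 (⟨u, hu⟩ : mv (act ρ ι) (S r)))
  · intro h1
    ext1 x
    exact Subtype.ext (h1 x x.2)

theorem six_le (C : Str ρ π S ι b) (r : R) : 6 ≤ finrank E (mv (act ρ ι) (S r)) := by
  classical
  have h := es_low ι C.inj C.res {r} (mv (act ρ ι) (S r)) (by
    intro r' hr'
    rw [Finset.mem_singleton] at hr'
    rw [hr'])
  rw [Finset.sum_singleton] at h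
  have := C.res.big r
  omega

theorem rs_finite (C : Str ρ π S ι b) (r : R) (K : Subgroup G) [K.FiniteIndex]
    (hK : ∀ g ∈ K, ∀ s ∈ S r, ρ g * (ρ s - 1) = ρ s - 1) (P : Set G) :
    ((rs C r) '' P).Finite := by
  have hfin : Finite (G ⧸ K) := inferInstance
  refine Set.Finite.subset (Set.finite_range fun q : G ⧸ K => rs C r q.out) ?_
  rintro _ ⟨g, -, rfl⟩
  refine ⟨(g : G ⧸ K), ?_⟩
  have h1 : ((g : G ⧸ K).out)⁻¹ * g ∈ K := by
    rw [← QuotientGroup.eq, QuotientGroup.out_eq']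
  have h2 := (rs_eq_one_iff C r _).mpr (hK _ h1)
  have h3 : rs C r g = rs C r (g : G ⧸ K).out * rs C r (((g : G ⧸ K).out)⁻¹ * g) := by
    rw [← map_mul, mul_inv_cancel_left]
  rw [h3, h2, mul_one]

/-- The sign lemma. -/
theorem sign [IsAlgClosed E] [CharZero E] (C : Str ρ π S ι b) (r : R) (K : Subgroup G)
    [K.FiniteIndex] (hK : ∀ g ∈ K, ∀ s ∈ S r, ρ g * (ρ s - 1) = ρ s - 1)
    (hP : ∀ x, (∀ r, π r x = 1) → Tendsto (fun j : ℕ => ρ x ^ 2 ^ j) atTop (𝓝 1)) (x : G)
    (hx : ∀ r, π r x = 1) :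
    (∀ s ∈ S r, ρ x * (ρ s - 1) = ρ s - 1) ∨ ∀ s ∈ S r, ρ x * (ρ s - 1) = -(ρ s - 1) := by
  classical
  have h6 := six_le C r
  set P : Subgroup G := ⨅ r, (π r).ker with hPd
  have hmem : ∀ x, x ∈ P ↔ ∀ r, π r x = 1 := by
    intro x
    rw [hPd, Subgroup.mem_iInf]
    rfl
  have hn : P.Normal := by
    constructor
    intro y hy g
    rw [hmem] at hy ⊢
    intro r'
    rw [map_mul, map_mul, hy r', mul_one, map_inv, mul_inv_cancel]
  have h2 : ∀ x ∈ P, ∃ k : ℕ, rs C r x ^ 2 ^ k = 1 := by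
    intro y hy
    obtain ⟨k, hk⟩ := pow_two (hP y ((hmem y).mp hy)) (S r) K hK
    refine ⟨k, ?_⟩
    rw [← map_pow, rs_eq_one_iff]
    intro s hs
    rw [map_pow]
    exact hk s hs
  rcases es_two (rs_grp C r) (by omega) P hn h2 (rs_finite C r K hK _) with h | h
  · obtain ⟨c, hc⟩ := h x ((hmem x).mpr hx)
    have hc2 : c ^ 2 = 1 := by
      by_contra hne
      have hz : ∀ u : mv (act ρ ι) (S r), u = 0 := by
        intro u
        apply (rs_grp C r).nondeg
        intro v
        have h4 := (rs_grp C r).orth x u v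
        rw [hc] at h4
        simp only [LinearMap.smul_apply, Module.End.one_apply, map_smul, smul_eq_mul] at h4
        have h5 : (c ^ 2 - 1) * (b.restrict (mv (act ρ ι) (S r))) u v = 0 := by
          linear_combination h4
        rcases mul_eq_zero.mp h5 with h6 | h6
        · exact absurd (sub_eq_zero.mp h6) hne
        · exact h6
      have h7 : Subsingleton (mv (act ρ ι) (S r)) := ⟨fun a b => by rw [hz a, hz b]⟩
      rw [Module.finrank_zero_of_subsingleton] at h6
      omega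
    have h9 : (c - 1) * (c + 1) = 0 := by linear_combination hc2
    rcases (mul_eq_zero.mp h9).imp sub_eq_zero.mp eq_neg_of_add_eq_zero_left with h8 | h8
    · left
      rw [← rs_eq_one_iff C r, hc, h8, one_smul]
    · right
      rw [← rs_eq_neg_iff C r, hc, h8]
      ext u
      simp
  · exfalso
    obtain ⟨A, hA, hAP, hcomm, hns⟩ := h
    obtain ⟨w, -, hw⟩ := es_frame (rs_grp C r) A hA (by
      intro y hy
      obtain ⟨k, hk⟩ := h2 y (hAP hy)
      exact ⟨2 ^ k, by positivity, hk⟩) hcomm hns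
    refine es_noframe ι C.inj C.res C.cube
      (Finset.univ.filter fun r' => mv (act ρ ι) (S r') = mv (act ρ ι) (S r)) ⟨r, by simp⟩
      (mv (act ρ ι) (S r)) (fun g u hu => es_stab C r g u hu) (by
        intro r' hr'
        rw [(Finset.mem_filter.mp hr').2]) _ (es_dim C r) w (fun g i => ?_)
    obtain ⟨j, h | h⟩ := hw g i
    · exact ⟨j, Or.inl (congrArg Subtype.val h)⟩
    · exact ⟨j, Or.inr (congrArg Subtype.val h)⟩

end

end Pool.Agent.ES
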