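import Pool.Agent.Lib_helper55.ESF.Fin3

/-!
# Finite images on a piece are impossible: the planes (MP_97f789_ag, strong form)
-/

set_option autoImplicit false

namespace Pool.Agent.ES

open Equiv Module Filter Topology

theorem c3_mul {k : ℕ} {a b x y : Fin k} (hay : a ≠ y) (hby : b ≠ y) :
    c3 a b x * c3 a b y = swap a x * swap b y := by
  have h : swap a b * swap a y * swap a b = swap b y := by
    have h1 := swap_apply_apply (swap a b) a y
    rw [swap_apply_left, swap_apply_of_ne_of_ne hay.symm hby.symm, swap_inv] at h1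
    exact h1.symm
  rw [c3, c3, mul_assoc, ← mul_assoc (swap a b), h]

theorem c3_three {k : ℕ} {a b x : Fin k} (hab : a ≠ b) (hax : a ≠ x) (hbx : b ≠ x) :
    (c3 a b x).IsThreeCycle :=
  Perm.isThreeCycle_swap_mul_swap_same hax hab hbx.symm

section

variable {G R F : Type*} [Group G] [Fintype R] [Field F] {m : R → ℕ} {N : ℕ}
  {ρ : G →* Matrix (Fin N) (Fin N) ℤ_[2]} {π : ∀ r, G →* Perm (Fin (m r))} {S : R → Set G}
  {ι : ℤ_[2] →+* F} {b : LinearMap.BilinForm F (Fin N → F)}

theorem finrank_ker (C : Str ρ π S ι b) (r r' : R) {s : G} (hs : s ∈ S r') :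
    finrank F (mv (act ρ ι) (S r)) ≤ finrank F (LinearMap.ker (rs C r s - 1)) + 2 := by
  have h1 := LinearMap.finrank_range_add_finrank_ker (rs C r s - 1)
  have h2 : finrank F (LinearMap.range (rs C r s - 1)) ≤ 2 := by
    rw [← es_rank2 ι C.inj C.res r' s hs (C.cube r' s hs),
      ← Submodule.finrank_map_subtype_eq (mv (act ρ ι) (S r)) (LinearMap.range (rs C r s - 1))]
    apply Submodule.finrank_mono
    rintro _ ⟨_, ⟨y, rfl⟩, rfl⟩
    exact ⟨(y : Fin N → F), rfl⟩
  omega

theorem common (C : Str ρ π S ι b) (r r₁ r₂ : R) {s t : G} (hs : s ∈ S r₁) (ht : t ∈ S r₂) :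
    ∃ v : mv (act ρ ι) (S r), v ≠ 0 ∧ rs C r s v = v ∧ rs C r t v = v := by
  have h1 := finrank_ker C r r₁ hs
  have h2 := finrank_ker C r r₂ ht
  have h3 := six_le C r
  have h4 := Submodule.finrank_sup_add_finrank_inf_eq (LinearMap.ker (rs C r s - 1))
    (LinearMap.ker (rs C r t - 1))
  have h5 := Submodule.finrank_le (LinearMap.ker (rs C r s - 1) ⊔ LinearMap.ker (rs C r t - 1))
  have h6 : 0 < finrank F ↥(LinearMap.ker (rs C r s - 1) ⊓ LinearMap.ker (rs C r t - 1)) := by
    omega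
  have h7 : LinearMap.ker (rs C r s - 1) ⊓ LinearMap.ker (rs C r t - 1) ≠ ⊥ := by
    intro h
    rw [h, finrank_bot] at h6
    omega
  obtain ⟨v, hv, hv0⟩ := Submodule.exists_mem_ne_zero_of_ne_bot h7
  refine ⟨v, hv0, ?_, ?_⟩
  · have := LinearMap.mem_ker.mp hv.1
    rwa [LinearMap.sub_apply, Module.End.one_apply, sub_eq_zero] at this
  · have := LinearMap.mem_ker.mp hv.2
    rwa [LinearMap.sub_apply, Module.End.one_apply, sub_eq_zero] at this

theorem rs_inv_fix (C : Str ρ π S ι b) (r : R) {g : G} {v : mv (act ρ ι) (S r)}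
    (h : rs C r g v = v) : rs C r g⁻¹ v = v := by
  conv_lhs => rw [← h]
  rw [← Module.End.mul_apply, ← map_mul, inv_mul_cancel, map_one, Module.End.one_apply]

/-- An element of the kernel with a nonzero fixed vector in the piece acts trivially. -/
theorem key (h2 : (2 : F) ≠ 0) (C : Str ρ π S ι b) (r : R)
    (hsg : ∀ x, (∀ r, π r x = 1) → (∀ s ∈ S r, ρ x * (ρ s - 1) = ρ s - 1) ∨
      ∀ s ∈ S r, ρ x * (ρ s - 1) = -(ρ s - 1)) {x : G} (hx : ∀ r, π r x = 1)
    {v : mv (act ρ ι) (S r)} (hv0 : v ≠ 0) (hv : rs C r x v = v) : rs C r x = 1 := by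
  rcases hsg x hx with h | h
  · exact (rs_eq_one_iff C r x).mpr h
  · exfalso
    rw [← rs_eq_neg_iff C r x] at h
    rw [h, LinearMap.neg_apply, Module.End.one_apply] at hv
    apply hv0
    have h3 : (2 : F) • v = 0 := by
      rw [two_smul]
      nth_rw 1 [← hv]
      simp
    exact (smul_eq_zero.mp h3).resolve_left h2

theorem eq_of_over (h2 : (2 : F) ≠ 0) (C : Str ρ π S ι b) (r : R)
    (hsg : ∀ x, (∀ r, π r x = 1) → (∀ s ∈ S r, ρ x * (ρ s - 1) = ρ s - 1) ∨
      ∀ s ∈ S r, ρ x * (ρ s - 1) = -(ρ s - 1)) {s t : G} (hs : s ∈ S r) (ht : t ∈ S r)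
    (h : π r s = π r t) : rs C r s = rs C r t := by
  have hx : ∀ r', π r' (s⁻¹ * t) = 1 := by
    intro r'
    by_cases hr : r' = r
    · subst hr
      rw [map_mul, map_inv, h, inv_mul_cancel]
    · rw [map_mul, map_inv, C.res.one r s hs r' hr, C.res.one r t ht r' hr, inv_one, mul_one]
  obtain ⟨v, hv0, hv1, hv2⟩ := common C r r r hs ht
  have h3 := key h2 C r hsg hx hv0 (by
    rw [map_mul, Module.End.mul_apply, hv2]
    exact rs_inv_fix C r hv1)
  have h4 : rs C r t = rs C r s * rs C r (s⁻¹ * t) := by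
    rw [← map_mul, mul_inv_cancel_left]
  rw [h4, h3, mul_one]

/-- The set of indices with the same piece is a singleton. -/
theorem single (h2 : (2 : F) ≠ 0) (C : Str ρ π S ι b) (r : R)
    (hsg : ∀ x, (∀ r, π r x = 1) → (∀ s ∈ S r, ρ x * (ρ s - 1) = ρ s - 1) ∨
      ∀ s ∈ S r, ρ x * (ρ s - 1) = -(ρ s - 1)) {r' : R}
    (h : mv (act ρ ι) (S r') = mv (act ρ ι) (S r)) : r' = r := by
  by_contra hne
  obtain ⟨s', hs'⟩ := exists_mem C.res r'
  obtain ⟨σ, hσ⟩ := exists_mem C.res r
  have hcomm : ∀ s ∈ S r, rs C r s * rs C r s' = rs C r s' * rs C r s := by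
    intro s hs
    have hx : ∀ r'', π r'' (s'⁻¹ * s⁻¹ * s' * s) = 1 := by
      intro r''
      by_cases hr : r'' = r
      · subst hr
        have h1 := C.res.one r' s' hs' r'' (fun h => hne h.symm)
        simp [map_mul, h1]
      · have h1 := C.res.one r s hs r'' hr
        simp [map_mul, h1]
    obtain ⟨v, hv0, hv1, hv2⟩ := common C r r r' hs hs'
    have h3 := key h2 C r hsg hx hv0 (by
      rw [map_mul, map_mul, map_mul, Module.End.mul_apply, Module.End.mul_apply,
        Module.End.mul_apply, hv1, hv2, rs_inv_fix C r hv1, rs_inv_fix C r hv2])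
    have h4 : s' * s = s * s' * (s'⁻¹ * s⁻¹ * s' * s) := by group
    rw [← map_mul, ← map_mul, h4, map_mul _ (s * s'), h3, mul_one]
  have hle : LinearMap.range (act ρ ι s' - 1) ≤ mv (act ρ ι) (S r) := by
    rw [← h]
    exact range_le_mv _ hs'
  have hr2 := es_rank2 ι C.inj C.res r' s' hs' (C.cube r' s' hs')
  rcases es_irr C r σ hσ (LinearMap.range (act ρ ι s' - 1)) hle (by
    intro g u hu
    obtain ⟨y, hy, rfl⟩ := range_range (act_cube C hs') (three_ne C) hu
    have hy' := hle hy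
    have h5 := hcomm _ (C.conj r σ hσ g)
    have h6 : act ρ ι (g * σ * g⁻¹) (act ρ ι s' y) = act ρ ι s' (act ρ ι (g * σ * g⁻¹) y) :=
      congrArg Subtype.val (LinearMap.congr_fun h5 (⟨y, hy'⟩ : mv (act ρ ι) (S r)))
    refine ⟨act ρ ι (g * σ * g⁻¹) y, ?_⟩
    rw [LinearMap.sub_apply, LinearMap.sub_apply, Module.End.one_apply, Module.End.one_apply,
      map_sub, h6]) with h7 | h7
  · rw [h7, finrank_bot] at hr2
    omega
  · rw [h7] at hr2
    have := six_le C r
    omega

end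

end Pool.Agent.ES
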