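import Pool.Agent.Lib_helper55.ESF.Fin4

/-!
# Finite images on a piece are impossible (MP_97f789_ag, strong form)
-/

set_option autoImplicit false

namespace Pool.Agent.ES

open Equiv Module Filter Topology

section

variable {G R F : Type*} [Group G] [Fintype R] [Field F] {m : R → ℕ} {N : ℕ}
  {ρ : G →* Matrix (Fin N) (Fin N) ℤ_[2]} {π : ∀ r, G →* Perm (Fin (m r))} {S : R → Set G}
  {ι : ℤ_[2] →+* F} {b : LinearMap.BilinForm F (Fin N → F)}

open Classical in
/-- The operators over the `3`-cycles. -/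
noncomputable def tau (C : Str ρ π S ι b) (r : R) (c : Perm (Fin (m r))) :
    Module.End F (mv (act ρ ι) (S r)) :=
  if h : c.IsThreeCycle then rs C r (C.res.full r c h).choose else 1

theorem tau_spec (C : Str ρ π S ι b) (r : R) {c : Perm (Fin (m r))} (h : c.IsThreeCycle) :
    ∃ s ∈ S r, π r s = c ∧ tau C r c = rs C r s := by
  classical
  refine ⟨(C.res.full r c h).choose, (C.res.full r c h).choose_spec.1,
    (C.res.full r c h).choose_spec.2, ?_⟩
  rw [tau, dif_pos h]

theorem tau_eq (h2 : (2 : F) ≠ 0) (C : Str ρ π S ι b) (r : R)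
    (hsg : ∀ x, (∀ r, π r x = 1) → (∀ s ∈ S r, ρ x * (ρ s - 1) = ρ s - 1) ∨
      ∀ s ∈ S r, ρ x * (ρ s - 1) = -(ρ s - 1)) {s : G} (hs : s ∈ S r) :
    tau C r (π r s) = rs C r s := by
  obtain ⟨t, ht, h1, h3⟩ := tau_spec C r (C.res.cyc r s hs)
  rw [h3]
  exact eq_of_over h2 C r hsg ht hs h1

theorem car (h2 : (2 : F) ≠ 0) (C : Str ρ π S ι b) (r : R)
    (hsg : ∀ x, (∀ r, π r x = 1) → (∀ s ∈ S r, ρ x * (ρ s - 1) = ρ s - 1) ∨
      ∀ s ∈ S r, ρ x * (ρ s - 1) = -(ρ s - 1)) :
    Car (b.restrict (mv (act ρ ι) (S r))) (tau C r) where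
  symm := (rs_grp C r).symm
  nondeg := (rs_grp C r).nondeg
  orth c hc x y := by
    obtain ⟨s, hs, -, h⟩ := tau_spec C r hc
    rw [h]
    exact (rs_grp C r).orth s x y
  cube c hc := by
    obtain ⟨s, hs, -, h⟩ := tau_spec C r hc
    rw [h]
    exact (rs_grp C r).cube s hs
  rank c hc := by
    obtain ⟨s, hs, -, h⟩ := tau_spec C r hc
    rw [h]
    exact (rs_grp C r).rank s hs
  inv c hc := by
    obtain ⟨s, hs, hπ, h⟩ := tau_spec C r hc
    obtain ⟨t, ht, hπ', h'⟩ := tau_spec C r (Perm.IsThreeCycle.inv hc)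
    obtain ⟨v, hv0, hv1, hv2⟩ := common C r r r hs ht
    have hx : ∀ r', π r' (t * s) = 1 := by
      intro r'
      by_cases hr : r' = r
      · subst hr
        rw [map_mul, hπ, hπ', inv_mul_cancel]
      · rw [map_mul, C.res.one r s hs r' hr, C.res.one r t ht r' hr, mul_one]
    have h3 := key h2 C r hsg hx hv0 (by rw [map_mul, Module.End.mul_apply, hv1, hv2])
    rw [map_mul] at h3
    have h4 := (rs_grp C r).cube s hs
    rw [h, h']
    calc rs C r t = rs C r t * rs C r s ^ 3 := by rw [h4, mul_one]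
      _ = (rs C r t * rs C r s) * rs C r s ^ 2 := by rw [mul_assoc, ← pow_succ']
      _ = _ := by rw [h3, one_mul]
  conj c d hc hd := by
    obtain ⟨s, hs, hπ, h⟩ := tau_spec C r hc
    obtain ⟨t, ht, hπ', h'⟩ := tau_spec C r hd
    have h3 := tau_eq h2 C r hsg (C.conj r t ht s)
    rw [map_mul, map_mul, map_inv, hπ, hπ'] at h3
    rw [h3, h, h', ← map_mul, ← map_mul, inv_mul_cancel_right]
  sq a b' x y hab hax hay hbx hby hxy := by
    have hc := c3_three hab hax hbx
    have hd := c3_three hab hay hby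
    obtain ⟨s, hs, hπ, h⟩ := tau_spec C r hc
    obtain ⟨t, ht, hπ', h'⟩ := tau_spec C r hd
    obtain ⟨v, hv0, hv1, hv2⟩ := common C r r r hs ht
    have hx : ∀ r', π r' ((s * t) ^ 2) = 1 := by
      intro r'
      by_cases hr : r' = r
      · subst hr
        rw [map_pow, map_mul, hπ, hπ', c3_mul hay hby, sq]
        have h5 : Commute (swap a x) (swap b' y) := by
          apply Perm.Disjoint.commute
          apply Perm.disjoint_swap_swap
          simp [hab, hax, hay, hby, hxy, Ne.symm hbx]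
        rw [h5.symm.mul_mul_mul_comm, swap_mul_self, swap_mul_self, mul_one]
      · rw [map_pow, map_mul, C.res.one r s hs r' hr, C.res.one r t ht r' hr, mul_one, one_pow]
    have h3 := key h2 C r hsg hx hv0 (by
      rw [sq, map_mul, map_mul]
      simp only [Module.End.mul_apply, hv1, hv2])
    rw [h, h', ← map_mul, ← map_pow, h3]
  ne a b' x y hab hax hay hbx hby hxy := by
    have hc := c3_three hab hax hbx
    have hd := c3_three hab hay hby
    obtain ⟨s, hs, hπ, h⟩ := tau_spec C r hc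
    obtain ⟨t, ht, hπ', h'⟩ := tau_spec C r hd
    intro h1
    rw [h, h', ← map_mul] at h1
    have h3 := es_faith ι C.inj C.res r (s * t) 1 (Or.inl rfl) (fun u hu => by
      rw [one_smul]
      exact congrArg Subtype.val (LinearMap.congr_fun h1 (⟨u, hu⟩ : mv (act ρ ι) (S r))))
    rw [map_mul, hπ, hπ', c3_mul hay hby] at h3
    have h4 := congrArg (fun f : Perm (Fin (m r)) => f b') h3
    simp only [Perm.coe_mul, Function.comp_apply, swap_apply_left, Perm.coe_one, id_eq] at h4
    rw [swap_apply_of_ne_of_ne hay.symm hxy.symm] at h4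
    exact hby h4.symm

/-- Two structures over a field without primitive cube roots of unity and over an algebraically
closed field: the image on a piece is not finite. -/
theorem not_finite {E : Type*} [Field E] [IsAlgClosed E] [CharZero E] [CharZero F]
    (hF : ∀ x : F, x ^ 2 + x + 1 ≠ 0) {ι' : ℤ_[2] →+* E}
    {b' : LinearMap.BilinForm E (Fin N → E)} (C : Str ρ π S ι b) (C' : Str ρ π S ι' b') (r : R)
    (hP : ∀ x, (∀ r, π r x = 1) → Tendsto (fun j : ℕ => ρ x ^ 2 ^ j) atTop (𝓝 1))
    (K : Subgroup G) [K.FiniteIndex] (hK : ∀ g ∈ K, ∀ s ∈ S r, ρ g * (ρ s - 1) = ρ s - 1) :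
    False := by
  classical
  have hsg := fun x hx => sign C' r K hK hP x hx
  have h2 : (2 : F) ≠ 0 := two_ne_zero
  have h1 := es_cartan hF (C.res.big r) (car h2 C r hsg)
  have h3 : (Finset.univ.filter fun r' => mv (act ρ ι) (S r') = mv (act ρ ι) (S r)) = {r} := by
    ext r'
    rw [Finset.mem_filter, Finset.mem_singleton]
    constructor
    · rintro ⟨-, h⟩
      exact single h2 C r hsg h
    · rintro rfl
      exact ⟨Finset.mem_univ _, rfl⟩
  have h4 := es_dim C r
  have h5 : (∑ r' ∈ Finset.univ.filter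
      (fun r' => mv (act ρ ι) (S r') = mv (act ρ ι) (S r)), (m r' - 2)) = m r - 2 := by
    rw [h3, Finset.sum_singleton]
  rw [h5] at h4
  have := C.res.big r
  omega

end

end Pool.Agent.ES
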