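import Pool.Agent.Lib_helper55.ESF.ODefs

-- block A1 of project OM (helper44), by helper93, in another namespace

/-!
# Block A1 of project OM
-/

set_option autoImplicit false

namespace Pool.Agent.ESO

open Module

section

variable {E V : Type*} [Field E] [AddCommGroup V] [Module E V]

/-- the projection -/
noncomputable def a1_p (s : Module.End E V) (z : E) : Module.End E V :=
  (3 : E)⁻¹ • (1 + z ^ 2 • s + z • (s * s))

theorem a1_sub (z : E) (v : V) : z • v - v = (z - 1) • v := by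
  rw [sub_smul, one_smul]

theorem a1_p_apply (s : Module.End E V) (z : E) (v : V) :
    a1_p s z v = (3 : E)⁻¹ • (v + z ^ 2 • s v + z • s (s v)) := rfl

theorem a1_sp {s : Module.End E V} {z : E} (hz : z ^ 3 = 1) (h : ∀ v, s (s (s v)) = v) (v : V) :
    s (a1_p s z v) = z • a1_p s z v := by
  rw [a1_p_apply, map_smul, map_add, map_add, map_smul, map_smul, h]
  have : (3 : E)⁻¹ • (s v + z ^ 2 • s (s v) + z • v) =
      z • (3 : E)⁻¹ • (v + z ^ 2 • s v + z • s (s v)) + ((3 : E)⁻¹ * (1 - z ^ 3)) • s v := by module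
  rw [this, hz, sub_self, mul_zero, zero_smul, add_zero]

theorem a1_pp {s : Module.End E V} {z : E} (h3 : (3 : E) ≠ 0) (hz : z ^ 3 = 1)
    (h : ∀ v, s (s (s v)) = v) (v : V) : a1_p s z (a1_p s z v) = a1_p s z v := by
  rw [a1_p_apply s z (a1_p s z v), a1_sp hz h, map_smul, a1_sp hz h]
  have h1 : (3 : E)⁻¹ * 3 = 1 := inv_mul_cancel₀ h3
  have h2 : (3 : E)⁻¹ * (1 + z ^ 3 + z ^ 3) = 1 := by
    rw [hz]
    linear_combination h1
  calc (3 : E)⁻¹ • (a1_p s z v + z ^ 2 • z • a1_p s z v + z • z • z • a1_p s z v)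
      = ((3 : E)⁻¹ * (1 + z ^ 3 + z ^ 3)) • a1_p s z v := by module
    _ = a1_p s z v := by rw [h2, one_smul]

theorem a1_pq {s : Module.End E V} {z : E} (hz : z ^ 3 = 1) (hz2 : z ^ 2 + z + 1 = 0)
    (h : ∀ v, s (s (s v)) = v) (v : V) : a1_p s (z ^ 2) (a1_p s z v) = 0 := by
  rw [a1_p_apply s (z ^ 2) (a1_p s z v), a1_sp hz h, map_smul, a1_sp hz h]
  have h2 : (3 : E)⁻¹ * (1 + (z ^ 2) ^ 2 * z + z ^ 2 * z * z) = 0 := by
    have : (1 + (z ^ 2) ^ 2 * z + z ^ 2 * z * z) = 0 := by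
      linear_combination (z ^ 2 + z) * hz + hz2
    rw [this, mul_zero]
  calc (3 : E)⁻¹ • (a1_p s z v + (z ^ 2) ^ 2 • z • a1_p s z v + z ^ 2 • z • z • a1_p s z v)
      = ((3 : E)⁻¹ * (1 + (z ^ 2) ^ 2 * z + z ^ 2 * z * z)) • a1_p s z v := by module
    _ = 0 := by rw [h2, zero_smul]

theorem a1_adj {s : Module.End E V} {z : E} (hz : z ^ 3 = 1)
    {b : LinearMap.BilinForm E V} (hb : ∀ x y, b (s x) (s y) = b x y)
    (h : ∀ v, s (s (s v)) = v) (u v : V) : b (a1_p s z u) v = b u (a1_p s (z ^ 2) v) := by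
  have e1 : ∀ u v, b (s u) v = b u (s (s v)) := fun u v => by
    rw [← hb u (s (s v)), h]
  have e2 : ∀ u v, b (s (s u)) v = b u (s v) := fun u v => by
    rw [e1, e1, h]
  rw [a1_p_apply, a1_p_apply]
  simp only [map_smul, map_add, LinearMap.smul_apply, LinearMap.add_apply, smul_eq_mul, e1, h]
  linear_combination (-(3 : E)⁻¹ * z * b u (s v)) * hz

theorem a1_dec {s : Module.End E V} {z : E} (h3 : (3 : E) ≠ 0) (hz : z ^ 3 = 1)
    (hz2 : z ^ 2 + z + 1 = 0) (v : V) :
    s v = v + (z - 1) • a1_p s z v + (z ^ 2 - 1) • a1_p s (z ^ 2) v := by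
  have h1 : (3 : E)⁻¹ * 3 = 1 := inv_mul_cancel₀ h3
  rw [a1_p_apply, a1_p_apply]
  have c0 : (1 : E) + (3 : E)⁻¹ * ((z - 1) + (z ^ 2 - 1)) = 0 := by
    linear_combination (3 : E)⁻¹ * hz2 - h1
  have c1 : (3 : E)⁻¹ * ((z - 1) * z ^ 2 + (z ^ 2 - 1) * (z ^ 2) ^ 2) = 1 := by
    linear_combination (3 : E)⁻¹ * ((1 + z ^ 3 + 1 - z) * hz - hz2) + h1
  have c2 : (3 : E)⁻¹ * ((z - 1) * z + (z ^ 2 - 1) * z ^ 2) = 0 := by
    linear_combination (3 : E)⁻¹ * (z * hz)
  have : v + (z - 1) • (3 : E)⁻¹ • (v + z ^ 2 • s v + z • s (s v)) +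
      (z ^ 2 - 1) • (3 : E)⁻¹ • (v + (z ^ 2) ^ 2 • s v + z ^ 2 • s (s v)) =
      ((1 : E) + (3 : E)⁻¹ * ((z - 1) + (z ^ 2 - 1))) • v +
      ((3 : E)⁻¹ * ((z - 1) * z ^ 2 + (z ^ 2 - 1) * (z ^ 2) ^ 2)) • s v +
      ((3 : E)⁻¹ * ((z - 1) * z + (z ^ 2 - 1) * z ^ 2)) • s (s v) := by module
  rw [this, c0, c1, c2, zero_smul, zero_smul, one_smul, zero_add, add_zero]

theorem om_struct3 [IsAlgClosed E] [FiniteDimensional E V] (h3 : (3 : E) ≠ 0)
    (b : LinearMap.BilinForm E V) (hs : ∀ x y, b x y = b y x)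
    (hn : ∀ x, (∀ y, b x y = 0) → x = 0) (s : Module.End E V)
    (hb : ∀ x y, b (s x) (s y) = b x y) (h : s ^ 3 = 1)
    (hr : finrank E (LinearMap.range (s - 1)) = 2) :
    ∃ (ζ : E) (e f : V), ζ ^ 2 + ζ + 1 = 0 ∧ b e e = 0 ∧ b f f = 0 ∧ b e f = 1 ∧
      ∀ v, s v = v + ((ζ - 1) * b f v) • e + ((ζ ^ 2 - 1) * b e v) • f := by
  have hsss : ∀ v, s (s (s v)) = v := by
    intro v
    have := LinearMap.congr_fun h v
    rwa [pow_succ, pow_succ, pow_one, Module.End.mul_apply, Module.End.mul_apply,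
      Module.End.one_apply] at this
  obtain ⟨z, hz0⟩ : ∃ z : E, z ^ 2 + z + 1 = 0 := by
    have hdeg : (Polynomial.X ^ 2 + Polynomial.X + 1 : Polynomial E).degree = 2 := by
      compute_degree!
    obtain ⟨z, hz⟩ := IsAlgClosed.exists_root (Polynomial.X ^ 2 + Polynomial.X + 1 : Polynomial E)
      (by rw [hdeg]; norm_num)
    refine ⟨z, ?_⟩
    simpa [Polynomial.IsRoot] using hz
  have hz : z ^ 3 = 1 := by linear_combination (z - 1) * hz0
  have hz1 : z - 1 ≠ 0 := by
    intro hcon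
    apply h3
    have : z = 1 := by linear_combination hcon
    rw [this] at hz0
    linear_combination hz0
  have hz' : (z ^ 2) ^ 3 = 1 := by linear_combination (z ^ 3 + 1) * hz
  have hz0' : (z ^ 2) ^ 2 + z ^ 2 + 1 = 0 := by linear_combination z * hz + hz0
  have hz2 : z ^ 2 - 1 ≠ 0 := by
    intro hcon
    apply h3
    have : z ^ 2 = 1 := by linear_combination hcon
    rw [this] at hz0'
    linear_combination hz0'
  have hzz : (z ^ 2) ^ 2 = z := by linear_combination z * hz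
  set p := a1_p s z with hp
  set q := a1_p s (z ^ 2) with hq
  have pp : ∀ v, p (p v) = p v := a1_pp h3 hz hsss
  have qq : ∀ v, q (q v) = q v := a1_pp h3 hz' hsss
  have qp : ∀ v, q (p v) = 0 := a1_pq hz hz0 hsss
  have pq : ∀ v, p (q v) = 0 := by
    intro v
    have := a1_pq hz' hz0' hsss v
    rwa [hzz] at this
  have adj : ∀ u v, b (p u) v = b u (q v) := a1_adj hz hb hsss
  have dec : ∀ v, s v = v + (z - 1) • p v + (z ^ 2 - 1) • q v := a1_dec h3 hz hz0
  have sp : ∀ v, s (p v) = z • p v := a1_sp hz hsss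
  have sq : ∀ v, s (q v) = z ^ 2 • q v := a1_sp hz' hsss
  -- the range of s - 1
  have hrange : LinearMap.range (s - 1) = LinearMap.range p ⊔ LinearMap.range q := by
    apply le_antisymm
    · rintro _ ⟨v, rfl⟩
      have : (s - 1) v = (z - 1) • p v + (z ^ 2 - 1) • q v := by
        rw [LinearMap.sub_apply, Module.End.one_apply, dec]
        abel
      rw [this]
      exact Submodule.add_mem_sup (Submodule.smul_mem _ _ ⟨v, rfl⟩)
        (Submodule.smul_mem _ _ ⟨v, rfl⟩)
    · apply sup_le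
      · rintro _ ⟨v, rfl⟩
        refine ⟨(z - 1)⁻¹ • p v, ?_⟩
        rw [map_smul, LinearMap.sub_apply, Module.End.one_apply, sp, a1_sub,
          smul_smul, inv_mul_cancel₀ hz1, one_smul]
      · rintro _ ⟨v, rfl⟩
        refine ⟨(z ^ 2 - 1)⁻¹ • q v, ?_⟩
        rw [map_smul, LinearMap.sub_apply, Module.End.one_apply, sq, a1_sub,
          smul_smul, inv_mul_cancel₀ hz2, one_smul]
  have hinf : LinearMap.range p ⊓ LinearMap.range q = ⊥ := by
    rw [eq_bot_iff]
    rintro v ⟨⟨a, ha⟩, ⟨c, hc⟩⟩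
    rw [Submodule.mem_bot]
    have h1 : p v = v := by rw [← ha, pp]
    have h2 : p v = 0 := by rw [← hc, pq]
    rw [← h1, h2]
  have hsum : finrank E (LinearMap.range p) + finrank E (LinearMap.range q) = 2 := by
    have := Submodule.finrank_sup_add_finrank_inf_eq (LinearMap.range p) (LinearMap.range q)
    rw [hinf, finrank_bot, add_zero, ← hrange, hr] at this
    exact this.symm
  have hp0 : finrank E (LinearMap.range p) ≠ 0 := by
    intro hcon
    rw [Submodule.finrank_eq_zero, LinearMap.range_eq_bot] at hcon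
    have hq0 : q = 0 := by
      ext v
      apply hn
      intro y
      rw [hs, ← adj, hcon]
      simp
    rw [hq0, LinearMap.range_zero, finrank_bot, hcon, LinearMap.range_zero, finrank_bot] at hsum
    omega
  have hq0 : finrank E (LinearMap.range q) ≠ 0 := by
    intro hcon
    rw [Submodule.finrank_eq_zero, LinearMap.range_eq_bot] at hcon
    have hp0 : p = 0 := by
      ext v
      apply hn
      intro y
      rw [adj, hcon]
      simp
    rw [hp0, LinearMap.range_zero, finrank_bot, hcon, LinearMap.range_zero, finrank_bot] at hsum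
    omega
  obtain ⟨⟨e, he⟩, he0, hesp⟩ := finrank_eq_one_iff'.1
    (show finrank E (LinearMap.range p) = 1 by omega)
  obtain ⟨⟨f0, hf⟩, hf0, hfsp⟩ := finrank_eq_one_iff'.1
    (show finrank E (LinearMap.range q) = 1 by omega)
  have hpv : ∀ v, ∃ c : E, p v = c • e := by
    intro v
    obtain ⟨c, hc⟩ := hesp ⟨p v, v, rfl⟩
    exact ⟨c, (congrArg Subtype.val hc).symm⟩
  have hqv : ∀ v, ∃ c : E, q v = c • f0 := by
    intro v
    obtain ⟨c, hc⟩ := hfsp ⟨q v, v, rfl⟩
    exact ⟨c, (congrArg Subtype.val hc).symm⟩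
  have hpe : p e = e := by
    obtain ⟨a, ha⟩ := he
    rw [← ha, pp]
  have hqf0 : q f0 = f0 := by
    obtain ⟨a, ha⟩ := hf
    rw [← ha, qq]
  have hef0 : b e f0 ≠ 0 := by
    intro hcon
    apply he0
    have : e = 0 := by
      apply hn
      intro y
      obtain ⟨c, hc⟩ := hqv y
      rw [← hpe, adj, hc, map_smul, hcon, smul_zero]
    exact Subtype.ext this
  set f : V := (b e f0)⁻¹ • f0 with hfd
  have hqf : q f = f := by rw [hfd, map_smul, hqf0]
  have hbef : b e f = 1 := by rw [hfd, map_smul, smul_eq_mul, inv_mul_cancel₀ hef0]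
  have hqe : q e = 0 := by rw [← hpe, qp]
  have hpf : p f = 0 := by rw [← hqf, pq]
  refine ⟨z, e, f, hz0, ?_, ?_, hbef, ?_⟩
  · have := adj e e
    rw [hpe, hqe, map_zero] at this
    exact this
  · have := adj f f
    rw [hpf, hqf, map_zero, LinearMap.zero_apply] at this
    exact this.symm
  · intro v
    have e1 : p v = b f v • e := by
      obtain ⟨c, hc⟩ := hpv v
      have h1 : b (p v) f = b v (q f) := adj v f
      have h2 : b (p v) f = c := by
        rw [hc, map_smul b c e, LinearMap.smul_apply, hbef, smul_eq_mul, mul_one]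
      rw [h2, hqf] at h1
      rw [hc, h1, hs v f]
    have e2 : q v = b e v • f := by
      obtain ⟨c, hc⟩ := hqv v
      have h1 : b (p e) v = b e (q v) := adj e v
      rw [hpe, hc, map_smul, smul_eq_mul] at h1
      rw [hc, h1, hfd, smul_smul, mul_assoc, mul_inv_cancel₀ hef0, mul_one]
    rw [dec v, e1, e2, smul_smul, smul_smul]


end

end Pool.Agent.ESO
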