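import Pool.Agent.Lib_helper55.ESF.ODefs

-- block A2 of project OM (helper44), by helper93, in another namespace

/-!
# Block A2 of project OM
-/

set_option autoImplicit false

namespace Pool.Agent.ESO

open Module

section

variable {E V : Type*} [Field E] [AddCommGroup V] [Module E V]

variable {G : Type*} [Group G] {b : LinearMap.BilinForm E V} {L : Submodule E (Module.End E V)}
  {ρ : G →* Module.End E V} {σ : G}

theorem a2_inv (g : G) (v : V) : ρ g⁻¹ (ρ g v) = v := by
  rw [← Module.End.mul_apply, ← map_mul, inv_mul_cancel, map_one, Module.End.one_apply]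

theorem a2_inv' (g : G) (v : V) : ρ g (ρ g⁻¹ v) = v := by
  rw [← Module.End.mul_apply, ← map_mul, mul_inv_cancel, map_one, Module.End.one_apply]

theorem om_nc [FiniteDimensional E V] (C : Ctx b L ρ σ) (U : Submodule E V)
    (hU : ∀ g : G, ∀ u ∈ U, ρ (g * σ * g⁻¹) u ∈ U) : U = ⊥ ∨ U = ⊤ := by
  apply C.irr U
  intro n hn
  refine Subgroup.closure_induction (p := fun n _ => ∀ u ∈ U, ρ n u ∈ U) ?_ ?_ ?_ ?_ hn
  · intro x hx
    rw [Group.mem_conjugatesOfSet_iff] at hx
    obtain ⟨a, ha, hc⟩ := hx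
    rw [Set.mem_singleton_iff] at ha
    subst ha
    obtain ⟨c, hc⟩ := isConj_iff.1 hc
    rw [← hc]
    exact hU c
  · intro u hu
    rw [map_one]
    exact hu
  · intro x y _ _ hx hy u hu
    rw [map_mul, Module.End.mul_apply]
    exact hx _ (hy u hu)
  · intro x _ hx u hu
    have hinj : Function.Injective ((ρ x).restrict hx) := by
      intro a c hac
      have h1 : ρ x (a : V) = ρ x (c : V) := by
        have := congrArg Subtype.val hac
        simpa using this
      have h2 : ρ x⁻¹ (ρ x (a : V)) = ρ x⁻¹ (ρ x (c : V)) := by rw [h1]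
      rw [a2_inv, a2_inv] at h2
      exact Subtype.ext h2
    obtain ⟨w, hw⟩ := LinearMap.surjective_of_injective hinj ⟨u, hu⟩
    have h3 : ρ x (w : V) = u := by
      have := congrArg Subtype.val hw
      simpa using this
    rw [← h3, a2_inv]
    exact w.2

theorem om_comm [IsAlgClosed E] [FiniteDimensional E V] (h2 : (2 : E) ≠ 0) (C : Ctx b L ρ σ)
    (g : G) : ∃ X ∈ L, ρ (g * σ * g⁻¹) * X ≠ X * ρ (g * σ * g⁻¹) := by
  by_contra hcon
  push Not at hcon
  have hall : ∀ h : G, ∀ X ∈ L, ρ (h * σ * h⁻¹) * X = X * ρ (h * σ * h⁻¹) := by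
    intro h X hX
    set k : G := h * g⁻¹ with hk
    have h1 := hcon _ (C.conj k⁻¹ X hX)
    rw [inv_inv] at h1
    have e1 : ρ (h * σ * h⁻¹) = ρ k * ρ (g * σ * g⁻¹) * ρ k⁻¹ := by
      rw [← map_mul, ← map_mul, hk]
      congr 1
      group
    have e2 : ρ k⁻¹ * ρ k = 1 := by rw [← map_mul, inv_mul_cancel, map_one]
    have e3 : ρ k * ρ k⁻¹ = 1 := by rw [← map_mul, mul_inv_cancel, map_one]
    calc ρ (h * σ * h⁻¹) * X = ρ k * (ρ (g * σ * g⁻¹) * (ρ k⁻¹ * X * ρ k)) * ρ k⁻¹ := by
          rw [e1]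
          have : X = X * (ρ k * ρ k⁻¹) := by rw [e3, mul_one]
          conv_lhs => rw [this]
          simp only [mul_assoc]
      _ = ρ k * ((ρ k⁻¹ * X * ρ k) * ρ (g * σ * g⁻¹)) * ρ k⁻¹ := by rw [h1]
      _ = (ρ k * ρ k⁻¹) * X * (ρ k * ρ (g * σ * g⁻¹) * ρ k⁻¹) := by
          simp only [mul_assoc]
      _ = X * ρ (h * σ * h⁻¹) := by rw [e3, one_mul, e1]
  obtain ⟨X, hX, hX0⟩ := C.ne
  have hnt : Nontrivial V := by
    by_contra hV
    rw [not_nontrivial_iff_subsingleton] at hV
    apply hX0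
    ext v
    exact Subsingleton.elim _ _
  obtain ⟨c, hc⟩ := Module.End.exists_eigenvalue X
  have hstab : ∀ g : G, ∀ u ∈ X.eigenspace c, ρ (g * σ * g⁻¹) u ∈ X.eigenspace c := by
    intro h u hu
    rw [Module.End.mem_eigenspace_iff] at hu ⊢
    rw [← Module.End.mul_apply, ← hall h X hX, Module.End.mul_apply, hu, map_smul]
  rcases om_nc C _ hstab with h | h
  · exact hc h
  · have hXc : ∀ v, X v = c • v := by
      intro v
      have : v ∈ X.eigenspace c := by rw [h]; trivial
      exact Module.End.mem_eigenspace_iff.1 this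
    have hc0 : c = 0 := by
      obtain ⟨v, hv⟩ := exists_ne (0 : V)
      have : ∃ y, b v y ≠ 0 := by
        by_contra hne
        push Not at hne
        exact hv (C.nondeg v hne)
      obtain ⟨y, hy⟩ := this
      have h3 := C.skew X hX v y
      rw [hXc, hXc, map_smul, map_smul, LinearMap.smul_apply, smul_eq_mul] at h3
      have h4 : (2 * c) * b v y = 0 := by linear_combination h3
      rcases mul_eq_zero.1 h4 with h5 | h5
      · rcases mul_eq_zero.1 h5 with h6 | h6
        · exact absurd h6 h2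
        · exact h6
      · exact absurd h5 hy
    apply hX0
    ext v
    rw [hXc, hc0, zero_smul, LinearMap.zero_apply]

theorem om_kill (C : Ctx b L ρ σ) (v : V) (hv : ∀ X ∈ L, X v = 0) : v = 0 := by
  let U : Submodule E V :=
    { carrier := {v | ∀ X ∈ L, X v = 0}
      add_mem' := fun {x y} hx hy X hX => by rw [map_add, hx X hX, hy X hX, add_zero]
      zero_mem' := fun X _ => map_zero X
      smul_mem' := fun c x hx X hX => by rw [map_smul, hx X hX, smul_zero] }
  have hU : ∀ n ∈ Subgroup.normalClosure {σ}, ∀ u ∈ U, ρ n u ∈ U := by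
    intro n _ u hu X hX
    have h1 : (ρ n⁻¹ * X * ρ n⁻¹⁻¹) u = 0 := hu _ (C.conj n⁻¹ X hX)
    rw [inv_inv, Module.End.mul_apply, Module.End.mul_apply] at h1
    have h2 : ρ n (ρ n⁻¹ (X (ρ n u))) = 0 := by rw [h1, map_zero]
    rwa [a2_inv'] at h2
  rcases C.irr U hU with h | h
  · have : v ∈ U := hv
    rw [h] at this
    exact (Submodule.mem_bot E).1 this
  · exfalso
    obtain ⟨X, hX, hX0⟩ := C.ne
    apply hX0
    ext w
    have : w ∈ U := by rw [h]; trivial
    exact this X hX


end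

end Pool.Agent.ESO
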