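import Pool.Agent.Lib_helper55.ESF.OA1
import Pool.Agent.Lib_helper55.ESF.OA2

-- block A3 of project OM (helper44), by helper66, in another namespace

/-!
# OM, block A3: an irreducible Lie algebra contains all skew-symmetric operators
-/

set_option autoImplicit false

namespace Pool.Agent.ESO

open Module

section

variable {E V : Type*} [Field E] [AddCommGroup V] [Module E V]

theorem a3_wedge (b : LinearMap.BilinForm E V) (x y v : V) :
    wedge b x y v = b y v • x - b x v • y := rfl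

theorem a3_add (b : LinearMap.BilinForm E V) (x y z : V) :
    wedge b x (y + z) = wedge b x y + wedge b x z := by
  ext v
  simp only [a3_wedge, LinearMap.add_apply, map_add, add_smul, smul_add]
  abel

theorem a3_smul (b : LinearMap.BilinForm E V) (c : E) (x y : V) :
    wedge b x (c • y) = c • wedge b x y := by
  ext v
  simp only [a3_wedge, LinearMap.smul_apply, map_smul, smul_eq_mul, smul_sub, smul_smul]
  rw [mul_comm (b x v) c]

theorem a3_anti (b : LinearMap.BilinForm E V) (x y : V) : wedge b x y = -wedge b y x := by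
  ext v
  simp only [a3_wedge, LinearMap.neg_apply]
  abel

theorem a3_self (b : LinearMap.BilinForm E V) (x : V) : wedge b x x = 0 := by
  ext v
  simp only [a3_wedge, sub_self, LinearMap.zero_apply]

/-- the data -/
structure A3D (b : LinearMap.BilinForm E V) (L : Submodule E (Module.End E V))
    (s : Module.End E V) (ζ : E) (e f : V) : Prop where
  h2 : (2 : E) ≠ 0
  h3 : (3 : E) ≠ 0
  symm : ∀ x y, b x y = b y x
  skew : ∀ X ∈ L, ∀ x y, b (X x) y = - b x (X y)
  brk : ∀ X ∈ L, ∀ Y ∈ L, X * Y - Y * X ∈ L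
  c1 : ∀ X ∈ L, s * X * s ^ 2 ∈ L
  c2 : ∀ X ∈ L, s ^ 2 * X * s ∈ L
  s3 : s ^ 3 = 1
  z : ζ ^ 2 + ζ + 1 = 0
  ee : b e e = 0
  ff : b f f = 0
  ef : b e f = 1
  form : ∀ v, s v = v + ((ζ - 1) * b f v) • e + ((ζ ^ 2 - 1) * b e v) • f
  irr : ∀ U : Submodule E V, (∀ X ∈ L, ∀ u ∈ U, X u ∈ U) → U = ⊥ ∨ U = ⊤

variable {b : LinearMap.BilinForm E V} {L : Submodule E (Module.End E V)} {s : Module.End E V}
  {ζ : E} {e f : V}

theorem A3D.swap (D : A3D b L s ζ e f) : A3D b L s (ζ ^ 2) f e where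
  h2 := D.h2
  h3 := D.h3
  symm := D.symm
  skew := D.skew
  brk := D.brk
  c1 := D.c1
  c2 := D.c2
  s3 := D.s3
  z := by linear_combination (ζ ^ 2 - ζ + 1) * D.z
  ee := D.ff
  ff := D.ee
  ef := by rw [D.symm, D.ef]
  form := by
    intro v
    have h : (ζ ^ 2) ^ 2 = ζ := by linear_combination (ζ ^ 2 - ζ) * D.z
    rw [D.form v, h]
    abel
  irr := D.irr

/-- the component orthogonal to `e`, `f` -/
def a3pr (b : LinearMap.BilinForm E V) (e f v : V) : V := v - b f v • e - b e v • f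

theorem a3pr_swap (b : LinearMap.BilinForm E V) (e f v : V) : a3pr b f e v = a3pr b e f v := by
  unfold a3pr
  abel

/-- the subspace `P` -/
def a3P (b : LinearMap.BilinForm E V) (L : Submodule E (Module.End E V)) (e f : V) :
    Submodule E V where
  carrier := {w | b e w = 0 ∧ b f w = 0 ∧ wedge b e w ∈ L}
  add_mem' := by
    rintro x y ⟨h1, h2, h3⟩ ⟨h4, h5, h6⟩
    refine ⟨?_, ?_, ?_⟩
    · rw [map_add, h1, h4, add_zero]
    · rw [map_add, h2, h5, add_zero]
    · rw [a3_add]
      exact L.add_mem h3 h6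
  zero_mem' := by
    refine ⟨map_zero _, map_zero _, ?_⟩
    have h := a3_smul b (0 : E) e 0
    rw [zero_smul, zero_smul] at h
    rw [h]
    exact L.zero_mem
  smul_mem' := by
    rintro c x ⟨h1, h2, h3⟩
    refine ⟨?_, ?_, ?_⟩
    · rw [map_smul, h1, smul_zero]
    · rw [map_smul, h2, smul_zero]
    · rw [a3_smul]
      exact L.smul_mem c h3

theorem a3_skew0 (D : A3D b L s ζ e f) {X : Module.End E V} (hX : X ∈ L) (v : V) :
    b v (X v) = 0 := by
  have h := D.skew X hX v v
  rw [D.symm (X v) v] at h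
  have h4 : 2 * b v (X v) = 0 := by linear_combination h
  exact (mul_eq_zero.1 h4).resolve_left D.h2

theorem a3_z1 (D : A3D b L s ζ e f) : ζ ≠ 1 := by
  intro h
  have h1 := D.z
  rw [h] at h1
  exact D.h3 (by linear_combination h1)

theorem a3_z2 (D : A3D b L s ζ e f) : ζ ^ 2 ≠ 1 := a3_z1 D.swap

theorem a3_z0 (D : A3D b L s ζ e f) : ζ ≠ 0 := by
  intro h
  have h1 := D.z
  rw [h] at h1
  norm_num at h1

/-- the eigenvectors -/
theorem a3_eig0 (D : A3D b L s ζ e f) {v : V} (hv : s v = v) : b e v = 0 ∧ b f v = 0 := by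
  have h := D.form v
  rw [hv] at h
  have h1 : ((ζ - 1) * b f v) • e + ((ζ ^ 2 - 1) * b e v) • f = 0 := by
    have h5 := congrArg (fun x => x - v) h
    simp only [sub_self] at h5
    rw [h5]
    abel
  have h2 := congrArg (b e) h1
  have h3 := congrArg (b f) h1
  simp only [map_add, map_smul, smul_eq_mul, D.ee, D.ff, D.ef, D.symm f e, mul_zero, zero_add,
    add_zero, mul_one, map_zero] at h2 h3
  exact ⟨(mul_eq_zero.1 h2).resolve_left (sub_ne_zero.2 (a3_z2 D)),
    (mul_eq_zero.1 h3).resolve_left (sub_ne_zero.2 (a3_z1 D))⟩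

theorem a3_eig1 (D : A3D b L s ζ e f) {v : V} (hv : s v = ζ • v) : v = b f v • e := by
  have h := D.form v
  rw [hv] at h
  have h2 := congrArg (b e) h
  simp only [map_add, map_smul, smul_eq_mul, D.ee, D.ef, mul_zero, add_zero, mul_one] at h2
  have h3 : (ζ ^ 2 - ζ) * b e v = 0 := by linear_combination -h2
  have h4 : ζ ^ 2 - ζ ≠ 0 := by
    have : ζ ^ 2 - ζ = ζ * (ζ - 1) := by ring
    rw [this]
    exact mul_ne_zero (a3_z0 D) (sub_ne_zero.2 (a3_z1 D))
  have h5 := (mul_eq_zero.1 h3).resolve_left h4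
  rw [h5, mul_zero, zero_smul, add_zero] at h
  have h6 : (ζ - 1) • (v - b f v • e) = 0 := by
    rw [smul_sub, smul_smul, sub_smul, one_smul, h]
    abel
  exact sub_eq_zero.1 ((smul_eq_zero.1 h6).resolve_left (sub_ne_zero.2 (a3_z1 D)))

theorem a3_eig2 (D : A3D b L s ζ e f) {v : V} (hv : s v = ζ ^ 2 • v) : v = b e v • f :=
  a3_eig1 D.swap hv

theorem a3_se (D : A3D b L s ζ e f) : s e = ζ • e := by
  rw [D.form e, D.ee, D.symm f e, D.ef, mul_zero, zero_smul, add_zero, mul_one, sub_smul, one_smul]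
  abel

theorem a3_sf (D : A3D b L s ζ e f) : s f = ζ ^ 2 • f := a3_se D.swap

theorem a3_sv (D : A3D b L s ζ e f) {v : V} (h1 : b e v = 0) (h2 : b f v = 0) : s v = v := by
  rw [D.form v, h1, h2, mul_zero, mul_zero, zero_smul, zero_smul, add_zero, add_zero]

theorem a3_dec (v : V) : v = b f v • e + b e v • f + a3pr b e f v := by
  unfold a3pr
  abel

theorem a3_pr1 (D : A3D b L s ζ e f) (v : V) : b e (a3pr b e f v) = 0 := by
  unfold a3pr
  simp only [map_sub, map_smul, smul_eq_mul, D.ee, D.ef]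
  ring

theorem a3_pr2 (D : A3D b L s ζ e f) (v : V) : b f (a3pr b e f v) = 0 := by
  rw [← a3pr_swap]
  exact a3_pr1 D.swap v

/-- (1) -/
theorem a3_one (D : A3D b L s ζ e f) {X : Module.End E V} (hX : X ∈ L) :
    a3pr b e f (X f) ∈ a3P b L e f := by
  set Y : Module.End E V := X + ζ ^ 2 • (s * X * s ^ 2) + ζ • (s ^ 2 * X * s) with hY
  have hYL : Y ∈ L := L.add_mem (L.add_mem hX (L.smul_mem _ (D.c1 X hX))) (L.smul_mem _ (D.c2 X hX))
  have hz3 : ζ ^ 3 = 1 := by linear_combination (ζ - 1) * D.z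
  have hsY : s * Y = ζ • (Y * s) := by
    have e1 : s * Y = s * X + ζ ^ 2 • (s ^ 2 * X * s ^ 2) + ζ • (s ^ 3 * X * s) := by
      rw [hY, mul_add, mul_add, mul_smul_comm, mul_smul_comm]
      simp only [pow_succ, pow_zero, one_mul, mul_assoc]
    have e2 : Y * s = X * s + ζ ^ 2 • (s * X * s ^ 3) + ζ • (s ^ 2 * X * s ^ 2) := by
      rw [hY, add_mul, add_mul, smul_mul_assoc, smul_mul_assoc]
      simp only [pow_succ, pow_zero, one_mul, mul_assoc]
    rw [e1, e2, D.s3, one_mul, mul_one, smul_add, smul_add, smul_smul, smul_smul]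
    have e3 : ζ * ζ ^ 2 = 1 := by rw [← hz3]; ring
    have e4 : ζ * ζ = ζ ^ 2 := by ring
    rw [e3, e4, one_smul]
    abel
  have hsYv : ∀ v, s (Y v) = ζ • Y (s v) := fun v => by
    have := LinearMap.congr_fun hsY v
    simpa using this
  -- `Y e = 0`
  have hYe : Y e = 0 := by
    have h1 : s (Y e) = ζ ^ 2 • Y e := by
      rw [hsYv, a3_se D, map_smul, smul_smul, sq]
    rw [a3_eig2 D h1, a3_skew0 D hYL, zero_smul]
  have hYf : s (Y f) = Y f := by
    rw [hsYv, a3_sf D, map_smul, smul_smul]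
    have e3 : ζ * ζ ^ 2 = 1 := by rw [← hz3]; ring
    rw [e3, one_smul]
  obtain ⟨hf1, hf2⟩ := a3_eig0 D hYf
  have hYw : Y = wedge b (Y f) e := by
    ext v
    rw [a3_wedge]
    have h1 : Y (a3pr b e f v) = -(b (Y f) v) • e := by
      have h2 : s (Y (a3pr b e f v)) = ζ • Y (a3pr b e f v) := by
        rw [hsYv, a3_sv D (a3_pr1 D v) (a3_pr2 D v)]
      have h4 : b f (Y (a3pr b e f v)) = -b (Y f) v := by
        have h5 := D.skew Y hYL f (a3pr b e f v)
        have h6 : b (Y f) (a3pr b e f v) = b (Y f) v := by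
          rw [a3pr, map_sub, map_sub, map_smul, map_smul, D.symm (Y f) e, D.symm (Y f) f, hf1, hf2]
          simp
        rw [h6] at h5
        rw [h5, neg_neg]
      rw [a3_eig1 D h2, h4]
    conv_lhs => rw [a3_dec (b := b) (e := e) (f := f) v]
    rw [map_add, map_add, map_smul, map_smul, hYe, smul_zero, zero_add, h1, neg_smul]
    abel
  -- `Y f = 3 pr (X f)`
  have hf3 : Y f = (3 : E) • a3pr b e f (X f) := by
    have e1 : Y f = X f + s (X f) + s (s (X f)) := by
      have e5 : (s ^ 2) f = ζ • f := by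
        rw [sq, Module.End.mul_apply, a3_sf D, map_smul, a3_sf D, smul_smul]
        congr 1
        linear_combination (ζ ^ 2 - ζ) * D.z
      rw [hY]
      simp only [LinearMap.add_apply, LinearMap.smul_apply, Module.End.mul_apply]
      rw [e5, a3_sf D, map_smul, map_smul, map_smul, map_smul, smul_smul, smul_smul, sq s,
        Module.End.mul_apply]
      have e3 : ζ * ζ ^ 2 = 1 := by rw [← hz3]; ring
      have e4 : ζ ^ 2 * ζ = 1 := by rw [← hz3]; ring
      rw [e3, e4, one_smul, one_smul]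
    have e2 : ∀ v, s (s v) = v + ((ζ ^ 2 - 1) * b f v) • e + ((ζ - 1) * b e v) • f := by
      intro v
      conv_lhs => rw [D.form v]
      rw [map_add, map_add, map_smul, map_smul, a3_se D, a3_sf D, D.form v, smul_smul, smul_smul]
      have e5 : (ζ ^ 2 - 1) * b f v = (ζ - 1) * b f v + (ζ - 1) * b f v * ζ := by ring
      have e6 : (ζ - 1) * b e v = (ζ ^ 2 - 1) * b e v + (ζ ^ 2 - 1) * b e v * ζ ^ 2 := by
        linear_combination (-(ζ ^ 2 - ζ) * b e v) * D.z
      rw [e5, e6, add_smul, add_smul]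
      abel
    rw [e1, e2, D.form, a3pr]
    have e7 : ((ζ - 1) * b f (X f)) + ((ζ ^ 2 - 1) * b f (X f)) = -(3 * b f (X f)) := by
      linear_combination b f (X f) * D.z
    have e8 : ((ζ ^ 2 - 1) * b e (X f)) + ((ζ - 1) * b e (X f)) = -(3 * b e (X f)) := by
      linear_combination b e (X f) * D.z
    have e9 : (3 : E) • (X f - b f (X f) • e - b e (X f) • f) =
        (X f + X f + X f) + (-(3 * b f (X f))) • e + (-(3 * b e (X f))) • f := by
      rw [smul_sub, smul_sub, smul_smul, smul_smul, neg_smul, neg_smul]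
      have : (3 : E) • X f = X f + X f + X f := by
        have h : (3 : E) = 1 + 1 + 1 := by norm_num
        rw [h, add_smul, add_smul, one_smul]
      rw [this]
      abel
    rw [e9, ← e7, ← e8, add_smul, add_smul]
    abel
  refine ⟨a3_pr1 D _, a3_pr2 D _, ?_⟩
  have h6 : (3 : E) • wedge b e (a3pr b e f (X f)) ∈ L := by
    rw [← a3_smul, ← hf3, a3_anti, ← hYw]
    exact L.neg_mem hYL
  have h7 := L.smul_mem (3 : E)⁻¹ h6
  rwa [smul_smul, inv_mul_cancel₀ D.h3, one_smul] at h7

/-- (2) -/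
theorem a3_two (D : A3D b L s ζ e f) {X : Module.End E V} (hX : X ∈ L) {w : V}
    (hw : w ∈ a3P b L e f) : a3pr b e f (X w) ∈ a3P b L e f := by
  have hZ := D.brk X hX _ hw.2.2
  have h1 := a3_one D hZ
  have hfe : b f e = 1 := by rw [D.symm, D.ef]
  have hwf : b w f = 0 := by rw [D.symm, hw.2.1]
  have h2 : a3pr b e f ((X * wedge b e w - wedge b e w * X) f) =
      b e (X f) • w - a3pr b e f (X w) := by
    rw [LinearMap.sub_apply, Module.End.mul_apply, Module.End.mul_apply, a3_wedge, a3_wedge, hwf,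
      D.ef, zero_smul, one_smul, zero_sub, map_neg]
    unfold a3pr
    simp only [map_sub, map_neg, map_smul, smul_eq_mul, D.ee, hfe, hw.1, hw.2.1, mul_zero, mul_one,
      sub_zero, neg_smul, sub_smul]
    abel
  rw [h2] at h1
  have h3 := (a3P b L e f).sub_mem ((a3P b L e f).smul_mem (b e (X f)) hw) h1
  rwa [sub_sub_cancel] at h3

/-- (3) -/
theorem a3_three (D : A3D b L s ζ e f) : ∃ w ∈ a3P b L e f, b w w ≠ 0 := by
  by_contra hcon
  push Not at hcon
  have hiso : ∀ w ∈ a3P b L e f, ∀ w' ∈ a3P b L e f, b w w' = 0 := by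
    intro w hw w' hw'
    have h1 := hcon _ ((a3P b L e f).add_mem hw hw')
    rw [map_add, map_add, LinearMap.add_apply, LinearMap.add_apply, hcon w hw, hcon w' hw',
      D.symm w' w] at h1
    have h4 : 2 * b w w' = 0 := by linear_combination h1
    exact (mul_eq_zero.1 h4).resolve_left D.h2
  have hfe : b f e = 1 := by rw [D.symm, D.ef]
  have hU := D.irr (Submodule.span E {f} ⊔ a3P b L e f) ?_
  · rcases hU with h | h
    · have h1 : f ∈ Submodule.span E {f} ⊔ a3P b L e f :=
        Submodule.mem_sup_left (Submodule.mem_span_singleton_self f)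
      rw [h, Submodule.mem_bot] at h1
      have h2 := D.ef
      rw [h1, map_zero] at h2
      exact zero_ne_one h2
    · have h1 : e ∈ Submodule.span E {f} ⊔ a3P b L e f := by
        rw [h]
        exact Submodule.mem_top
      obtain ⟨y, hy, z, hz, hyz⟩ := Submodule.mem_sup.1 h1
      obtain ⟨c, rfl⟩ := Submodule.mem_span_singleton.1 hy
      have h2 := hfe
      rw [← hyz, map_add, map_smul, D.ff, hz.2.1, smul_zero, add_zero] at h2
      exact zero_ne_one h2
  · intro X hX u hu
    obtain ⟨y, hy, w, hw, rfl⟩ := Submodule.mem_sup.1 hu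
    obtain ⟨c, rfl⟩ := Submodule.mem_span_singleton.1 hy
    rw [map_add, map_smul]
    refine Submodule.add_mem _ (Submodule.smul_mem _ _ ?_) ?_
    · rw [a3_dec (b := b) (e := e) (f := f) (X f), a3_skew0 D hX, zero_smul, zero_add]
      exact Submodule.add_mem_sup (Submodule.smul_mem _ _ (Submodule.mem_span_singleton_self f))
        (a3_one D hX)
    · have h1 : b f (X w) = 0 := by
        have h2 := D.skew X hX f w
        have h3 := hiso _ (a3_one D hX) _ hw
        rw [a3pr, D.symm _ w, map_sub, map_sub, map_smul, map_smul, D.symm w e, D.symm w f, hw.1,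
          hw.2.1, smul_zero, smul_zero, sub_zero, sub_zero, D.symm w (X f)] at h3
        rw [h3] at h2
        exact neg_eq_zero.1 h2.symm
      rw [a3_dec (b := b) (e := e) (f := f) (X w), h1, zero_smul, zero_add]
      exact Submodule.add_mem_sup (Submodule.smul_mem _ _ (Submodule.mem_span_singleton_self f))
        (a3_two D hX hw)

/-- the bracket in (5) -/
theorem a3_brk (D : A3D b L s ζ e f) {w w' : V} (hw : w ∈ a3P b L e f)
    (hw' : w' ∈ a3P b L f e) :
    wedge b e w * wedge b f w' - wedge b f w' * wedge b e w =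
      -wedge b w w' + b w w' • wedge b f e := by
  have hfe : b f e = 1 := by rw [D.symm, D.ef]
  have h1 : b w f = 0 := by rw [D.symm, hw.2.1]
  have h2 : b w e = 0 := by rw [D.symm, hw.1]
  have h3 : b w' f = 0 := by rw [D.symm, hw'.1]
  have h4 : b w' e = 0 := by rw [D.symm, hw'.2.1]
  ext v
  simp only [LinearMap.sub_apply, Module.End.mul_apply, LinearMap.add_apply, LinearMap.neg_apply,
    LinearMap.smul_apply, a3_wedge, map_sub, map_smul, hw.2.1, hw'.2.1, h1, h4, D.ef, hfe,
    D.symm w' w]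
  module

/-- (5) -/
theorem a3_five (D : A3D b L s ζ e f) {w' : V} (hw' : w' ∈ a3P b L f e) : w' ∈ a3P b L e f := by
  obtain ⟨w, hw, hww⟩ := a3_three D
  have hX := D.brk _ hw.2.2 _ hw'.2.2
  have h1 := a3_two D hX hw
  rw [a3_brk D hw hw'] at h1
  have h2 : (-wedge b w w' + b w w' • wedge b f e) w = b w w • w' - b w w' • w := by
    simp only [LinearMap.add_apply, LinearMap.neg_apply, LinearMap.smul_apply, a3_wedge, hw.1,
      hw.2.1, zero_smul, sub_self, smul_zero, add_zero, D.symm w' w]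
    abel
  rw [h2] at h1
  have h3 : a3pr b e f (b w w • w' - b w w' • w) = b w w • w' - b w w' • w := by
    unfold a3pr
    simp only [map_sub, map_smul, smul_eq_mul, hw.1, hw.2.1, hw'.1, hw'.2.1, mul_zero, sub_zero,
      zero_smul]
  rw [h3] at h1
  have h4 := (a3P b L e f).add_mem h1 ((a3P b L e f).smul_mem (b w w') hw)
  rw [sub_add_cancel] at h4
  have h5 := (a3P b L e f).smul_mem (b w w)⁻¹ h4
  rwa [smul_smul, inv_mul_cancel₀ hww, one_smul] at h5

/-- (6) -/
theorem a3_six (D : A3D b L s ζ e f) {v : V} (h1 : b e v = 0) (h2 : b f v = 0) :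
    v ∈ a3P b L e f := by
  have hfe : b f e = 1 := by rw [D.symm, D.ef]
  have hU := D.irr (Submodule.span E {e} ⊔ (Submodule.span E {f} ⊔ a3P b L e f)) ?_
  · rcases hU with h | h
    · have h1 : e ∈ Submodule.span E {e} ⊔ (Submodule.span E {f} ⊔ a3P b L e f) :=
        Submodule.mem_sup_left (Submodule.mem_span_singleton_self e)
      rw [h, Submodule.mem_bot] at h1
      rw [h1, map_zero] at hfe
      exact absurd hfe zero_ne_one
    · have h3 : v ∈ Submodule.span E {e} ⊔ (Submodule.span E {f} ⊔ a3P b L e f) := by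
        rw [h]
        exact Submodule.mem_top
      obtain ⟨x, hx, y, hy, hxy⟩ := Submodule.mem_sup.1 h3
      obtain ⟨z, hz, w, hw, hzw⟩ := Submodule.mem_sup.1 hy
      obtain ⟨c, rfl⟩ := Submodule.mem_span_singleton.1 hx
      obtain ⟨d, rfl⟩ := Submodule.mem_span_singleton.1 hz
      rw [← hxy, ← hzw] at h1 h2
      simp only [map_add, map_smul, smul_eq_mul, D.ee, D.ff, D.ef, hfe, hw.1, hw.2.1, mul_zero,
        mul_one, zero_add, add_zero] at h1 h2
      rw [← hxy, ← hzw, h1, h2, zero_smul, zero_smul, zero_add, zero_add]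
      exact hw
  · have key : ∀ v, a3pr b e f v ∈ a3P b L e f →
        v ∈ Submodule.span E {e} ⊔ (Submodule.span E {f} ⊔ a3P b L e f) := by
      intro v hv
      rw [a3_dec (b := b) (e := e) (f := f) v, add_assoc]
      exact Submodule.add_mem_sup (Submodule.smul_mem _ _ (Submodule.mem_span_singleton_self e))
        (Submodule.add_mem_sup (Submodule.smul_mem _ _ (Submodule.mem_span_singleton_self f)) hv)
    intro X hX u hu
    obtain ⟨x, hx, y, hy, hxy⟩ := Submodule.mem_sup.1 hu
    obtain ⟨z, hz, w, hw, hzw⟩ := Submodule.mem_sup.1 hy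
    obtain ⟨c, rfl⟩ := Submodule.mem_span_singleton.1 hx
    obtain ⟨d, rfl⟩ := Submodule.mem_span_singleton.1 hz
    rw [← hxy, ← hzw, map_add, map_add, map_smul, map_smul]
    refine Submodule.add_mem _ (Submodule.smul_mem _ _ (key _ ?_))
      (Submodule.add_mem _ (Submodule.smul_mem _ _ (key _ (a3_one D hX))) (key _ (a3_two D hX hw)))
    have h4 := a3_five D (a3_one D.swap hX)
    rwa [a3pr_swap] at h4

/-- the conclusion -/
theorem a3_all (D : A3D b L s ζ e f) (x y : V) : wedge b x y ∈ L := by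
  obtain ⟨w, hw, hww⟩ := a3_three D
  have hw' : w ∈ a3P b L f e := a3_six D.swap hw.2.1 hw.1
  have hfe : wedge b f e ∈ L := by
    have h1 := D.brk _ hw.2.2 _ hw'.2.2
    rw [a3_brk D hw hw', a3_self, neg_zero, zero_add] at h1
    have h2 := L.smul_mem (b w w)⁻¹ h1
    rwa [smul_smul, inv_mul_cancel₀ hww, one_smul] at h2
  have hmm : ∀ v v', b e v = 0 → b f v = 0 → b e v' = 0 → b f v' = 0 → wedge b v v' ∈ L := by
    intro v v' h1 h2 h3 h4
    have hv := a3_six D h1 h2
    have hv' : v' ∈ a3P b L f e := a3_six D.swap h4 h3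
    have h5 := D.brk _ hv.2.2 _ hv'.2.2
    rw [a3_brk D hv hv'] at h5
    have h6 := L.sub_mem (L.smul_mem (b v v') hfe) h5
    rwa [sub_add_cancel_right, neg_neg] at h6
  have hev : ∀ v, b e v = 0 → b f v = 0 → wedge b e v ∈ L := fun v h1 h2 => (a3_six D h1 h2).2.2
  have hfv : ∀ v, b e v = 0 → b f v = 0 → wedge b f v ∈ L := fun v h1 h2 =>
    (a3_six D.swap h2 h1).2.2
  have hflip : ∀ u v, wedge b u v ∈ L → wedge b v u ∈ L := by
    intro u v h
    rw [a3_anti]
    exact L.neg_mem h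
  have hlin : ∀ u v, wedge b u e ∈ L → wedge b u f ∈ L → wedge b u (a3pr b e f v) ∈ L →
      wedge b u v ∈ L := by
    intro u v h1 h2 h3
    rw [a3_dec (b := b) (e := e) (f := f) v, a3_add, a3_add, a3_smul, a3_smul]
    exact L.add_mem (L.add_mem (L.smul_mem _ h1) (L.smul_mem _ h2)) h3
  have hee : wedge b e e ∈ L := by
    rw [a3_self]
    exact L.zero_mem
  have hff : wedge b f f ∈ L := by
    rw [a3_self]
    exact L.zero_mem
  have he : ∀ v, wedge b e v ∈ L := fun v => hlin e v hee (hflip _ _ hfe)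
    (hev _ (a3_pr1 D v) (a3_pr2 D v))
  have hf : ∀ v, wedge b f v ∈ L := fun v => hlin f v hfe hff (hfv _ (a3_pr1 D v) (a3_pr2 D v))
  have hp : ∀ u v, b e u = 0 → b f u = 0 → wedge b u v ∈ L := fun u v h1 h2 =>
    hlin u v (hflip _ _ (he u)) (hflip _ _ (hf u)) (hmm _ _ h1 h2 (a3_pr1 D v) (a3_pr2 D v))
  exact hflip _ _ (hlin y x (hflip _ _ (he y)) (hflip _ _ (hf y))
    (hflip _ _ (hp _ _ (a3_pr1 D x) (a3_pr2 D x))))

end

section

variable {E V : Type*} [Field E] [AddCommGroup V] [Module E V]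

variable {G : Type*} [Group G] {b : LinearMap.BilinForm E V} {L : Submodule E (Module.End E V)}
  {ρ : G →* Module.End E V} {σ : G}

theorem om_full3 [IsAlgClosed E] [FiniteDimensional E V] (h2 : (2 : E) ≠ 0) (h3 : (3 : E) ≠ 0)
    (C : Ctx b L ρ σ) (h : ρ σ ^ 3 = 1) (hr : finrank E (LinearMap.range (ρ σ - 1)) = 2)
    (hdim : 3 ≤ finrank E V)
    (hL : ∀ U : Submodule E V, (∀ X ∈ L, ∀ u ∈ U, X u ∈ U) → U = ⊥ ∨ U = ⊤) (x y : V) :
    wedge b x y ∈ L := by
  obtain ⟨ζ, e, f, hz, hee, hff, hef, hform⟩ := om_struct3 h3 b C.symm C.nondeg (ρ σ)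
    (fun x y => C.orth σ x y) h hr
  have hinv : ρ σ⁻¹ = ρ σ ^ 2 := by
    have h4 : ρ σ⁻¹ * ρ σ = 1 := by rw [← map_mul, inv_mul_cancel, map_one]
    calc ρ σ⁻¹ = ρ σ⁻¹ * (ρ σ ^ 3) := by rw [h, mul_one]
      _ = (ρ σ⁻¹ * ρ σ) * ρ σ ^ 2 := by rw [pow_succ' (ρ σ) 2, mul_assoc]
      _ = ρ σ ^ 2 := by rw [h4, one_mul]
  have D : A3D b L (ρ σ) ζ e f :=
    { h2 := h2
      h3 := h3
      symm := C.symm
      skew := C.skew
      brk := C.brk
      c1 := by
        intro X hX
        have h4 := C.conj σ X hX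
        rwa [hinv] at h4
      c2 := by
        intro X hX
        have h4 := C.conj σ⁻¹ X hX
        rwa [inv_inv, hinv] at h4
      s3 := h
      z := hz
      ee := hee
      ff := hff
      ef := hef
      form := hform
      irr := hL }
  exact a3_all D x y

end

end Pool.Agent.ESO
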