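import Pool.Agent.Lib_helper55.ESF.OA1
import Pool.Agent.Lib_helper55.ESF.OA2

-- block A5 of project OM (helper44), by helper5, in another namespace

/-!
# OM, block A5: there is no stable line (order three)
-/

set_option autoImplicit false

namespace Pool.Agent.ESO

open Module

section

variable {E V : Type*} [Field E] [AddCommGroup V] [Module E V]

variable {G : Type*} [Group G] {b : LinearMap.BilinForm E V} {L : Submodule E (Module.End E V)}
  {ρ : G →* Module.End E V} {σ : G}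

/-- weights are transported by the group -/
theorem a5_weight (C : Ctx b L ρ σ) {lam : Module.End E V → E} {w : V}
    (hw : ∀ X ∈ L, X w = lam X • w) (h : G) (X : Module.End E V) (hX : X ∈ L) :
    (ρ h⁻¹ * X * ρ h ∈ L) ∧ X (ρ h w) = lam (ρ h⁻¹ * X * ρ h) • ρ h w := by
  have h1 : ρ h⁻¹ * X * ρ h ∈ L := by
    have := C.conj h⁻¹ X hX
    rwa [inv_inv] at this
  refine ⟨h1, ?_⟩
  have h2 := hw _ h1
  have h3 : ρ h * ρ h⁻¹ = 1 := by rw [← map_mul, mul_inv_cancel, map_one]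
  have h4 : ρ h ((ρ h⁻¹ * X * ρ h) w) = X (ρ h w) := by
    have h5 : ρ h * (ρ h⁻¹ * X * ρ h) = X * ρ h := by
      rw [← mul_assoc, ← mul_assoc, h3, one_mul]
    have h6 := LinearMap.congr_fun h5 w
    exact h6
  rw [← h4, h2, map_smul]

/-- OM5: there is no stable line (order three; from OM1, OM2). -/
theorem om_line3 [IsAlgClosed E] [FiniteDimensional E V] (h2 : (2 : E) ≠ 0) (h3 : (3 : E) ≠ 0)
    (C : Ctx b L ρ σ) (h : ρ σ ^ 3 = 1) (hr : finrank E (LinearMap.range (ρ σ - 1)) = 2)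
    (w : V) (hw : w ≠ 0) (hL : ∀ X ∈ L, ∃ c : E, X w = c • w) : False := by
  have hL' : ∀ X : Module.End E V, ∃ c : E, X ∈ L → X w = c • w := by
    intro X
    by_cases hX : X ∈ L
    · obtain ⟨c, hc⟩ := hL X hX
      exact ⟨c, fun _ => hc⟩
    · exact ⟨0, fun hX' => absurd hX' hX⟩
  choose lam hlam using hL'
  -- some weight is not zero
  obtain ⟨X1, hX1, hl1⟩ : ∃ X1 ∈ L, lam X1 ≠ 0 := by
    by_contra hcon
    push Not at hcon
    refine hw (om_kill C w fun X hX => ?_)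
    rw [hlam X hX, hcon X hX, zero_smul]
  -- the weight space
  let U : Submodule E V :=
    { carrier := {v | ∀ X ∈ L, X v = lam X • v}
      add_mem' := by
        intro x y hx hy X hX
        rw [map_add, hx X hX, hy X hX, smul_add]
      zero_mem' := by
        intro X _
        rw [map_zero, smul_zero]
      smul_mem' := by
        intro c x hx X hX
        rw [map_smul, hx X hX, smul_comm] }
  have hUmem : ∀ v, v ∈ U ↔ ∀ X ∈ L, X v = lam X • v := fun v => Iff.rfl
  have hwU : w ∈ U := hlam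
  have hiso : ∀ u ∈ U, ∀ u' ∈ U, b u u' = 0 := by
    intro u hu u' hu'
    have h4 := C.skew X1 hX1 u u'
    rw [hu X1 hX1, hu' X1 hX1] at h4
    simp only [map_smul, LinearMap.smul_apply, smul_eq_mul] at h4
    have h5 : (2 * lam X1) * b u u' = 0 := by linear_combination h4
    rcases mul_eq_zero.1 h5 with h6 | h6
    · exact absurd h6 (mul_ne_zero h2 hl1)
    · exact h6
  have hUbot : U ≠ ⊥ := by
    intro hU
    rw [hU] at hwU
    exact hw ((Submodule.mem_bot E).1 hwU)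
  have hUtop : U ≠ ⊤ := by
    intro hU
    refine hw (C.nondeg w fun y => hiso w hwU y ?_)
    rw [hU]
    exact Submodule.mem_top
  -- a conjugate which moves the weight space
  obtain ⟨g, u, hu, hgu⟩ : ∃ g : G, ∃ u ∈ U, ρ (g * σ * g⁻¹) u ∉ U := by
    by_contra hcon
    push Not at hcon
    rcases om_nc C U hcon with h4 | h4
    · exact hUbot h4
    · exact hUtop h4
  have hu0 : u ≠ 0 := by
    rintro rfl
    rw [map_zero] at hgu
    exact hgu U.zero_mem
  obtain ⟨τ, hτ⟩ : ∃ τ : G, τ = g * σ * g⁻¹ := ⟨_, rfl⟩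
  rw [← hτ] at hgu
  have hgg : ρ g * ρ g⁻¹ = 1 := by rw [← map_mul, mul_inv_cancel, map_one]
  have hgg' : ρ g⁻¹ * ρ g = 1 := by rw [← map_mul, inv_mul_cancel, map_one]
  have hτ3 : ρ (τ * τ * τ) = 1 := by
    have h4 : τ * τ * τ = g * (σ ^ 3) * g⁻¹ := by
      rw [hτ]
      simp only [pow_succ, pow_zero, one_mul, mul_assoc, inv_mul_cancel_left]
    rw [h4, map_mul, map_mul, map_pow, h, mul_one, hgg]
  -- the structure of the conjugate
  obtain ⟨ζ, e, f, hζ, hee, hff, hef, hs⟩ := om_struct3 h3 b C.symm C.nondeg (ρ σ) (C.orth σ) h hr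
  have hζ0 : ζ ≠ 0 := by
    rintro rfl
    norm_num at hζ
  have hform : ∀ v, ρ τ v = v + ((ζ - 1) * b (ρ g f) v) • ρ g e +
      ((ζ ^ 2 - 1) * b (ρ g e) v) • ρ g f := by
    intro v
    have h4 : ρ τ v = ρ g (ρ σ (ρ g⁻¹ v)) := by
      rw [hτ, map_mul, map_mul]
      rfl
    have h5 : ρ g (ρ g⁻¹ v) = v := LinearMap.congr_fun hgg v
    have h6 : ∀ x, b x (ρ g⁻¹ v) = b (ρ g x) v := by
      intro x
      rw [← C.orth g x (ρ g⁻¹ v), h5]
    rw [h4, hs, map_add, map_add, map_smul, map_smul, h5, h6, h6]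
  have hee' : b (ρ g e) (ρ g e) = 0 := by rw [C.orth, hee]
  have hff' : b (ρ g f) (ρ g f) = 0 := by rw [C.orth, hff]
  have hef' : b (ρ g e) (ρ g f) = 1 := by rw [C.orth, hef]
  have hfe' : b (ρ g f) (ρ g e) = 1 := by rw [C.symm, hef']
  -- the values of the weights
  have hone : ∀ X ∈ L, (ρ τ⁻¹ * X * ρ τ ∈ L) ∧ X (ρ τ u) = lam (ρ τ⁻¹ * X * ρ τ) • ρ τ u :=
    fun X hX => a5_weight C hu τ X hX
  have hbu : b u (ρ τ u) = 0 := by
    by_contra hne
    have hneg : ∀ X ∈ L, lam (ρ τ⁻¹ * X * ρ τ) = - lam X := by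
      intro X hX
      have h4 := C.skew X hX u (ρ τ u)
      rw [hu X hX, (hone X hX).2] at h4
      simp only [map_smul, LinearMap.smul_apply, smul_eq_mul] at h4
      have h5 : (lam (ρ τ⁻¹ * X * ρ τ) + lam X) * b u (ρ τ u) = 0 := by linear_combination h4
      rcases mul_eq_zero.1 h5 with h6 | h6
      · exact eq_neg_of_add_eq_zero_left h6
      · exact absurd h6 hne
    have k1 := (hone X1 hX1).1
    have k2 := (hone _ k1).1
    have m1 := hneg X1 hX1
    have m2 := hneg _ k1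
    have m3 := hneg _ k2
    have h7 : ρ τ⁻¹ * (ρ τ⁻¹ * (ρ τ⁻¹ * X1 * ρ τ) * ρ τ) * ρ τ = X1 := by
      have h8 : ρ τ⁻¹ * (ρ τ⁻¹ * (ρ τ⁻¹ * X1 * ρ τ) * ρ τ) * ρ τ =
          ρ (τ * τ * τ)⁻¹ * X1 * ρ (τ * τ * τ) := by
        have h9 : (τ * τ * τ)⁻¹ = τ⁻¹ * τ⁻¹ * τ⁻¹ := by group
        rw [h9, map_mul, map_mul, map_mul, map_mul]
        simp only [mul_assoc]
      have h10 : ρ (τ * τ * τ)⁻¹ = 1 := by
        have h11 : ρ (τ * τ * τ) * ρ (τ * τ * τ)⁻¹ = 1 := by
          rw [← map_mul, mul_inv_cancel, map_one]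
        rwa [hτ3, one_mul] at h11
      rw [h8, h10, hτ3, one_mul, mul_one]
    rw [h7, m2, m1] at m3
    have h12 : 2 * lam X1 = 0 := by linear_combination m3
    exact (mul_ne_zero h2 hl1) h12
  -- the three vectors are dependent: impossible
  have key : ∀ ω : E, ω ≠ 0 → 1 + ω ≠ 0 →
      ρ τ (ρ τ u) = (1 + ω) • ρ τ u - ω • u → False := by
    intro ω hω hω1 hrel
    apply hgu
    intro X hX
    have hX' := (hone X hX).1
    have w1 := (hone X hX).2
    have w0 := hu X hX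
    have w2 : X (ρ τ (ρ τ u)) =
        lam (ρ τ⁻¹ * (ρ τ⁻¹ * X * ρ τ) * ρ τ) • ρ τ (ρ τ u) := by
      have h4 := (a5_weight C hu (τ * τ) X hX).2
      have h9 : (τ * τ)⁻¹ = τ⁻¹ * τ⁻¹ := by group
      have h5 : ρ (τ * τ)⁻¹ * X * ρ (τ * τ) = ρ τ⁻¹ * (ρ τ⁻¹ * X * ρ τ) * ρ τ := by
        rw [h9, map_mul, map_mul]
        simp only [mul_assoc]
      rw [h5, map_mul] at h4
      exact h4
    set m0 := lam X with hm0
    set m1 := lam (ρ τ⁻¹ * X * ρ τ) with hm1
    set m2 := lam (ρ τ⁻¹ * (ρ τ⁻¹ * X * ρ τ) * ρ τ) with hm2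
    rw [hrel, map_sub, map_smul, map_smul, w1, w0] at w2
    have h5 : ((1 + ω) * (m1 - m2)) • ρ τ u = (ω * (m0 - m2)) • u := by
      have h6 : ((1 + ω) * (m1 - m2)) • ρ τ u - (ω * (m0 - m2)) • u =
          ((1 + ω) • m1 • ρ τ u - ω • m0 • u) - m2 • ((1 + ω) • ρ τ u - ω • u) := by
        module
      rw [w2, sub_self] at h6
      exact sub_eq_zero.1 h6
    have h6 : (1 + ω) * (m1 - m2) = 0 := by
      by_contra hne
      apply hgu
      have h7 : ρ τ u = (((1 + ω) * (m1 - m2))⁻¹ * (ω * (m0 - m2))) • u := by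
        rw [mul_smul, ← h5, smul_smul, inv_mul_cancel₀ hne, one_smul]
      rw [h7]
      exact U.smul_mem _ hu
    rw [h6, zero_smul] at h5
    have h7 : ω * (m0 - m2) = 0 := by
      rcases smul_eq_zero.1 h5.symm with h8 | h8
      · exact h8
      · exact absurd h8 hu0
    have h8 : m1 = m2 := by
      rcases mul_eq_zero.1 h6 with h9 | h9
      · exact absurd h9 hω1
      · exact sub_eq_zero.1 h9
    have h9 : m0 = m2 := by
      rcases mul_eq_zero.1 h7 with h10 | h10
      · exact absurd h10 hω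
      · exact sub_eq_zero.1 h10
    rw [w1, h8, ← h9]
  have huu : b u u = 0 := hiso u hu u hu
  have hprod : b (ρ g e) u = 0 ∨ b (ρ g f) u = 0 := by
    have h4 := hbu
    rw [hform u, map_add, map_add, map_smul, map_smul, huu, smul_eq_mul, smul_eq_mul,
      C.symm u (ρ g e), C.symm u (ρ g f)] at h4
    have h5 : 3 * (b (ρ g e) u * b (ρ g f) u) = 0 := by
      linear_combination (-1 : E) * h4 + (b (ρ g e) u * b (ρ g f) u) * hζ
    rcases mul_eq_zero.1 h5 with h6 | h6
    · exact absurd h6 h3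
    · exact mul_eq_zero.1 h6
  rcases hprod with h4 | h4
  · refine key ζ hζ0 ?_ ?_
    · intro h5
      have : ζ ^ 2 = 0 := by linear_combination hζ - h5
      exact hζ0 ((pow_eq_zero_iff two_ne_zero).1 this)
    · have h5 : ρ τ u = u + ((ζ - 1) * b (ρ g f) u) • ρ g e := by
        rw [hform u, h4, mul_zero, zero_smul, add_zero]
      have h6 : ρ τ (ρ g e) = ζ • ρ g e := by
        rw [hform, hfe', hee', mul_zero, zero_smul, add_zero, mul_one]
        module
      have h7 : ρ τ (ρ τ u) = ρ τ u + ((ζ - 1) * b (ρ g f) u) • (ζ • ρ g e) := by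
        conv_lhs => rw [h5, map_add, map_smul, h6]
      rw [h7, h5]
      module
  · refine key (ζ ^ 2) (pow_ne_zero 2 hζ0) ?_ ?_
    · intro h5
      have : ζ = 0 := by linear_combination hζ - h5
      exact hζ0 this
    · have h5 : ρ τ u = u + ((ζ ^ 2 - 1) * b (ρ g e) u) • ρ g f := by
        rw [hform u, h4, mul_zero, zero_smul, add_zero]
      have h6 : ρ τ (ρ g f) = ζ ^ 2 • ρ g f := by
        rw [hform, hef', hff', mul_zero, zero_smul, add_zero, mul_one]
        module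
      have h7 : ρ τ (ρ τ u) = ρ τ u + ((ζ ^ 2 - 1) * b (ρ g e) u) • (ζ ^ 2 • ρ g f) := by
        conv_lhs => rw [h5, map_add, map_smul, h6]
      rw [h7, h5]
      module

end


end Pool.Agent.ESO
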