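import Pool.Agent.Lib_helper55.ESF.OA1
import Pool.Agent.Lib_helper55.ESF.OA2
import Pool.Agent.Lib_helper55.ESF.OA5

-- block A6 of project OM (helper44), by helper18, in another namespace

/-!
# OM, block A6: there is no stable plane (order three)
-/

set_option autoImplicit false

namespace Pool.Agent.ESO

open Module

section

variable {E V : Type*} [Field E] [AddCommGroup V] [Module E V]
variable {G : Type*} [Group G] {b : LinearMap.BilinForm E V} {L : Submodule E (Module.End E V)}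
  {ρ : G →* Module.End E V} {σ : G}

/-- stable subspaces -/
def a6St (L : Submodule E (Module.End E V)) (W : Submodule E V) : Prop :=
  ∀ X ∈ L, ∀ w ∈ W, X w ∈ W

theorem a6_cancel (h : G) (v : V) : ρ h⁻¹ (ρ h v) = v := by
  rw [← Module.End.mul_apply, ← map_mul, inv_mul_cancel, map_one, Module.End.one_apply]

theorem a6_cancel' (h : G) (v : V) : ρ h (ρ h⁻¹ v) = v := by
  rw [← Module.End.mul_apply, ← map_mul, mul_inv_cancel, map_one, Module.End.one_apply]

theorem a6_inj (h : G) : Function.Injective (ρ h) := fun u v e => by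
  rw [← a6_cancel (ρ := ρ) h u, e, a6_cancel]

theorem a6_map (C : Ctx b L ρ σ) (h : G) {W : Submodule E V} (hW : a6St L W) :
    a6St L (W.map (ρ h)) := by
  rintro X hX _ ⟨w, hw, rfl⟩
  have h1 := C.conj h⁻¹ X hX
  rw [inv_inv] at h1
  refine ⟨(ρ h⁻¹ * X * ρ h) w, hW _ h1 w hw, ?_⟩
  rw [Module.End.mul_apply, Module.End.mul_apply, a6_cancel']

theorem a6_inf {W U : Submodule E V} (hW : a6St L W) (hU : a6St L U) : a6St L (W ⊓ U) :=
  fun X hX w hw => ⟨hW X hX w hw.1, hU X hX w hw.2⟩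

theorem a6_orth (C : Ctx b L ρ σ) {W : Submodule E V} (hW : a6St L W) :
    a6St L (b.orthogonal W) := by
  intro X hX v hv
  rw [LinearMap.BilinForm.mem_orthogonal_iff] at hv ⊢
  intro n hn
  have h1 := C.skew X hX n v
  have h2 : b (X n) v = 0 := hv _ (hW X hX n hn)
  show b n (X v) = 0
  rw [h2] at h1
  exact neg_eq_zero.1 h1.symm

theorem a6_min [FiniteDimensional E V]
    (hl : ∀ w : V, w ≠ 0 → (∀ X ∈ L, ∃ c : E, X w = c • w) → False)
    {Q W' : Submodule E V} (hQ : finrank E Q = 2) (hW' : a6St L W') (hle : W' ≤ Q) :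
    W' = ⊥ ∨ W' = Q := by
  have h1 : finrank E W' ≤ 2 := hQ ▸ Submodule.finrank_mono hle
  rcases (show finrank E W' = 0 ∨ finrank E W' = 1 ∨ finrank E W' = 2 by omega) with h | h | h
  · left
    exact Submodule.finrank_eq_zero.1 h
  · exfalso
    obtain ⟨w, hw0, hw⟩ := finrank_eq_one_iff'.1 h
    refine hl (w : V) (fun e => hw0 (Subtype.ext e)) fun X hX => ?_
    obtain ⟨c, hc⟩ := hw ⟨X w, hW' X hX w w.2⟩
    exact ⟨c, (congrArg Subtype.val hc).symm⟩
  · right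
    exact Submodule.eq_of_le_of_finrank_eq hle (h.trans hQ.symm)

/-- stable planes are isotropic -/
theorem a6_iso [IsAlgClosed E] [FiniteDimensional E V] (h2 : (2 : E) ≠ 0) (C : Ctx b L ρ σ)
    (hl : ∀ w : V, w ≠ 0 → (∀ X ∈ L, ∃ c : E, X w = c • w) → False)
    {Q : Submodule E V} (hQ : finrank E Q = 2) (hs : a6St L Q) :
    ∀ x ∈ Q, ∀ y ∈ Q, b x y = 0 := by
  rcases a6_min hl hQ (a6_inf hs (a6_orth C hs)) inf_le_left with e | e
  · exfalso
    obtain ⟨u, huQ, hu0, huu⟩ : ∃ u ∈ Q, u ≠ 0 ∧ b u u = 0 := by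
      let B := Module.finBasisOfFinrankEq E Q hQ
      by_cases h1 : b (B 1 : V) (B 1 : V) = 0
      · refine ⟨B 1, (B 1).2, fun e => B.ne_zero 1 (Subtype.ext e), h1⟩
      · obtain ⟨r, hr⟩ := IsAlgClosed.exists_pow_nat_eq
          (b (B 0 : V) (B 1 : V) ^ 2 - b (B 0 : V) (B 0 : V) * b (B 1 : V) (B 1 : V))
          (zero_lt_two : 0 < 2)
        set t := (r - b (B 0 : V) (B 1 : V)) / b (B 1 : V) (B 1 : V) with ht
        have ht' : t * b (B 1 : V) (B 1 : V) = r - b (B 0 : V) (B 1 : V) := by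
          rw [ht, div_mul_cancel₀ _ h1]
        refine ⟨B 0 + t • B 1, Q.add_mem (B 0).2 (Q.smul_mem _ (B 1).2), ?_, ?_⟩
        · intro e
          have e' : B 0 + t • B 1 = 0 := Subtype.ext e
          have := congrArg (fun x => B.repr x 0) e'
          simp at this
        · have hsym : b (B 1 : V) (B 0 : V) = b (B 0 : V) (B 1 : V) := C.symm _ _
          simp only [map_add, map_smul, LinearMap.add_apply, LinearMap.smul_apply, smul_eq_mul,
            hsym]
          apply mul_left_cancel₀ h1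
          linear_combination (t * b (B 1 : V) (B 1 : V) + b (B 0 : V) (B 1 : V) + r) * ht' + hr
    obtain ⟨u', hu'Q, hu'⟩ : ∃ u' ∈ Q, b u' u ≠ 0 := by
      by_contra hcon
      push Not at hcon
      have : u ∈ Q ⊓ b.orthogonal Q := ⟨huQ, hcon⟩
      rw [e] at this
      exact hu0 ((Submodule.mem_bot E).1 this)
    set K := Q ⊓ b.orthogonal (Submodule.span E {u}) with hK
    have hmem : ∀ v ∈ Q, b v u = 0 → v ∈ K := by
      intro v hv h0
      refine ⟨hv, fun n hn => ?_⟩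
      obtain ⟨c, rfl⟩ := Submodule.mem_span_singleton.1 hn
      show b (c • u) v = 0
      rw [map_smul, LinearMap.smul_apply, C.symm, h0, smul_zero]
    have huK : u ∈ K := hmem u huQ huu
    have hlt : K < Q := by
      refine lt_of_le_of_ne inf_le_left fun e => ?_
      have : u' ∈ K := e ▸ hu'Q
      have h3 : b u u' = 0 := this.2 u (Submodule.mem_span_singleton_self u)
      exact hu' (by rw [C.symm, h3])
    have hK1 : finrank E K = 1 := by
      have h3 := Submodule.finrank_lt_finrank_of_lt hlt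
      have h4 : 0 < finrank E K := by
        rw [Module.finrank_pos_iff]
        exact ⟨⟨⟨u, huK⟩, 0, fun e => hu0 (congrArg Subtype.val e)⟩⟩
      omega
    have hspan := (finrank_eq_one_iff_of_nonzero' (⟨u, huK⟩ : K)
      (fun e => hu0 (congrArg Subtype.val e))).1 hK1
    refine hl u hu0 fun X hX => ?_
    have h5 : b (X u) u = 0 := by
      have h6 := C.skew X hX u u
      rw [C.symm u (X u)] at h6
      have h7 : 2 * b (X u) u = 0 := by linear_combination h6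
      exact (mul_eq_zero.1 h7).resolve_left h2
    obtain ⟨c, hc⟩ := hspan ⟨X u, hmem _ (hs X hX u huQ) h5⟩
    exact ⟨c, (congrArg Subtype.val hc).symm⟩
  · intro x hx y hy
    have : y ∈ Q ⊓ b.orthogonal Q := by
      rw [e]
      exact hy
    exact this.2 x hx

theorem a6_disj [FiniteDimensional E V] (C : Ctx b L ρ σ)
    (hl : ∀ w : V, w ≠ 0 → (∀ X ∈ L, ∃ c : E, X w = c • w) → False)
    {Q : Submodule E V} (hQ : finrank E Q = 2) (hs : a6St L Q) (t : G)
    (hu : ∃ u ∈ Q, ρ t u ∉ Q) : Q ⊓ Q.map (ρ t) = ⊥ := by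
  obtain ⟨u, huQ, hu⟩ := hu
  rcases a6_min hl hQ (a6_inf hs (a6_map C t hs)) inf_le_left with e | e
  · exact e
  · exfalso
    have hle : Q ≤ Q.map (ρ t) := inf_eq_left.1 e
    have heq : Q = Q.map (ρ t) := by
      refine Submodule.eq_of_le_of_finrank_eq hle ?_
      exact (LinearEquiv.finrank_eq (Submodule.equivMapOfInjective (ρ t) (a6_inj t) Q))
    apply hu
    rw [heq]
    exact ⟨u, huQ, rfl⟩

/-- a conjugate of `σ` that moves a stable plane -/
theorem a6_star [IsAlgClosed E] [FiniteDimensional E V] (h2 : (2 : E) ≠ 0) (h3 : (3 : E) ≠ 0)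
    (C : Ctx b L ρ σ) (h : ρ σ ^ 3 = 1) (hr : finrank E (LinearMap.range (ρ σ - 1)) = 2)
    (hl : ∀ w : V, w ≠ 0 → (∀ X ∈ L, ∃ c : E, X w = c • w) → False)
    {Q : Submodule E V} (hQ : finrank E Q = 2) (hs : a6St L Q) (g : G)
    (hu : ∃ u ∈ Q, ρ (g * σ * g⁻¹) u ∉ Q) :
    (∃ (ζ : E) (e f : V), e ∈ Q.map (ρ (g * σ * g⁻¹) - 1) ∧ f ∈ Q.map (ρ (g * σ * g⁻¹) - 1) ∧
      ∀ v, ρ (g * σ * g⁻¹) v = v + ((ζ - 1) * b f v) • e + ((ζ ^ 2 - 1) * b e v) • f) ∧
    ∃ q ∈ Q, ∃ q' ∈ Q, b (ρ (g * σ * g⁻¹) q) q' ≠ 0 := by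
  have hdisj := a6_disj C hl hQ hs _ hu
  set t := g * σ * g⁻¹ with ht
  have hconj : ρ t - 1 = ρ g * (ρ σ - 1) * ρ g⁻¹ := by
    rw [ht, map_mul, map_mul, mul_sub, sub_mul, mul_one, ← map_mul ρ g g⁻¹, mul_inv_cancel,
      map_one]
  have hrange : LinearMap.range (ρ t - 1) = (LinearMap.range (ρ σ - 1)).map (ρ g) := by
    rw [hconj]
    apply le_antisymm
    · rintro _ ⟨v, rfl⟩
      exact ⟨(ρ σ - 1) (ρ g⁻¹ v), ⟨_, rfl⟩, rfl⟩
    · rintro _ ⟨_, ⟨v, rfl⟩, rfl⟩
      refine ⟨ρ g v, ?_⟩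
      rw [Module.End.mul_apply, Module.End.mul_apply, a6_cancel]
  have hr2 : finrank E (LinearMap.range (ρ t - 1)) = 2 := by
    rw [hrange, ← hr]
    exact (LinearEquiv.finrank_eq (Submodule.equivMapOfInjective (ρ g) (a6_inj g) _)).symm
  have h3t : ρ t ^ 3 = 1 := by
    have e1 : t ^ 3 = g * σ ^ 3 * g⁻¹ := by rw [ht, conj_pow]
    rw [← map_pow, e1, map_mul, map_mul, map_pow, h, mul_one, ← map_mul, mul_inv_cancel, map_one]
  have hinj : ∀ w ∈ Q, (ρ t - 1) w = 0 → w = 0 := by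
    intro w hw h0
    have h1 : ρ t w = w := by
      rw [LinearMap.sub_apply, Module.End.one_apply, sub_eq_zero] at h0
      exact h0
    have : w ∈ Q ⊓ Q.map (ρ t) := ⟨hw, w, hw, h1⟩
    rw [hdisj] at this
    exact (Submodule.mem_bot E).1 this
  have hrQ : Q.map (ρ t - 1) = LinearMap.range (ρ t - 1) := by
    refine Submodule.eq_of_le_of_finrank_eq (LinearMap.map_le_range) ?_
    rw [hr2, ← LinearMap.range_domRestrict, LinearMap.finrank_range_of_inj, hQ]
    rw [injective_iff_map_eq_zero]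
    intro w hw
    exact Subtype.ext (hinj w w.2 hw)
  obtain ⟨ζ, e, f, hζ, hee, hff, hef, hform⟩ := om_struct3 h3 b C.symm C.nondeg (ρ t)
    (C.orth t) h3t hr2
  have hfe : b f e = 1 := by rw [C.symm, hef]
  have hz : (ζ - 1) * (ζ ^ 2 - 1) = 3 := by linear_combination (ζ - 2) * hζ
  have hz1 : ζ - 1 ≠ 0 := fun h0 => h3 (by rw [← hz, h0, zero_mul])
  have hz2 : ζ ^ 2 - 1 ≠ 0 := fun h0 => h3 (by rw [← hz, h0, mul_zero])
  have he : e ∈ Q.map (ρ t - 1) := by
    rw [hrQ]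
    refine ⟨(ζ - 1)⁻¹ • e, ?_⟩
    rw [map_smul, LinearMap.sub_apply, Module.End.one_apply, hform e, hfe, hee, mul_one, mul_zero,
      zero_smul, add_zero, add_sub_cancel_left, smul_smul, inv_mul_cancel₀ hz1, one_smul]
  have hf : f ∈ Q.map (ρ t - 1) := by
    rw [hrQ]
    refine ⟨(ζ ^ 2 - 1)⁻¹ • f, ?_⟩
    rw [map_smul, LinearMap.sub_apply, Module.End.one_apply, hform f, hff, hef, mul_one, mul_zero,
      zero_smul, add_zero, add_sub_cancel_left, smul_smul, inv_mul_cancel₀ hz2, one_smul]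
  refine ⟨⟨ζ, e, f, he, hf, hform⟩, ?_⟩
  by_contra hcon
  push Not at hcon
  obtain ⟨q, hq, hqe⟩ := he
  obtain ⟨q', hq', hqf⟩ := hf
  have hiso := a6_iso h2 C hl hQ hs
  have h1 : b ((ρ t - 1) q) ((ρ t - 1) q') = 0 := by
    simp only [LinearMap.sub_apply, Module.End.one_apply, map_sub, C.orth]
    rw [hiso q hq q' hq', hcon q hq q' hq', C.symm q (ρ t q'), hcon q' hq' q hq]
    simp
  rw [hqe, hqf, hef] at h1
  exact one_ne_zero h1

theorem om_plane3 [IsAlgClosed E] [FiniteDimensional E V] (h2 : (2 : E) ≠ 0) (h3 : (3 : E) ≠ 0)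
    (C : Ctx b L ρ σ) (h : ρ σ ^ 3 = 1) (hr : finrank E (LinearMap.range (ρ σ - 1)) = 2)
    (hdim : 5 ≤ finrank E V) (W : Submodule E V) (hW : finrank E W = 2)
    (hL : ∀ X ∈ L, ∀ w ∈ W, X w ∈ W) : False := by
  have hl : ∀ w : V, w ≠ 0 → (∀ X ∈ L, ∃ c : E, X w = c • w) → False :=
    fun w hw hX => om_line3 h2 h3 C h hr w hw hX
  have hWs : a6St L W := hL
  -- a conjugate that moves it
  obtain ⟨g, hmov⟩ : ∃ g : G, ∃ u ∈ W, ρ (g * σ * g⁻¹) u ∉ W := by
    by_contra hcon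
    push Not at hcon
    rcases om_nc C W hcon with e | e
    · rw [e, finrank_bot] at hW
      omega
    · rw [e, finrank_top] at hW
      omega
  have hdisj := a6_disj C hl hW hWs _ hmov
  obtain ⟨⟨ζ, e, f, he, hf, hform⟩, q, hq, q', hq', hqq⟩ := a6_star h2 h3 C h hr hl hW hWs g hmov
  set t := g * σ * g⁻¹ with ht
  set W2 := W.map (ρ t) with hW2
  have hW2f : finrank E W2 = 2 := by
    rw [← hW]
    exact (LinearEquiv.finrank_eq (Submodule.equivMapOfInjective (ρ t) (a6_inj t) W)).symm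
  have hW2s : a6St L W2 := a6_map C t hWs
  set Y := W ⊔ W2 with hY
  have hYs : a6St L Y := by
    intro X hX y hy
    obtain ⟨w, hw, w2, hw2, rfl⟩ := Submodule.mem_sup.1 hy
    rw [map_add]
    exact Submodule.add_mem_sup (hWs X hX w hw) (hW2s X hX w2 hw2)
  have hYf : finrank E Y = 4 := by
    have h1 := Submodule.finrank_sup_add_finrank_inf_eq W W2
    rw [hdisj, finrank_bot, hW, hW2f] at h1
    exact h1
  have i1 : W ⊓ b.orthogonal W2 = ⊥ := by
    rcases a6_min hl hW (a6_inf hWs (a6_orth C hW2s)) inf_le_left with e1 | e1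
    · exact e1
    · exfalso
      have : q' ∈ W ⊓ b.orthogonal W2 := by
        rw [e1]
        exact hq'
      exact hqq (this.2 _ ⟨q, hq, rfl⟩)
  have i2 : W2 ⊓ b.orthogonal W = ⊥ := by
    rcases a6_min hl hW2f (a6_inf hW2s (a6_orth C hWs)) inf_le_left with e1 | e1
    · exact e1
    · exfalso
      have : ρ t q ∈ W2 ⊓ b.orthogonal W := e1.symm ▸ (⟨q, hq, rfl⟩ : ρ t q ∈ W2)
      have h1 : b q' (ρ t q) = 0 := this.2 q' hq'
      exact hqq (by rw [C.symm, h1])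
  have iso1 := a6_iso h2 C hl hW hWs
  have iso2 := a6_iso h2 C hl hW2f hW2s
  have hrefl : b.IsRefl := fun x y hxy => by rw [C.symm, hxy]
  have hnd : b.Nondegenerate := by
    refine ⟨C.nondeg, fun y hy => C.nondeg y fun x => ?_⟩
    rw [C.symm]
    exact hy x
  have hYd : Disjoint Y (b.orthogonal Y) := by
    rw [Submodule.disjoint_def]
    intro y hy hy'
    obtain ⟨w, hw, w2, hw2, rfl⟩ := Submodule.mem_sup.1 hy
    have k1 : w2 = 0 := by
      have : w2 ∈ W2 ⊓ b.orthogonal W := by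
        refine ⟨hw2, fun n hn => ?_⟩
        have h1 : b n (w + w2) = 0 := hy' n (Submodule.mem_sup_left hn)
        rw [map_add, iso1 n hn w hw, zero_add] at h1
        exact h1
      rw [i2] at this
      exact (Submodule.mem_bot E).1 this
    have k2 : w = 0 := by
      have : w ∈ W ⊓ b.orthogonal W2 := by
        refine ⟨hw, fun n hn => ?_⟩
        have h1 : b n (w + w2) = 0 := hy' n (Submodule.mem_sup_right hn)
        rw [map_add, iso2 n hn w2 hw2, add_zero] at h1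
        exact h1
      rw [i1] at this
      exact (Submodule.mem_bot E).1 this
    rw [k1, k2, add_zero]
  have hcompl := (LinearMap.BilinForm.isCompl_orthogonal_iff_disjoint hrefl).2 hYd
  have hYY : b.orthogonal (b.orthogonal Y) = Y :=
    LinearMap.BilinForm.orthogonal_orthogonal hnd hrefl Y
  have hYo : a6St L (b.orthogonal Y) := a6_orth C hYs
  have hmapY : ∀ x ∈ W.map (ρ t - 1), x ∈ Y := by
    rintro _ ⟨w, hw, rfl⟩
    rw [LinearMap.sub_apply, Module.End.one_apply]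
    exact Y.sub_mem (Submodule.mem_sup_right ⟨w, hw, rfl⟩) (Submodule.mem_sup_left hw)
  have hfix : ∀ y ∈ b.orthogonal Y, ρ t y = y := by
    intro y hy
    have h1 : b f y = 0 := hy f (hmapY f hf)
    have h4 : b e y = 0 := hy e (hmapY e he)
    rw [hform y, h1, h4]
    simp
  have hfix' : ∀ y ∈ b.orthogonal Y, ρ t⁻¹ y = y := by
    intro y hy
    have h1 := a6_cancel (ρ := ρ) t y
    rwa [hfix y hy] at h1
  -- the ideal
  obtain ⟨X₀, hX₀, hX₀', hX₀n⟩ : ∃ X ∈ L, (∀ y ∈ b.orthogonal Y, X y = 0) ∧ X ≠ 0 := by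
    obtain ⟨X, hX, hne⟩ := om_comm h2 C g
    refine ⟨ρ t * X * ρ t⁻¹ - X, L.sub_mem (C.conj t X hX) hX, ?_, ?_⟩
    · intro y hy
      rw [LinearMap.sub_apply, Module.End.mul_apply, Module.End.mul_apply, hfix' y hy,
        hfix _ (hYo X hX y hy), sub_self]
    · intro h0
      apply hne
      rw [sub_eq_zero] at h0
      have h1 : ρ t * X * ρ t⁻¹ * ρ t = X * ρ t := by rw [h0]
      rwa [mul_assoc, ← map_mul, inv_mul_cancel, map_one, mul_one] at h1
  have hJY : ∀ X ∈ L, (∀ y ∈ b.orthogonal Y, X y = 0) → ∀ v, X v ∈ Y := by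
    intro X hX hX' v
    rw [← hYY]
    intro y hy
    have h1 := C.skew X hX y v
    rw [hX' y hy, map_zero, LinearMap.zero_apply] at h1
    exact neg_eq_zero.1 h1.symm
  have hJ0 : ∀ X ∈ L, (∀ y ∈ b.orthogonal Y, X y = 0) → (∀ w ∈ W, X w = 0) →
      (∀ w ∈ W2, X w = 0) → X = 0 := by
    intro X hX hX' k1 k2
    ext v
    have hv : v ∈ Y ⊔ b.orthogonal Y := by
      rw [hcompl.sup_eq_top]
      trivial
    obtain ⟨y, hy, z, hz, rfl⟩ := Submodule.mem_sup.1 hv
    obtain ⟨w, hw, w2, hw2, rfl⟩ := Submodule.mem_sup.1 hy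
    rw [map_add, map_add, k1 w hw, k2 w2 hw2, hX' z hz]
    simp
  have hJW : ∃ X ∈ L, (∀ y ∈ b.orthogonal Y, X y = 0) ∧ ∃ w ∈ W, X w ≠ 0 := by
    by_contra hcon
    push Not at hcon
    apply hX₀n
    refine hJ0 X₀ hX₀ hX₀' (hcon X₀ hX₀ hX₀') fun w2 hw2 => ?_
    have : X₀ w2 ∈ W2 ⊓ b.orthogonal W := by
      refine ⟨hW2s X₀ hX₀ w2 hw2, fun n hn => ?_⟩
      have h1 := C.skew X₀ hX₀ n w2
      rw [hcon X₀ hX₀ hX₀' n hn, map_zero, LinearMap.zero_apply] at h1
      exact neg_eq_zero.1 h1.symm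
    rw [i2] at this
    exact (Submodule.mem_bot E).1 this
  have hJW2 : ∃ X ∈ L, (∀ y ∈ b.orthogonal Y, X y = 0) ∧ ∃ w ∈ W2, X w ≠ 0 := by
    by_contra hcon
    push Not at hcon
    apply hX₀n
    refine hJ0 X₀ hX₀ hX₀' (fun w hw => ?_) (hcon X₀ hX₀ hX₀')
    have : X₀ w ∈ W ⊓ b.orthogonal W2 := by
      refine ⟨hWs X₀ hX₀ w hw, fun n hn => ?_⟩
      have h1 := C.skew X₀ hX₀ n w
      rw [hcon X₀ hX₀ hX₀' n hn, map_zero, LinearMap.zero_apply] at h1
      exact neg_eq_zero.1 h1.symm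
    rw [i1] at this
    exact (Submodule.mem_bot E).1 this
  -- planes that are not orthogonal to `S` lie in `Y`
  have hclaim : ∀ S : Submodule E V, finrank E S = 2 → a6St L S →
      (∃ X ∈ L, (∀ y ∈ b.orthogonal Y, X y = 0) ∧ ∃ w ∈ S, X w ≠ 0) →
      ∀ Q : Submodule E V, finrank E Q = 2 → a6St L Q → (∃ x ∈ Q, ∃ s ∈ S, b x s ≠ 0) →
      Q ≤ Y := by
    rintro S hS hSs ⟨X, hX, hX', s, hs, hXs⟩ Q hQ hQs ⟨x, hx, s', hs', hxs⟩
    have hJQ : ∃ Z ∈ L, (∀ y ∈ b.orthogonal Y, Z y = 0) ∧ ∃ z ∈ Q, Z z ≠ 0 := by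
      by_contra hcon
      push Not at hcon
      rcases a6_min hl hS (a6_inf hSs (a6_orth C hQs)) inf_le_left with e1 | e1
      · have : X s ∈ S ⊓ b.orthogonal Q := by
          refine ⟨hSs X hX s hs, fun n hn => ?_⟩
          have h1 := C.skew X hX n s
          rw [hcon X hX hX' n hn, map_zero, LinearMap.zero_apply] at h1
          exact neg_eq_zero.1 h1.symm
        rw [e1] at this
        exact hXs ((Submodule.mem_bot E).1 this)
      · have : s' ∈ S ⊓ b.orthogonal Q := by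
          rw [e1]
          exact hs'
        exact hxs (this.2 x hx)
    obtain ⟨Z, hZ, hZ', z, hz, hZz⟩ := hJQ
    rcases a6_min hl hQ (a6_inf hQs hYs) inf_le_left with e1 | e1
    · exfalso
      have : Z z ∈ Q ⊓ Y := ⟨hQs Z hZ z hz, hJY Z hZ hZ' z⟩
      rw [e1] at this
      exact hZz ((Submodule.mem_bot E).1 this)
    · exact inf_eq_left.1 e1
  have hfin : ∀ S : Submodule E V, S ≤ Y → finrank E S = 2 → a6St L S →
      (∃ X ∈ L, (∀ y ∈ b.orthogonal Y, X y = 0) ∧ ∃ w ∈ S, X w ≠ 0) →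
      ∀ g' : G, ∀ s ∈ S, ρ (g' * σ * g'⁻¹) s ∈ Y := by
    intro S hSY hS hSs hSJ g' s hs
    by_cases hm : ∃ u ∈ S, ρ (g' * σ * g'⁻¹) u ∉ S
    · obtain ⟨-, r, hr', r', hr'', hrr⟩ := a6_star h2 h3 C h hr hl hS hSs g' hm
      refine hclaim S hS hSs hSJ (S.map (ρ (g' * σ * g'⁻¹))) ?_ (a6_map C _ hSs)
        ⟨_, ⟨r, hr', rfl⟩, r', hr'', hrr⟩ ⟨s, hs, rfl⟩
      rw [← hS]
      exact (LinearEquiv.finrank_eq
        (Submodule.equivMapOfInjective (ρ (g' * σ * g'⁻¹)) (a6_inj _) S)).symm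
    · push Not at hm
      exact hSY (hm s hs)
  have hYnc : ∀ g' : G, ∀ y ∈ Y, ρ (g' * σ * g'⁻¹) y ∈ Y := by
    intro g' y hy
    obtain ⟨w, hw, w2, hw2, rfl⟩ := Submodule.mem_sup.1 hy
    rw [map_add]
    exact Y.add_mem (hfin W le_sup_left hW hWs hJW g' w hw)
      (hfin W2 le_sup_right hW2f hW2s hJW2 g' w2 hw2)
  rcases om_nc C Y hYnc with e1 | e1
  · rw [e1, finrank_bot] at hYf
    omega
  · rw [e1, finrank_top] at hYf
    omega

end


end Pool.Agent.ESO
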