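import Pool.Agent.Lib_helper55.ESF.OA2
import Pool.Agent.Lib_helper55.ESF.OA5
import Pool.Agent.Lib_helper55.ESF.OA6

-- block A7 of project OM (helper44), by helper18, in another namespace

/-!
# OM, block A7: the Lie algebra is irreducible (order three)
-/

set_option autoImplicit false

namespace Pool.Agent.ESO

open Module

section

variable {E V : Type*} [Field E] [AddCommGroup V] [Module E V]
variable {G : Type*} [Group G] {b : LinearMap.BilinForm E V} {L : Submodule E (Module.End E V)}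
  {ρ : G →* Module.End E V} {σ : G}

theorem a7_cancel (h : G) (v : V) : ρ h⁻¹ (ρ h v) = v := by
  rw [← Module.End.mul_apply, ← map_mul, inv_mul_cancel, map_one, Module.End.one_apply]

theorem a7_cancel' (h : G) (v : V) : ρ h (ρ h⁻¹ v) = v := by
  rw [← Module.End.mul_apply, ← map_mul, mul_inv_cancel, map_one, Module.End.one_apply]

theorem a7_inj (h : G) : Function.Injective (ρ h) := fun u v e => by
  rw [← a7_cancel (ρ := ρ) h u, e, a7_cancel]

theorem a7_stab (C : Ctx b L ρ σ) (h : G) {W : Submodule E V} (hW : ∀ X ∈ L, ∀ w ∈ W, X w ∈ W) :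
    ∀ X ∈ L, ∀ w ∈ W.map (ρ h), X w ∈ W.map (ρ h) := by
  rintro X hX _ ⟨w, hw, rfl⟩
  have h1 := C.conj h⁻¹ X hX
  rw [inv_inv] at h1
  refine ⟨(ρ h⁻¹ * X * ρ h) w, hW _ h1 w hw, ?_⟩
  rw [Module.End.mul_apply, Module.End.mul_apply, a7_cancel']

theorem om_irr3 [IsAlgClosed E] [FiniteDimensional E V] (h2 : (2 : E) ≠ 0) (h3 : (3 : E) ≠ 0)
    (C : Ctx b L ρ σ) (h : ρ σ ^ 3 = 1) (hr : finrank E (LinearMap.range (ρ σ - 1)) = 2)
    (hdim : 5 ≤ finrank E V) (U : Submodule E V) (hU : ∀ X ∈ L, ∀ u ∈ U, X u ∈ U) :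
    U = ⊥ ∨ U = ⊤ := by
  by_contra hcon
  rw [not_or] at hcon
  obtain ⟨hU0, hU1⟩ := hcon
  -- a minimal stable subspace
  obtain ⟨W, ⟨hW0, hWU, hWs⟩, hmin⟩ := (wellFounded_lt (α := Submodule E V)).has_min
    {W : Submodule E V | W ≠ ⊥ ∧ W ≤ U ∧ ∀ X ∈ L, ∀ w ∈ W, X w ∈ W} ⟨U, hU0, le_rfl, hU⟩
  have hmin' : ∀ W' : Submodule E V, W' ≤ W → (∀ X ∈ L, ∀ w ∈ W', X w ∈ W') →
      W' = ⊥ ∨ W' = W := by
    intro W' h1 h2
    by_contra hcon
    rw [not_or] at hcon
    exact hmin W' ⟨hcon.1, h1.trans hWU, h2⟩ (lt_of_le_of_ne h1 hcon.2)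
  have hW1 : W ≠ ⊤ := fun e => hU1 (top_le_iff.1 (e ▸ hWU))
  -- a conjugate that moves it
  obtain ⟨g, u, huW, hu⟩ : ∃ g : G, ∃ u ∈ W, ρ (g * σ * g⁻¹) u ∉ W := by
    by_contra hcon
    push Not at hcon
    rcases om_nc C W hcon with e | e
    · exact hW0 e
    · exact hW1 e
  set t := g * σ * g⁻¹ with ht
  have hinf : W ⊓ W.map (ρ t) = ⊥ := by
    rcases hmin' (W ⊓ W.map (ρ t)) inf_le_left (fun X hX w hw =>
      ⟨hWs X hX w hw.1, a7_stab C t hWs X hX w hw.2⟩) with e | e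
    · exact e
    · exfalso
      have hle : W ≤ W.map (ρ t) := inf_eq_left.1 e
      have heq : W = W.map (ρ t) := by
        refine Submodule.eq_of_le_of_finrank_eq hle ?_
        exact (LinearEquiv.finrank_eq (Submodule.equivMapOfInjective (ρ t) (a7_inj t) W))
      apply hu
      rw [heq]
      exact ⟨u, huW, rfl⟩
  have hinj : ∀ w ∈ W, (ρ t - 1) w = 0 → w = 0 := by
    intro w hw h0
    have h1 : ρ t w = w := by
      rw [LinearMap.sub_apply, Module.End.one_apply, sub_eq_zero] at h0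
      exact h0
    have : w ∈ W ⊓ W.map (ρ t) := ⟨hw, w, hw, h1⟩
    rw [hinf] at this
    exact (Submodule.mem_bot E).1 this
  have hconj : ρ t - 1 = ρ g * (ρ σ - 1) * ρ g⁻¹ := by
    rw [ht, map_mul, map_mul, mul_sub, sub_mul, mul_one, ← map_mul ρ g g⁻¹, mul_inv_cancel,
      map_one]
  have hr2 : finrank E (LinearMap.range (ρ t - 1)) ≤ 2 := by
    rw [hconj, ← hr]
    refine le_trans (Submodule.finrank_mono (t := (LinearMap.range (ρ σ - 1)).map (ρ g)) ?_)
      (Submodule.finrank_map_le _ _)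
    rintro _ ⟨v, rfl⟩
    exact ⟨(ρ σ - 1) (ρ g⁻¹ v), ⟨_, rfl⟩, rfl⟩
  have hW2 : finrank E W ≤ 2 := by
    refine le_trans ?_ hr2
    refine LinearMap.finrank_le_finrank_of_injective
      (f := (ρ t - 1).rangeRestrict.comp W.subtype) ?_
    rw [injective_iff_map_eq_zero]
    intro w hw
    have := congrArg Subtype.val hw
    exact Subtype.ext (hinj w w.2 this)
  have hWpos : 0 < finrank E W := by
    rw [Module.finrank_pos_iff]
    exact Submodule.nontrivial_iff_ne_bot.2 hW0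
  rcases (show finrank E W = 1 ∨ finrank E W = 2 by omega) with h1 | h1
  · obtain ⟨w, hw0, hw⟩ := finrank_eq_one_iff'.1 h1
    refine om_line3 h2 h3 C h hr (w : V) (fun e => hw0 (Subtype.ext e)) fun X hX => ?_
    obtain ⟨c, hc⟩ := hw ⟨X w, hWs X hX w w.2⟩
    exact ⟨c, (congrArg Subtype.val hc).symm⟩
  · exact om_plane3 h2 h3 C h hr hdim W h1 hWs

end


end Pool.Agent.ESO
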