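import Pool.Agent.Lib_helper55.ESF.Defs

-- block P1 of the strong form of EllipticSurfaces, by helper37

/-!
# ES, block P1: orthogonal idempotents lift to compact rings
-/

set_option autoImplicit false

namespace Pool.Agent.ES

open Equiv Module Filter Topology

theorem p1_aux {A B : Type*} [Ring A] [TopologicalSpace A] [IsTopologicalRing A] [T2Space A]
    [CompactSpace A] [Ring B] [TopologicalSpace B] [T1Space B] (f : A →+* B) (hf : Continuous f)
    (J : NonUnitalSubring A) (hJ : IsClosed (J : Set A)) (p : A) (hp : p * p = p)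
    (hpJ : ∀ x ∈ J, p * x * p ∈ J) {κ : Type*} [DecidableEq κ] (e : κ → B)
    (he : ∀ i, ∃ x ∈ J, f x = e i) (hpe : ∀ i, f p * e i = e i ∧ e i * f p = e i)
    (hee : ∀ i j, e i * e j = if i = j then e i else 0) (s : Finset κ) :
    ∃ ε : κ → A, (∀ i ∈ s, ε i ∈ J ∧ f (ε i) = e i ∧ p * ε i = ε i ∧ ε i * p = ε i) ∧
      ∀ i ∈ s, ∀ j ∈ s, ε i * ε j = if i = j then ε i else 0 := by
  induction s using Finset.induction_on with
  | empty =>
    refine ⟨fun _ => 0, ?_, ?_⟩
    · intro i hi
      exact absurd hi (Finset.notMem_empty i)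
    · intro i hi
      exact absurd hi (Finset.notMem_empty i)
  | insert i s his ih =>
    obtain ⟨ε, h1, h2⟩ := ih
    set E : A := ∑ j ∈ s, ε j with hE
    have hEJ : E ∈ J := sum_mem fun j hj => (h1 j hj).1
    have hpE : p * E = E := by
      rw [hE, Finset.mul_sum]
      exact Finset.sum_congr rfl fun j hj => (h1 j hj).2.2.1
    have hEp : E * p = E := by
      rw [hE, Finset.sum_mul]
      exact Finset.sum_congr rfl fun j hj => (h1 j hj).2.2.2
    have hεE : ∀ j ∈ s, ε j * E = ε j := by
      intro j hj
      rw [hE, Finset.mul_sum, Finset.sum_eq_single j]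
      · rw [h2 j hj j hj, if_pos rfl]
      · intro k hk hkj
        rw [h2 j hj k hk, if_neg (Ne.symm hkj)]
      · intro h
        exact absurd hj h
    have hEε : ∀ j ∈ s, E * ε j = ε j := by
      intro j hj
      rw [hE, Finset.sum_mul, Finset.sum_eq_single j]
      · rw [h2 j hj j hj, if_pos rfl]
      · intro k hk hkj
        rw [h2 k hk j hj, if_neg hkj]
      · intro h
        exact absurd hj h
    have hEE : E * E = E := by
      nth_rewrite 2 [hE]
      rw [Finset.mul_sum]
      exact (Finset.sum_congr rfl fun j hj => hEε j hj)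
    set q : A := p - E with hq
    have hpq : p * q = q := by rw [hq, mul_sub, hp, hpE]
    have hqp : q * p = q := by rw [hq, sub_mul, hp, hEp]
    have hqq : q * q = q := by
      rw [hq, mul_sub, sub_mul, sub_mul, hp, hEp, hpE, hEE]
      abel
    have hεq : ∀ j ∈ s, ε j * q = 0 := by
      intro j hj
      rw [hq, mul_sub, (h1 j hj).2.2.2, hεE j hj, sub_self]
    have hqε : ∀ j ∈ s, q * ε j = 0 := by
      intro j hj
      rw [hq, sub_mul, (h1 j hj).2.2.1, hEε j hj, sub_self]
    have hqJ : ∀ x ∈ J, q * x * q ∈ J := by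
      intro x hx
      have e1 : q * x * q = p * x * p - p * (E * x) * p - p * (x * E) * p + E * x * E := by
        have a1 : p * (E * x) * p = E * x * p := by rw [← mul_assoc p E x, hpE]
        have a2 : p * (x * E) * p = p * x * E := by rw [mul_assoc p (x * E) p, mul_assoc x E p, hEp,
          ← mul_assoc]
        rw [a1, a2, hq]
        noncomm_ring
      rw [e1]
      have b1 : E * x ∈ J := mul_mem hEJ hx
      have b2 : x * E ∈ J := mul_mem hx hEJ
      exact add_mem (sub_mem (sub_mem (hpJ x hx) (hpJ _ b1)) (hpJ _ b2)) (mul_mem b1 hEJ)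
    have hfE : f E = ∑ j ∈ s, e j := by
      rw [hE, map_sum]
      exact Finset.sum_congr rfl fun j hj => (h1 j hj).2.1
    have hfqe : f q * e i = e i := by
      rw [hq, map_sub, sub_mul, (hpe i).1, hfE, Finset.sum_mul, Finset.sum_eq_zero, sub_zero]
      intro j hj
      rw [hee, if_neg]
      rintro rfl
      exact his hj
    have hefq : e i * f q = e i := by
      rw [hq, map_sub, mul_sub, (hpe i).2, hfE, Finset.mul_sum, Finset.sum_eq_zero, sub_zero]
      intro j hj
      rw [hee, if_neg]
      rintro rfl
      exact his hj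
    -- the compact semigroup
    let T : Set A := {x | x ∈ J ∧ f x = e i ∧ q * x = x ∧ x * q = x}
    have hTc : IsClosed T := by
      have c1 : IsClosed {x : A | x ∈ J} := hJ
      have c2 : IsClosed {x : A | f x = e i} := isClosed_singleton.preimage hf
      have c3 : IsClosed {x : A | q * x = x} := isClosed_eq (continuous_const_mul q) continuous_id
      have c4 : IsClosed {x : A | x * q = x} := isClosed_eq (continuous_mul_const q) continuous_id
      exact c1.inter (c2.inter (c3.inter c4))
    have hTn : T.Nonempty := by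
      obtain ⟨x, hx, hfx⟩ := he i
      refine ⟨q * x * q, hqJ x hx, ?_, ?_, ?_⟩
      · rw [map_mul, map_mul, hfx, hfqe, hefq]
      · rw [← mul_assoc, ← mul_assoc, hqq]
      · rw [mul_assoc, hqq]
    obtain ⟨y, ⟨hyJ, hfy, hqy, hyq⟩, hyy⟩ := exists_idempotent_in_compact_subsemigroup
      (M := A) (fun r => continuous_mul_const r) T hTn hTc.isCompact (by
        rintro x ⟨hxJ, hfx, hqx, hxq⟩ z ⟨hzJ, hfz, hqz, hzq⟩
        refine ⟨mul_mem hxJ hzJ, ?_, ?_, ?_⟩
        · rw [map_mul, hfx, hfz, hee, if_pos rfl]
        · rw [← mul_assoc, hqx]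
        · rw [mul_assoc, hzq])
    have hup : ∀ j ∈ s, Function.update ε i y j = ε j := by
      intro j hj
      rw [Function.update_of_ne]
      rintro rfl
      exact his hj
    refine ⟨Function.update ε i y, ?_, ?_⟩
    · intro j hj
      rcases Finset.mem_insert.1 hj with rfl | hj
      · rw [Function.update_self]
        refine ⟨hyJ, hfy, ?_, ?_⟩
        · rw [← hqy, ← mul_assoc, hpq]
        · rw [← hyq, mul_assoc, hqp]
      · rw [hup j hj]
        exact h1 j hj
    · intro j hj0 k hk0
      rcases Finset.mem_insert.1 hj0 with rfl | hj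
      · rcases Finset.mem_insert.1 hk0 with rfl | hk
        · rw [Function.update_self, if_pos rfl, hyy]
        · have hne : ¬ j = k := by
            rintro rfl
            exact his hk
          rw [Function.update_self, hup k hk, if_neg hne, ← hyq, mul_assoc, hqε k hk, mul_zero]
      · rcases Finset.mem_insert.1 hk0 with rfl | hk
        · have hne : ¬ j = k := by
            rintro rfl
            exact his hj
          rw [Function.update_self, hup j hj, if_neg hne, ← hqy, ← mul_assoc, hεq j hj, zero_mul]
        · rw [hup j hj, hup k hk]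
          exact h2 j hj k hk

/-- ES1: orthogonal idempotents lift to compact rings (Ellis). -/
theorem es_lift {A B : Type*} [Ring A] [TopologicalSpace A] [IsTopologicalRing A] [T2Space A]
    [CompactSpace A] [Ring B] [TopologicalSpace B] [T1Space B] (f : A →+* B) (hf : Continuous f)
    (J : NonUnitalSubring A) (hJ : IsClosed (J : Set A)) (p : A) (hp : p * p = p)
    (hpJ : ∀ x ∈ J, p * x * p ∈ J) {κ : Type*} [Fintype κ] [DecidableEq κ] (e : κ → B)
    (he : ∀ i, ∃ x ∈ J, f x = e i) (hpe : ∀ i, f p * e i = e i ∧ e i * f p = e i)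
    (hee : ∀ i j, e i * e j = if i = j then e i else 0) :
    ∃ ε : κ → A, (∀ i, ε i ∈ J ∧ f (ε i) = e i ∧ p * ε i = ε i ∧ ε i * p = ε i) ∧
      ∀ i j, ε i * ε j = if i = j then ε i else 0 := by
  obtain ⟨ε, h1, h2⟩ := p1_aux f hf J hJ p hp hpJ e he hpe hee Finset.univ
  exact ⟨ε, fun i => h1 i (Finset.mem_univ i), fun i j =>
    h2 i (Finset.mem_univ i) j (Finset.mem_univ j)⟩

end Pool.Agent.ES
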