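import Pool.Agent.Lib_helper55.ESF.Defs

-- block P2 of the strong form of EllipticSurfaces, by helper62

/-! # ES block P2: orthogonal idempotents below an idempotent -/

set_option autoImplicit false

namespace Pool.Agent.ES

open Equiv Module Filter Topology

theorem es_count {F V : Type*} [Field F] [AddCommGroup V] [Module F V] [FiniteDimensional F V]
    {κ : Type*} [Fintype κ] [DecidableEq κ] (P : Module.End F V) (hP : P * P = P)
    (ε : κ → Module.End F V) (h : ∀ i j, ε i * ε j = if i = j then ε i else 0)
    (h0 : ∀ i, ε i ≠ 0) (hPε : ∀ i, P * ε i = ε i ∧ ε i * P = ε i) :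
    Fintype.card κ ≤ finrank F (LinearMap.range P) ∧
      (Fintype.card κ = finrank F (LinearMap.range P) →
        ∑ i, ε i = P ∧ ∀ i, finrank F (LinearMap.range (ε i)) = 1) := by
  have hex : ∀ i, ∃ v, ε i v ≠ 0 := by
    intro i
    by_contra hcon
    push Not at hcon
    exact h0 i (LinearMap.ext fun v => hcon v)
  choose v hv using hex
  have hw : ∀ i j, ε j (ε i (v i)) = if j = i then ε i (v i) else 0 := by
    intro i j
    have h1 := LinearMap.congr_fun (h j i) (v i)
    rw [Module.End.mul_apply] at h1
    rw [h1]
    split_ifs with hji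
    · rw [hji]
    · rfl
  have hPw : ∀ i, P (ε i (v i)) = ε i (v i) := fun i => LinearMap.congr_fun (hPε i).1 (v i)
  have hεP : ∀ i x, ε i (P x) = ε i x := fun i x => LinearMap.congr_fun (hPε i).2 x
  set w : κ → LinearMap.range P := fun i => ⟨ε i (v i), ε i (v i), hPw i⟩ with hwd
  have hlin : LinearIndependent F w := by
    rw [Fintype.linearIndependent_iff]
    intro c hc i
    have h1 : ∑ j, c j • ε j (v j) = 0 := by
      have := congrArg (Subtype.val) hc
      simpa [hwd] using this
    have h2 : ε i (∑ j, c j • ε j (v j)) = c i • ε i (v i) := by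
      rw [map_sum, Finset.sum_eq_single i]
      · rw [map_smul, hw, if_pos rfl]
      · intro j _ hj
        rw [map_smul, hw, if_neg hj.symm, smul_zero]
      · intro hi
        exact absurd (Finset.mem_univ i) hi
    rw [h1, map_zero] at h2
    rcases smul_eq_zero.1 h2.symm with h3 | h3
    · exact h3
    · exact absurd h3 (hv i)
  refine ⟨hlin.fintype_card_le_finrank, fun hcard => ?_⟩
  have hspan : Submodule.span F (Set.range w) = ⊤ := by
    apply hlin.span_eq_top_of_card_eq_finrank'
    exact hcard
  have hexp : ∀ x, ∃ c : κ → F, P x = ∑ i, c i • ε i (v i) := by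
    intro x
    have hx : (⟨P x, x, rfl⟩ : LinearMap.range P) ∈ Submodule.span F (Set.range w) := by
      rw [hspan]
      trivial
    obtain ⟨c, hc⟩ := (Submodule.mem_span_range_iff_exists_fun F).1 hx
    refine ⟨c, ?_⟩
    have := congrArg (Subtype.val) hc
    simpa [hwd] using this.symm
  have hval : ∀ (x : V) (c : κ → F), P x = ∑ i, c i • ε i (v i) → ∀ i, ε i x = c i • ε i (v i) := by
    intro x c hc i
    rw [← hεP i x, hc, map_sum, Finset.sum_eq_single i]
    · rw [map_smul, hw, if_pos rfl]
    · intro j _ hj
      rw [map_smul, hw, if_neg hj.symm, smul_zero]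
    · intro hi
      exact absurd (Finset.mem_univ i) hi
  constructor
  · refine LinearMap.ext fun x => ?_
    obtain ⟨c, hc⟩ := hexp x
    rw [LinearMap.sum_apply, hc]
    exact Finset.sum_congr rfl fun i _ => hval x c hc i
  · intro i
    have hr : LinearMap.range (ε i) = Submodule.span F {ε i (v i)} := by
      apply le_antisymm
      · rintro _ ⟨x, rfl⟩
        obtain ⟨c, hc⟩ := hexp x
        rw [hval x c hc i]
        exact Submodule.smul_mem _ _ (Submodule.mem_span_singleton_self _)
      · rw [Submodule.span_singleton_le_iff_mem]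
        exact ⟨v i, rfl⟩
    rw [hr]
    exact finrank_span_singleton (hv i)

end Pool.Agent.ES
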