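import Pool.Agent.Lib_helper55.ESF.P3

-- block P4 of the strong form of EllipticSurfaces, by helper81

/-! # ES, block P4: the ideal of the residual representation -/

set_option autoImplicit false

namespace Pool.Agent.ES

open Equiv Topology

theorem p4_pm_apply {k : ℕ} (σ : Perm (Fin k)) (i j : Fin k) :
    pm σ i j = if σ j = i then 1 else 0 := rfl

theorem p4_pm_mul {k : ℕ} (σ τ : Perm (Fin k)) : pm (σ * τ) = pm σ * pm τ := by
  ext i j
  rw [Matrix.mul_apply, Finset.sum_eq_single (τ j)]
  · rw [p4_pm_apply, p4_pm_apply, p4_pm_apply, if_pos (rfl : τ j = τ j), mul_one]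
    by_cases h : σ (τ j) = i
    · rw [if_pos h]
      exact if_pos h
    · rw [if_neg h]
      exact if_neg h
  · intro l _ hl
    rw [p4_pm_apply τ, if_neg (fun h => hl h.symm), mul_zero]
  · intro h
    exact absurd (Finset.mem_univ _) h

theorem p4_pm_one {k : ℕ} : pm (1 : Perm (Fin k)) = 1 := by
  ext i j
  have h0 : (1 : Perm (Fin k)) j = j := rfl
  rw [p4_pm_apply, h0, Matrix.one_apply]
  by_cases h : j = i
  · rw [if_pos h, if_pos h.symm]
  · rw [if_neg h, if_neg (fun h' => h h'.symm)]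

theorem p4_pm_tr {k : ℕ} (σ : Perm (Fin k)) : (pm σ).trace = (fx σ : ZMod 2) := by
  unfold Matrix.trace fx
  simp only [Matrix.diag_apply, pm, Matrix.of_apply]
  rw [Finset.sum_boole, Fintype.card_subtype]

section

variable {G R : Type*} [Group G] {m : R → ℕ} {N : ℕ}
  {ρ : G →* Matrix (Fin N) (Fin N) ℤ_[2]} {π : ∀ r, G →* Perm (Fin (m r))}

theorem p4_phi_mul (x y : G) : phi ρ π (x * y) = phi ρ π x * phi ρ π y := by
  unfold phi
  rw [Prod.mk_mul_mk, map_mul]
  congr 1
  funext r
  rw [map_mul, p4_pm_mul]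
  rfl

theorem p4_phi_one : phi ρ π (1 : G) = 1 := by
  unfold phi
  rw [map_one]
  have : (fun r => pm (π r (1 : G))) = 1 := by
    funext r
    rw [map_one, p4_pm_one]
    rfl
  rw [this]
  rfl

/-- a generator of the ideal -/
theorem p4_gen_mem (H : Subgroup G) (T : Set G) {x s y : G} (hx : x ∈ H) (hs : s ∈ T)
    (hy : y ∈ H) : phi ρ π x * (phi ρ π s - 1) * phi ρ π y ∈ idl ρ π H T :=
  NonUnitalSubring.le_topologicalClosure _
    (NonUnitalSubring.subset_closure ⟨x, hx, s, hs, y, hy, rfl⟩)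

/-- the additive group generated by the products is closed under multiplication -/
theorem p4_add_mul (T : Set G) {z w : Rg m N}
    (hz : z ∈ AddSubgroup.closure {z : Rg m N | ∃ x : G, ∃ s ∈ T, ∃ y : G,
      z = phi ρ π x * (phi ρ π s - 1) * phi ρ π y})
    (hw : w ∈ AddSubgroup.closure {z : Rg m N | ∃ x : G, ∃ s ∈ T, ∃ y : G,
      z = phi ρ π x * (phi ρ π s - 1) * phi ρ π y}) :
    z * w ∈ AddSubgroup.closure {z : Rg m N | ∃ x : G, ∃ s ∈ T, ∃ y : G,
      z = phi ρ π x * (phi ρ π s - 1) * phi ρ π y} := by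
  induction hz using AddSubgroup.closure_induction with
  | mem z hz =>
    obtain ⟨x, s, hs, y, rfl⟩ := hz
    induction hw using AddSubgroup.closure_induction with
    | mem w hw =>
      obtain ⟨x', s', hs', y', rfl⟩ := hw
      have h1 : phi ρ π x * (phi ρ π s - 1) * phi ρ π y *
          (phi ρ π x' * (phi ρ π s' - 1) * phi ρ π y') =
          phi ρ π (x * s * y * x') * (phi ρ π s' - 1) * phi ρ π y' -
          phi ρ π (x * y * x') * (phi ρ π s' - 1) * phi ρ π y' := by
        simp only [p4_phi_mul]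
        noncomm_ring
      rw [h1]
      exact sub_mem (AddSubgroup.subset_closure ⟨_, s', hs', y', rfl⟩)
        (AddSubgroup.subset_closure ⟨_, s', hs', y', rfl⟩)
    | zero => rw [mul_zero]; exact zero_mem _
    | add a b _ _ h1 h2 => rw [mul_add]; exact add_mem h1 h2
    | neg a _ h1 => rw [mul_neg]; exact neg_mem h1
  | zero => rw [zero_mul]; exact zero_mem _
  | add a b _ _ h1 h2 => rw [add_mul]; exact add_mem h1 h2
  | neg a _ h1 => rw [neg_mul]; exact neg_mem h1

theorem p4_toZMod_cont : Continuous (PadicInt.toZMod : ℤ_[2] →+* ZMod 2) := by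
  rw [continuous_discrete_rng]
  intro b
  rw [Metric.isOpen_iff]
  intro x hx
  refine ⟨1, one_pos, fun y hy => ?_⟩
  rw [Metric.mem_ball, dist_eq_norm] at hy
  have h1 : y - x ∈ RingHom.ker (PadicInt.toZMod : ℤ_[2] →+* ZMod 2) := by
    rw [PadicInt.ker_toZMod, IsLocalRing.mem_maximalIdeal, mem_nonunits_iff,
      PadicInt.isUnit_iff]
    exact ne_of_lt hy
  rw [RingHom.mem_ker, map_sub, sub_eq_zero] at h1
  rw [Set.mem_preimage, Set.mem_singleton_iff] at hx ⊢
  rw [h1, hx]

end

section

variable {G R : Type*} [Group G] [Fintype R] {m : R → ℕ} {N : ℕ}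
  {ρ : G →* Matrix (Fin N) (Fin N) ℤ_[2]} {π : ∀ r, G →* Perm (Fin (m r))} {S : R → Set G}

/-- ES4d: the ideal property. -/
theorem es_idl_mul (H : Subgroup G) (T : Set G) (z : Rg m N) (hz : z ∈ idl ρ π H T)
    (a : Rg m N) (ha : a ∈ (Subring.closure (phi ρ π '' (H : Set G))).topologicalClosure) :
    a * z ∈ idl ρ π H T ∧ z * a ∈ idl ρ π H T := by
  obtain ⟨I, hI⟩ : ∃ I : NonUnitalSubring (Rg m N), I =
    NonUnitalSubring.closure {z | ∃ x ∈ H, ∃ s ∈ T, ∃ y ∈ H,
      z = phi ρ π x * (phi ρ π s - 1) * phi ρ π y} := ⟨_, rfl⟩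
  have hz' : z ∈ closure (I : Set (Rg m N)) := by
    rw [hI]; exact hz
  have hId : ∀ u, u ∈ closure (I : Set (Rg m N)) → u ∈ idl ρ π H T := by
    intro u hu
    rw [hI] at hu
    exact hu
  -- left multiplication
  have L : ∀ a ∈ Subring.closure (phi ρ π '' (H : Set G)), ∀ z ∈ I, a * z ∈ I := by
    intro a ha
    induction ha using Subring.closure_induction with
    | mem a ha =>
      obtain ⟨g, hg, rfl⟩ := ha
      intro z hz
      rw [hI] at hz ⊢
      induction hz using NonUnitalSubring.closure_induction with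
      | mem z hz =>
        obtain ⟨x, hx, s, hs, y, hy, rfl⟩ := hz
        apply NonUnitalSubring.subset_closure
        refine ⟨g * x, H.mul_mem hg hx, s, hs, y, hy, ?_⟩
        rw [p4_phi_mul]
        noncomm_ring
      | zero => rw [mul_zero]; exact zero_mem _
      | add x y _ _ h1 h2 => rw [mul_add]; exact add_mem h1 h2
      | neg x _ h1 => rw [mul_neg]; exact neg_mem h1
      | mul x y _ hy h1 _ => rw [← mul_assoc]; exact mul_mem h1 hy
    | zero => intro z _; rw [zero_mul]; exact I.zero_mem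
    | one => intro z hz; rwa [one_mul]
    | add x y _ _ h1 h2 => intro z hz; rw [add_mul]; exact I.add_mem (h1 z hz) (h2 z hz)
    | neg x _ h1 => intro z hz; rw [neg_mul]; exact I.neg_mem (h1 z hz)
    | mul x y _ _ h1 h2 => intro z hz; rw [mul_assoc]; exact h1 _ (h2 z hz)
  -- right multiplication
  have L' : ∀ a ∈ Subring.closure (phi ρ π '' (H : Set G)), ∀ z ∈ I, z * a ∈ I := by
    intro a ha
    induction ha using Subring.closure_induction with
    | mem a ha =>
      obtain ⟨g, hg, rfl⟩ := ha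
      intro z hz
      rw [hI] at hz ⊢
      induction hz using NonUnitalSubring.closure_induction with
      | mem z hz =>
        obtain ⟨x, hx, s, hs, y, hy, rfl⟩ := hz
        apply NonUnitalSubring.subset_closure
        refine ⟨x, hx, s, hs, y * g, H.mul_mem hy hg, ?_⟩
        rw [p4_phi_mul]
        noncomm_ring
      | zero => rw [zero_mul]; exact zero_mem _
      | add x y _ _ h1 h2 => rw [add_mul]; exact add_mem h1 h2
      | neg x _ h1 => rw [neg_mul]; exact neg_mem h1
      | mul x y hx _ _ h2 => rw [mul_assoc]; exact mul_mem hx h2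
    | zero => intro z _; rw [mul_zero]; exact I.zero_mem
    | one => intro z hz; rwa [mul_one]
    | add x y _ _ h1 h2 => intro z hz; rw [mul_add]; exact I.add_mem (h1 z hz) (h2 z hz)
    | neg x _ h1 => intro z hz; rw [mul_neg]; exact I.neg_mem (h1 z hz)
    | mul x y _ _ h1 h2 => intro z hz; rw [← mul_assoc]; exact h2 _ (h1 z hz)
  have ha' : a ∈ closure ((Subring.closure (phi ρ π '' (H : Set G)) : Subring (Rg m N)) :
      Set (Rg m N)) := ha
  constructor
  · apply hId
    exact map_mem_closure₂ continuous_mul ha' hz' (fun a ha z hz => L a ha z hz)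
  · apply hId
    exact map_mem_closure₂ (f := fun z a : Rg m N => z * a) continuous_mul hz' ha'
      (fun z hz a ha => L' a ha z hz)

/-- ES4a: the trace relation. -/
theorem es_idl_tr (hR : Res m N ρ π S) (H : Subgroup G) (z : Rg m N)
    (hz : z ∈ idl ρ π H (⋃ r, S r)) :
    PadicInt.toZMod z.1.trace = ∑ r, (z.2 r).trace := by
  classical
  obtain ⟨D, hD⟩ : ∃ D : Set (Rg m N), D =
    {z | PadicInt.toZMod z.1.trace = ∑ r, (z.2 r).trace} := ⟨_, rfl⟩
  have hDc : IsClosed D := by
    rw [hD]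
    apply isClosed_eq
    · exact p4_toZMod_cont.comp (Continuous.matrix_trace continuous_fst)
    · apply continuous_finsetSum
      intro r _
      exact Continuous.matrix_trace ((continuous_apply r).comp continuous_snd)
  have hgen : ∀ z ∈ AddSubgroup.closure {z : Rg m N | ∃ x : G, ∃ s ∈ (⋃ r, S r), ∃ y : G,
      z = phi ρ π x * (phi ρ π s - 1) * phi ρ π y}, z ∈ D := by
    intro z hz
    rw [hD]
    induction hz using AddSubgroup.closure_induction with
    | mem z hz =>
      obtain ⟨x, s, hs, y, rfl⟩ := hz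
      obtain ⟨r0, hs⟩ := Set.mem_iUnion.mp hs
      show PadicInt.toZMod (phi ρ π x * (phi ρ π s - 1) * phi ρ π y).1.trace =
        ∑ r, ((phi ρ π x * (phi ρ π s - 1) * phi ρ π y).2 r).trace
      have h1 : (phi ρ π x * (phi ρ π s - 1) * phi ρ π y).1.trace =
          (ρ (s * (y * x))).trace - (ρ (y * x)).trace := by
        have h2 : (phi ρ π x * (phi ρ π s - 1) * phi ρ π y).1 = ρ x * (ρ s - 1) * ρ y := rfl
        rw [h2, Matrix.trace_mul_comm, ← mul_assoc, ← map_mul, Matrix.trace_mul_comm, sub_mul,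
          one_mul, Matrix.trace_sub, ← map_mul]
      have h3 : ∀ r, ((phi ρ π x * (phi ρ π s - 1) * phi ρ π y).2 r).trace =
          (fx (π r (s * (y * x))) : ZMod 2) - fx (π r (y * x)) := by
        intro r
        have h2 : (phi ρ π x * (phi ρ π s - 1) * phi ρ π y).2 r =
            pm (π r x) * (pm (π r s) - 1) * pm (π r y) := rfl
        rw [h2, Matrix.trace_mul_comm, ← mul_assoc, ← p4_pm_mul, ← map_mul,
          Matrix.trace_mul_comm, sub_mul, one_mul, Matrix.trace_sub, ← p4_pm_mul, ← map_mul,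
          p4_pm_tr, p4_pm_tr]
      rw [h1, hR.tr r0 s hs, Finset.sum_eq_single r0]
      · rw [h3]
      · intro r _ hr
        rw [h3, map_mul (π r) s, hR.one r0 s hs r hr, one_mul, sub_self]
      · intro h
        exact absurd (Finset.mem_univ _) h
    | zero =>
      show PadicInt.toZMod (0 : Rg m N).1.trace = ∑ r, ((0 : Rg m N).2 r).trace
      simp
    | add a b _ _ h1 h2 =>
      have h1' : PadicInt.toZMod a.1.trace = ∑ r, (a.2 r).trace := h1
      have h2' : PadicInt.toZMod b.1.trace = ∑ r, (b.2 r).trace := h2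
      show PadicInt.toZMod (a + b).1.trace = ∑ r, ((a + b).2 r).trace
      simp only [Prod.fst_add, Prod.snd_add, Pi.add_apply, Matrix.trace_add, map_add,
        Finset.sum_add_distrib, h1', h2']
    | neg a _ h1 =>
      have h1' : PadicInt.toZMod a.1.trace = ∑ r, (a.2 r).trace := h1
      show PadicInt.toZMod (-a).1.trace = ∑ r, ((-a).2 r).trace
      simp only [Prod.fst_neg, Prod.snd_neg, Pi.neg_apply, Matrix.trace_neg, map_neg,
        Finset.sum_neg_distrib, h1']
  have hcl : ∀ z ∈ NonUnitalSubring.closure {z : Rg m N | ∃ x ∈ H, ∃ s ∈ (⋃ r, S r), ∃ y ∈ H,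
      z = phi ρ π x * (phi ρ π s - 1) * phi ρ π y}, z ∈ D := by
    intro z hz
    apply hgen
    induction hz using NonUnitalSubring.closure_induction with
    | mem z hz =>
      obtain ⟨x, _, s, hs, y, _, rfl⟩ := hz
      exact AddSubgroup.subset_closure ⟨x, s, hs, y, rfl⟩
    | zero => exact zero_mem _
    | add a b _ _ h1 h2 => exact add_mem h1 h2
    | neg a _ h1 => exact neg_mem h1
    | mul a b _ _ h1 h2 => exact p4_add_mul _ h1 h2
  have hfin : z ∈ D := closure_minimal (fun u hu => hcl u hu) hDc hz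
  rw [hD] at hfin
  exact hfin

/-- ES4b: rank one matrices. -/
theorem es_idl_one [DecidableEq R] (hR : Res m N ρ π S) (r : R) (v w : Fin (m r) → ZMod 2)
    (hv : ∑ i, v i = 0) (hw : ∑ i, w i = 0) :
    ∃ z ∈ idl ρ π (Subgroup.closure (S r)) (S r), z.2 = Pi.single r (Matrix.vecMulVec v w) := by
  let J : NonUnitalSubring (Matrix (Fin (m r)) (Fin (m r)) (ZMod 2)) :=
    { carrier := {M | ∃ z ∈ idl ρ π (Subgroup.closure (S r)) (S r), z.2 = Pi.single r M}
      zero_mem' := ⟨0, zero_mem _, by rw [Pi.single_zero]; rfl⟩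
      add_mem' := by
        rintro a b ⟨z, hz, ha⟩ ⟨w, hw, hb⟩
        exact ⟨z + w, add_mem hz hw, by rw [Prod.snd_add, ha, hb, Pi.single_add]⟩
      neg_mem' := by
        rintro a ⟨z, hz, ha⟩
        exact ⟨-z, neg_mem hz, by rw [Prod.snd_neg, ha, Pi.single_neg]⟩
      mul_mem' := by
        rintro a b ⟨z, hz, ha⟩ ⟨w, hw, hb⟩
        exact ⟨z * w, mul_mem hz hw, by rw [Prod.snd_mul, ha, hb, Pi.single_mul]⟩ }
  have hJ := es_rankone (k := m r) (by have := hR.big r; omega) J (by
    intro c c' hc hc'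
    obtain ⟨s, hs, hsc⟩ := hR.full r c hc
    obtain ⟨s', hs', hsc'⟩ := hR.full r c' hc'
    refine ⟨(phi ρ π s - 1) * (phi ρ π s' - 1), ?_, ?_⟩
    · have h1 : ∀ t ∈ S r, phi ρ π t - 1 ∈ idl ρ π (Subgroup.closure (S r)) (S r) := by
        intro t ht
        have := p4_gen_mem (ρ := ρ) (π := π) (Subgroup.closure (S r)) (S r)
          (Subgroup.one_mem _) ht (Subgroup.one_mem _)
        rwa [p4_phi_one, one_mul, mul_one] at this
      exact mul_mem (h1 s hs) (h1 s' hs')
    · funext r'
      have h2 : ((phi ρ π s - 1) * (phi ρ π s' - 1)).2 r' =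
        (pm (π r' s) - 1) * (pm (π r' s') - 1) := rfl
      rw [h2]
      by_cases hr : r' = r
      · subst hr
        rw [Pi.single_eq_same, hsc, hsc']
      · rw [Pi.single_eq_of_ne hr, hR.one r s hs r' hr, p4_pm_one, sub_self, zero_mul])
    v w hv hw
  exact hJ

end

end Pool.Agent.ES
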