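import Pool.Agent.Lib_helper55.ESF.P1
import Pool.Agent.Lib_helper55.ESF.P2
import Pool.Agent.Lib_helper55.ESF.P4
import Pool.Agent.Lib_helper55.ESF.P5

-- block P10 of the strong form of EllipticSurfaces, by helper33

/-! # ES, block P10: the lower bound for the dimension -/

set_option autoImplicit false

namespace Pool.Agent.ES

open Equiv Module Filter Topology

section vectors

variable {k : ℕ}

/-- the point `j` -/
def p10_a (j : Fin (k - 2)) : Fin k := ⟨j, by have := j.2; omega⟩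

variable (hk : 8 ≤ k)

/-- the point `k - 2` -/
def p10_p : Fin k := ⟨k - 2, by omega⟩

/-- the point `k - 1` -/
def p10_q : Fin k := ⟨k - 1, by omega⟩

/-- the vector `e_j + e_(k-1)` -/
def p10_v (j : Fin (k - 2)) : Fin k → ZMod 2 := Pi.single (p10_a j) 1 + Pi.single (p10_q hk) 1

/-- the vector `e_j + e_(k-2)` -/
def p10_w (j : Fin (k - 2)) : Fin k → ZMod 2 := Pi.single (p10_a j) 1 + Pi.single (p10_p hk) 1

theorem p10_sum (a c : Fin k) : ∑ i, (Pi.single a 1 + Pi.single c 1 : Fin k → ZMod 2) i = 0 := by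
  simp only [Pi.add_apply, Finset.sum_add_distrib]
  rw [Finset.sum_pi_single', Finset.sum_pi_single']
  simp only [Finset.mem_univ, if_true]
  decide

theorem p10_dot (i j : Fin (k - 2)) : p10_w hk i ⬝ᵥ p10_v hk j = if i = j then 1 else 0 := by
  unfold p10_w p10_v
  rw [add_dotProduct, single_dotProduct, single_dotProduct, one_mul, one_mul, Pi.add_apply,
    Pi.add_apply]
  have h1 : p10_a i ≠ p10_q hk := by
    intro h
    have := congrArg Fin.val h
    simp only [p10_a, p10_q] at this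
    omega
  have h2 : p10_p hk ≠ p10_a j := by
    intro h
    have := congrArg Fin.val h
    simp only [p10_a, p10_p] at this
    omega
  have h3 : p10_p hk ≠ p10_q hk := by
    intro h
    have := congrArg Fin.val h
    simp only [p10_q, p10_p] at this
    omega
  rw [Pi.single_eq_of_ne h1, Pi.single_eq_of_ne h2, Pi.single_eq_of_ne h3, add_zero, add_zero,
    add_zero]
  by_cases hij : i = j
  · rw [if_pos hij, hij, Pi.single_eq_same]
  · rw [if_neg hij, Pi.single_eq_of_ne]
    intro h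
    apply hij
    have := congrArg Fin.val h
    simp only [p10_a] at this
    exact Fin.ext this

end vectors

section

variable {G R : Type*} [Group G] [Fintype R] {m : R → ℕ} {N : ℕ}
  {ρ : G →* Matrix (Fin N) (Fin N) ℤ_[2]} {π : ∀ r, G →* Perm (Fin (m r))} {S : R → Set G}

omit [Fintype R] in
theorem p10_mono {H H' : Subgroup G} {T T' : Set G} (hH : H ≤ H') (hT : T ⊆ T') :
    idl ρ π H T ≤ idl ρ π H' T' := by
  unfold idl
  apply NonUnitalSubring.topologicalClosure_mono
  apply NonUnitalSubring.closure_mono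
  rintro z ⟨x, hx, s, hs, y, hy, rfl⟩
  exact ⟨x, hH hx, s, hT hs, y, hH hy, rfl⟩

/-- the idempotents -/
theorem p10_idem [DecidableEq R] (hR : Res m N ρ π S) (A : Finset R) :
    ∃ ε : (Σ r : {x // x ∈ A}, Fin (m r.1 - 2)) → Rg m N,
      (∀ i, ε i ∈ idl ρ π (Subgroup.closure (⋃ r ∈ A, S r)) (⋃ r ∈ A, S r) ∧ (ε i).1 ≠ 0) ∧
      ∀ i j, ε i * ε j = if i = j then ε i else 0 := by
  classical
  obtain ⟨T, hT⟩ : ∃ T : Set G, T = ⋃ r ∈ A, S r := ⟨_, rfl⟩
  obtain ⟨e, he⟩ : ∃ e : (Σ r : {x // x ∈ A}, Fin (m r.1 - 2)) →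
      (∀ r, Matrix (Fin (m r)) (Fin (m r)) (ZMod 2)),
      e = fun (i : Σ r : {x // x ∈ A}, Fin (m r.1 - 2)) => Pi.single i.1.1
        (Matrix.vecMulVec (p10_v (hR.big i.1.1) i.2) (p10_w (hR.big i.1.1) i.2)) := ⟨_, rfl⟩
  have hsub : ∀ r ∈ A, S r ⊆ T := by
    intro r hr s hs
    rw [hT]
    exact Set.mem_iUnion₂.2 ⟨r, hr, hs⟩
  have hTall : T ⊆ ⋃ r, S r := by
    intro s hs
    rw [hT] at hs
    obtain ⟨r, -, hs⟩ := Set.mem_iUnion₂.1 hs
    exact Set.mem_iUnion.2 ⟨r, hs⟩
  have h1 : ∀ i, ∃ x ∈ idl ρ π (Subgroup.closure T) T,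
      (RingHom.snd (Matrix (Fin N) (Fin N) ℤ_[2])
        (∀ r, Matrix (Fin (m r)) (Fin (m r)) (ZMod 2))) x = e i := by
    rintro ⟨⟨r, hr⟩, j⟩
    obtain ⟨z, hz, hz2⟩ := es_idl_one hR r (p10_v (hR.big r) j) (p10_w (hR.big r) j)
      (p10_sum _ _) (p10_sum _ _)
    refine ⟨z, p10_mono (Subgroup.closure_mono (hsub r hr)) (hsub r hr) hz, ?_⟩
    rw [he]
    exact hz2
  have h2 : ∀ i j, e i * e j = if i = j then e i else 0 := by
    rintro ⟨⟨r, hr⟩, a⟩ ⟨⟨r', hr'⟩, c⟩
    rw [he]
    by_cases hrr : r = r'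
    · subst hrr
      simp only
      rw [← Pi.single_mul, Matrix.vecMulVec_mul_vecMulVec]
      rw [p10_dot]
      by_cases hac : a = c
      · subst hac
        rw [if_pos rfl, if_pos rfl, one_smul]
      · rw [if_neg hac, if_neg, zero_smul, Matrix.vecMulVec_zero, Pi.single_zero]
        intro h
        apply hac
        simpa using h
    · rw [if_neg (by
        intro h
        apply hrr
        have := congrArg (fun t => t.1.1) h
        exact this)]
      funext t
      simp only [Pi.mul_apply, Pi.zero_apply]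
      by_cases ht : t = r
      · rw [Pi.single_eq_of_ne (i := r') (i' := t) (by rw [ht]; exact hrr), mul_zero]
      · rw [Pi.single_eq_of_ne (i := r) (i' := t) ht, zero_mul]
  have hc1 : CompactSpace (Matrix (Fin N) (Fin N) ℤ_[2]) :=
    inferInstanceAs (CompactSpace (Fin N → Fin N → ℤ_[2]))
  have hc2 : ∀ r, CompactSpace (Matrix (Fin (m r)) (Fin (m r)) (ZMod 2)) := fun r =>
    inferInstanceAs (CompactSpace (Fin (m r) → Fin (m r) → ZMod 2))
  have hc3 : CompactSpace (Rg m N) := inferInstanceAs (CompactSpace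
    (Matrix (Fin N) (Fin N) ℤ_[2] × (∀ r, Matrix (Fin (m r)) (Fin (m r)) (ZMod 2))))
  obtain ⟨ε, hε, hεε⟩ := es_lift (A := Rg m N)
    (B := ∀ r, Matrix (Fin (m r)) (Fin (m r)) (ZMod 2))
    (RingHom.snd (Matrix (Fin N) (Fin N) ℤ_[2])
        (∀ r, Matrix (Fin (m r)) (Fin (m r)) (ZMod 2))) continuous_snd
    (idl ρ π (Subgroup.closure T) T) (NonUnitalSubring.isClosed_topologicalClosure _) 1
    (one_mul 1) (fun x hx => by rw [one_mul, mul_one]; exact hx) e h1
    (fun i => ⟨by rw [map_one, one_mul], by rw [map_one, mul_one]⟩) h2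
  refine ⟨ε, fun i => ⟨?_, ?_⟩, hεε⟩
  · rw [← hT]
    exact (hε i).1
  · intro h0
    have h3 := es_idl_tr hR (Subgroup.closure T) (ε i) (p10_mono le_rfl hTall (hε i).1)
    have h4 : (ε i).2 = e i := (hε i).2.1
    rw [h0, h4, Matrix.trace_zero, map_zero, he] at h3
    simp only at h3
    rw [Finset.sum_eq_single i.1.1] at h3
    · rw [Pi.single_eq_same, Matrix.trace_vecMulVec, dotProduct_comm, p10_dot, if_pos rfl] at h3
      exact zero_ne_one h3
    · intro r _ hr
      rw [Pi.single_eq_of_ne hr, Matrix.trace_zero]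
    · intro h
      exact absurd (Finset.mem_univ _) h

variable {E : Type*} [Field E] (ι : ℤ_[2] →+* E) (hι : Function.Injective ι)

omit [Fintype R] in
/-- the span of the pieces is stable -/
theorem p10_stab (A : Finset R) (g : G) (hg : g ∈ Subgroup.closure (⋃ r ∈ A, S r)) :
    ∀ u ∈ ⨆ r ∈ A, mv (act ρ ι) (S r), act ρ ι g u ∈ ⨆ r ∈ A, mv (act ρ ι) (S r) := by
  obtain ⟨W, hW⟩ : ∃ W : Submodule E (Fin N → E), W = ⨆ r ∈ A, mv (act ρ ι) (S r) := ⟨_, rfl⟩
  rw [← hW]
  have hgen : ∀ s ∈ (⋃ r ∈ A, S r), ∀ u ∈ W, act ρ ι s u ∈ W := by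
    intro s hs u hu
    obtain ⟨r, hr, hs⟩ := Set.mem_iUnion₂.1 hs
    have h1 : act ρ ι s u - u ∈ W := by
      have h2 : act ρ ι s u - u ∈ LinearMap.range (act ρ ι s - 1) := ⟨u, rfl⟩
      have h3 : LinearMap.range (act ρ ι s - 1) ≤ mv (act ρ ι) (S r) :=
        le_iSup₂_of_le s hs le_rfl
      have h4 : mv (act ρ ι) (S r) ≤ W := by
        rw [hW]
        exact le_iSup₂_of_le r hr le_rfl
      exact h4 (h3 h2)
    have h5 : act ρ ι s u = (act ρ ι s u - u) + u := by abel
    rw [h5]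
    exact W.add_mem h1 hu
  have hinv : ∀ x y : G, x * y = 1 → ∀ u, act ρ ι x (act ρ ι y u) = u := by
    intro x y hxy u
    have h1 := congrArg (fun z => act ρ ι z u) hxy
    simp only [map_mul, map_one] at h1
    exact h1
  induction hg using Subgroup.closure_induction with
  | mem s hs => exact hgen s hs
  | one =>
    intro u hu
    rw [map_one]
    exact hu
  | mul x y _ _ hx hy =>
    intro u hu
    rw [map_mul]
    exact hx _ (hy u hu)
  | inv x _ hx =>
    intro u hu
    let f : W →ₗ[E] W := (act ρ ι x).restrict hx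
    have hf : Function.Injective f := by
      intro a c hac
      apply Subtype.ext
      have h1 : act ρ ι x a.1 = act ρ ι x c.1 := congrArg Subtype.val hac
      have h2 := congrArg (act ρ ι x⁻¹) h1
      rw [hinv _ _ (inv_mul_cancel x), hinv _ _ (inv_mul_cancel x)] at h2
      exact h2
    obtain ⟨a, ha⟩ := (LinearMap.injective_iff_surjective.1 hf) ⟨u, hu⟩
    have h3 : act ρ ι x a.1 = u := congrArg Subtype.val ha
    rw [← h3, hinv _ _ (inv_mul_cancel x)]
    exact a.2

include hι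

/-- ES7: the lower bound for the dimension. -/
theorem es_low [DecidableEq R] (hR : Res m N ρ π S) (A : Finset R)
    (U : Submodule E (Fin N → E))
    (hU : ∀ r ∈ A, mv (act ρ ι) (S r) ≤ U) : ∑ r ∈ A, (m r - 2) ≤ finrank E U := by
  classical
  obtain ⟨ε, hε, hεε⟩ := p10_idem hR A
  obtain ⟨T, hT⟩ : ∃ T : Set G, T = ⋃ r ∈ A, S r := ⟨_, rfl⟩
  obtain ⟨W, hW⟩ : ∃ W : Submodule E (Fin N → E), W = ⨆ r ∈ A, mv (act ρ ι) (S r) := ⟨_, rfl⟩
  have hWU : W ≤ U := by
    rw [hW]
    exact iSup₂_le hU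
  -- the endomorphisms
  let F : Matrix (Fin N) (Fin N) ℤ_[2] →+* Module.End E (Fin N → E) :=
    (Matrix.toLinAlgEquiv' : Matrix (Fin N) (Fin N) E ≃ₐ[E] _).toRingEquiv.toRingHom.comp
      ι.mapMatrix
  have hFapp : ∀ M, F M = Matrix.toLin' (M.map ι) := fun M => rfl
  have hFinj : Function.Injective F := by
    intro M M' h
    rw [hFapp, hFapp] at h
    have h1 := Matrix.toLin'.injective h
    exact Matrix.map_injective hι h1
  have hFact : ∀ g, F (ρ g) = act ρ ι g := fun g => rfl
  have hrange : ∀ z ∈ idl ρ π (Subgroup.closure T) T, ∀ u, F z.1 u ∈ W := by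
    intro z hz u
    have h1 := es_idl_span (Subgroup.closure T) T Subgroup.subset_closure z hz
    obtain ⟨M, hM⟩ : ∃ M, M = z.1 := ⟨_, rfl⟩
    rw [← hM] at h1 ⊢
    clear hM
    induction h1 using Submodule.span_induction with
    | mem M hM =>
      obtain ⟨x, hx, s, hs, y, hy, rfl⟩ := hM
      rw [map_mul, map_mul, map_sub, map_one, hFact, hFact, hFact]
      have h2 : (act ρ ι x * (act ρ ι s - 1) * act ρ ι y) u =
          act ρ ι x ((act ρ ι s - 1) (act ρ ι y u)) := rfl
      rw [h2, hW]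
      refine p10_stab ι A x (by rw [← hT]; exact hx) _ ?_
      rw [hT] at hs
      obtain ⟨r, hr, hs⟩ := Set.mem_iUnion₂.1 hs
      have h3 : LinearMap.range (act ρ ι s - 1) ≤ mv (act ρ ι) (S r) :=
        le_iSup₂_of_le s hs le_rfl
      have h4 : mv (act ρ ι) (S r) ≤ ⨆ r ∈ A, mv (act ρ ι) (S r) :=
        le_iSup₂_of_le r hr le_rfl
      exact h4 (h3 ⟨_, rfl⟩)
    | zero =>
      rw [map_zero]
      exact W.zero_mem
    | add M M' _ _ hM hM' =>
      rw [map_add]
      exact W.add_mem hM hM'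
    | smul c M _ hM =>
      have h2 : F (c • M) = ι c • F M := by
        rw [hFapp, hFapp]
        have h3 : (c • M).map ι = ι c • M.map ι := by
          ext i j
          simp
        rw [h3, map_smul]
      rw [h2]
      exact W.smul_mem _ hM
  obtain ⟨η, hη⟩ : ∃ η : (Σ r : {x // x ∈ A}, Fin (m r.1 - 2)) → Module.End E (Fin N → E),
    η = fun i => F (ε i).1 := ⟨_, rfl⟩
  have hηη : ∀ i j, η i * η j = if i = j then η i else 0 := by
    intro i j
    rw [hη]
    simp only
    rw [← map_mul]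
    have h1 := congrArg Prod.fst (hεε i j)
    rw [Prod.fst_mul] at h1
    rw [h1]
    split_ifs with h
    · rfl
    · rw [Prod.fst_zero, map_zero]
  have hη0 : ∀ i, η i ≠ 0 := by
    intro i h
    rw [hη] at h
    exact (hε i).2 (hFinj (by rw [map_zero]; exact h))
  have hP : (∑ i, η i) * (∑ i, η i) = ∑ i, η i := by
    rw [Finset.sum_mul_sum]
    refine Finset.sum_congr rfl fun i _ => ?_
    rw [Finset.sum_eq_single i]
    · rw [hηη, if_pos rfl]
    · intro j _ hj
      rw [hηη, if_neg (Ne.symm hj)]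
    · intro h
      exact absurd (Finset.mem_univ i) h
  have hPη : ∀ i, (∑ j, η j) * η i = η i ∧ η i * (∑ j, η j) = η i := by
    intro i
    constructor
    · rw [Finset.sum_mul, Finset.sum_eq_single i]
      · rw [hηη, if_pos rfl]
      · intro j _ hj
        rw [hηη, if_neg hj]
      · intro h
        exact absurd (Finset.mem_univ i) h
    · rw [Finset.mul_sum, Finset.sum_eq_single i]
      · rw [hηη, if_pos rfl]
      · intro j _ hj
        rw [hηη, if_neg (Ne.symm hj)]
      · intro h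
        exact absurd (Finset.mem_univ i) h
  have h1 := (es_count (∑ i, η i) hP η hηη hη0 hPη).1
  have h2 : LinearMap.range (∑ i, η i) ≤ U := by
    refine le_trans ?_ hWU
    rintro _ ⟨u, rfl⟩
    rw [LinearMap.sum_apply]
    refine W.sum_mem fun i _ => ?_
    rw [hη]
    exact hrange _ (by rw [hT]; exact (hε i).1) u
  have h3 := Submodule.finrank_mono h2
  have h4 : Fintype.card (Σ r : {x // x ∈ A}, Fin (m r.1 - 2)) = ∑ r ∈ A, (m r - 2) := by
    rw [Fintype.card_sigma]
    simp only [Fintype.card_fin]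
    exact Finset.sum_coe_sort A (fun r => m r - 2)
  rw [← h4]
  exact h1.trans h3

end

end Pool.Agent.ES
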