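import Pool.Agent.Lib_helper55.ESF.Defs

-- block P3 of the strong form of EllipticSurfaces, by helper81

/-! # ES, block P3: rank one matrices in the ring generated by the products `(c - 1) (c' - 1)` -/

set_option autoImplicit false

namespace Pool.Agent.ES

open Equiv

theorem p3_pt {k : ℕ} (s : Finset (Fin k)) (h : s.card < k) : ∃ p, p ∉ s := by
  by_contra hc
  push Not at hc
  have h1 : s = Finset.univ := Finset.eq_univ_iff_forall.mpr hc
  rw [h1, Finset.card_univ, Fintype.card_fin] at h
  exact lt_irrefl _ h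

theorem p3_c3 {k : ℕ} {a b c : Fin k} (h1 : a ≠ b) (h2 : a ≠ c) (h3 : b ≠ c) :
    (c3 a b c).IsThreeCycle := Equiv.Perm.isThreeCycle_swap_mul_swap_same h2 h1 h3.symm

theorem p3_c3_a {k : ℕ} {a b c : Fin k} (h1 : a ≠ b) (h3 : b ≠ c) : c3 a b c a = b := by
  rw [c3, Perm.mul_apply, swap_apply_left, swap_apply_of_ne_of_ne h1.symm h3]

theorem p3_c3_b {k : ℕ} {a b c : Fin k} : c3 a b c b = c := by
  rw [c3, Perm.mul_apply, swap_apply_right, swap_apply_left]

theorem p3_c3_c {k : ℕ} {a b c : Fin k} (h2 : a ≠ c) (h3 : b ≠ c) : c3 a b c c = a := by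
  rw [c3, Perm.mul_apply, swap_apply_of_ne_of_ne h2.symm h3.symm, swap_apply_right]

theorem p3_c3_o {k : ℕ} {a b c l : Fin k} (h1 : l ≠ a) (h2 : l ≠ b) (h3 : l ≠ c) :
    c3 a b c l = l := by
  rw [c3, Perm.mul_apply, swap_apply_of_ne_of_ne h1 h2, swap_apply_of_ne_of_ne h1 h3]

/-- the basic product -/
theorem p3_prod {k : ℕ} {x b p q y : Fin k} (hxb : x ≠ b) (hxp : x ≠ p) (hbp : b ≠ p)
    (hxy : x ≠ y) (hqy : q ≠ y) (hbq : b ≠ q) (hby : b ≠ y) (hpq : p ≠ q)
    (hpy : p ≠ y) :
    (pm (c3 x b p) - 1) * (pm (c3 x q y) - 1) =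
      Matrix.vecMulVec (Pi.single x 1 + Pi.single b 1 : Fin k → ZMod 2)
        (Pi.single x 1 + Pi.single y 1) := by
  ext i j
  rw [Matrix.mul_apply, Finset.sum_eq_single x]
  · rw [Matrix.vecMulVec_apply]
    congr 1
    · simp only [Matrix.sub_apply, pm, Matrix.of_apply, p3_c3_a hxb hbp, Pi.add_apply,
        Pi.single_apply, Matrix.one_apply]
      rw [CharTwo.sub_eq_add, add_comm]
      congr 1
      by_cases h : b = i
      · rw [if_pos h, if_pos h.symm]
      · rw [if_neg h, if_neg (fun h' => h h'.symm)]
    · simp only [Matrix.sub_apply, pm, Matrix.of_apply, Pi.add_apply,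
        Pi.single_apply, Matrix.one_apply]
      rw [CharTwo.sub_eq_add, add_comm]
      have h1 : c3 x q y j = x ↔ j = y := by
        constructor
        · intro h
          have h2 : c3 x q y j = c3 x q y y := by rw [h, p3_c3_c hxy hqy]
          exact (c3 x q y).injective h2
        · rintro rfl
          exact p3_c3_c hxy hqy
      congr 1
      · by_cases h : x = j
        · rw [if_pos h, if_pos h.symm]
        · rw [if_neg h, if_neg (fun h' => h h'.symm)]
      · by_cases h : j = y
        · rw [if_pos h, if_pos (h1.mpr h)]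
        · rw [if_neg h, if_neg (fun h' => h (h1.mp h'))]
  · intro l _ hl
    by_cases hlb : l = b
    · subst hlb
      -- the second factor vanishes
      have h1 : (pm (c3 x q y) - 1) l j = 0 := by
        simp only [Matrix.sub_apply, pm, Matrix.of_apply, Matrix.one_apply]
        have h2 : c3 x q y l = l := p3_c3_o hl hbq hby
        have h3 : c3 x q y j = l ↔ l = j := by
          constructor
          · intro h
            have : c3 x q y j = c3 x q y l := by rw [h, h2]
            exact ((c3 x q y).injective this).symm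
          · rintro rfl
            exact h2
        by_cases h : l = j
        · rw [if_pos h, if_pos (h3.mpr h), sub_self]
        · rw [if_neg h, if_neg (fun h' => h (h3.mp h')), sub_self]
      rw [h1, mul_zero]
    by_cases hlp : l = p
    · subst hlp
      have h1 : (pm (c3 x q y) - 1) l j = 0 := by
        simp only [Matrix.sub_apply, pm, Matrix.of_apply, Matrix.one_apply]
        have h2 : c3 x q y l = l := p3_c3_o hl hpq hpy
        have h3 : c3 x q y j = l ↔ l = j := by
          constructor
          · intro h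
            have : c3 x q y j = c3 x q y l := by rw [h, h2]
            exact ((c3 x q y).injective this).symm
          · rintro rfl
            exact h2
        by_cases h : l = j
        · rw [if_pos h, if_pos (h3.mpr h), sub_self]
        · rw [if_neg h, if_neg (fun h' => h (h3.mp h')), sub_self]
      rw [h1, mul_zero]
    have h1 : (pm (c3 x b p) - 1) i l = 0 := by
      simp only [Matrix.sub_apply, pm, Matrix.of_apply, Matrix.one_apply, p3_c3_o hl hlb hlp]
      by_cases h : l = i
      · rw [if_pos h, if_pos h.symm, sub_self]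
      · rw [if_neg h, if_neg (fun h' => h h'.symm), sub_self]
    rw [h1, zero_mul]
  · intro h
    exact absurd (Finset.mem_univ _) h

/-- ES3: rank one matrices in the ring generated by the products `(c - 1) (c' - 1)`. -/
theorem es_rankone {k : ℕ} (hk : 6 ≤ k)
    (J : NonUnitalSubring (Matrix (Fin k) (Fin k) (ZMod 2)))
    (h : ∀ c c' : Perm (Fin k), c.IsThreeCycle → c'.IsThreeCycle →
      (pm c - 1) * (pm c' - 1) ∈ J)
    (v w : Fin k → ZMod 2) (hv : ∑ i, v i = 0) (hw : ∑ i, w i = 0) :
    Matrix.vecMulVec v w ∈ J := by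
  -- three different points
  have A : ∀ x b y : Fin k, x ≠ b → x ≠ y → b ≠ y →
      Matrix.vecMulVec (Pi.single x 1 + Pi.single b 1 : Fin k → ZMod 2)
        (Pi.single x 1 + Pi.single y 1) ∈ J := by
    intro x b y hxb hxy hby
    obtain ⟨p, hp⟩ := p3_pt ({x, b, y} : Finset (Fin k))
      (lt_of_le_of_lt Finset.card_le_three (by omega))
    obtain ⟨q, hq⟩ := p3_pt ({x, b, y, p} : Finset (Fin k))
      (lt_of_le_of_lt Finset.card_le_four (by omega))
    simp only [Finset.mem_insert, Finset.mem_singleton, not_or] at hp hq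
    have hxp : x ≠ p := fun h => hp.1 h.symm
    have hbp : b ≠ p := fun h => hp.2.1 h.symm
    have hxq : x ≠ q := fun h => hq.1 h.symm
    have hbq : b ≠ q := fun h => hq.2.1 h.symm
    have hpq : p ≠ q := fun h => hq.2.2.2 h.symm
    have hqy : q ≠ y := hq.2.2.1
    have hpy : p ≠ y := hp.2.2
    rw [← p3_prod hxb hxp hbp hxy hqy hbq hby hpq hpy]
    exact h _ _ (p3_c3 hxb hxp hbp) (p3_c3 hxq hxy hqy)
  obtain ⟨o, -⟩ := p3_pt (∅ : Finset (Fin k)) (by rw [Finset.card_empty]; omega)
  -- a base point
  have B : ∀ i j : Fin k,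
      Matrix.vecMulVec (Pi.single o 1 + Pi.single i 1 : Fin k → ZMod 2)
        (Pi.single o 1 + Pi.single j 1) ∈ J := by
    intro i j
    by_cases hi : i = o
    · subst hi
      have : (Pi.single i 1 + Pi.single i 1 : Fin k → ZMod 2) = 0 := by
        ext t
        exact CharTwo.add_self_eq_zero _
      rw [this, Matrix.zero_vecMulVec]
      exact J.zero_mem
    by_cases hj : j = o
    · subst hj
      have : (Pi.single j 1 + Pi.single j 1 : Fin k → ZMod 2) = 0 := by
        ext t
        exact CharTwo.add_self_eq_zero _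
      rw [this, Matrix.vecMulVec_zero]
      exact J.zero_mem
    by_cases hij : i = j
    · subst hij
      obtain ⟨y, hy⟩ := p3_pt ({o, i} : Finset (Fin k))
        (lt_of_le_of_lt Finset.card_le_two (by omega))
      obtain ⟨z, hz⟩ := p3_pt ({o, i, y} : Finset (Fin k))
        (lt_of_le_of_lt Finset.card_le_three (by omega))
      simp only [Finset.mem_insert, Finset.mem_singleton, not_or] at hy hz
      have h1 := A o i y (fun h => hi h.symm) (fun h => hy.1 h.symm) (fun h => hy.2 h.symm)
      have h2 := A o z i (fun h => hz.1 h.symm) (fun h => hi h.symm) hz.2.1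
      have h3 := J.mul_mem h1 h2
      rw [Matrix.vecMulVec_mul_vecMulVec] at h3
      have h4 : (Pi.single o 1 + Pi.single y 1 : Fin k → ZMod 2) ⬝ᵥ
          (Pi.single o 1 + Pi.single z 1) = 1 := by
        rw [add_dotProduct, single_one_dotProduct, single_one_dotProduct, Pi.add_apply,
          Pi.add_apply, Pi.single_eq_same, Pi.single_eq_of_ne (fun h => hz.1 h.symm),
          Pi.single_eq_of_ne hy.1, Pi.single_eq_of_ne (fun h => hz.2.2 h.symm)]
        simp
      rw [h4] at h3
      simpa using h3
    · exact A o i j (fun h => hi h.symm) (fun h => hj h.symm) hij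
  -- expansions
  have E : ∀ u : Fin k → ZMod 2, ∑ i, u i = 0 →
      u = ∑ i, u i • (Pi.single o 1 + Pi.single i 1 : Fin k → ZMod 2) := by
    intro u hu
    simp only [smul_add]
    rw [Finset.sum_add_distrib, ← Finset.sum_smul, hu, zero_smul, zero_add]
    ext t
    rw [Finset.sum_apply, Finset.sum_eq_single t]
    · simp
    · intro i _ hi
      simp [Pi.single_eq_of_ne (fun h : t = i => hi h.symm)]
    · intro h
      exact absurd (Finset.mem_univ _) h
  have C : ∀ (a : ZMod 2) (M : Matrix (Fin k) (Fin k) (ZMod 2)), M ∈ J → a • M ∈ J := by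
    intro a M hM
    have ha : a = 0 ∨ a = 1 := by
      revert a; decide
    rcases ha with rfl | rfl
    · rw [zero_smul]; exact J.zero_mem
    · rw [one_smul]; exact hM
  rw [E v hv, E w hw]
  have F : Matrix.vecMulVec (∑ i, v i • (Pi.single o 1 + Pi.single i 1 : Fin k → ZMod 2))
      (∑ j, w j • (Pi.single o 1 + Pi.single j 1 : Fin k → ZMod 2)) =
      ∑ i, ∑ j, v i • (w j • Matrix.vecMulVec (Pi.single o 1 + Pi.single i 1 : Fin k → ZMod 2)
        (Pi.single o 1 + Pi.single j 1)) := by
    ext s t
    simp only [Matrix.vecMulVec_apply, Finset.sum_apply, Matrix.sum_apply, Pi.smul_apply,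
      Matrix.smul_apply, smul_eq_mul]
    rw [Finset.sum_mul_sum]
    refine Finset.sum_congr rfl fun i _ => Finset.sum_congr rfl fun j _ => ?_
    ring
  rw [F]
  exact J.sum_mem fun i _ => J.sum_mem fun j _ => C _ _ (C _ _ (B i j))

end Pool.Agent.ES
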