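import Pool.Agent.Lib_helper55.ESF.P1
import Pool.Agent.Lib_helper55.ESF.P2
import Pool.Agent.Lib_helper55.ESF.P4

-- block P6 of the strong form of EllipticSurfaces, by helper65

/-! Block P6 (es_eta). Uses es_lift, es_count, es_idl_tr, es_idl_one, es_idl_mul. -/

set_option autoImplicit false

namespace Pool.Agent.ES

open Equiv Module Filter Topology

/-! ### Permutation matrices -/

theorem p6_pm_mul {k : ℕ} (σ τ : Perm (Fin k)) : pm (σ * τ) = pm σ * pm τ := by
  ext i j
  simp [pm, Matrix.mul_apply]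

theorem p6_pm_one {k : ℕ} : pm (1 : Perm (Fin k)) = 1 := by
  ext i j
  simp only [pm, Matrix.of_apply, Perm.coe_one, id, Matrix.one_apply]
  congr 1
  exact propext eq_comm

theorem p6_pm_single {k : ℕ} (σ : Perm (Fin k)) (j : Fin k) :
    (pm σ).mulVec (Pi.single j 1) = Pi.single (σ j) 1 := by
  ext i
  rw [Matrix.mulVec_single_one]
  simp only [Matrix.col_apply, pm, Matrix.of_apply, Pi.single_apply]
  congr 1
  exact propext eq_comm

theorem p6_single_pm {k : ℕ} (σ : Perm (Fin k)) (j : Fin k) :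
    Matrix.vecMul (Pi.single (σ j) 1) (pm σ) = Pi.single j 1 := by
  ext i
  rw [Matrix.single_one_vecMul]
  simp only [Matrix.row_apply, pm, Matrix.of_apply, Pi.single_apply]
  congr 1
  exact propext ⟨fun h => σ.injective h, fun h => by rw [h]⟩

/-- the shape of a three cycle -/
theorem p6_three {k : ℕ} {c : Perm (Fin k)} (hc : c.IsThreeCycle) :
    ∃ a b d : Fin k, a ≠ b ∧ a ≠ d ∧ b ≠ d ∧ c a = b ∧ c b = d ∧ c d = a ∧
      ∀ i, i ≠ a → i ≠ b → i ≠ d → c i = i := by
  classical
  have h3 : c ^ 3 = 1 := by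
    rw [← hc.orderOf]
    exact pow_orderOf_eq_one c
  have hcard : c.support.card = 3 := card_support_eq_three_iff.2 hc
  obtain ⟨a, ha⟩ : c.support.Nonempty := by
    rw [← Finset.card_pos, hcard]
    norm_num
  have hca : c a ≠ a := Perm.mem_support.1 ha
  have h3a : c (c (c a)) = a := by
    have := Perm.congr_fun h3 a
    simpa [pow_succ, Perm.mul_apply] using this
  have hb : c (c a) ≠ c a := fun h => hca (c.injective h)
  have hd : c (c a) ≠ a := by
    intro h
    rw [h] at h3a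
    exact hca h3a
  refine ⟨a, c a, c (c a), hca.symm, hd.symm, hb.symm, rfl, rfl, h3a, ?_⟩
  have hsub : ({a, c a, c (c a)} : Finset (Fin k)) ⊆ c.support := by
    intro x hx
    simp only [Finset.mem_insert, Finset.mem_singleton] at hx
    rcases hx with rfl | rfl | rfl
    · exact ha
    · exact Perm.mem_support.2 hb
    · exact Perm.mem_support.2 fun h => hb (c.injective h)
  have heq : ({a, c a, c (c a)} : Finset (Fin k)) = c.support := by
    refine Finset.eq_of_subset_of_card_le hsub ?_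
    rw [hcard, Finset.card_eq_three.2 ⟨a, c a, c (c a), hca.symm, hd.symm, hb.symm, rfl⟩]
  intro i h1 h2 h3
  by_contra h
  have := Perm.mem_support.2 h
  rw [← heq] at this
  simp only [Finset.mem_insert, Finset.mem_singleton] at this
  rcases this with h' | h' | h'
  · exact h1 h'
  · exact h2 h'
  · exact h3 h'

/-! ### Scalars -/

section

variable {R : Type*} {m : R → ℕ} {N : ℕ}

/-- the operators over `ℚ_2` -/
noncomputable def p6_F : Rg m N →+* Module.End ℚ_[2] (Fin N → ℚ_[2]) :=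
  ((Matrix.toLinAlgEquiv' (R := ℚ_[2]) (n := Fin N)).toRingEquiv.toRingHom.comp
    (algebraMap ℤ_[2] ℚ_[2]).mapMatrix).comp (RingHom.fst _ _)

theorem p6_F_apply (z : Rg m N) :
    p6_F z = Matrix.toLin' (z.1.map (algebraMap ℤ_[2] ℚ_[2])) := rfl

theorem p6_F_inj {z z' : Rg m N} (h : p6_F z = p6_F z') : z.1 = z'.1 := by
  rw [p6_F_apply, p6_F_apply] at h
  have h1 := Matrix.toLin'.injective h
  exact Matrix.map_injective (IsFractionRing.injective ℤ_[2] ℚ_[2]) h1

theorem p6_rank (z : Rg m N) :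
    finrank ℚ_[2] (LinearMap.range (p6_F z)) = (z.1.map (algebraMap ℤ_[2] ℚ_[2])).rank := by
  rw [p6_F_apply, Matrix.toLin'_apply', Matrix.rank]

theorem p6_toZMod_cont : Continuous (PadicInt.toZMod (p := 2)) := by
  refine continuous_of_continuousAt_zero (PadicInt.toZMod (p := 2)).toAddMonoidHom ?_
  rw [ContinuousAt]
  have h0 : (PadicInt.toZMod (p := 2)).toAddMonoidHom 0 = 0 := map_zero _
  rw [h0]
  refine tendsto_nhds_of_eventually_eq ?_
  rw [Metric.eventually_nhds_iff]
  refine ⟨1, one_pos, fun x hx => ?_⟩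
  rw [dist_zero_right] at hx
  have h1 : x ∈ RingHom.ker (PadicInt.toZMod (p := 2)) := by
    rw [PadicInt.ker_toZMod, IsLocalRing.mem_maximalIdeal, PadicInt.mem_nonunits]
    exact hx
  exact h1

/-- the scalars -/
noncomputable def p6_sc : ℤ_[2] →+* Rg m N :=
  RingHom.prod (Matrix.scalar (Fin N))
    (RingHom.pi fun r => (Matrix.scalar (Fin (m r))).comp PadicInt.toZMod)

theorem p6_sc_cont : Continuous (p6_sc : ℤ_[2] → Rg m N) := by
  refine Continuous.prodMk ?_ (continuous_pi fun r => ?_)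
  · show Continuous fun a : ℤ_[2] => Matrix.diagonal (fun _ : Fin N => a)
    fun_prop
  · show Continuous fun a : ℤ_[2] =>
      Matrix.diagonal (fun _ : Fin (m r) => PadicInt.toZMod (p := 2) a)
    have := p6_toZMod_cont
    fun_prop

theorem p6_sc_comm (a : ℤ_[2]) (z : Rg m N) : p6_sc a * z = z * p6_sc a := by
  refine Prod.ext ?_ (funext fun r => ?_)
  · show Matrix.scalar (Fin N) a * z.1 = z.1 * Matrix.scalar (Fin N) a
    exact (Matrix.scalar_comm a (fun b => Commute.all _ _) z.1)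
  · show Matrix.scalar (Fin (m r)) (PadicInt.toZMod a) * z.2 r =
      z.2 r * Matrix.scalar (Fin (m r)) (PadicInt.toZMod a)
    exact (Matrix.scalar_comm _ (fun b => Commute.all _ _) (z.2 r))

theorem p6_sc_mem (C : Subring (Rg m N)) (hC : IsClosed (C : Set (Rg m N))) (a : ℤ_[2]) :
    p6_sc a ∈ C := by
  refine DenseRange.induction_on (p := fun a => p6_sc a ∈ C)
    (PadicInt.denseRange_intCast (p := 2)) a (hC.preimage p6_sc_cont) fun n => ?_
  rw [map_intCast]
  exact intCast_mem C n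

end

section

variable {G R : Type*} [Group G] [Fintype R] {m : R → ℕ} {N : ℕ}
  {ρ : G →* Matrix (Fin N) (Fin N) ℤ_[2]} {π : ∀ r, G →* Perm (Fin (m r))} {S : R → Set G}

omit [Fintype R] in
theorem p6_idl_mono {H H' : Subgroup G} {T T' : Set G} (hH : H ≤ H') (hT : T ⊆ T') {z : Rg m N}
    (hz : z ∈ idl ρ π H T) : z ∈ idl ρ π H' T' := by
  have h1 : NonUnitalSubring.closure {z | ∃ x ∈ H, ∃ s ∈ T, ∃ y ∈ H,
      z = phi ρ π x * (phi ρ π s - 1) * phi ρ π y} ≤
      NonUnitalSubring.closure {z | ∃ x ∈ H', ∃ s ∈ T', ∃ y ∈ H',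
      z = phi ρ π x * (phi ρ π s - 1) * phi ρ π y} := by
    refine NonUnitalSubring.closure_mono ?_
    rintro z ⟨x, hx, s, hs, y, hy, rfl⟩
    exact ⟨x, hH hx, s, hT hs, y, hH hy, rfl⟩
  exact closure_mono (fun x hx => h1 hx) hz

/-- lifting of orthogonal idempotents of rank one, with the count -/
theorem p6_lift [DecidableEq R] (hR : Res m N ρ π S) (H : Subgroup G) (T : Set G)
    (hTS : T ⊆ ⋃ r, S r) (Q : Rg m N) (hQ : Q * Q = Q)
    (hQC : Q ∈ (Subring.closure (phi ρ π '' (H : Set G))).topologicalClosure)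
    {κ : Type*} [Fintype κ] [DecidableEq κ] (c : κ → R)
    (hcH : ∀ i, Subgroup.closure (S (c i)) ≤ H) (hcT : ∀ i, S (c i) ⊆ T)
    (v w : ∀ i, Fin (m (c i)) → ZMod 2) (hv : ∀ i, ∑ j, v i j = 0) (hw : ∀ i, ∑ j, w i j = 0)
    (hwv : ∀ i, w i ⬝ᵥ v i = 1) (e : κ → ∀ r, Matrix (Fin (m r)) (Fin (m r)) (ZMod 2))
    (he : ∀ i, e i = Pi.single (c i) (Matrix.vecMulVec (v i) (w i)))
    (hor : ∀ i j, i ≠ j → e i * e j = 0) (hQe : ∀ i, Q.2 * e i = e i ∧ e i * Q.2 = e i) :
    ∃ ε : κ → Rg m N, (∀ i, ε i ∈ idl ρ π H T ∧ (ε i).2 = e i ∧ Q * ε i = ε i ∧ ε i * Q = ε i) ∧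
      (∀ i j, ε i * ε j = if i = j then ε i else 0) ∧
      Fintype.card κ ≤ finrank ℚ_[2] (LinearMap.range (p6_F Q)) ∧
      (Fintype.card κ = finrank ℚ_[2] (LinearMap.range (p6_F Q)) →
        ∑ i, p6_F (ε i) = p6_F Q ∧ ∀ i, finrank ℚ_[2] (LinearMap.range (p6_F (ε i))) = 1) := by
  have hidem : ∀ i, e i * e i = e i := by
    intro i
    rw [he, ← Pi.single_mul, Matrix.vecMulVec_mul_vecMulVec, hwv i, one_smul]
  haveI : CompactSpace (Matrix (Fin N) (Fin N) ℤ_[2]) :=
    inferInstanceAs (CompactSpace (Fin N → Fin N → ℤ_[2]))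
  haveI : ∀ r, CompactSpace (Matrix (Fin (m r)) (Fin (m r)) (ZMod 2)) := fun r =>
    inferInstanceAs (CompactSpace (Fin (m r) → Fin (m r) → ZMod 2))
  haveI : CompactSpace (Rg m N) := inferInstanceAs (CompactSpace
    (Matrix (Fin N) (Fin N) ℤ_[2] × (∀ r, Matrix (Fin (m r)) (Fin (m r)) (ZMod 2))))
  obtain ⟨ε, hε, hεε⟩ := es_lift (A := Rg m N)
    (B := ∀ r, Matrix (Fin (m r)) (Fin (m r)) (ZMod 2)) (RingHom.snd _ _) continuous_snd
    (idl ρ π H T) (NonUnitalSubring.isClosed_topologicalClosure _) Q hQ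
    (fun x hx => (es_idl_mul H T _ (es_idl_mul H T x hx Q hQC).1 Q hQC).2) e
    (fun i => by
      obtain ⟨z, hz, hz2⟩ := es_idl_one hR (c i) (v i) (w i) (hv i) (hw i)
      exact ⟨z, p6_idl_mono (hcH i) (hcT i) hz, by rw [he i]; exact hz2⟩)
    (fun i => hQe i)
    (fun i j => by
      by_cases h : i = j
      · subst h
        rw [if_pos rfl, hidem]
      · rw [if_neg h, hor i j h])
  have h1 : ∀ i, (ε i).2 = e i := fun i => (hε i).2.1
  refine ⟨ε, fun i => ⟨(hε i).1, h1 i, (hε i).2.2.1, (hε i).2.2.2⟩, hεε, ?_⟩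
  have h0 : ∀ i, p6_F (ε i) ≠ 0 := by
    intro i h
    have h2 : (ε i).1 = 0 := by
      have := p6_F_inj (z := ε i) (z' := 0) (by rw [h, map_zero])
      simpa using this
    have h3 := es_idl_tr hR H (ε i) (p6_idl_mono le_rfl hTS (hε i).1)
    rw [h2, Matrix.trace_zero, map_zero, h1 i, he i] at h3
    have h4 : (∑ r, ((Pi.single (c i) (Matrix.vecMulVec (v i) (w i)) :
        ∀ r, Matrix (Fin (m r)) (Fin (m r)) (ZMod 2)) r).trace) = 1 := by
      rw [Finset.sum_eq_single (c i)]
      · rw [Pi.single_eq_same, Matrix.trace_vecMulVec, dotProduct_comm, hwv i]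
      · intro r _ hr
        rw [Pi.single_eq_of_ne hr, Matrix.trace_zero]
      · intro h
        exact absurd (Finset.mem_univ _) h
    rw [h4] at h3
    exact zero_ne_one h3
  exact es_count (p6_F Q) (by rw [← map_mul, hQ]) (fun i => p6_F (ε i))
    (fun i j => by
      rw [← map_mul, hεε]
      split_ifs
      · rfl
      · exact map_zero _) h0
    (fun i => by rw [← map_mul, ← map_mul, (hε i).2.2.1, (hε i).2.2.2]; exact ⟨rfl, rfl⟩)

end

/-! ### Families of vectors -/

theorem p6_fam {k n : ℕ} (o : Fin k → Fin k → ZMod 2) (D : Finset (Fin k)) (p q : Fin k)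
    (hpq : p ≠ q) (hoo : ∀ i ∉ D, ∀ j ∉ D, o i ⬝ᵥ o j = if i = j then 1 else 0)
    (hp : ∀ i ∉ D, o i p = 0) (hq : ∀ i ∉ D, o i q = 0) (hs : ∀ i ∉ D, ∑ j, o i j = 1)
    (hn : k - D.card = n) :
    ∃ v w : Fin n → Fin k → ZMod 2, (∀ i, ∃ j, j ∉ D ∧ v i = o j + Pi.single p 1 ∧
      w i = o j + Pi.single q 1) ∧ (∀ i, ∑ j, v i j = 0) ∧ (∀ i, ∑ j, w i j = 0) ∧
      ∀ i j, w i ⬝ᵥ v j = if i = j then 1 else 0 := by
  have hcard : Fintype.card {i : Fin k // i ∉ D} = n := by
    rw [Fintype.card_subtype_compl, Fintype.card_fin, Fintype.card_coe, hn]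
  have h2 : (1 : ZMod 2) + 1 = 0 := by decide
  obtain ⟨f⟩ := Fintype.card_eq.1 ((Fintype.card_fin n).trans hcard.symm)
  refine ⟨fun i => o (f i).1 + Pi.single p 1, fun i => o (f i).1 + Pi.single q 1,
    fun i => ⟨(f i).1, (f i).2, rfl, rfl⟩, fun i => ?_, fun i => ?_, fun i j => ?_⟩
  · simp only [Pi.add_apply, Finset.sum_add_distrib, hs _ (f i).2]
    simp [h2]
  · simp only [Pi.add_apply, Finset.sum_add_distrib, hs _ (f i).2]
    simp [h2]
  · rw [add_dotProduct, dotProduct_add, dotProduct_add, hoo _ (f i).2 _ (f j).2,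
      dotProduct_single, single_dotProduct, single_dotProduct, hp _ (f i).2, hq _ (f j).2]
    rw [Pi.single_eq_of_ne hpq.symm]
    simp only [zero_mul, mul_zero, add_zero]
    have : ((f i).1 = (f j).1) ↔ i = j := by
      rw [← Subtype.ext_iff]
      exact f.injective.eq_iff
    simp only [this]

theorem p6_exists_notMem {k : ℕ} (D : Finset (Fin k)) (h : D.card < k) : ∃ p, p ∉ D := by
  obtain ⟨p, -, hp⟩ := Finset.exists_mem_notMem_of_card_lt_card (s := D) (t := Finset.univ)
    (by rw [Finset.card_univ, Fintype.card_fin]; exact h)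
  exact ⟨p, hp⟩

theorem p6_fam1 {k : ℕ} (hk : 8 ≤ k) :
    ∃ v w : Fin (k - 2) → Fin k → ZMod 2, (∀ i, ∑ j, v i j = 0) ∧ (∀ i, ∑ j, w i j = 0) ∧
      ∀ i j, w i ⬝ᵥ v j = if i = j then 1 else 0 := by
  obtain ⟨p, -⟩ := p6_exists_notMem (k := k) ∅ (by rw [Finset.card_empty]; omega)
  obtain ⟨q, hq⟩ := p6_exists_notMem (k := k) {p} (by rw [Finset.card_singleton]; omega)
  have hpq : p ≠ q := fun h => hq (by rw [h]; exact Finset.mem_singleton_self _)
  have hD : ∀ i, i ∉ ({p, q} : Finset (Fin k)) → i ≠ p ∧ i ≠ q := by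
    intro i hi
    simp only [Finset.mem_insert, Finset.mem_singleton, not_or] at hi
    exact hi
  obtain ⟨v, w, -, h1, h2, h3⟩ := p6_fam (k := k) (n := k - 2) (fun i => Pi.single i 1) {p, q}
    p q hpq
    (fun i _ j _ => by
      rw [single_dotProduct, one_mul, Pi.single_apply])
    (fun i hi => by simp [Pi.single_apply, (hD i hi).1.symm])
    (fun i hi => by simp [Pi.single_apply, (hD i hi).2.symm])
    (fun i _ => by simp)
    (by rw [Finset.card_pair hpq])
  exact ⟨v, w, h1, h2, h3⟩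

theorem p6_fam2 {k : ℕ} (hk : 8 ≤ k) {c : Perm (Fin k)} (hc : c.IsThreeCycle) :
    ∃ v w : Fin (k - 4) → Fin k → ZMod 2, (∀ i, ∑ j, v i j = 0) ∧ (∀ i, ∑ j, w i j = 0) ∧
      (∀ i j, w i ⬝ᵥ v j = if i = j then 1 else 0) ∧
      ∀ i, (pm c).mulVec (v i) = v i ∧ Matrix.vecMul (w i) (pm c) = w i := by
  obtain ⟨a, b, d, hab, had, hbd, h1, h2, h3, hfix⟩ := p6_three hc
  obtain ⟨p, hp⟩ := p6_exists_notMem (k := k) {a, b, d}
    (lt_of_le_of_lt Finset.card_le_three (by omega))
  obtain ⟨q, hq⟩ := p6_exists_notMem (k := k) {a, b, d, p}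
    (lt_of_le_of_lt Finset.card_le_four (by omega))
  simp only [Finset.mem_insert, Finset.mem_singleton, not_or] at hp hq
  obtain ⟨hpa, hpb, hpd⟩ := hp
  obtain ⟨hqa, hqb, hqd, hqp⟩ := hq
  have hcp : c p = p := hfix p hpa hpb hpd
  have hcq : c q = q := hfix q hqa hqb hqd
  have hD : ∀ i, i ∉ ({b, d, p, q} : Finset (Fin k)) → i ≠ b ∧ i ≠ d ∧ i ≠ p ∧ i ≠ q := by
    intro i hi
    simp only [Finset.mem_insert, Finset.mem_singleton, not_or] at hi
    exact hi
  have h111 : (1 : ZMod 2) + 1 + 1 = 1 := by decide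
  set o : Fin k → Fin k → ZMod 2 := fun i =>
    if i = a then Pi.single a 1 + Pi.single b 1 + Pi.single d 1 else Pi.single i 1 with ho
  have hoa : o a = Pi.single a 1 + Pi.single b 1 + Pi.single d 1 := by simp [ho]
  have hoi : ∀ i, i ≠ a → o i = Pi.single i 1 := fun i hi => by simp [ho, hi]
  obtain ⟨v, w, h0, h4, h5, h6⟩ := p6_fam (k := k) (n := k - 4) o {b, d, p, q} p q
    (Ne.symm hqp)
    (fun i hi j hj => by
      obtain ⟨hib, hid, -, -⟩ := hD i hi
      obtain ⟨hjb, hjd, -, -⟩ := hD j hj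
      by_cases hia : i = a
      · by_cases hja : j = a
        · subst hia
          subst hja
          rw [hoa]
          simp only [add_dotProduct, dotProduct_add, single_dotProduct, one_mul,
            Pi.single_apply, if_true]
          simp [hab, had, hbd, hab.symm, had.symm, hbd.symm, h111]
        · subst hia
          rw [hoa, hoi j hja]
          simp only [add_dotProduct, single_dotProduct, one_mul, Pi.single_apply]
          simp [Ne.symm hja, Ne.symm hjb, Ne.symm hjd]
      · by_cases hja : j = a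
        · subst hja
          rw [hoa, hoi i hia]
          simp only [dotProduct_add, single_dotProduct, one_mul, Pi.single_apply]
          simp [hia, hib, hid]
        · rw [hoi i hia, hoi j hja, single_dotProduct, one_mul, Pi.single_apply])
    (fun i hi => by
      obtain ⟨hib, hid, hip, hiq⟩ := hD i hi
      by_cases hia : i = a
      · subst hia
        rw [hoa]
        simp [Pi.single_apply, hpa, hpb, hpd]
      · rw [hoi i hia]
        simp [Pi.single_apply, Ne.symm hip])
    (fun i hi => by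
      obtain ⟨hib, hid, hip, hiq⟩ := hD i hi
      by_cases hia : i = a
      · subst hia
        rw [hoa]
        simp [Pi.single_apply, hqa, hqb, hqd]
      · rw [hoi i hia]
        simp [Pi.single_apply, Ne.symm hiq])
    (fun i hi => by
      by_cases hia : i = a
      · subst hia
        rw [hoa]
        simp only [Pi.add_apply, Finset.sum_add_distrib, Finset.sum_pi_single', Finset.mem_univ,
          if_true, h111]
      · rw [hoi i hia]
        simp)
    (by
      rw [Finset.card_insert_of_notMem, Finset.card_insert_of_notMem, Finset.card_pair]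
      · exact Ne.symm hqp
      · simp only [Finset.mem_insert, Finset.mem_singleton, not_or]
        exact ⟨Ne.symm hpd, Ne.symm hqd⟩
      · simp only [Finset.mem_insert, Finset.mem_singleton, not_or]
        exact ⟨hbd, Ne.symm hpb, Ne.symm hqb⟩)
  have hC : ∀ j, j ∉ ({b, d, p, q} : Finset (Fin k)) → (pm c).mulVec (o j) = o j := by
    intro j hj
    obtain ⟨hjb, hjd, -, -⟩ := hD j hj
    by_cases hja : j = a
    · subst hja
      rw [hoa, Matrix.mulVec_add, Matrix.mulVec_add, p6_pm_single, p6_pm_single, p6_pm_single,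
        h1, h2, h3]
      abel
    · rw [hoi j hja, p6_pm_single, hfix j hja hjb hjd]
  have hC' : ∀ j, j ∉ ({b, d, p, q} : Finset (Fin k)) → Matrix.vecMul (o j) (pm c) = o j := by
    intro j hj
    obtain ⟨hjb, hjd, -, -⟩ := hD j hj
    by_cases hja : j = a
    · subst hja
      have e1 := p6_single_pm c b
      have e2 := p6_single_pm c d
      have e3 := p6_single_pm c j
      rw [h2] at e1
      rw [h3] at e2
      rw [h1] at e3
      rw [hoa, Matrix.add_vecMul, Matrix.add_vecMul, e1, e2, e3]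
      abel
    · have e1 := p6_single_pm c j
      rw [hfix j hja hjb hjd] at e1
      rw [hoi j hja, e1]
  refine ⟨v, w, h4, h5, h6, fun i => ?_⟩
  obtain ⟨j, hj, e1, e2⟩ := h0 i
  rw [e1, e2]
  constructor
  · rw [Matrix.mulVec_add, hC j hj, p6_pm_single, hcp]
  · have e3 := p6_single_pm c q
    rw [hcq] at e3
    rw [Matrix.add_vecMul, hC' j hj, e3]

theorem p6_fam3 {k : ℕ} {c : Perm (Fin k)} (hc : c.IsThreeCycle) :
    ∃ v w : Fin 2 → Fin k → ZMod 2, (∀ i, ∑ j, v i j = 0) ∧ (∀ i, ∑ j, w i j = 0) ∧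
      (∀ i j, w i ⬝ᵥ v j = if i = j then 1 else 0) ∧
      ∀ i, (pm c + pm c * pm c).mulVec (v i) = v i ∧
        Matrix.vecMul (w i) (pm c + pm c * pm c) = w i := by
  obtain ⟨a, b, d, hab, had, hbd, h1, h2, h3, hfix⟩ := p6_three hc
  have h11 : (1 : ZMod 2) + 1 = 0 := by decide
  have hss : ∀ x : Fin k, (Pi.single x 1 : Fin k → ZMod 2) + Pi.single x 1 = 0 := by
    intro x
    rw [← Pi.single_add, h11, Pi.single_zero]
  have hsum : ∀ x y : Fin k, ∑ j, (Pi.single x 1 + Pi.single y 1 : Fin k → ZMod 2) j = 0 := by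
    intro x y
    simp only [Pi.add_apply, Finset.sum_add_distrib, Finset.sum_pi_single', Finset.mem_univ,
      if_true, h11]
  have key : ∀ x y z : Fin k, c x = y → c y = z → c z = x →
      (pm c + pm c * pm c).mulVec (Pi.single x 1 + Pi.single y 1) =
        (Pi.single x 1 + Pi.single y 1 : Fin k → ZMod 2) := by
    intro x y z hxy hyz hzx
    have e : (Pi.single y 1 + Pi.single z 1 + (Pi.single z 1 + Pi.single x 1) :
        Fin k → ZMod 2) = (Pi.single x 1 + Pi.single y 1) +
          (Pi.single z 1 + Pi.single z 1) := by abel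
    rw [Matrix.add_mulVec, ← Matrix.mulVec_mulVec, Matrix.mulVec_add, p6_pm_single,
      p6_pm_single, hxy, hyz, Matrix.mulVec_add, p6_pm_single, p6_pm_single, hyz, hzx, e, hss,
      add_zero]
  have key' : ∀ x y z : Fin k, c x = y → c y = z → c z = x →
      Matrix.vecMul (Pi.single x 1 + Pi.single y 1) (pm c + pm c * pm c) =
        (Pi.single x 1 + Pi.single y 1 : Fin k → ZMod 2) := by
    intro x y z hxy hyz hzx
    have e1 := p6_single_pm c x
    have e2 := p6_single_pm c y
    have e3 := p6_single_pm c z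
    rw [hxy] at e1
    rw [hyz] at e2
    rw [hzx] at e3
    have e : (Pi.single z 1 + Pi.single x 1 + (Pi.single y 1 + Pi.single z 1) :
        Fin k → ZMod 2) = (Pi.single x 1 + Pi.single y 1) +
          (Pi.single z 1 + Pi.single z 1) := by abel
    rw [Matrix.vecMul_add, ← Matrix.vecMul_vecMul, Matrix.add_vecMul, e3, e1, Matrix.add_vecMul,
      e2, e3, e, hss, add_zero]
  refine ⟨![Pi.single a 1 + Pi.single b 1, Pi.single b 1 + Pi.single d 1],
    ![Pi.single b 1 + Pi.single d 1, Pi.single a 1 + Pi.single b 1], ?_, ?_, ?_, ?_⟩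
  · intro i
    fin_cases i
    · exact hsum a b
    · exact hsum b d
  · intro i
    fin_cases i
    · exact hsum b d
    · exact hsum a b
  · intro i j
    fin_cases i <;> fin_cases j <;>
      simp [add_dotProduct, dotProduct_add, single_dotProduct, Pi.single_apply, hab, had, hbd,
        hab.symm, had.symm, hbd.symm, h11]
  · intro i
    fin_cases i
    · exact ⟨key a b d h1 h2 h3, key' b d a h2 h3 h1⟩
    · exact ⟨key b d a h2 h3 h1, key' a b d h1 h2 h3⟩

/-! ### The projection -/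

section

variable {G R : Type*} [Group G] [Fintype R] {m : R → ℕ} {N : ℕ}
  {ρ : G →* Matrix (Fin N) (Fin N) ℤ_[2]} {π : ∀ r, G →* Perm (Fin (m r))} {S : R → Set G}

theorem p6_third : ∃ u : ℤ_[2], 3 * u = 1 ∧ PadicInt.toZMod u = 1 := by
  have h3 : ‖((3 : ℕ) : ℤ_[2])‖ = 1 := PadicInt.norm_natCast_eq_one_iff.2 (by decide)
  have hu : IsUnit (3 : ℤ_[2]) := PadicInt.isUnit_iff.2 (by exact_mod_cast h3)
  obtain ⟨u, hu⟩ := hu.exists_right_inv
  refine ⟨u, hu, ?_⟩
  have h := congrArg (PadicInt.toZMod (p := 2)) hu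
  rw [map_mul, map_one, map_ofNat] at h
  have h3' : (OfNat.ofNat 3 : ZMod 2) = 1 := by decide
  rwa [h3', one_mul] at h

theorem p6_proj [DecidableEq R] (hR : Res m N ρ π S) (r : R) (s : G) (hs : s ∈ S r)
    (h3 : ρ s ^ 3 = 1) :
    ∃ Q : Rg m N, Q * Q = Q ∧
      Q ∈ (Subring.closure (phi ρ π '' ((Subgroup.closure (S r) : Subgroup G) : Set G))).topologicalClosure ∧
      (3 : ℤ_[2]) • Q.1 = 2 - ρ s - ρ s ^ 2 ∧
      Q.2 = Pi.single r (pm (π r s) + pm (π r s) * pm (π r s)) := by
  obtain ⟨u, hu, hu2⟩ := p6_third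
  set x : Rg m N := phi ρ π s with hx
  set C := (Subring.closure (phi ρ π '' ((Subgroup.closure (S r) : Subgroup G) : Set G))).topologicalClosure
    with hC
  have hCcl : IsClosed (C : Set (Rg m N)) := Subring.isClosed_topologicalClosure _
  have hxC : x ∈ C := Subring.le_topologicalClosure _
    (Subring.subset_closure ⟨s, Subgroup.subset_closure hs, rfl⟩)
  have hone : ∀ r', r' ≠ r → pm (π r' s) = 1 := by
    intro r' hr'
    rw [hR.one r s hs r' hr', p6_pm_one]
  have hcube : (π r s) ^ 3 = 1 := by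
    rw [← (hR.cyc r s hs).orderOf]
    exact pow_orderOf_eq_one _
  have hx3 : x * x * x = 1 := by
    refine Prod.ext ?_ (funext fun r' => ?_)
    · show ρ s * ρ s * ρ s = 1
      rw [← h3]
      noncomm_ring
    · show pm (π r' s) * pm (π r' s) * pm (π r' s) = 1
      by_cases h : r' = r
      · subst h
        rw [← p6_pm_mul, ← p6_pm_mul, ← p6_pm_one, ← hcube]
        congr 1
      · rw [hone r' h]
        simp
  have hu' : (p6_sc u : Rg m N) * 3 = 1 := by
    have : (3 : Rg m N) = p6_sc 3 := by rw [map_ofNat]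
    rw [this, ← map_mul, mul_comm, hu, map_one]
  have hyy : (2 - x - x * x) * (2 - x - x * x) = 3 * (2 - x - x * x) := by
    have e : (2 - x - x * x) * (2 - x - x * x) =
        3 * (2 - x - x * x) + (2 + x) * (x * x * x - 1) := by noncomm_ring
    rw [e, hx3, sub_self, mul_zero, add_zero]
  refine ⟨p6_sc u * (2 - x - x * x), ?_, ?_, ?_, ?_⟩
  · calc p6_sc u * (2 - x - x * x) * (p6_sc u * (2 - x - x * x))
        = p6_sc u * ((2 - x - x * x) * p6_sc u) * (2 - x - x * x) := by noncomm_ring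
      _ = p6_sc u * (p6_sc u * (2 - x - x * x)) * (2 - x - x * x) := by
          rw [← p6_sc_comm u (2 - x - x * x)]
      _ = p6_sc u * p6_sc u * ((2 - x - x * x) * (2 - x - x * x)) := by noncomm_ring
      _ = p6_sc u * (p6_sc u * 3) * (2 - x - x * x) := by rw [hyy]; noncomm_ring
      _ = p6_sc u * (2 - x - x * x) := by rw [hu', mul_one]
  · refine C.mul_mem (p6_sc_mem C hCcl u) (C.sub_mem (C.sub_mem ?_ hxC) (C.mul_mem hxC hxC))
    have : (2 : Rg m N) = 1 + 1 := by norm_num
    rw [this]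
    exact C.add_mem C.one_mem C.one_mem
  · show (3 : ℤ_[2]) • (Matrix.scalar (Fin N) u * (2 - ρ s - ρ s * ρ s)) = 2 - ρ s - ρ s ^ 2
    have e : Matrix.scalar (Fin N) u * (2 - ρ s - ρ s * ρ s) = u • (2 - ρ s - ρ s * ρ s) := by
      rw [Matrix.scalar_apply, Matrix.smul_eq_diagonal_mul]
    rw [e, smul_smul, hu, one_smul, pow_two]
  · funext r'
    show Matrix.scalar (Fin (m r')) (PadicInt.toZMod u) *
      (2 - pm (π r' s) - pm (π r' s) * pm (π r' s)) = _
    rw [hu2, map_one, one_mul]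
    have h2 : (2 : Matrix (Fin (m r')) (Fin (m r')) (ZMod 2)) = 0 := by
      have h := map_ofNat (algebraMap (ZMod 2) (Matrix (Fin (m r')) (Fin (m r')) (ZMod 2))) 2
      rw [← h]
      have h2' : (OfNat.ofNat 2 : ZMod 2) = 0 := by decide
      rw [h2', map_zero]
    have hneg : ∀ M : Matrix (Fin (m r')) (Fin (m r')) (ZMod 2), -M = M := by
      intro M
      rw [neg_eq_iff_add_eq_zero, ← two_mul, h2, zero_mul]
    by_cases h : r' = r
    · subst h
      rw [Pi.single_eq_same, h2, zero_sub, sub_eq_add_neg, hneg, hneg]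
    · rw [Pi.single_eq_of_ne h, hone r' h, one_mul, sub_sub, one_add_one_eq_two, sub_self]

/-- ES5a: the projection to the range of `ρ(s) - 1` is a sum of two idempotents of rank one. -/
theorem es_eta [DecidableEq R] (hR : Res m N ρ π S) (r : R) (s : G) (hs : s ∈ S r)
    (h3 : ρ s ^ 3 = 1) :
    ∃ η : Fin 2 → Rg m N,
      (∀ i, η i ∈ idl ρ π (Subgroup.closure (S r)) (S r) ∧ Good r (η i) ∧
        ((η i).1.map (algebraMap ℤ_[2] ℚ_[2])).rank = 1) ∧ η 0 * η 1 = 0 ∧ η 1 * η 0 = 0 ∧
      (3 : ℤ_[2]) • ((η 0).1 + (η 1).1) = 2 - ρ s - ρ s ^ 2 := by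
  obtain ⟨Q, hQ, hQC, hQ1, hQ2⟩ := p6_proj hR r s hs h3
  have hc := hR.cyc r s hs
  set c := π r s with hcdef
  obtain ⟨v, w, hv, hw, hwv, hfix⟩ := p6_fam3 hc
  -- the two idempotents
  obtain ⟨ε, hε, hεε, hcnt, hcnt2⟩ := p6_lift hR (Subgroup.closure (S r)) (S r)
    (Set.subset_iUnion S r) Q hQ hQC (κ := Fin 2) (fun _ => r) (fun _ => le_rfl)
    (fun _ => subset_rfl) v w hv hw (fun i => by rw [hwv, if_pos rfl])
    (fun i => Pi.single r (Matrix.vecMulVec (v i) (w i))) (fun i => rfl)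
    (fun i j hij => by
      rw [← Pi.single_mul, Matrix.vecMulVec_mul_vecMulVec, hwv, if_neg hij, zero_smul,
        Matrix.vecMulVec_zero, Pi.single_zero])
    (fun i => by
      rw [hQ2, ← Pi.single_mul, ← Pi.single_mul, Matrix.mul_vecMulVec, Matrix.vecMulVec_mul,
        (hfix i).1, (hfix i).2]
      exact ⟨rfl, rfl⟩)
  rw [Fintype.card_fin] at hcnt hcnt2
  -- the complement
  have hfam : ∀ r', ∃ v w : Fin (if r' = r then m r' - 4 else m r' - 2) → Fin (m r') → ZMod 2,
      (∀ i, ∑ j, v i j = 0) ∧ (∀ i, ∑ j, w i j = 0) ∧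
      (∀ i j, w i ⬝ᵥ v j = if i = j then 1 else 0) ∧
      ∀ i, ((1 - Q).2 r').mulVec (v i) = v i ∧ Matrix.vecMul (w i) ((1 - Q).2 r') = w i := by
    intro r'
    by_cases h : r' = r
    · subst h
      rw [if_pos rfl]
      obtain ⟨v, w, h1, h2, h3', h4⟩ := p6_fam2 (hR.big r') hc
      refine ⟨v, w, h1, h2, h3', fun i => ?_⟩
      have e : (1 - Q).2 r' = 1 - (pm c + pm c * pm c) := by
        show 1 - Q.2 r' = _
        rw [hQ2, Pi.single_eq_same]
      have hz : ∀ a : Fin (m r') → ZMod 2, a + a = 0 := by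
        intro a
        ext j
        exact CharTwo.add_self_eq_zero _
      rw [e]
      constructor
      · rw [Matrix.sub_mulVec, Matrix.one_mulVec, Matrix.add_mulVec, ← Matrix.mulVec_mulVec,
          (h4 i).1, (h4 i).1, hz, sub_zero]
      · rw [Matrix.vecMul_sub, Matrix.vecMul_one, Matrix.vecMul_add, ← Matrix.vecMul_vecMul,
          (h4 i).2, (h4 i).2, hz, sub_zero]
    · rw [if_neg h]
      obtain ⟨v, w, h1, h2, h3'⟩ := p6_fam1 (hR.big r')
      refine ⟨v, w, h1, h2, h3', fun i => ?_⟩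
      have e : (1 - Q).2 r' = 1 := by
        show 1 - Q.2 r' = _
        rw [hQ2, Pi.single_eq_of_ne h, sub_zero]
      rw [e, Matrix.one_mulVec, Matrix.vecMul_one]
      exact ⟨rfl, rfl⟩
  choose v' w' hv' hw' hwv' hfix' using hfam
  have hle : ∀ r', Subgroup.closure (S r') ≤ Subgroup.closure (⋃ r, S r) := fun r' =>
    Subgroup.closure_mono (Set.subset_iUnion S r')
  obtain ⟨ε', -, -, hcnt', -⟩ := p6_lift hR (Subgroup.closure (⋃ r, S r)) (⋃ r, S r)
    subset_rfl (1 - Q) (by
      rw [mul_sub, sub_mul, sub_mul, hQ]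
      simp)
    (by
      refine Subring.sub_mem _ (Subring.one_mem _) ?_
      refine closure_mono (Subring.closure_mono (Set.image_mono ?_)) hQC
      exact hle r)
    (κ := Σ r' : R, Fin (if r' = r then m r' - 4 else m r' - 2)) (fun i => i.1)
    (fun i => hle i.1) (fun i => Set.subset_iUnion S i.1) (fun i => v' i.1 i.2)
    (fun i => w' i.1 i.2) (fun i => hv' i.1 i.2) (fun i => hw' i.1 i.2)
    (fun i => by rw [hwv', if_pos rfl])
    (fun i => Pi.single i.1 (Matrix.vecMulVec (v' i.1 i.2) (w' i.1 i.2))) (fun i => rfl)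
    (fun i j hij => by
      obtain ⟨i1, i2⟩ := i
      obtain ⟨j1, j2⟩ := j
      by_cases h : i1 = j1
      · subst h
        have h2 : i2 ≠ j2 := fun h' => hij (by rw [h'])
        rw [← Pi.single_mul, Matrix.vecMulVec_mul_vecMulVec]
        simp only
        rw [hwv', if_neg h2, zero_smul, Matrix.vecMulVec_zero, Pi.single_zero]
      · funext r'
        rw [Pi.mul_apply, Pi.zero_apply]
        by_cases h' : r' = i1
        · subst h'
          simp only
          rw [Pi.single_eq_of_ne h, mul_zero]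
        · simp only
          rw [Pi.single_eq_of_ne h', zero_mul])
    (fun i => by
      obtain ⟨i1, i2⟩ := i
      constructor
      · funext r'
        by_cases h' : r' = i1
        · subst h'
          simp only [Pi.mul_apply, Pi.single_eq_same]
          rw [Matrix.mul_vecMulVec, (hfix' r' i2).1]
        · simp only [Pi.mul_apply]
          rw [Pi.single_eq_of_ne h', mul_zero]
      · funext r'
        by_cases h' : r' = i1
        · subst h'
          simp only [Pi.mul_apply, Pi.single_eq_same]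
          rw [Matrix.vecMulVec_mul, (hfix' r' i2).2]
        · simp only [Pi.mul_apply]
          rw [Pi.single_eq_of_ne h', zero_mul])
  -- the count
  have hcard : Fintype.card (Σ r' : R, Fin (if r' = r then m r' - 4 else m r' - 2)) + 2 = N := by
    rw [Fintype.card_sigma]
    simp only [Fintype.card_fin]
    rw [hR.dim, ← Finset.add_sum_erase _ _ (Finset.mem_univ r),
      ← Finset.add_sum_erase (a := r) _ (fun r => m r - 2) (Finset.mem_univ r), if_pos rfl]
    have h8 := hR.big r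
    have e : ∑ x ∈ Finset.univ.erase r, (if x = r then m x - 4 else m x - 2) =
        ∑ x ∈ Finset.univ.erase r, (m x - 2) := by
      refine Finset.sum_congr rfl fun x hx => ?_
      rw [if_neg (Finset.ne_of_mem_erase hx)]
    rw [e]
    omega
  have hsum : finrank ℚ_[2] (LinearMap.range (p6_F Q)) +
      finrank ℚ_[2] (LinearMap.range (p6_F (1 - Q))) = N := by
    have hidem : IsIdempotentElem (p6_F Q) := by
      rw [IsIdempotentElem, ← map_mul, hQ]
    have h1 : LinearMap.range (p6_F (1 - Q)) = LinearMap.ker (p6_F Q) := by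
      ext y
      constructor
      · rintro ⟨z, rfl⟩
        rw [LinearMap.mem_ker, ← Module.End.mul_apply, ← map_mul]
        have : Q * (1 - Q) = 0 := by rw [mul_sub, hQ, mul_one, sub_self]
        rw [this, map_zero]
        rfl
      · intro hy
        rw [LinearMap.mem_ker] at hy
        refine ⟨y, ?_⟩
        rw [map_sub, map_one, LinearMap.sub_apply, hy, sub_zero]
        rfl
    rw [h1, LinearMap.finrank_range_add_finrank_ker, finrank_fin_fun]
  have h2 : (2 : ℕ) = finrank ℚ_[2] (LinearMap.range (p6_F Q)) := by omega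
  obtain ⟨hs1, hs2⟩ := hcnt2 h2
  refine ⟨ε, fun i => ⟨(hε i).1, ⟨?_, v i, w i, hv i, hw i, ?_, (hε i).2.1⟩, ?_⟩, ?_, ?_, ?_⟩
  · rw [hεε, if_pos rfl]
  · rw [hwv, if_pos rfl]
  · rw [← p6_rank, hs2 i]
  · rw [hεε, if_neg (by decide)]
  · rw [hεε, if_neg (by decide)]
  · rw [← hQ1]
    congr 1
    rw [Fin.sum_univ_two, ← map_add] at hs1
    exact p6_F_inj hs1

end

end Pool.Agent.ES
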