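import Pool.Agent.Lib_helper55.ESF.P1
import Pool.Agent.Lib_helper55.ESF.P2
import Pool.Agent.Lib_helper55.ESF.P4

-- block P7 of the strong form of EllipticSurfaces, by helper97

/-!
# Block P7 of the wanted list `ES.WP` (MP_97f789_ag): `es_sys`
-/

set_option autoImplicit false

namespace Pool.Agent.ES

open Equiv Module Filter Topology

section

variable {G R : Type*} [Group G] [Fintype R] {m : R → ℕ} {N : ℕ}
  {ρ : G →* Matrix (Fin N) (Fin N) ℤ_[2]} {π : ∀ r, G →* Perm (Fin (m r))} {S : R → Set G}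

omit [Fintype R] in
theorem p7_mono {H H' : Subgroup G} {T T' : Set G} (h : H ≤ H') (hT : T ⊆ T') :
    idl ρ π H T ≤ idl ρ π H' T' := by
  refine NonUnitalSubring.topologicalClosure_mono (NonUnitalSubring.closure_mono ?_)
  rintro z ⟨x, hx, s, hs, y, hy, rfl⟩
  exact ⟨x, h hx, s, hT hs, y, h hy, rfl⟩

/-- the two vectors -/
def p7_v {k : ℕ} (i p : Fin k) : Fin k → ZMod 2 := Pi.single i 1 + Pi.single p 1

theorem p7_sum {k : ℕ} (i p : Fin k) : ∑ j, p7_v i p j = 0 := by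
  simp only [p7_v, Pi.add_apply, Finset.sum_add_distrib, Finset.sum_pi_single',
    Finset.mem_univ, if_true]
  decide

theorem p7_dot {k : ℕ} {p q : Fin k} (hpq : p ≠ q) {i j : Fin k} (hi : i ≠ p) (hj : j ≠ q) :
    p7_v i q ⬝ᵥ p7_v j p = if i = j then 1 else 0 := by
  simp only [p7_v, add_dotProduct, dotProduct_add, single_dotProduct, one_mul]
  simp only [Pi.single_apply, hi, hpq.symm, if_false, hj.symm, add_zero]

theorem p7_lift [DecidableEq R] (hR : Res m N ρ π S) (H : Subgroup G)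
    (hH : ∀ r, Subgroup.closure (S r) ≤ H) (p : Rg m N) (hp : p * p = p) (hp2 : p.2 = 1)
    (hpJ : ∀ x ∈ idl ρ π H (⋃ r, S r), p * x * p ∈ idl ρ π H (⋃ r, S r)) :
    ∃ ε : (Σ r : R, Fin (m r - 2)) → Rg m N,
      (∀ i, ε i ∈ idl ρ π H (⋃ r, S r) ∧ Good i.1 (ε i) ∧ (ε i).1 ≠ 0 ∧
        p * ε i = ε i ∧ ε i * p = ε i) ∧
      ∀ i j, ε i * ε j = if i = j then ε i else 0 := by
  have h8 := hR.big
  set P : ∀ r, Fin (m r) := fun r => ⟨0, by have := h8 r; omega⟩ with hP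
  set Q : ∀ r, Fin (m r) := fun r => ⟨1, by have := h8 r; omega⟩ with hQ
  set u : (i : Σ r : R, Fin (m r - 2)) → Fin (m i.1) := fun i => ⟨i.2.1 + 2, by
    have := i.2.2
    omega⟩ with hu
  set e : (Σ r : R, Fin (m r - 2)) → (∀ r, Matrix (Fin (m r)) (Fin (m r)) (ZMod 2)) :=
    fun i => Pi.single i.1 (Matrix.vecMulVec (p7_v (u i) (P i.1)) (p7_v (u i) (Q i.1))) with he
  have hPQ : ∀ r, P r ≠ Q r := fun r h => by
    have := congrArg Fin.val h
    simp [hP, hQ] at this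
  have huP : ∀ i, u i ≠ P i.1 := fun i h => by
    have := congrArg Fin.val h
    simp [hP, hu] at this
  have huQ : ∀ i, u i ≠ Q i.1 := fun i h => by
    have := congrArg Fin.val h
    simp [hQ, hu] at this
  have hee : ∀ i j, e i * e j = if i = j then e i else 0 := by
    rintro ⟨r, i⟩ ⟨r', j⟩
    by_cases hr : r = r'
    · subst hr
      simp only [he]
      rw [← Pi.single_mul, Matrix.vecMulVec_mul_vecMulVec, p7_dot (hPQ r) (huP ⟨r, i⟩)
        (huQ ⟨r, j⟩)]
      by_cases hij : i = j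
      · subst hij
        simp
      · have h1 : u ⟨r, i⟩ ≠ u ⟨r, j⟩ := fun h => hij (by
          have := congrArg Fin.val h
          simp only [hu] at this
          exact Fin.ext (by omega))
        rw [if_neg h1, if_neg]
        · simp
        · intro h
          exact hij (by simpa using h)
    · rw [if_neg (fun h => hr (congrArg Sigma.fst h))]
      funext r''
      simp only [he, Pi.mul_apply, Pi.zero_apply]
      by_cases h1 : r'' = r
      · subst h1
        rw [Pi.single_eq_of_ne hr, mul_zero]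
      · rw [Pi.single_eq_of_ne h1, zero_mul]
  have hex : ∀ i, ∃ x ∈ idl ρ π H (⋃ r, S r), (RingHom.snd (Matrix (Fin N) (Fin N) ℤ_[2])
      (∀ r, Matrix (Fin (m r)) (Fin (m r)) (ZMod 2))) x = e i := by
    intro i
    obtain ⟨z, hz, hz2⟩ := es_idl_one hR i.1 (p7_v (u i) (P i.1)) (p7_v (u i) (Q i.1))
      (p7_sum _ _) (p7_sum _ _)
    exact ⟨z, p7_mono (hH i.1) (Set.subset_iUnion S i.1) hz, hz2⟩
  have : CompactSpace (Matrix (Fin N) (Fin N) ℤ_[2]) :=
    inferInstanceAs (CompactSpace (Fin N → Fin N → ℤ_[2]))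
  have : ∀ r, CompactSpace (Matrix (Fin (m r)) (Fin (m r)) (ZMod 2)) := fun r =>
    inferInstanceAs (CompactSpace (Fin (m r) → Fin (m r) → ZMod 2))
  obtain ⟨ε, h1, h2⟩ := es_lift (RingHom.snd (Matrix (Fin N) (Fin N) ℤ_[2])
    (∀ r, Matrix (Fin (m r)) (Fin (m r)) (ZMod 2))) continuous_snd (idl ρ π H (⋃ r, S r))
    (NonUnitalSubring.isClosed_topologicalClosure _) p hp hpJ e hex
    (fun i => by
      show p.2 * e i = e i ∧ e i * p.2 = e i
      rw [hp2, one_mul, mul_one]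
      exact ⟨rfl, rfl⟩) hee
  refine ⟨ε, fun i => ?_, h2⟩
  have h3 : (ε i).2 = Pi.single i.1 (Matrix.vecMulVec (p7_v (u i) (P i.1))
    (p7_v (u i) (Q i.1))) := (h1 i).2.1
  have h4 : p7_v (u i) (Q i.1) ⬝ᵥ p7_v (u i) (P i.1) = 1 := by
    rw [p7_dot (hPQ i.1) (huP i) (huQ i), if_pos rfl]
  refine ⟨(h1 i).1, ⟨?_, _, _, p7_sum _ _, p7_sum _ _, h4, h3⟩, ?_, (h1 i).2.2.1, (h1 i).2.2.2⟩
  · rw [h2 i i, if_pos rfl]
  · intro h5
    have h6 := es_idl_tr hR H (ε i) (h1 i).1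
    rw [h5, Matrix.trace_zero, map_zero, h3] at h6
    have h7 : ∑ r, ((Pi.single i.1 (Matrix.vecMulVec (p7_v (u i) (P i.1))
        (p7_v (u i) (Q i.1))) : ∀ r, Matrix (Fin (m r)) (Fin (m r)) (ZMod 2)) r).trace = 1 := by
      rw [Finset.sum_eq_single i.1]
      · rw [Pi.single_eq_same, Matrix.trace_vecMulVec, dotProduct_comm, h4]
      · intro r _ hr
        rw [Pi.single_eq_of_ne hr, Matrix.trace_zero]
      · intro h
        exact absurd (Finset.mem_univ _) h
    rw [h7] at h6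
    exact absurd h6 (by decide)

/-- passage to the operators over the field -/
noncomputable def p7_op (M : Matrix (Fin N) (Fin N) ℤ_[2]) : Module.End ℚ_[2] (Fin N → ℚ_[2]) :=
  Matrix.toLin' (M.map (algebraMap ℤ_[2] ℚ_[2]))

theorem p7_inj : Function.Injective (algebraMap ℤ_[2] ℚ_[2]) :=
  FaithfulSMul.algebraMap_injective ℤ_[2] ℚ_[2]

theorem p7_op_mul (M M' : Matrix (Fin N) (Fin N) ℤ_[2]) :
    p7_op (M * M') = p7_op M * p7_op M' := by
  unfold p7_op
  rw [Matrix.map_mul, Matrix.toLin'_mul]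
  rfl

theorem p7_op_inj {M M' : Matrix (Fin N) (Fin N) ℤ_[2]} (h : p7_op M = p7_op M') : M = M' := by
  have h1 := Matrix.toLin'.injective h
  ext i j
  have h2 := congrFun (congrFun h1 i) j
  exact p7_inj h2

theorem p7_op_zero : p7_op (0 : Matrix (Fin N) (Fin N) ℤ_[2]) = 0 := by
  unfold p7_op
  rw [Matrix.map_zero _ (map_zero _), map_zero]

theorem p7_op_one : p7_op (1 : Matrix (Fin N) (Fin N) ℤ_[2]) = 1 := by
  unfold p7_op
  rw [Matrix.map_one _ (map_zero _) (map_one _), Matrix.toLin'_one]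
  rfl

theorem p7_op_add (M M' : Matrix (Fin N) (Fin N) ℤ_[2]) :
    p7_op (M + M') = p7_op M + p7_op M' := by
  unfold p7_op
  rw [Matrix.map_add _ (map_add _), map_add]

theorem p7_op_sum {κ : Type*} (s : Finset κ) (M : κ → Matrix (Fin N) (Fin N) ℤ_[2]) :
    p7_op (∑ i ∈ s, M i) = ∑ i ∈ s, p7_op (M i) := by
  classical
  induction s using Finset.induction_on with
  | empty => rw [Finset.sum_empty, Finset.sum_empty, p7_op_zero]
  | insert i s hi ih => rw [Finset.sum_insert hi, Finset.sum_insert hi, p7_op_add, ih]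

theorem es_sys [DecidableEq R] (hR : Res m N ρ π S) :
    ∃ ε : (Σ r : R, Fin (m r - 2)) → Rg m N,
      (∀ i, ε i ∈ idl ρ π (Subgroup.closure (⋃ r, S r)) (⋃ r, S r) ∧ Good i.1 (ε i) ∧
        ((ε i).1.map (algebraMap ℤ_[2] ℚ_[2])).rank = 1) ∧
      (∀ i j, i ≠ j → ε i * ε j = 0) ∧ ∑ i, (ε i).1 = 1 := by
  obtain ⟨ε, h1, h2⟩ := p7_lift hR (Subgroup.closure (⋃ r, S r))
    (fun r => Subgroup.closure_mono (Set.subset_iUnion S r)) 1 (one_mul 1) rfl
    (fun x hx => by rwa [one_mul, mul_one])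
  have h3 := es_count (1 : Module.End ℚ_[2] (Fin N → ℚ_[2])) (one_mul 1)
    (fun i => p7_op (ε i).1) (fun i j => by
      rw [← p7_op_mul, ← Prod.fst_mul, h2 i j]
      split_ifs
      · rfl
      · exact p7_op_zero) (fun i h => (h1 i).2.2.1 (p7_op_inj (h.trans p7_op_zero.symm)))
    (fun i => ⟨one_mul _, mul_one _⟩)
  have h4 : Fintype.card (Σ r : R, Fin (m r - 2)) =
      finrank ℚ_[2] (LinearMap.range (1 : Module.End ℚ_[2] (Fin N → ℚ_[2]))) := by
    have h5 : LinearMap.range (1 : Module.End ℚ_[2] (Fin N → ℚ_[2])) = ⊤ := LinearMap.range_id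
    rw [h5, finrank_top, Module.finrank_fin_fun, Fintype.card_sigma, hR.dim]
    exact Finset.sum_congr rfl fun r _ => Fintype.card_fin _
  obtain ⟨h5, h6⟩ := h3.2 h4
  refine ⟨ε, fun i => ⟨(h1 i).1, (h1 i).2.1, ?_⟩, fun i j hij => ?_, ?_⟩
  · exact h6 i
  · rw [h2, if_neg hij]
  · exact p7_op_inj (by rw [p7_op_sum, h5, p7_op_one])

end

end Pool.Agent.ES
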