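import Pool.Agent.Lib_helper55.ESF.P4

-- block P8 of the strong form of EllipticSurfaces, by helper37

/-!
# ES, block P8: idempotents over the same set are linked
-/

set_option autoImplicit false

namespace Pool.Agent.ES

open Equiv Module Filter Topology

section

variable {G R : Type*} [Group G] {m : R → ℕ} {N : ℕ}
  {ρ : G →* Matrix (Fin N) (Fin N) ℤ_[2]} {π : ∀ r, G →* Perm (Fin (m r))}

theorem p8_mono {H H' : Subgroup G} {S S' : Set G} (hH : H ≤ H') (hS : S ⊆ S') :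
    idl ρ π H S ≤ idl ρ π H' S' := by
  unfold idl
  apply NonUnitalSubring.topologicalClosure_mono
  apply NonUnitalSubring.closure_mono
  rintro z ⟨x, hx, s, hs, y, hy, rfl⟩
  exact ⟨x, hH hx, s, hS hs, y, hH hy, rfl⟩

theorem p8_vmv {k : ℕ} (a b c d : Fin k → ZMod 2) :
    Matrix.vecMulVec a b * Matrix.vecMulVec c d = (b ⬝ᵥ c) • Matrix.vecMulVec a d := by
  ext i j
  simp only [Matrix.mul_apply, Matrix.vecMulVec_apply, Matrix.smul_apply, smul_eq_mul,
    dotProduct, Finset.sum_mul]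
  apply Finset.sum_congr rfl
  intro l _
  ring

end

section

variable {G R : Type*} [Group G] [Fintype R] {m : R → ℕ} {N : ℕ}
  {ρ : G →* Matrix (Fin N) (Fin N) ℤ_[2]} {π : ∀ r, G →* Perm (Fin (m r))} {S : R → Set G}

/-- ES6a: two idempotents of rank one over the same set are linked. -/
theorem es_link [DecidableEq R] (hR : Res m N ρ π S) (r : R) (z z' : Rg m N)
    (hz : z ∈ idl ρ π ⊤ (⋃ r, S r)) (hz' : z' ∈ idl ρ π ⊤ (⋃ r, S r)) (hg : Good r z)
    (hg' : Good r z') :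
    ∃ u ∈ idl ρ π (Subgroup.closure (S r)) (S r), z'.1 * u.1 * z.1 ≠ 0 := by
  obtain ⟨_, v, w, hv, hw, hwv, hz2⟩ := hg
  obtain ⟨_, v', w', hv', hw', hwv', hz2'⟩ := hg'
  obtain ⟨u, hu, hu2⟩ := es_idl_one hR r v' w hv' hw
  obtain ⟨u', hu', hu2'⟩ := es_idl_one hR r v w' hv hw'
  refine ⟨u, hu, fun h0 => ?_⟩
  have hle : idl ρ π (Subgroup.closure (S r)) (S r) ≤ idl ρ π ⊤ (⋃ r, S r) :=
    p8_mono le_top (Set.subset_iUnion S r)
  have hmem : z' * u * z * u' ∈ idl ρ π ⊤ (⋃ r, S r) :=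
    mul_mem (mul_mem (mul_mem hz' (hle hu)) hz) (hle hu')
  have h1 := es_idl_tr hR ⊤ _ hmem
  have h2 : (z' * u * z * u').1 = 0 := by
    show z'.1 * u.1 * z.1 * u'.1 = 0
    rw [h0, zero_mul]
  have h3 : (z' * u * z * u').2 = Pi.single r (Matrix.vecMulVec v' w') := by
    show z'.2 * u.2 * z.2 * u'.2 = _
    rw [hz2, hz2', hu2, hu2', ← Pi.single_mul, ← Pi.single_mul, ← Pi.single_mul]
    congr 1
    rw [p8_vmv, hwv', one_smul, p8_vmv, hwv, one_smul, p8_vmv, hwv, one_smul]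
  rw [h2, h3, Matrix.trace_zero, map_zero, Finset.sum_eq_single r] at h1
  · rw [Pi.single_eq_same] at h1
    have h4 : (Matrix.vecMulVec v' w').trace = 1 := by
      rw [← hwv']
      simp only [Matrix.trace, Matrix.diag_apply, Matrix.vecMulVec_apply, dotProduct]
      exact Finset.sum_congr rfl fun i _ => mul_comm _ _
    rw [h4] at h1
    exact zero_ne_one h1
  · intro r' _ hr
    rw [Pi.single_eq_of_ne hr, Matrix.trace_zero]
  · intro h
    exact absurd (Finset.mem_univ r) h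

end

end Pool.Agent.ES
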