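import Pool.Agent.Lib_helper55.ESF.P5
import Pool.Agent.Lib_helper55.ESF.P6
import Pool.Agent.Lib_helper55.ESF.P7
import Pool.Agent.Lib_helper55.ESF.P8

-- block P9 of the strong form of EllipticSurfaces, by helper76

/-!
# Block P9: rank of `ρ(s) - 1` and the dichotomy for stable subspaces
-/

set_option autoImplicit false

namespace Pool.Agent.ES

open Equiv Module Filter Topology

section

variable {N : ℕ} {E : Type*} [Field E] (ι : ℤ_[2] →+* E)

/-- the operator of a matrix over `ℤ_2` -/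
noncomputable def p9A (M : Matrix (Fin N) (Fin N) ℤ_[2]) : Module.End E (Fin N → E) :=
  Matrix.toLin' (M.map ι)

theorem p9_mul (M M' : Matrix (Fin N) (Fin N) ℤ_[2]) : p9A ι (M * M') = p9A ι M * p9A ι M' := by
  rw [p9A, Matrix.map_mul, Matrix.toLin'_mul]; rfl

theorem p9_add (M M' : Matrix (Fin N) (Fin N) ℤ_[2]) : p9A ι (M + M') = p9A ι M + p9A ι M' := by
  rw [p9A, Matrix.map_add ι (map_add ι), map_add]; rfl

theorem p9_sub (M M' : Matrix (Fin N) (Fin N) ℤ_[2]) : p9A ι (M - M') = p9A ι M - p9A ι M' := by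
  rw [p9A, Matrix.map_sub ι (map_sub ι), map_sub]; rfl

theorem p9_one : p9A ι (1 : Matrix (Fin N) (Fin N) ℤ_[2]) = 1 := by
  rw [p9A, Matrix.map_one ι (map_zero ι) (map_one ι), Matrix.toLin'_one]; rfl

theorem p9_smul (a : ℤ_[2]) (M : Matrix (Fin N) (Fin N) ℤ_[2]) :
    p9A ι (a • M) = ι a • p9A ι M := by
  have : (a • M).map ι = ι a • M.map ι := by
    ext i j; simp
  rw [p9A, this, map_smul]; rfl

theorem p9_zero : p9A ι (0 : Matrix (Fin N) (Fin N) ℤ_[2]) = 0 := by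
  have := p9_smul ι 0 (0 : Matrix (Fin N) (Fin N) ℤ_[2])
  rwa [zero_smul, map_zero, zero_smul] at this

theorem p9_sum {κ : Type*} (s : Finset κ) (f : κ → Matrix (Fin N) (Fin N) ℤ_[2]) :
    p9A ι (∑ i ∈ s, f i) = ∑ i ∈ s, p9A ι (f i) := by
  classical
  induction s using Finset.induction_on with
  | empty => simp [p9_zero]
  | insert a s ha ih => rw [Finset.sum_insert ha, Finset.sum_insert ha, p9_add, ih]

theorem p9_inj (hι : Function.Injective ι) {M : Matrix (Fin N) (Fin N) ℤ_[2]} (hM : M ≠ 0) :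
    p9A ι M ≠ 0 := by
  intro h
  apply hM
  have h1 : M.map ι = 0 := by
    apply Matrix.toLin'.injective
    rw [map_zero]; exact h
  ext i j
  have := congrFun (congrFun h1 i) j
  simp only [Matrix.map_apply, Matrix.zero_apply] at this
  rw [Matrix.zero_apply]
  exact hι (by rw [this, map_zero])

omit ι in
/-- the trace of an idempotent matrix -/
theorem p9_tr {K : Type*} [Field K] (e : Matrix (Fin N) (Fin N) K) (he : e * e = e) :
    e.trace = (finrank K (LinearMap.range (Matrix.toLin' e)) : K) := by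
  have hi : IsIdempotentElem (Matrix.toLin' e) := by
    unfold IsIdempotentElem
    have h := Matrix.toLin'_mul e e
    rw [he] at h
    exact h.symm
  have h1 := (LinearMap.IsIdempotentElem.isProj_range _ hi).trace
  rw [← h1, Matrix.trace_toLin'_eq]

include ι in
theorem p9_char (hι : Function.Injective ι) : CharZero E :=
  charZero_of_injective_ringHom hι

omit ι in
theorem p9_tr2 {K : Type*} [Field K] (f : ℤ_[2] →+* K) (e : Matrix (Fin N) (Fin N) ℤ_[2])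
    (he : e * e = e) :
    f e.trace = (finrank K (LinearMap.range (Matrix.toLin' (e.map f))) : K) := by
  rw [← p9_tr]
  · simp [Matrix.trace, map_sum]
  · rw [← Matrix.map_mul, he]

/-- the rank of an idempotent matrix does not depend on the field -/
theorem p9_rank (hι : Function.Injective ι) (e : Matrix (Fin N) (Fin N) ℤ_[2]) (he : e * e = e) :
    e.trace = ((e.map (algebraMap ℤ_[2] ℚ_[2])).rank : ℤ_[2]) ∧
      finrank E (LinearMap.range (p9A ι e)) = (e.map (algebraMap ℤ_[2] ℚ_[2])).rank := by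
  have := p9_char ι hι
  have h1 : e.trace = ((e.map (algebraMap ℤ_[2] ℚ_[2])).rank : ℤ_[2]) := by
    apply IsFractionRing.injective ℤ_[2] ℚ_[2]
    rw [p9_tr2 (algebraMap ℤ_[2] ℚ_[2]) e he, map_natCast]
    rfl
  refine ⟨h1, ?_⟩
  have h2 := p9_tr2 ι e he
  rw [h1, map_natCast] at h2
  exact_mod_cast h2.symm

/-- a subspace that meets a line contains it -/
theorem p9_line {W : Type*} [AddCommGroup W] [Module E W] (A : Module.End E W)
    (hA : finrank E (LinearMap.range A) = 1) (U : Submodule E W) {y : W} (hy : y ∈ U)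
    (hyA : y ∈ LinearMap.range A) (hy0 : y ≠ 0) : LinearMap.range A ≤ U := by
  intro x hx
  obtain ⟨c, hc⟩ := (finrank_eq_one_iff_of_nonzero' (⟨y, hyA⟩ : LinearMap.range A)
    (fun h => hy0 (congrArg Subtype.val h))).1 hA ⟨x, hx⟩
  have : c • y = x := congrArg Subtype.val hc
  rw [← this]
  exact U.smul_mem c hy

end

section

variable {G R : Type*} [Group G] [Fintype R] {m : R → ℕ} {N : ℕ}
  {ρ : G →* Matrix (Fin N) (Fin N) ℤ_[2]} {π : ∀ r, G →* Perm (Fin (m r))} {S : R → Set G}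

variable {E : Type*} [Field E] (ι : ℤ_[2] →+* E)

theorem p9_act (g : G) : act ρ ι g = p9A ι (ρ g) := rfl

theorem p9_inv {s : G} (h3 : ρ s ^ 3 = 1) : ρ s⁻¹ = ρ s ^ 2 := by
  have h1 : ρ s⁻¹ * ρ s = 1 := by rw [← map_mul, inv_mul_cancel, map_one]
  calc ρ s⁻¹ = ρ s⁻¹ * ρ s ^ 3 := by rw [h3, mul_one]
    _ = (ρ s⁻¹ * ρ s) * ρ s ^ 2 := by rw [pow_succ' (ρ s) 2, mul_assoc]
    _ = ρ s ^ 2 := by rw [h1, one_mul]

/-- stability under the generated group -/
theorem p9_stab {T : Set G} (h3 : ∀ s ∈ T, ρ s ^ 3 = 1) {U : Submodule E (Fin N → E)}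
    (hU : ∀ s ∈ T, ∀ u ∈ U, act ρ ι s u ∈ U) {g : G} (hg : g ∈ Subgroup.closure T) :
    ∀ u ∈ U, act ρ ι g u ∈ U := by
  induction hg using Subgroup.closure_induction_right with
  | one => intro u hu; rw [map_one]; exact hu
  | mul_right x hx y hy ih =>
    intro u hu
    rw [map_mul]
    exact ih _ (hU y hy u hu)
  | mul_inv_cancel x hx y hy ih =>
    intro u hu
    rw [map_mul, p9_act ι y⁻¹, p9_inv (h3 y hy), pow_two, p9_mul]
    exact ih _ (hU y hy _ (hU y hy u hu))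

/-- stability under the ideal -/
theorem p9_idl {T : Set G} (h3 : ∀ s ∈ T, ρ s ^ 3 = 1) {U : Submodule E (Fin N → E)}
    (hU : ∀ s ∈ T, ∀ u ∈ U, act ρ ι s u ∈ U) {z : Rg m N}
    (hz : z ∈ idl ρ π (Subgroup.closure T) T) : ∀ u ∈ U, p9A ι z.1 u ∈ U := by
  have h1 := es_idl_span (Subgroup.closure T) T Subgroup.subset_closure z hz
  generalize z.1 = M₀ at h1
  induction h1 using Submodule.span_induction with
  | mem M hM =>
    obtain ⟨x, hx, s, hs, y, hy, rfl⟩ := hM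
    intro u hu
    rw [p9_mul, p9_mul, p9_sub, p9_one]
    have h2 := p9_stab ι h3 hU hy u hu
    have h4 : (p9A ι (ρ s) - 1) (p9A ι (ρ y) u) ∈ U := by
      rw [LinearMap.sub_apply]
      exact U.sub_mem (hU s hs _ h2) h2
    exact p9_stab ι h3 hU hx _ h4
  | zero => intro u _; rw [p9_zero]; exact U.zero_mem
  | add x y _ _ hx hy => intro u hu; rw [p9_add]; exact U.add_mem (hx u hu) (hy u hu)
  | smul a x _ hx => intro u hu; rw [p9_smul]; exact U.smul_mem _ (hx u hu)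

omit [Fintype R] in
theorem p9_mono {H H' : Subgroup G} {T T' : Set G} (hH : H ≤ H') (hT : T ⊆ T') {z : Rg m N}
    (hz : z ∈ idl ρ π H T) : z ∈ idl ρ π H' T' := by
  have h1 : NonUnitalSubring.closure {z | ∃ x ∈ H, ∃ s ∈ T, ∃ y ∈ H,
      z = phi ρ π x * (phi ρ π s - 1) * phi ρ π y} ≤
      NonUnitalSubring.closure {z | ∃ x ∈ H', ∃ s ∈ T', ∃ y ∈ H',
      z = phi ρ π x * (phi ρ π s - 1) * phi ρ π y} := by
    apply NonUnitalSubring.closure_mono
    rintro _ ⟨x, hx, s, hs, y, hy, rfl⟩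
    exact ⟨x, hH hx, s, hT hs, y, hH hy, rfl⟩
  exact closure_mono h1 hz

/-- the operators of `es_eta` over `E` -/
theorem p9_eta [DecidableEq R] (hι : Function.Injective ι) (hR : Res m N ρ π S) (r : R) (s : G)
    (hs : s ∈ S r) (h3 : ρ s ^ 3 = 1) :
    ∃ η : Fin 2 → Rg m N,
      (∀ i, η i ∈ idl ρ π (Subgroup.closure (S r)) (S r) ∧ Good r (η i) ∧
        finrank E (LinearMap.range (p9A ι (η i).1)) = 1) ∧
      ((η 0).1 + (η 1).1) * ((η 0).1 + (η 1).1) = (η 0).1 + (η 1).1 ∧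
      ((η 0).1 + (η 1).1).trace = 2 ∧
      (3 : E) • (p9A ι ((η 0).1 + (η 1).1)) = 2 - act ρ ι s - act ρ ι s ^ 2 := by
  obtain ⟨η, h1, h2, h2', h4⟩ := es_eta hR r s hs h3
  have hid : ∀ i, (η i).1 * (η i).1 = (η i).1 := fun i =>
    congrArg Prod.fst (h1 i).2.1.1
  have h01 : (η 0).1 * (η 1).1 = 0 := congrArg Prod.fst h2
  have h10 : (η 1).1 * (η 0).1 = 0 := congrArg Prod.fst h2'
  refine ⟨η, fun i => ⟨(h1 i).1, (h1 i).2.1, ?_⟩, ?_, ?_, ?_⟩
  · rw [(p9_rank ι hι _ (hid i)).2]; exact (h1 i).2.2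
  · rw [mul_add, add_mul, add_mul, hid, hid, h01, h10]; simp
  · rw [Matrix.trace_add, (p9_rank ι hι _ (hid 0)).1, (p9_rank ι hι _ (hid 1)).1, (h1 0).2.2,
      (h1 1).2.2]
    norm_num
  · have h5 := congrArg (p9A ι) h4
    have h6 : p9A ι (2 : Matrix (Fin N) (Fin N) ℤ_[2]) = 2 := by
      rw [← one_add_one_eq_two, p9_add, p9_one, one_add_one_eq_two]
    rw [p9_smul, p9_sub, p9_sub, pow_two, p9_mul, h6] at h5
    rw [p9_act, pow_two, ← h5]
    congr 1
    rw [map_ofNat]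

/-- the projection to the range of `ρ(s) - 1` -/
theorem p9_proj (hι : Function.Injective ι) {s : G} (h3 : ρ s ^ 3 = 1)
    (P : Module.End E (Fin N → E)) (hP : (3 : E) • P = 2 - act ρ ι s - act ρ ι s ^ 2) :
    LinearMap.range (act ρ ι s - 1) = LinearMap.range P ∧
      act ρ ι s - 1 = (act ρ ι s - 1) * P := by
  have := p9_char ι hι
  have h3' : act ρ ι s ^ 3 = 1 := by rw [← map_pow, p9_act, map_pow, h3, p9_one]
  set σ := act ρ ι s with hσ
  have hP' : ∀ x, (3 : E) • P x = x + x - σ x - σ (σ x) := by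
    intro x
    have h2 : (2 : Module.End E (Fin N → E)) = 1 + 1 := one_add_one_eq_two.symm
    rw [h2] at hP
    have := congrArg (fun f : Module.End E (Fin N → E) => f x) hP
    simpa [pow_two] using this
  have h3'' : ∀ x, σ (σ (σ x)) = x := by
    intro x
    have := congrArg (fun f : Module.End E (Fin N → E) => f x) h3'
    simpa [pow_succ] using this
  have h30 := three_ne_zero' E
  have e1 : ∀ x, σ x - x = P (σ x - x) := by
    intro x
    have h : (3 : E) • (σ x - x) = (3 : E) • (P (σ x - x)) := by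
      rw [hP']
      simp only [map_sub, h3'']
      module
    exact smul_right_injective _ h30 h
  have e2 : ∀ x, σ x - x = σ (P x) - P x := by
    intro x
    have h : (3 : E) • (σ x - x) = (3 : E) • (σ (P x) - P x) := by
      rw [smul_sub _ (σ (P x)), ← map_smul, hP']
      simp only [map_sub, map_add, h3'']
      module
    exact smul_right_injective _ h30 h
  have e3 : ∀ x, P x = σ ((3 : E)⁻¹ • (-(σ x + x + x))) - (3 : E)⁻¹ • (-(σ x + x + x)) := by
    intro x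
    have h : (3 : E) • P x = (3 : E) • (σ ((3 : E)⁻¹ • (-(σ x + x + x))) -
        (3 : E)⁻¹ • (-(σ x + x + x))) := by
      rw [hP', map_smul, ← smul_sub, smul_smul, mul_inv_cancel₀ h30, one_smul]
      simp only [map_add, map_neg]
      module
    exact smul_right_injective _ h30 h
  refine ⟨le_antisymm ?_ ?_, ?_⟩
  · rintro _ ⟨x, rfl⟩
    exact ⟨σ x - x, (e1 x).symm⟩
  · rintro _ ⟨x, rfl⟩
    exact ⟨_, (e3 x).symm⟩
  · exact LinearMap.ext fun x => e2 x

/-- transport along a link -/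
theorem p9_link [DecidableEq R] (hι : Function.Injective ι) (hR : Res m N ρ π S) (r : R)
    (h3 : ∀ s ∈ S r, ρ s ^ 3 = 1) {U : Submodule E (Fin N → E)}
    (hU : ∀ s ∈ S r, ∀ u ∈ U, act ρ ι s u ∈ U) {z z' : Rg m N}
    (hz : z ∈ idl ρ π ⊤ (⋃ r, S r)) (hz' : z' ∈ idl ρ π (Subgroup.closure (S r)) (S r))
    (hg : Good r z) (hg' : Good r z') (h1 : finrank E (LinearMap.range (p9A ι z'.1)) = 1)
    (hle : LinearMap.range (p9A ι z.1) ≤ U) : LinearMap.range (p9A ι z'.1) ≤ U := by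
  have hz'' : z' ∈ idl ρ π ⊤ (⋃ r, S r) := p9_mono le_top (Set.subset_iUnion _ r) hz'
  obtain ⟨u, hu, hne⟩ := es_link hR r z z' hz hz'' hg hg'
  have hne' := p9_inj ι hι hne
  rw [p9_mul, p9_mul] at hne'
  obtain ⟨x, hx⟩ : ∃ x, (p9A ι z'.1 * p9A ι u.1 * p9A ι z.1) x ≠ 0 := by
    by_contra hcon
    push Not at hcon
    exact hne' (LinearMap.ext hcon)
  have hx1 : p9A ι u.1 (p9A ι z.1 x) ∈ U := p9_idl ι h3 hU hu _ (hle ⟨x, rfl⟩)
  have hx2 : p9A ι z'.1 (p9A ι u.1 (p9A ι z.1 x)) ∈ U := p9_idl ι h3 hU hz' _ hx1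
  exact p9_line _ h1 U hx2 ⟨_, rfl⟩ hx

variable (hι : Function.Injective ι)

include hι

theorem es_rank2 (hR : Res m N ρ π S) (r : R) (s : G) (hs : s ∈ S r) (h3 : ρ s ^ 3 = 1) :
    finrank E (LinearMap.range (act ρ ι s - 1)) = 2 := by
  classical
  have := p9_char ι hι
  obtain ⟨η, h1, h2, h4, h5⟩ := p9_eta ι hι hR r s hs h3
  rw [(p9_proj ι hι h3 _ h5).1, (p9_rank ι hι _ h2).2]
  have h6 := (p9_rank ι hι _ h2).1
  rw [h4] at h6
  exact_mod_cast h6.symm

/-- a piece is in a stable subspace if the range of one idempotent is -/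
theorem p9_piece [DecidableEq R] (hR : Res m N ρ π S) (r : R) (h3 : ∀ s ∈ S r, ρ s ^ 3 = 1)
    {U : Submodule E (Fin N → E)}
    (hU : ∀ s ∈ S r, ∀ u ∈ U, act ρ ι s u ∈ U) {z : Rg m N}
    (hz : z ∈ idl ρ π ⊤ (⋃ r, S r)) (hg : Good r z)
    (hle : LinearMap.range (p9A ι z.1) ≤ U) (s : G) (hs : s ∈ S r) :
    LinearMap.range (act ρ ι s - 1) ≤ U := by
  obtain ⟨η, h1, h2, h4, h5⟩ := p9_eta ι hι hR r s hs (h3 s hs)
  rw [(p9_proj ι hι (h3 s hs) _ h5).1, p9_add]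
  rintro _ ⟨x, rfl⟩
  rw [LinearMap.add_apply]
  exact U.add_mem
    (p9_link ι hι hR r h3 hU hz (h1 0).1 hg (h1 0).2.1 (h1 0).2.2 hle ⟨x, rfl⟩)
    (p9_link ι hι hR r h3 hU hz (h1 1).1 hg (h1 1).2.1 (h1 1).2.2 hle ⟨x, rfl⟩)

theorem es_dich (hR : Res m N ρ π S) (r : R) (h3 : ∀ s ∈ S r, ρ s ^ 3 = 1)
    (U : Submodule E (Fin N → E)) (hU : ∀ s ∈ S r, ∀ u ∈ U, act ρ ι s u ∈ U) :
    (∀ s ∈ S r, LinearMap.range (act ρ ι s - 1) ≤ U) ∨ ∀ s ∈ S r, ∀ u ∈ U, act ρ ι s u = u := by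
  classical
  by_cases hex : ∃ z : Rg m N, z ∈ idl ρ π (Subgroup.closure (S r)) (S r) ∧ Good r z ∧
      finrank E (LinearMap.range (p9A ι z.1)) = 1 ∧ ∃ u ∈ U, p9A ι z.1 u ≠ 0
  · left
    obtain ⟨z, hz, hg, h1, u, hu, hne⟩ := hex
    have hle : LinearMap.range (p9A ι z.1) ≤ U :=
      p9_line _ h1 U (p9_idl ι h3 hU hz u hu) ⟨u, rfl⟩ hne
    exact p9_piece ι hι hR r h3 hU (p9_mono le_top (Set.subset_iUnion _ r) hz) hg hle
  · right
    push Not at hex
    intro s hs u hu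
    obtain ⟨η, h1, h2, h4, h5⟩ := p9_eta ι hι hR r s hs (h3 s hs)
    have h6 := (p9_proj ι hι (h3 s hs) _ h5).2
    have h7 : p9A ι ((η 0).1 + (η 1).1) u = 0 := by
      rw [p9_add, LinearMap.add_apply, hex _ (h1 0).1 (h1 0).2.1 (h1 0).2.2 u hu,
        hex _ (h1 1).1 (h1 1).2.1 (h1 1).2.2 u hu, add_zero]
    have h8 : (act ρ ι s - 1) u = 0 := by
      rw [h6, Module.End.mul_apply, h7, map_zero]
    rw [LinearMap.sub_apply, Module.End.one_apply] at h8
    exact sub_eq_zero.1 h8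

theorem es_some (hR : Res m N ρ π S) (h3 : ∀ r, ∀ s ∈ S r, ρ s ^ 3 = 1)
    (U : Submodule E (Fin N → E)) (hU : ∀ r, ∀ s ∈ S r, ∀ u ∈ U, act ρ ι s u ∈ U) (h0 : U ≠ ⊥) :
    ∃ r, ∀ s ∈ S r, LinearMap.range (act ρ ι s - 1) ≤ U := by
  classical
  obtain ⟨ε, h1, h2, h4⟩ := es_sys hR
  have h3' : ∀ s ∈ ⋃ r, S r, ρ s ^ 3 = 1 := by
    intro s hs
    obtain ⟨r, hr⟩ := Set.mem_iUnion.1 hs
    exact h3 r s hr
  have hU' : ∀ s ∈ ⋃ r, S r, ∀ u ∈ U, act ρ ι s u ∈ U := by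
    intro s hs
    obtain ⟨r, hr⟩ := Set.mem_iUnion.1 hs
    exact hU r s hr
  obtain ⟨u, hu, hu0⟩ := U.ne_bot_iff.1 h0
  have h5 : ∑ i, p9A ι (ε i).1 u = u := by
    rw [← LinearMap.sum_apply, ← p9_sum, h4, p9_one]; rfl
  obtain ⟨i, hi⟩ : ∃ i, p9A ι (ε i).1 u ≠ 0 := by
    by_contra hcon
    push Not at hcon
    rw [Finset.sum_eq_zero (fun i _ => hcon i)] at h5
    exact hu0 h5.symm
  have hr1 : finrank E (LinearMap.range (p9A ι (ε i).1)) = 1 := by
    rw [(p9_rank ι hι _ (congrArg Prod.fst (h1 i).2.1.1)).2]; exact (h1 i).2.2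
  have hle : LinearMap.range (p9A ι (ε i).1) ≤ U :=
    p9_line _ hr1 U (p9_idl ι h3' hU' (h1 i).1 u hu) ⟨u, rfl⟩ hi
  exact ⟨i.1, p9_piece ι hι hR i.1 (h3 i.1) (hU i.1)
    (p9_mono le_top le_rfl (h1 i).1) (h1 i).2.1 hle⟩

end

end Pool.Agent.ES
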