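import Pool.Agent.Lib_helper55.ESF.Defs

-- block Q1 of the strong form of EllipticSurfaces, by helper15

/-! ES, block Q1: orthogonal operators of order three. -/

set_option autoImplicit false

namespace Pool.Agent.ES

open Equiv Module Filter Topology

section

variable {F V : Type*} [Field F] [CharZero F] [AddCommGroup V] [Module F V]
  [FiniteDimensional F V]

omit [CharZero F] in
/-- adjoint operators -/
theorem q1_adj (b : LinearMap.BilinForm F V) (hs : ∀ x y, b x y = b y x)
    (hn : ∀ x, (∀ y, b x y = 0) → x = 0) (f g : Module.End F V)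
    (h : ∀ x y, b (f x) y = b x (g y)) :
    LinearMap.trace F V f = LinearMap.trace F V g ∧ LinearMap.det f = LinearMap.det g := by
  classical
  let e := Module.finBasis F V
  set B := LinearMap.BilinForm.toMatrix e b with hB
  set S := LinearMap.toMatrix e e f with hS
  set T := LinearMap.toMatrix e e g with hT
  have h1 : S.transpose * B = B * T := by
    have h2 : b.compLeft f = b.compRight g := by
      ext x y
      exact h x y
    have h3 := LinearMap.BilinForm.toMatrix_compLeft e b f
    have h4 := LinearMap.BilinForm.toMatrix_compRight e b g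
    rw [h2, h4] at h3
    exact h3.symm
  have hnd : b.Nondegenerate := by
    refine ⟨fun x hx => hn x hx, fun x hx => hn x fun y => ?_⟩
    rw [hs]
    exact hx y
  have hdet : B.det ≠ 0 := by
    rw [← Matrix.nondegenerate_iff_det_ne_zero]
    exact (LinearMap.BilinForm.nondegenerate_toMatrix_iff e).2 hnd
  have hu : IsUnit B.det := isUnit_iff_ne_zero.2 hdet
  have h5 : T = B⁻¹ * S.transpose * B := by
    rw [Matrix.mul_assoc, h1, ← Matrix.mul_assoc, Matrix.nonsing_inv_mul _ hu, Matrix.one_mul]
  constructor
  · rw [LinearMap.trace_eq_matrix_trace F e, LinearMap.trace_eq_matrix_trace F e, ← hS, ← hT, h5,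
      Matrix.trace_mul_comm, ← Matrix.mul_assoc, Matrix.mul_nonsing_inv _ hu, Matrix.one_mul,
      Matrix.trace_transpose]
  · rw [← LinearMap.det_toMatrix e f, ← LinearMap.det_toMatrix e g, ← hS, ← hT, h5,
      Matrix.det_mul, Matrix.det_mul, Matrix.det_transpose, mul_comm (B⁻¹.det), mul_assoc,
      ← Matrix.det_mul, Matrix.nonsing_inv_mul _ hu, Matrix.det_one, mul_one]

omit [CharZero F] [FiniteDimensional F V] in
theorem q1_proj {P : Module.End F V} (hP : P * P = P) : LinearMap.IsProj (LinearMap.range P) P := by
  refine ⟨fun x => ⟨x, rfl⟩, ?_⟩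
  rintro _ ⟨x, rfl⟩
  exact congrArg (fun f : Module.End F V => f x) hP

omit [CharZero F] in
/-- the trace of a projection -/
theorem q1_trace {P : Module.End F V} (hP : P * P = P) :
    LinearMap.trace F V P = finrank F (LinearMap.range P) := (q1_proj hP).trace

omit [CharZero F] in
/-- the determinant of the reflection along a projection -/
theorem q1_refl {P : Module.End F V} (hP : P * P = P) :
    LinearMap.det (1 - (2 : F) • P) = (-1) ^ finrank F (LinearMap.range P) := by
  set p := LinearMap.range P with hp
  have h := q1_proj hP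
  rw [← hp] at h
  set e := p.prodEquivOfIsCompl (LinearMap.ker P) h.isCompl with he
  have h1 : (1 : Module.End F V) - (2 : F) • P =
      e.conj (LinearMap.prodMap (((-1 : F)) • LinearMap.id) LinearMap.id) := by
    have h2 := h.eq_conj_prodMap
    rw [← he] at h2
    have h3 : (1 : Module.End F V) = e.conj (LinearMap.prodMap LinearMap.id LinearMap.id) := by
      rw [LinearMap.prodMap_id]
      exact (LinearEquiv.conj_id e).symm
    conv_lhs => rw [h2, h3]
    rw [← map_smul, ← map_sub]
    congr 1
    ext x <;> simp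
    · module
  rw [h1, LinearEquiv.conj_apply]
  have h4 := LinearMap.det_conj (LinearMap.prodMap (((-1 : F)) • (LinearMap.id : p →ₗ[F] p))
    (LinearMap.id : LinearMap.ker P →ₗ[F] LinearMap.ker P)) e
  rw [← LinearMap.comp_assoc] at h4
  rw [h4, LinearMap.det_prodMap, LinearMap.det_smul, LinearMap.det_id, LinearMap.det_id]
  ring

/-- ES13c: the rank of an involution of determinant `1` is even. -/
theorem es_even (u : Module.End F V) (hu : u ^ 2 = 1) (hd : LinearMap.det u = 1) :
    Even (finrank F (LinearMap.range (u - 1))) ∧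
      LinearMap.trace F V u = finrank F V - 2 * finrank F (LinearMap.range (u - 1)) := by
  have h2 : (2 : F) ≠ 0 := two_ne_zero
  set P : Module.End F V := (2 : F)⁻¹ • (1 - u) with hP
  have hux : ∀ x, u (u x) = x := by
    intro x
    have := congrArg (fun f : Module.End F V => f x) hu
    simpa [sq] using this
  have hPx : ∀ x, P x = (2 : F)⁻¹ • (x - u x) := fun x => rfl
  have hPP : P * P = P := by
    refine LinearMap.ext fun x => ?_
    rw [Module.End.mul_apply]
    simp only [hPx, map_smul, map_sub, hux]
    module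
  have hr : LinearMap.range P = LinearMap.range (u - 1) := by
    rw [hP, LinearMap.range_smul _ _ (inv_ne_zero h2), ← neg_sub u 1, LinearMap.range_neg]
  have h1 : u = 1 - (2 : F) • P := by
    rw [hP, smul_smul, mul_inv_cancel₀ h2, one_smul]
    abel
  have ht := q1_trace hPP
  have hdet := q1_refl hPP
  rw [← h1, hd, hr] at hdet
  rw [hr] at ht
  constructor
  · by_contra hodd
    rw [Nat.not_even_iff_odd] at hodd
    rw [hodd.neg_one_pow] at hdet
    have : (2 : F) = 0 := by linear_combination hdet
    exact h2 this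
  · conv_lhs => rw [h1]
    rw [map_sub, map_smul, ht, LinearMap.trace_one, smul_eq_mul]

end

section

variable {F V : Type*} [Field F] [CharZero F] [AddCommGroup V] [Module F V]
  [FiniteDimensional F V] (b : LinearMap.BilinForm F V) (hs : ∀ x y, b x y = b y x)
  (hn : ∀ x, (∀ y, b x y = 0) → x = 0)

include hs hn

/-- ES13a: the determinant of an orthogonal operator of order three is `1`. -/
theorem es_det (s : Module.End F V) (hbs : ∀ x y, b (s x) (s y) = b x y) (h : s ^ 3 = 1) :
    LinearMap.det s = 1 := by
  have h1 : ∀ x y, b (s x) y = b x ((s ^ 2) y) := by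
    intro x y
    have h2 : y = s ((s ^ 2) y) := by
      have : s * s ^ 2 = 1 := by rw [← pow_succ', h]
      exact (congrArg (fun f : Module.End F V => f y) this).symm
    conv_lhs => rw [h2]
    exact hbs _ _
  obtain ⟨-, h3⟩ := q1_adj b hs hn s (s ^ 2) h1
  have h4 : LinearMap.det s ^ 3 = 1 := by rw [← map_pow, h, map_one]
  rw [map_pow] at h3
  have h5 : LinearMap.det s ≠ 0 := by
    intro h0
    rw [h0] at h4
    norm_num at h4
  have h6 : LinearMap.det s * LinearMap.det s = 1 * LinearMap.det s := by
    rw [← sq, ← h3, one_mul]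
  exact mul_right_cancel₀ h5 h6

/-- the trace of an orthogonal operator of order three -/
theorem q1_tr (s : Module.End F V) (hbs : ∀ x y, b (s x) (s y) = b x y) (h : s ^ 3 = 1) :
    LinearMap.trace F V s = finrank F V - (3 / 2 : F) * finrank F (LinearMap.range (s - 1)) ∧
    LinearMap.trace F V (s ^ 2) = LinearMap.trace F V s := by
  have h3 : (3 : F) ≠ 0 := three_ne_zero
  have h1 : ∀ x y, b (s x) y = b x ((s ^ 2) y) := by
    intro x y
    have h2 : y = s ((s ^ 2) y) := by
      have : s * s ^ 2 = 1 := by rw [← pow_succ', h]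
      exact (congrArg (fun f : Module.End F V => f y) this).symm
    conv_lhs => rw [h2]
    exact hbs _ _
  obtain ⟨htr, -⟩ := q1_adj b hs hn s (s ^ 2) h1
  refine ⟨?_, htr.symm⟩
  -- the projection to the moved part
  set P : Module.End F V := (3 : F)⁻¹ • ((2 : F) • 1 - s - s ^ 2) with hP
  have hsx : ∀ x, s (s (s x)) = x := by
    intro x
    have := congrArg (fun f : Module.End F V => f x) h
    simpa [pow_succ] using this
  have hPx : ∀ x, P x = (3 : F)⁻¹ • ((2 : F) • x - s x - s (s x)) := fun x => rfl
  have hPP : P * P = P := by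
    refine LinearMap.ext fun x => ?_
    rw [Module.End.mul_apply]
    simp only [hPx, map_smul, map_sub, hsx]
    module
  have hr : LinearMap.range P = LinearMap.range (s - 1) := by
    apply le_antisymm
    · rintro _ ⟨x, rfl⟩
      refine ⟨-((3 : F)⁻¹ • (s x + (2 : F) • x)), ?_⟩
      rw [hPx, LinearMap.sub_apply, Module.End.one_apply]
      simp only [map_smul, map_add, map_neg]
      module
    · rintro _ ⟨x, rfl⟩
      refine ⟨(s - 1) x, ?_⟩
      rw [hPx, LinearMap.sub_apply, Module.End.one_apply]
      simp only [map_sub, hsx]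
      module
  have ht := q1_trace hPP
  rw [hr, hP, map_smul, map_sub, map_sub, ← htr] at ht
  rw [map_smul, LinearMap.trace_one, smul_eq_mul, smul_eq_mul, inv_mul_eq_iff_eq_mul₀ h3] at ht
  have h2 : (2 : F) ≠ 0 := two_ne_zero
  field_simp
  linear_combination -ht

/-- ES13b: two orthogonal operators of order three and rank two whose product is an involution. -/
theorem es_z (s t : Module.End F V) (hbs : ∀ x y, b (s x) (s y) = b x y)
    (hbt : ∀ x y, b (t x) (t y) = b x y) (h3s : s ^ 3 = 1) (h3t : t ^ 3 = 1)
    (hrs : finrank F (LinearMap.range (s - 1)) = 2)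
    (hrt : finrank F (LinearMap.range (t - 1)) = 2) (hst : (s * t) ^ 2 = 1) :
    LinearMap.range (s - 1) ⊓ LinearMap.range (t - 1) ≠ ⊥ := by
  intro hbot
  obtain ⟨ts, ts2⟩ := q1_tr b hs hn s hbs h3s
  obtain ⟨tt, -⟩ := q1_tr b hs hn t hbt h3t
  rw [hrs] at ts
  rw [hrt] at tt
  have hsx : ∀ x, s (s (s x)) = x := by
    intro x
    have := congrArg (fun f : Module.End F V => f x) h3s
    simpa [pow_succ] using this
  have htx : ∀ x, t (t (t x)) = x := by
    intro x
    have := congrArg (fun f : Module.End F V => f x) h3t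
    simpa [pow_succ] using this
  have hstx : ∀ x, s (t (s (t x))) = x := by
    intro x
    have := congrArg (fun f : Module.End F V => f x) hst
    simpa [pow_succ] using this
  -- `s t s = t⁻¹`
  have hsts : ∀ x, s (t (s x)) = t (t x) := by
    intro x
    have := hstx (t (t x))
    rwa [htx] at this
  set M := LinearMap.range (s - 1) with hM
  set N := LinearMap.range (t - 1) with hN
  have hMs : ∀ x ∈ M, s x ∈ M := by
    rintro _ ⟨x, rfl⟩
    refine ⟨s x, ?_⟩
    simp [LinearMap.sub_apply]
  have hM1 : ∀ x, s x - x ∈ M := fun x => ⟨x, rfl⟩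
  have hN1 : ∀ x, t x - x ∈ N := fun x => ⟨x, rfl⟩
  -- the key relation on `M`
  have key : ∀ v ∈ M, s (t (s v) - s v) - (t (s v) - s v) = v - s (s v) ∧
      t (s v) - s v = t (t v) - v := by
    intro v hv
    have e1 : s (s v) - v + (s (t (s v) - s v) - (t (s v) - s v)) =
        (t (t v) - v) - (t (s v) - s v) := by
      rw [map_sub, hsts]
      abel
    have m1 : s (s v) - v + (s (t (s v) - s v) - (t (s v) - s v)) ∈ M :=
      M.add_mem (M.sub_mem (hMs _ (hMs _ hv)) hv) (hM1 _)
    have m2 : (t (t v) - v) - (t (s v) - s v) ∈ N := by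
      refine N.sub_mem ?_ (hN1 _)
      have : t (t v) - v = (t (t v) - t v) + (t v - v) := by abel
      rw [this]
      exact N.add_mem (hN1 _) (hN1 _)
    have m3 : s (s v) - v + (s (t (s v) - s v) - (t (s v) - s v)) ∈ M ⊓ N :=
      ⟨m1, by rw [e1]; exact m2⟩
    rw [hbot, Submodule.mem_bot] at m3
    rw [m3] at e1
    constructor
    · have := eq_neg_of_add_eq_zero_right m3
      rw [this]
      abel
    · exact (sub_eq_zero.1 e1.symm).symm
  -- the trace of `(s - 1)(t - 1)`
  have htr : LinearMap.trace F V ((s - 1) * (t - 1)) = 0 := by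
    have r1 : ∀ x, ((s - 1) * (t - 1)) x ∈ M := fun x => ⟨(t - 1) x, rfl⟩
    have r2 : ∀ x, (s ^ 2 - s) x ∈ M := by
      intro x
      refine ⟨s x, ?_⟩
      simp [pow_two, LinearMap.sub_apply]
    have c1 := LinearMap.trace_restrict_eq_of_forall_mem M ((s - 1) * (t - 1)) r1
    have c2 := LinearMap.trace_restrict_eq_of_forall_mem M (s ^ 2 - s) r2
    have c3 : LinearMap.restrict ((s - 1) * (t - 1)) (fun x (_ : x ∈ M) => r1 x) =
        LinearMap.restrict (s ^ 2 - s) (fun x (_ : x ∈ M) => r2 x) := by
      refine LinearMap.ext fun v => Subtype.ext ?_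
      simp only [LinearMap.coe_restrict_apply]
      -- `v = s v'`, `v' = s² v`
      have hv' : s (s (v : V)) ∈ M := hMs _ (hMs _ v.2)
      obtain ⟨k1, k2⟩ := key _ hv'
      rw [hsx] at k1 k2
      show (s - 1) ((t - 1) (v : V)) = (s ^ 2 - s) (v : V)
      simp only [LinearMap.sub_apply, Module.End.one_apply, pow_two, Module.End.mul_apply]
      rw [k1]
    rw [← c1, c3, c2, map_sub, ts2, sub_self]
  have hexp : LinearMap.trace F V (s * t) = finrank F V - 6 := by
    have e1 : s * t = (s - 1) * (t - 1) + s + t - 1 := by noncomm_ring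
    rw [e1, map_sub, map_add, map_add, htr, ts, tt, LinearMap.trace_one]
    push_cast
    ring
  have hdet : LinearMap.det (s * t) = 1 := by
    rw [map_mul, es_det b hs hn s hbs h3s, es_det b hs hn t hbt h3t, one_mul]
  obtain ⟨g1, g2⟩ := es_even (s * t) hst hdet
  rw [hexp] at g2
  have g3 : ((finrank F (LinearMap.range (s * t - 1)) : ℕ) : F) = ((3 : ℕ) : F) := by
    have h2 : (2 : F) ≠ 0 := two_ne_zero
    have : (2 : F) * (finrank F (LinearMap.range (s * t - 1)) : ℕ) = 2 * ((3 : ℕ) : F) := by
      push_cast
      linear_combination g2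
    exact mul_left_cancel₀ h2 this
  have g4 := Nat.cast_injective g3
  rw [g4] at g1
  exact absurd g1 (by decide)

end

end Pool.Agent.ES
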