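import Pool.Agent.Lib_helper55.ESF.Q1

-- block Q5 of the strong form of EllipticSurfaces, by helper26

/-!
# ES, block Q5: planes over three-cycles
-/

set_option autoImplicit false

namespace Pool.Agent.ES

open Equiv Module Filter Topology

section

variable {F V : Type*} [Field F] [CharZero F] [AddCommGroup V] [Module F V]

omit [CharZero F] in
theorem q5_cube {s : Module.End F V} (h : s ^ 3 = 1) (v : V) : s (s (s v)) = v := by
  have h1 := LinearMap.congr_fun h v
  simpa [pow_succ] using h1

omit [CharZero F] in
theorem q5_quad {s : Module.End F V} (h : s ^ 3 = 1) {v : V} (hv : v ∈ LinearMap.range (s - 1)) :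
    s (s v) + s v + v = 0 := by
  obtain ⟨w, rfl⟩ := hv
  have h1 := q5_cube h w
  simp only [LinearMap.sub_apply, Module.End.one_apply, map_sub]
  rw [h1]
  abel

omit [CharZero F] in
theorem q5_stab (s : Module.End F V) {v : V} (hv : v ∈ LinearMap.range (s - 1)) :
    s v ∈ LinearMap.range (s - 1) := by
  obtain ⟨w, rfl⟩ := hv
  refine ⟨s w, ?_⟩
  simp

omit [CharZero F] in
theorem q5_mem (s : Module.End F V) (v : V) : s v - v ∈ LinearMap.range (s - 1) := ⟨v, by simp⟩

theorem q5_split {s : Module.End F V} (h : s ^ 3 = 1) (v : V) (hv : s (s v) + s v + v = 0) :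
    v ∈ LinearMap.range (s - 1) := by
  refine ⟨(-(1 / 3) : F) • (s v + (2 : F) • v), ?_⟩
  have h3 : (3 : F) ≠ 0 := by norm_num
  simp only [LinearMap.sub_apply, Module.End.one_apply, map_smul, map_add]
  have e : s (s v) = -(s v) - v := by
    rw [eq_sub_iff_add_eq, eq_neg_iff_add_eq_zero]
    rw [← hv]
    abel
  rw [e]
  have e2 : ∀ a c : V, (-(1 / 3) : F) • (-a - c - a + (2 : F) • (a - c)) = c := by
    intro a c
    module
  exact e2 _ _

omit [CharZero F] in
theorem q5_fix_orth {b : LinearMap.BilinForm F V} {s : Module.End F V}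
    (hb : ∀ x y, b (s x) (s y) = b x y) {x v : V} (hx : x ∈ LinearMap.range (s - 1))
    (hv : s v = v) : b x v = 0 := by
  obtain ⟨w, rfl⟩ := hx
  have h1 := hb w v
  rw [hv] at h1
  simp [h1]

end

section

variable {F V : Type*} [Field F] [CharZero F] [AddCommGroup V] [Module F V]
  [FiniteDimensional F V] {m : ℕ} {b : LinearMap.BilinForm F V}
  {τ : Perm (Fin m) → Module.End F V}

omit [FiniteDimensional F V] in
theorem q5_c3 {a x y : Fin m} (h1 : a ≠ x) (h2 : a ≠ y) (h3 : x ≠ y) :
    (c3 a x y).IsThreeCycle := by
  unfold c3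
  exact Perm.isThreeCycle_swap_mul_swap_same h2 h1 h3.symm

/-- ES17: two planes over `3`-cycles with two common points meet in a line. -/
theorem es_line (C : Car b τ) {a b' x y : Fin m} (hab : a ≠ b') (hax : a ≠ x) (hay : a ≠ y)
    (hbx : b' ≠ x) (hby : b' ≠ y) (hxy : x ≠ y) :
    finrank F (LinearMap.range (τ (c3 a b' x) - 1) ⊓ LinearMap.range (τ (c3 a b' y) - 1) :
      Submodule F V) = 1 := by
  have hc : (c3 a b' x).IsThreeCycle := q5_c3 hab hax hbx
  have hd : (c3 a b' y).IsThreeCycle := q5_c3 hab hay hby
  have hos := C.orth _ hc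
  have hot := C.orth _ hd
  have h3s := C.cube _ hc
  have h3t := C.cube _ hd
  have hrs := C.rank _ hc
  have hrt := C.rank _ hd
  have hsq := C.sq a b' x y hab hax hay hbx hby hxy
  have hne := C.ne a b' x y hab hax hay hbx hby hxy
  generalize τ (c3 a b' x) = s at *
  generalize τ (c3 a b' y) = t at *
  have hz := es_z b C.symm C.nondeg s t hos hot h3s h3t hrs hrt hsq
  have h1 : 1 ≤ finrank F (LinearMap.range (s - 1) ⊓ LinearMap.range (t - 1) : Submodule F V) :=
    Submodule.one_le_finrank_iff.2 hz
  have h2 : finrank F (LinearMap.range (s - 1) ⊓ LinearMap.range (t - 1) : Submodule F V) ≤ 2 := by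
    rw [← hrs]
    exact Submodule.finrank_mono inf_le_left
  rcases Nat.lt_or_ge 1
    (finrank F (LinearMap.range (s - 1) ⊓ LinearMap.range (t - 1) : Submodule F V)) with h4 | h4
  swap
  · omega
  exfalso
  have h5 : finrank F (LinearMap.range (s - 1) ⊓ LinearMap.range (t - 1) : Submodule F V) = 2 := by
    omega
  have e1 : (LinearMap.range (s - 1) ⊓ LinearMap.range (t - 1) : Submodule F V) =
      LinearMap.range (s - 1) :=
    Submodule.eq_of_le_of_finrank_eq inf_le_left (by rw [h5, hrs])
  have e2 : (LinearMap.range (s - 1) ⊓ LinearMap.range (t - 1) : Submodule F V) =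
      LinearMap.range (t - 1) :=
    Submodule.eq_of_le_of_finrank_eq inf_le_right (by rw [h5, hrt])
  have hM : LinearMap.range (s - 1) = LinearMap.range (t - 1) := e1.symm.trans e2
  have hdet : LinearMap.det (s * t) = 1 := by
    rw [map_mul, es_det b C.symm C.nondeg s hos h3s, es_det b C.symm C.nondeg t hot h3t, one_mul]
  obtain ⟨hev, -⟩ := es_even (s * t) hsq hdet
  have hle : LinearMap.range (s * t - 1) ≤ LinearMap.range (s - 1) := by
    rintro _ ⟨v, rfl⟩
    have h6 : (s * t - 1 : Module.End F V) v = s (t v - v) + (s v - v) := by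
      simp
    rw [h6]
    apply Submodule.add_mem
    · apply q5_stab
      rw [hM]
      exact q5_mem t v
    · exact q5_mem s v
  have hk : finrank F (LinearMap.range (s * t - 1)) ≤ 2 := by
    rw [← hrs]
    exact Submodule.finrank_mono hle
  have hk2 : finrank F (LinearMap.range (s * t - 1)) = 0 ∨
      finrank F (LinearMap.range (s * t - 1)) = 2 := by
    obtain ⟨j, hj⟩ := hev
    omega
  rcases hk2 with hk0 | hk2
  · have h7 : LinearMap.range (s * t - 1) = ⊥ := Submodule.finrank_eq_zero.1 hk0
    rw [LinearMap.range_eq_bot, sub_eq_zero] at h7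
    exact hne h7
  · have h7 : LinearMap.range (s * t - 1) = LinearMap.range (s - 1) :=
      Submodule.eq_of_le_of_finrank_eq hle (by rw [hk2, hrs])
    have hneg : ∀ v ∈ LinearMap.range (s - 1), s (t v) = -v := by
      intro v hv
      rw [← h7] at hv
      obtain ⟨w, rfl⟩ := hv
      have h8 := LinearMap.congr_fun hsq w
      have h9 : s (t (s (t w))) = w := by simpa [pow_succ] using h8
      simp only [LinearMap.sub_apply, Module.End.mul_apply, Module.End.one_apply, map_sub, h9]
      abel
    have ht : ∀ v ∈ LinearMap.range (s - 1), t v = -s (s v) := by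
      intro v hv
      have h8 := congrArg (fun z => s (s z)) (hneg v hv)
      simp only [map_neg] at h8
      rw [q5_cube h3s] at h8
      exact h8
    obtain ⟨v, hv, hv0⟩ : ∃ v ∈ LinearMap.range (s - 1), v ≠ 0 := by
      apply Submodule.exists_mem_ne_zero_of_ne_bot
      intro h8
      rw [h8, finrank_bot] at hrs
      exact absurd hrs (by norm_num)
    have h9 : t v ∈ LinearMap.range (s - 1) := by
      rw [ht v hv]
      exact Submodule.neg_mem _ (q5_stab s (q5_stab s hv))
    have h10 : t (t v) = s v := by
      rw [ht _ h9, ht v hv]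
      simp only [map_neg, neg_neg]
      rw [q5_cube h3s]
    have h11 : t (t (t v)) = -v := by
      rw [h10, ht _ (q5_stab s hv), q5_cube h3s]
    rw [q5_cube h3t] at h11
    have h12 : (2 : F) • v = 0 := by
      rw [two_smul]
      nth_rewrite 2 [h11]
      exact add_neg_cancel v
    rcases smul_eq_zero.1 h12 with h13 | h13
    · exact absurd h13 (by norm_num)
    · exact hv0 h13

omit [CharZero F] [FiniteDimensional F V] in
theorem q5_comm (C : Car b τ) {c d : Perm (Fin m)} (hc : c.IsThreeCycle) (hd : d.IsThreeCycle)
    (hcd : c.Disjoint d) : τ c * τ d = τ d * τ c := by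
  have h := C.conj c d hc hd
  rw [hcd.commute.eq, mul_inv_cancel_right] at h
  exact h

omit [FiniteDimensional F V] in
theorem q5_conj (g : Perm (Fin m)) (a x y : Fin m) :
    g * c3 a x y * g⁻¹ = c3 (g a) (g x) (g y) := by
  unfold c3
  rw [Equiv.swap_apply_apply, Equiv.swap_apply_apply]
  group

/-- a three-cycle in terms of its points -/
theorem q5_form {d : Perm (Fin m)} (hd : d.IsThreeCycle) :
    ∃ u v w : Fin m, u ≠ v ∧ u ≠ w ∧ v ≠ w ∧ u ∈ d.support ∧ v ∈ d.support ∧ w ∈ d.support ∧
      d = c3 u v w := by
  obtain ⟨u, hu⟩ : ∃ u, u ∈ d.support := by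
    have h1 := hd.card_support
    have h2 : d.support.Nonempty := by
      rw [← Finset.card_pos, h1]
      norm_num
    exact h2
  have hn := hd.nodup_iff_mem_support.2 hu
  have he := hd.eq_swap_mul_swap_iff_mem_support.2 hu
  have hv : d u ∈ d.support := Perm.apply_mem_support.2 hu
  have hw : d (d u) ∈ d.support := Perm.apply_mem_support.2 hv
  simp only [List.nodup_cons, List.mem_cons, List.not_mem_nil, or_false, not_or,
    not_false_eq_true, List.nodup_nil, and_true] at hn
  obtain ⟨⟨h1, h2⟩, h3⟩ := hn
  refine ⟨u, d u, d (d u), h1, h2, h3, hu, hv, hw, ?_⟩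
  refine he.trans ?_
  unfold c3
  generalize d (d u) = w at *
  generalize d u = v at *
  ext z
  simp only [Perm.coe_mul, Function.comp_apply, Equiv.swap_apply_def]
  split_ifs <;> simp_all

/-- ES18: the planes over disjoint `3`-cycles are orthogonal. -/
theorem es_disj (hF : ∀ x : F, x ^ 2 + x + 1 ≠ 0) (hm : 8 ≤ m) (C : Car b τ)
    {c d : Perm (Fin m)} (hc : c.IsThreeCycle) (hd : d.IsThreeCycle) (hcd : c.Disjoint d)
    {x y : V} (hx : x ∈ LinearMap.range (τ c - 1)) (hy : y ∈ LinearMap.range (τ d - 1)) :
    b x y = 0 := by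
  have hcomm := q5_comm C hc hd hcd
  have h3c := C.cube _ hc
  have h3d := C.cube _ hd
  by_cases hK : ∀ v ∈ LinearMap.range (τ d - 1), τ c v = v → v = 0
  · -- the planes agree
    exfalso
    have hle : LinearMap.range (τ d - 1) ≤ LinearMap.range (τ c - 1) := by
      intro v hv
      apply q5_split h3c
      have hst : ∀ z ∈ LinearMap.range (τ d - 1), τ c z ∈ LinearMap.range (τ d - 1) := by
        rintro _ ⟨w, rfl⟩
        refine ⟨τ c w, ?_⟩
        have h1 := LinearMap.congr_fun hcomm w
        simp only [Module.End.mul_apply] at h1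
        simp [h1]
      apply hK
      · exact Submodule.add_mem _ (Submodule.add_mem _ (hst _ (hst _ hv)) (hst _ hv)) hv
      · simp only [map_add]
        rw [q5_cube h3c]
        abel
    have heq : LinearMap.range (τ d - 1) = LinearMap.range (τ c - 1) :=
      Submodule.eq_of_le_of_finrank_eq hle (by rw [C.rank _ hc, C.rank _ hd])
    obtain ⟨u, v, w, huv, huw, hvw, hu, hv, hw, hduvw⟩ := q5_form hd
    have hS : (c.support ∪ d.support).card ≤ 6 := by
      refine (Finset.card_union_le _ _).trans ?_
      rw [hc.card_support, hd.card_support]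
    obtain ⟨p, hp⟩ : ∃ p, p ∉ c.support ∪ d.support := by
      by_contra hcon
      push Not at hcon
      have h1 : (Finset.univ : Finset (Fin m)) ⊆ c.support ∪ d.support := fun z _ => hcon z
      have h2 := Finset.card_le_card h1
      rw [Finset.card_univ, Fintype.card_fin] at h2
      omega
    obtain ⟨q, hq⟩ : ∃ q, q ∉ insert p (c.support ∪ d.support) := by
      by_contra hcon
      push Not at hcon
      have h1 : (Finset.univ : Finset (Fin m)) ⊆ insert p (c.support ∪ d.support) :=
        fun z _ => hcon z
      have h2 := Finset.card_le_card h1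
      have h3 := Finset.card_insert_le p (c.support ∪ d.support)
      rw [Finset.card_univ, Fintype.card_fin] at h2
      omega
    rw [Finset.mem_insert, not_or] at hq
    obtain ⟨hqp, hq⟩ := hq
    rw [Finset.mem_union, not_or] at hp hq
    have hwc : w ∉ c.support := by
      intro h
      exact (Finset.disjoint_left.1 hcd.disjoint_support) h hw
    have hpu : u ≠ p := fun h => hp.2 (h ▸ hu)
    have hpv : v ≠ p := fun h => hp.2 (h ▸ hv)
    have hpw : w ≠ p := fun h => hp.2 (h ▸ hw)
    have hqu : u ≠ q := fun h => hq.2 (h ▸ hu)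
    have hqv : v ≠ q := fun h => hq.2 (h ▸ hv)
    have hqw : w ≠ q := fun h => hq.2 (h ▸ hw)
    have he3 : (c3 w p q).IsThreeCycle := q5_c3 hpw hqw (Ne.symm hqp)
    have hesup : ∀ z, z ≠ w → z ≠ p → z ≠ q → c3 w p q z = z := by
      intro z h1 h2 h3
      unfold c3
      rw [Perm.mul_apply, Equiv.swap_apply_of_ne_of_ne h1 h2, Equiv.swap_apply_of_ne_of_ne h1 h3]
    have hcz : ∀ z, z ∉ c.support → c z = z := fun z hz => Perm.notMem_support.1 hz
    have hdisj : c.Disjoint (c3 w p q) := by
      intro z
      by_cases hz : z ∈ c.support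
      · right
        apply hesup
        · rintro rfl
          exact hwc hz
        · rintro rfl
          exact hp.1 hz
        · rintro rfl
          exact hq.1 hz
      · left
        exact hcz z hz
    have hce := q5_comm C hc he3 hdisj
    have hew : c3 w p q w = p := by
      unfold c3
      rw [Perm.mul_apply, Equiv.swap_apply_left, Equiv.swap_apply_of_ne_of_ne hpw.symm
        (Ne.symm hqp)]
    have heu : c3 w p q u = u := hesup u huw hpu hqu
    have hev : c3 w p q v = v := hesup v hvw hpv hqv
    have hcj := C.conj (c3 w p q) d he3 hd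
    rw [hduvw, q5_conj, heu, hev, hew, ← hduvw] at hcj
    -- the plane of `c3 u v p`
    have h3e := C.cube _ he3
    have hM : LinearMap.range (τ (c3 u v p) - 1) = LinearMap.range (τ d - 1) := by
      symm
      apply Submodule.eq_of_le_of_finrank_eq
      · intro z hz
        -- `z = τ e (τ e)² z`
        have hst : ∀ z ∈ LinearMap.range (τ c - 1),
            τ (c3 w p q) z ∈ LinearMap.range (τ c - 1) := by
          rintro _ ⟨y', rfl⟩
          refine ⟨τ (c3 w p q) y', ?_⟩
          have h1 := LinearMap.congr_fun hce y'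
          simp only [Module.End.mul_apply] at h1
          simp [h1]
        rw [heq] at hz
        have h1 := hst _ (hst _ hz)
        rw [← heq] at h1
        obtain ⟨z', hz'⟩ := h1
        refine ⟨τ (c3 w p q) z', ?_⟩
        have h2 := LinearMap.congr_fun hcj z'
        simp only [Module.End.mul_apply] at h2
        have h4 := congrArg (τ (c3 w p q)) hz'
        rw [q5_cube h3e] at h4
        simp only [LinearMap.sub_apply, Module.End.one_apply, map_sub] at h4 ⊢
        rw [← h2]
        exact h4
      · rw [C.rank _ hd, C.rank _ (q5_c3 huv hpu hpv)]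
    have hline := es_line C huv huw hpu hvw hpv hpw
    rw [← hduvw, hM, inf_idem, C.rank _ hd] at hline
    exact absurd hline (by norm_num)
  · push Not at hK
    obtain ⟨k, hk, hck, hk0⟩ := hK
    -- `k` and `τ d k` span the plane of `d`
    have hdk : τ d k ∈ LinearMap.range (τ d - 1) := q5_stab _ hk
    have hcdk : τ c (τ d k) = τ d k := by
      have h1 := LinearMap.congr_fun hcomm k
      simp only [Module.End.mul_apply] at h1
      rw [h1, hck]
    have hli : LinearIndependent F ![k, τ d k] := by
      rw [LinearIndependent.pair_iff' hk0]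
      intro a ha
      have h1 := q5_quad h3d hk
      rw [← ha, map_smul, ← ha, smul_smul] at h1
      have h2 : (a ^ 2 + a + 1) • k = 0 := by
        rw [← h1]
        module
      rcases smul_eq_zero.1 h2 with h3 | h3
      · exact hF a h3
      · exact hk0 h3
    have hspan : Submodule.span F (Set.range ![k, τ d k]) = LinearMap.range (τ d - 1) := by
      apply Submodule.eq_of_le_of_finrank_eq
      · rw [Submodule.span_le]
        rintro _ ⟨i, rfl⟩
        fin_cases i
        · exact hk
        · exact hdk
      · rw [finrank_span_eq_card hli, C.rank _ hd, Fintype.card_fin]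
    rw [← hspan] at hy
    have hfix : ∀ z ∈ Submodule.span F (Set.range ![k, τ d k]), τ c z = z := by
      intro z hz
      induction hz using Submodule.span_induction with
      | mem z hz =>
        obtain ⟨i, rfl⟩ := hz
        fin_cases i
        · exact hck
        · exact hcdk
      | zero => exact map_zero _
      | add x y _ _ hx hy => rw [map_add, hx, hy]
      | smul a x _ hx => rw [map_smul, hx]
    exact q5_fix_orth (C.orth _ hc) hx (hfix y hy)

end

end Pool.Agent.ES
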