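import Pool.Agent.Lib_helper55.ESF.Q5

-- block Q6 of the strong form of EllipticSurfaces, by helper38

/-!
# ES, block Q6: the lines of ES17 agree
-/

set_option autoImplicit false

namespace Pool.Agent.ES

open Equiv Module Filter Topology

section

variable {F V : Type*} [Field F] [CharZero F] [AddCommGroup V] [Module F V]
  [FiniteDimensional F V] {m : ℕ} {b : LinearMap.BilinForm F V}
  {τ : Perm (Fin m) → Module.End F V}

omit [CharZero F] [FiniteDimensional F V] in
/-- the orthogonal complement of the plane consists of fixed vectors -/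
theorem q6_fix (hn : ∀ x, (∀ y, b x y = 0) → x = 0)
    {s : Module.End F V} (ho : ∀ x y, b (s x) (s y) = b x y) (hs : s ^ 3 = 1) {x : V}
    (hx : ∀ y ∈ LinearMap.range (s - 1), b x y = 0) : s x = x := by
  have h1 : ∀ y, b (s x) (s y) = b x (s y) := by
    intro y
    have h2 := hx ((s - 1) y) (LinearMap.mem_range_self _ y)
    rw [LinearMap.sub_apply, map_sub, Module.End.one_apply, sub_eq_zero] at h2
    rw [ho, h2]
  have h3 : ∀ z, b (s x - x) z = 0 := by
    intro z
    have e : z = s ((s ^ 2) z) := by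
      have : (s ^ 3) z = s ((s ^ 2) z) := by rw [pow_succ' s 2]; rfl
      rw [← this, hs]
      rfl
    rw [e, map_sub, LinearMap.sub_apply, h1, sub_self]
  exact sub_eq_zero.1 (hn _ h3)

omit [CharZero F] [FiniteDimensional F V] in
/-- operators with orthogonal planes commute -/
theorem q6_comm (hb : ∀ x y, b x y = b y x) (hn : ∀ x, (∀ y, b x y = 0) → x = 0)
    {s t : Module.End F V} (hos : ∀ x y, b (s x) (s y) = b x y)
    (hot : ∀ x y, b (t x) (t y) = b x y) (hs : s ^ 3 = 1) (ht : t ^ 3 = 1)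
    (hst : ∀ x ∈ LinearMap.range (s - 1), ∀ y ∈ LinearMap.range (t - 1), b x y = 0) :
    s * t = t * s := by
  have h1 : ∀ v, s ((t - 1) v) = (t - 1) v := fun v =>
    q6_fix hn hos hs fun y hy => by
      rw [hb]
      exact hst y hy _ (LinearMap.mem_range_self _ v)
  have h2 : ∀ v, t ((s - 1) v) = (s - 1) v := fun v =>
    q6_fix hn hot ht fun y hy => hst _ (LinearMap.mem_range_self _ v) y hy
  ext v
  have h3 := h1 v
  have h4 := h2 v
  simp only [LinearMap.sub_apply, Module.End.one_apply, map_sub] at h3 h4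
  show s (t v) = t (s v)
  have e1 : s (t v) = s v + (t v - v) := by rw [← h3]; abel
  have e2 : t (s v) = t v + (s v - v) := by rw [← h4]; abel
  rw [e1, e2]
  abel

theorem q6_new (s : Finset (Fin m)) (h : s.card < m) : ∃ v, v ∉ s := by
  by_contra hc
  push Not at hc
  have : s = Finset.univ := Finset.eq_univ_of_forall hc
  rw [this, Finset.card_univ, Fintype.card_fin] at h
  exact lt_irrefl _ h

theorem q6_c3 {u v w : Fin m} (huv : u ≠ v) (huw : u ≠ w) (hvw : v ≠ w) :
    (c3 u v w).IsThreeCycle := by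
  unfold c3
  exact Perm.isThreeCycle_swap_mul_swap_same huw huv hvw.symm

theorem q6_c3_ne {u v w z : Fin m} (h1 : z ≠ u) (h2 : z ≠ v) (h3 : z ≠ w) : c3 u v w z = z := by
  unfold c3
  rw [Perm.mul_apply, swap_apply_of_ne_of_ne h1 h2, swap_apply_of_ne_of_ne h1 h3]

theorem q6_c3_fst {u v w : Fin m} (huv : u ≠ v) (hvw : v ≠ w) : c3 u v w u = v := by
  unfold c3
  rw [Perm.mul_apply, swap_apply_left, swap_apply_of_ne_of_ne huv.symm hvw]

theorem q6_conj (d : Perm (Fin m)) (u v w : Fin m) :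
    d * c3 u v w * d⁻¹ = c3 (d u) (d v) (d w) := by
  unfold c3
  have h1 : d * swap u w = swap (d u) (d w) * d := Equiv.mul_swap_eq_swap_mul d u w
  have h2 : d * swap u v = swap (d u) (d v) * d := Equiv.mul_swap_eq_swap_mul d u v
  rw [← mul_assoc, h1, mul_assoc (swap (d u) (d w)) d, h2, mul_assoc, mul_assoc, mul_inv_cancel,
    mul_one]

theorem q6_disj {u v w a b' x : Fin m} (h1 : u ≠ a) (h2 : u ≠ b') (h3 : u ≠ x) (h4 : v ≠ a)
    (h5 : v ≠ b') (h6 : v ≠ x) (h7 : w ≠ a) (h8 : w ≠ b') (h9 : w ≠ x) :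
    (c3 a b' x).Disjoint (c3 u v w) := by
  intro z
  by_cases hu : z = u
  · subst hu
    exact Or.inl (q6_c3_ne h1 h2 h3)
  by_cases hv : z = v
  · subst hv
    exact Or.inl (q6_c3_ne h4 h5 h6)
  by_cases hw : z = w
  · subst hw
    exact Or.inl (q6_c3_ne h7 h8 h9)
  exact Or.inr (q6_c3_ne hu hv hw)

/-- ES19: the lines of ES17 agree. -/
theorem es_common (hF : ∀ x : F, x ^ 2 + x + 1 ≠ 0) (hm : 8 ≤ m) (C : Car b τ)
    {a b' x y u : Fin m} (hab : a ≠ b') (hax : a ≠ x) (hay : a ≠ y) (hau : a ≠ u)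
    (hbx : b' ≠ x) (hby : b' ≠ y) (hbu : b' ≠ u) (hxy : x ≠ y) (hxu : x ≠ u) (hyu : y ≠ u) :
    (LinearMap.range (τ (c3 a b' x) - 1) ⊓ LinearMap.range (τ (c3 a b' y) - 1) :
      Submodule F V) ≤ LinearMap.range (τ (c3 a b' u) - 1) := by
  classical
  have hXY := es_line C hab hax hay hbx hby hxy
  have hXU := es_line C hab hax hau hbx hbu hxu
  have hYU := es_line C hab hay hau hby hbu hyu
  have hcx := q6_c3 hab hax hbx
  have hcy := q6_c3 hab hay hby
  have hcu := q6_c3 hab hau hbu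
  have hrU := C.rank _ hcu
  have hnot : ¬ LinearMap.range (τ (c3 a b' u) - 1) ≤
      LinearMap.range (τ (c3 a b' x) - 1) ⊔ LinearMap.range (τ (c3 a b' y) - 1) := by
    intro hle
    obtain ⟨v, hv⟩ := q6_new ({a, b', x, y, u} : Finset (Fin m))
      (lt_of_le_of_lt (Finset.card_le_five) (by omega))
    obtain ⟨w, hw⟩ := q6_new ({a, b', x, y, u, v} : Finset (Fin m))
      (lt_of_le_of_lt (Finset.card_le_six) (by omega))
    simp only [Finset.mem_insert, Finset.mem_singleton, not_or] at hv hw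
    obtain ⟨va, vb, vx, vy, vu⟩ := hv
    obtain ⟨wa, wb, wx, wy, wu, wv⟩ := hw
    have hcd := q6_c3 (Ne.symm vu) (Ne.symm wu) (Ne.symm wv)
    have dx := q6_disj (Ne.symm hau) (Ne.symm hbu) (Ne.symm hxu) va vb vx wa wb wx
    have dy := q6_disj (Ne.symm hau) (Ne.symm hbu) (Ne.symm hyu) va vb vy wa wb wy
    have horth : ∀ p ∈ LinearMap.range (τ (c3 a b' u) - 1),
        ∀ q ∈ LinearMap.range (τ (c3 u v w) - 1), b p q = 0 := by
      intro p hp q hq
      obtain ⟨p1, hp1, p2, hp2, rfl⟩ := Submodule.mem_sup.1 (hle hp)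
      rw [map_add, LinearMap.add_apply, es_disj hF hm C hcx hcd dx hp1 hq,
        es_disj hF hm C hcy hcd dy hp2 hq, add_zero]
    have hcomm := q6_comm C.symm C.nondeg (C.orth _ hcu) (C.orth _ hcd) (C.cube _ hcu)
      (C.cube _ hcd) horth
    have hconj := C.conj _ _ hcd hcu
    rw [q6_conj, q6_c3_ne hau (Ne.symm va) (Ne.symm wa), q6_c3_ne hbu (Ne.symm vb) (Ne.symm wb),
      q6_c3_fst (Ne.symm vu) (Ne.symm wv), ← hcomm] at hconj
    have heq : τ (c3 a b' u) = τ (c3 a b' v) := by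
      have h3 : τ (c3 u v w) * τ (c3 u v w) ^ 2 = 1 := by
        rw [← pow_succ', C.cube _ hcd]
      have h4 := congrArg (· * τ (c3 u v w) ^ 2) hconj
      simp only [mul_assoc, h3, mul_one] at h4
      exact h4
    have hUV := es_line C hab hau (Ne.symm va) hbu (Ne.symm vb) (Ne.symm vu)
    rw [← heq, inf_idem, hrU] at hUV
    exact absurd hUV (by norm_num)
  -- the three lines agree
  set X := LinearMap.range (τ (c3 a b' x) - 1) with hX
  set Y := LinearMap.range (τ (c3 a b' y) - 1) with hY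
  set U := LinearMap.range (τ (c3 a b' u) - 1) with hU
  have hlt : (X ⊔ Y) ⊓ U < U := lt_of_le_of_ne inf_le_right fun h => hnot (by
    rw [← h]
    exact inf_le_left)
  have h1 := Submodule.finrank_lt_finrank_of_lt hlt
  rw [hrU] at h1
  have e1 : X ⊓ U = (X ⊔ Y) ⊓ U := by
    apply Submodule.eq_of_le_of_finrank_le (inf_le_inf_right U le_sup_left)
    rw [hXU]
    omega
  have e2 : Y ⊓ U = (X ⊔ Y) ⊓ U := by
    apply Submodule.eq_of_le_of_finrank_le (inf_le_inf_right U le_sup_right)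
    rw [hYU]
    omega
  have h2 : X ⊓ U ≤ X ⊓ Y := le_inf inf_le_left (by rw [e1, ← e2]; exact inf_le_left)
  have h3 : X ⊓ U = X ⊓ Y := Submodule.eq_of_le_of_finrank_le h2 (by rw [hXU, hXY])
  rw [← h3]
  exact inf_le_right

end

end Pool.Agent.ES
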