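import Pool.Agent.Lib_helper55.ESF.P9

-- block S1 of the strong form of EllipticSurfaces, by helper5

/-!
# ES, block S1: the pieces are stable, nondegenerate, equal or orthogonal, and span
-/

set_option autoImplicit false

namespace Pool.Agent.ES

open Equiv Module Filter Topology

section

variable {G R E : Type*} [Group G] [Fintype R] [Field E] {m : R → ℕ} {N : ℕ}
  {ρ : G →* Matrix (Fin N) (Fin N) ℤ_[2]} {π : ∀ r, G →* Perm (Fin (m r))} {S : R → Set G}
  {ι : ℤ_[2] →+* E} {b : LinearMap.BilinForm E (Fin N → E)}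

theorem s1_cube (C : Str ρ π S ι b) (r : R) (s : G) (hs : s ∈ S r) : act ρ ι s ^ 3 = 1 := by
  rw [← map_pow]
  show Matrix.toLin' ((ρ (s ^ 3)).map ι) = 1
  rw [map_pow, C.cube r s hs, Matrix.map_one ι (map_zero ι) (map_one ι), Matrix.toLin'_one]
  rfl

theorem s1_cube_apply (C : Str ρ π S ι b) (r : R) (s : G) (hs : s ∈ S r) (x : Fin N → E) :
    act ρ ι s (act ρ ι s (act ρ ι s x)) = x := by
  have h := LinearMap.congr_fun (s1_cube C r s hs) x
  rw [pow_succ, pow_succ, pow_one] at h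
  exact h

theorem s1_three (C : Str ρ π S ι b) : (3 : E) ≠ 0 := by
  intro h
  have h1 : ι (3 : ℤ_[2]) = 0 := by rw [map_ofNat]; exact h
  have h2 : (3 : ℤ_[2]) = 0 := C.inj (by rw [h1, map_zero])
  have h3 : ((3 : ℕ) : ℤ_[2]) = 0 := by exact_mod_cast h2
  exact absurd (Nat.cast_eq_zero.1 h3) (by norm_num)

theorem s1_inv (g : G) (x : Fin N → E) : act ρ ι g (act ρ ι g⁻¹ x) = x := by
  have h : act ρ ι g * act ρ ι g⁻¹ = 1 := by rw [← map_mul, mul_inv_cancel, map_one]
  exact LinearMap.congr_fun h x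

theorem s1_inv' (g : G) (x : Fin N → E) : act ρ ι g⁻¹ (act ρ ι g x) = x := by
  have h : act ρ ι g⁻¹ * act ρ ι g = 1 := by rw [← map_mul, inv_mul_cancel, map_one]
  exact LinearMap.congr_fun h x

theorem s1_adj (C : Str ρ π S ι b) (g : G) (x y : Fin N → E) :
    b (act ρ ι g x) y = b x (act ρ ι g⁻¹ y) := by
  rw [← C.orth g x (act ρ ι g⁻¹ y), s1_inv]

/-- the range of `s - 1` is orthogonal to the fixed vectors -/
theorem s1_orth_fix (C : Str ρ π S ι b) (s : G) (y : Fin N → E) (hy : act ρ ι s y = y)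
    (u : Fin N → E) (hu : u ∈ LinearMap.range (act ρ ι s - 1)) : b u y = 0 := by
  obtain ⟨x, rfl⟩ := hu
  have h : (act ρ ι s - 1) x = act ρ ι s x - x := rfl
  rw [h, map_sub, LinearMap.sub_apply]
  have h2 := C.orth s x y
  rw [hy] at h2
  rw [h2, sub_self]

/-- a vector orthogonal to the range of `s - 1` is fixed -/
theorem s1_fix_of_orth (C : Str ρ π S ι b) (s : G) (y : Fin N → E)
    (h : ∀ u ∈ LinearMap.range (act ρ ι s - 1), b u y = 0) : act ρ ι s y = y := by
  have h1 : ∀ x, b (act ρ ι s y - y) x = 0 := by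
    intro x
    have h2 := h ((act ρ ι s - 1) (act ρ ι s⁻¹ x)) ⟨_, rfl⟩
    have h3 : (act ρ ι s - 1) (act ρ ι s⁻¹ x) = x - act ρ ι s⁻¹ x := by
      show act ρ ι s (act ρ ι s⁻¹ x) - act ρ ι s⁻¹ x = _
      rw [s1_inv]
    rw [h3, map_sub, LinearMap.sub_apply] at h2
    rw [map_sub, LinearMap.sub_apply, s1_adj C, C.symm y (act ρ ι s⁻¹ x), C.symm y x]
    linear_combination -h2
  exact sub_eq_zero.1 (C.nondeg _ h1)

/-- the range of `s - 1` is nondegenerate -/
theorem s1_piece (C : Str ρ π S ι b) (r : R) (s : G) (hs : s ∈ S r) (u : Fin N → E)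
    (hu : u ∈ LinearMap.range (act ρ ι s - 1))
    (h : ∀ v ∈ LinearMap.range (act ρ ι s - 1), b u v = 0) : u = 0 := by
  have h1 : act ρ ι s u = u := s1_fix_of_orth C s u fun v hv => by rw [C.symm]; exact h v hv
  obtain ⟨x, rfl⟩ := hu
  set w := (act ρ ι s - 1) x with hw
  have h2 : w + act ρ ι s w + act ρ ι s (act ρ ι s w) = 0 := by
    have h3 : w = act ρ ι s x - x := rfl
    rw [h3, map_sub, map_sub, s1_cube_apply C r s hs]
    abel
  rw [h1, h1] at h2
  have h4 : (3 : E) • w = 0 := by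
    rw [← h2]
    module
  exact (smul_eq_zero.1 h4).resolve_left (s1_three C)

theorem s1_exists (C : Str ρ π S ι b) (r : R) : ∃ s, s ∈ S r := by
  have h8 := C.res.big r
  obtain ⟨s, hs, -⟩ := C.res.full r
    (swap (⟨0, by omega⟩ : Fin (m r)) ⟨1, by omega⟩ * swap ⟨0, by omega⟩ ⟨2, by omega⟩)
    (Perm.isThreeCycle_swap_mul_swap_same
      (by simp [Fin.ext_iff]) (by simp [Fin.ext_iff]) (by simp [Fin.ext_iff]))
  exact ⟨s, hs⟩

theorem s1_ne (C : Str ρ π S ι b) (r : R) (s : G) (hs : s ∈ S r) :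
    LinearMap.range (act ρ ι s - 1) ≠ ⊥ := by
  intro h
  have h2 := es_rank2 ι C.inj C.res r s hs (C.cube r s hs)
  rw [h, finrank_bot] at h2
  norm_num at h2

omit [Fintype R] in
theorem s1_le (r : R) (s : G) (hs : s ∈ S r) :
    LinearMap.range (act ρ ι s - 1) ≤ mv (act ρ ι) (S r) :=
  le_iSup₂_of_le s hs le_rfl

/-- a stable subspace on which the form vanishes identically is zero -/
theorem s1_iso (C : Str ρ π S ι b) (U : Submodule E (Fin N → E))
    (hU : ∀ g, ∀ u ∈ U, act ρ ι g u ∈ U) (h : ∀ x ∈ U, ∀ r, ∀ s ∈ S r,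
      (LinearMap.range (act ρ ι s - 1) ≤ U → ∀ y ∈ LinearMap.range (act ρ ι s - 1), b x y = 0)) :
    U = ⊥ := by
  by_contra h0
  obtain ⟨r, hr⟩ := es_some ι C.inj C.res C.cube U (fun r s _ u hu => hU s u hu) h0
  obtain ⟨s, hs⟩ := s1_exists C r
  apply s1_ne C r s hs
  rw [Submodule.eq_bot_iff]
  intro u hu
  exact s1_piece C r s hs u hu fun v hv => h u (hr s hs hu) r s hs (hr s hs) v hv

/-- ES10a: the pieces are stable. -/
theorem es_stab (C : Str ρ π S ι b) (r : R) (g : G) (u : Fin N → E)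
    (hu : u ∈ mv (act ρ ι) (S r)) : act ρ ι g u ∈ mv (act ρ ι) (S r) := by
  have h : mv (act ρ ι) (S r) ≤ (mv (act ρ ι) (S r)).comap (act ρ ι g) := by
    refine iSup₂_le fun s hs => ?_
    rintro _ ⟨x, rfl⟩
    rw [Submodule.mem_comap]
    refine s1_le r (g * s * g⁻¹) (C.conj r s hs g) ⟨act ρ ι g x, ?_⟩
    show act ρ ι (g * s * g⁻¹) (act ρ ι g x) - act ρ ι g x = act ρ ι g (act ρ ι s x - x)
    have h2 : act ρ ι (g * s * g⁻¹) (act ρ ι g x) = act ρ ι g (act ρ ι s x) := by
      rw [map_mul, map_mul]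
      show act ρ ι g (act ρ ι s (act ρ ι g⁻¹ (act ρ ι g x))) = _
      rw [s1_inv']
    rw [h2, map_sub]
  exact h hu

/-- ES10b: the pieces are nondegenerate. -/
theorem es_nondeg (C : Str ρ π S ι b) (r : R) (x : Fin N → E)
    (hx : x ∈ mv (act ρ ι) (S r)) (h : ∀ y ∈ mv (act ρ ι) (S r), b x y = 0) : x = 0 := by
  let U : Submodule E (Fin N → E) :=
    { carrier := {x | x ∈ mv (act ρ ι) (S r) ∧ ∀ y ∈ mv (act ρ ι) (S r), b x y = 0}
      add_mem' := by
        rintro x y ⟨hx, hx'⟩ ⟨hy, hy'⟩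
        refine ⟨Submodule.add_mem _ hx hy, fun z hz => ?_⟩
        rw [map_add, LinearMap.add_apply, hx' z hz, hy' z hz, add_zero]
      zero_mem' := by
        refine ⟨Submodule.zero_mem _, fun z _ => ?_⟩
        rw [map_zero, LinearMap.zero_apply]
      smul_mem' := by
        rintro c x ⟨hx, hx'⟩
        refine ⟨Submodule.smul_mem _ c hx, fun z hz => ?_⟩
        rw [map_smul, LinearMap.smul_apply, hx' z hz, smul_zero] }
  have hU : U = ⊥ := by
    refine s1_iso C U ?_ ?_
    · rintro g u ⟨hu, hu'⟩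
      refine ⟨es_stab C r g u hu, fun y hy => ?_⟩
      rw [s1_adj C]
      exact hu' _ (es_stab C r g⁻¹ y hy)
    · rintro u ⟨_, hu'⟩ r' s _ hle y hy
      exact hu' y (hle hy).1
  have hxU : x ∈ U := ⟨hx, h⟩
  rw [hU] at hxU
  exact (Submodule.mem_bot E).1 hxU

theorem s1_orth_of_fix (C : Str ρ π S ι b) (r r' : R)
    (h : ∀ s ∈ S r, ∀ u ∈ mv (act ρ ι) (S r'), act ρ ι s u = u) :
    ∀ x ∈ mv (act ρ ι) (S r), ∀ y ∈ mv (act ρ ι) (S r'), b x y = 0 := by
  intro x hx y hy
  have h1 : mv (act ρ ι) (S r) ≤ LinearMap.ker (b.flip y) := by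
    refine iSup₂_le fun s hs => ?_
    intro u hu
    rw [LinearMap.mem_ker]
    exact s1_orth_fix C s y (h s hs y hy) u hu
  exact LinearMap.mem_ker.1 (h1 hx)

/-- ES10c: two pieces are equal or orthogonal. -/
theorem es_eq_or (C : Str ρ π S ι b) (r r' : R) :
    mv (act ρ ι) (S r) = mv (act ρ ι) (S r') ∨
      ∀ x ∈ mv (act ρ ι) (S r), ∀ y ∈ mv (act ρ ι) (S r'), b x y = 0 := by
  rcases es_dich ι C.inj C.res r (C.cube r) (mv (act ρ ι) (S r'))
    (fun s _ u hu => es_stab C r' s u hu) with h1 | h1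
  · rcases es_dich ι C.inj C.res r' (C.cube r') (mv (act ρ ι) (S r))
      (fun s _ u hu => es_stab C r s u hu) with h2 | h2
    · left
      exact le_antisymm (iSup₂_le h1) (iSup₂_le h2)
    · right
      intro x hx y hy
      rw [C.symm]
      exact s1_orth_of_fix C r' r h2 y hy x hx
  · right
    exact s1_orth_of_fix C r r' h1

/-- ES10d: the pieces span. -/
theorem es_top (C : Str ρ π S ι b) : ⨆ r, mv (act ρ ι) (S r) = ⊤ := by
  set W : Submodule E (Fin N → E) := ⨆ r, mv (act ρ ι) (S r) with hW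
  have hWs : ∀ g, ∀ u ∈ W, act ρ ι g u ∈ W := by
    intro g
    have h : W ≤ W.comap (act ρ ι g) := by
      refine iSup_le fun r => ?_
      intro u hu
      exact Submodule.mem_iSup_of_mem r (es_stab C r g u hu)
    exact fun u hu => h hu
  let U : Submodule E (Fin N → E) :=
    { carrier := {x | ∀ y ∈ W, b x y = 0}
      add_mem' := by
        intro x y hx hy z hz
        rw [map_add, LinearMap.add_apply, hx z hz, hy z hz, add_zero]
      zero_mem' := by
        intro z _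
        rw [map_zero, LinearMap.zero_apply]
      smul_mem' := by
        intro c x hx z hz
        rw [map_smul, LinearMap.smul_apply, hx z hz, smul_zero] }
  have hU : U = ⊥ := by
    refine s1_iso C U ?_ ?_
    · intro g u hu y hy
      rw [s1_adj C]
      exact hu _ (hWs g⁻¹ y hy)
    · intro u hu r s hs _ y hy
      exact hu y (Submodule.mem_iSup_of_mem r (s1_le r s hs hy))
  by_contra hne
  obtain ⟨φ, hφ0, hφ⟩ := Submodule.exists_le_ker_of_lt_top W (lt_top_iff_ne_top.2 hne)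
  have hinj : Function.Injective (b : (Fin N → E) →ₗ[E] (Fin N → E) →ₗ[E] E) := by
    rw [← LinearMap.ker_eq_bot, Submodule.eq_bot_iff]
    intro x hx
    refine C.nondeg x fun y => ?_
    rw [LinearMap.mem_ker.1 hx, LinearMap.zero_apply]
  have hfin : finrank E (Fin N → E) = finrank E ((Fin N → E) →ₗ[E] E) :=
    (Subspace.dual_finrank_eq (K := E) (V := Fin N → E)).symm
  have hsurj := (LinearMap.injective_iff_surjective_of_finrank_eq_finrank hfin).1 hinj
  obtain ⟨x, hx⟩ := hsurj φ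
  have hxU : x ∈ U := by
    intro y hy
    rw [hx]
    exact hφ hy
  rw [hU] at hxU
  have hx0 : x = 0 := (Submodule.mem_bot E).1 hxU
  rw [hx0, map_zero] at hx
  exact hφ0 hx.symm

end

end Pool.Agent.ES
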