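import Pool.Agent.Lib_helper55.ESF.P10
import Pool.Agent.Lib_helper55.ESF.S1

-- block S2 of the strong form of EllipticSurfaces, by helper33

/-! # ES, block S2: the dimension of a piece -/

set_option autoImplicit false

namespace Pool.Agent.ES

open Equiv Module Filter Topology

section

variable {G R E : Type*} [Group G] [Fintype R] [Field E] {m : R → ℕ} {N : ℕ}
  {ρ : G →* Matrix (Fin N) (Fin N) ℤ_[2]} {π : ∀ r, G →* Perm (Fin (m r))} {S : R → Set G}
  {ι : ℤ_[2] →+* E} {b : LinearMap.BilinForm E (Fin N → E)}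

open Classical in
/-- the sum of the dimensions of the different pieces is at most `N` -/
theorem s2_sum (C : Str ρ π S ι b) (T : Finset (Submodule E (Fin N → E)))
    (hT : T = Finset.univ.image (fun r : R => mv (act ρ ι) (S r))) :
    ∑ U ∈ T, finrank E U ≤ N := by
  have hrep : ∀ U : {x // x ∈ T}, ∃ r : R, mv (act ρ ι) (S r) = U.1 := by
    rintro ⟨U, hU⟩
    rw [hT, Finset.mem_image] at hU
    obtain ⟨r, -, hr⟩ := hU
    exact ⟨r, hr⟩
  have horth : ∀ U U' : {x // x ∈ T}, U ≠ U' → ∀ x ∈ U.1, ∀ y ∈ U'.1, b x y = 0 := by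
    intro U U' hne x hx y hy
    obtain ⟨r, hr⟩ := hrep U
    obtain ⟨r', hr'⟩ := hrep U'
    rcases es_eq_or C r r' with h | h
    · exact absurd (Subtype.ext (by rw [← hr, ← hr', h])) hne
    · rw [← hr] at hx
      rw [← hr'] at hy
      exact h x hx y hy
  let Φ : (∀ U : {x // x ∈ T}, U.1) →ₗ[E] (Fin N → E) :=
    { toFun := fun x => ∑ U, ((x U : U.1) : Fin N → E)
      map_add' := fun x y => by
        simp only [Pi.add_apply, Submodule.coe_add, Finset.sum_add_distrib]
      map_smul' := fun c x => by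
        simp only [Pi.smul_apply, Submodule.coe_smul, Finset.smul_sum, RingHom.id_apply] }
  have hΦ : Function.Injective Φ := by
    rw [injective_iff_map_eq_zero]
    intro x hx
    funext U
    apply Subtype.ext
    obtain ⟨r, hr⟩ := hrep U
    have hxU : ((x U : U.1) : Fin N → E) ∈ mv (act ρ ι) (S r) := by
      rw [hr]
      exact (x U).2
    refine es_nondeg C r _ hxU fun y hy => ?_
    rw [hr] at hy
    have h1 : b (∑ U', ((x U' : U'.1) : Fin N → E)) y = 0 := by
      have h2 : (∑ U', ((x U' : U'.1) : Fin N → E)) = 0 := hx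
      rw [h2, map_zero, LinearMap.zero_apply]
    rw [map_sum, LinearMap.sum_apply, Finset.sum_eq_single U] at h1
    · exact h1
    · intro U' _ hne
      exact horth U' U hne _ (x U').2 y hy
    · intro h
      exact absurd (Finset.mem_univ U) h
  have h1 := LinearMap.finrank_le_finrank_of_injective hΦ
  rw [Module.finrank_pi_fintype, Module.finrank_fin_fun] at h1
  rw [← Finset.sum_coe_sort T (fun U => finrank E U)]
  exact h1

open Classical in
/-- ES11: the dimension of a piece. -/
theorem es_dim (C : Str ρ π S ι b) (r : R) :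
    finrank E (mv (act ρ ι) (S r)) = ∑ r' ∈ Finset.univ.filter
      (fun r' => mv (act ρ ι) (S r') = mv (act ρ ι) (S r)), (m r' - 2) := by
  obtain ⟨T, hT⟩ : ∃ T : Finset (Submodule E (Fin N → E)),
    T = Finset.univ.image (fun r : R => mv (act ρ ι) (S r)) := ⟨_, rfl⟩
  have h1 := s2_sum C T hT
  have hlow : ∀ U ∈ T, ∑ r' ∈ Finset.univ.filter (fun r' => mv (act ρ ι) (S r') = U), (m r' - 2) ≤
      finrank E U := by
    intro U _
    refine es_low ι C.inj C.res _ U fun r' hr' => ?_
    exact le_of_eq (Finset.mem_filter.1 hr').2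
  have htot : ∑ U ∈ T, ∑ r' ∈ Finset.univ.filter (fun r' => mv (act ρ ι) (S r') = U), (m r' - 2) =
      N := by
    rw [Finset.sum_fiberwise_of_maps_to (g := fun r' => mv (act ρ ι) (S r'))]
    · exact C.res.dim.symm
    · intro r' _
      rw [hT]
      exact Finset.mem_image_of_mem _ (Finset.mem_univ r')
  have heq : ∑ U ∈ T, ∑ r' ∈ Finset.univ.filter (fun r' => mv (act ρ ι) (S r') = U), (m r' - 2) =
      ∑ U ∈ T, finrank E U := le_antisymm (Finset.sum_le_sum hlow) (by rw [htot]; exact h1)
  have h2 := (Finset.sum_eq_sum_iff_of_le hlow).1 heq (mv (act ρ ι) (S r)) (by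
    rw [hT]
    exact Finset.mem_image_of_mem _ (Finset.mem_univ r))
  exact h2.symm

end

end Pool.Agent.ES
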