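import Pool.Agent.Lib_helper55.ESF.Fin5
import Pool.Agent.Lib_helper55.ESF.OA3
import Pool.Agent.Lib_helper55.ESF.OA7

/-!
# The Lie algebra contains all skew operators of a piece (MP_97f789_ag, strong form)
-/

set_option autoImplicit false

namespace Pool.Agent.ES

open Equiv Module Filter Topology

section

variable {G R E : Type*} [Group G] [Fintype R] [Field E] {m : R → ℕ} {N : ℕ}
  {ρ : G →* Matrix (Fin N) (Fin N) ℤ_[2]} {π : ∀ r, G →* Perm (Fin (m r))} {S : R → Set G}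
  {ι : ℤ_[2] →+* E} {b : LinearMap.BilinForm E (Fin N → E)}

/-- The restriction of a space of matrices to a subspace. -/
def rst (L : Submodule E (Matrix (Fin N) (Fin N) E)) (W : Submodule E (Fin N → E)) :
    Submodule E (Module.End E W) where
  carrier := {Y | ∃ X ∈ L, ∀ v : W, ((Y v : W) : Fin N → E) = X.mulVec v}
  zero_mem' := ⟨0, L.zero_mem, fun v => by simp⟩
  add_mem' := by
    rintro Y Z ⟨X, hX, h⟩ ⟨X', hX', h'⟩
    refine ⟨X + X', L.add_mem hX hX', fun v => ?_⟩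
    rw [LinearMap.add_apply, Submodule.coe_add, h, h', Matrix.add_mulVec]
  smul_mem' := by
    rintro c Y ⟨X, hX, h⟩
    refine ⟨c • X, L.smul_mem c hX, fun v => ?_⟩
    rw [LinearMap.smul_apply, Submodule.coe_smul, h, Matrix.smul_mulVec]

theorem wedge_mem [IsAlgClosed E] [CharZero E] (C : Str ρ π S ι b) (r : R)
    (L : Submodule E (Matrix (Fin N) (Fin N) E))
    (hskew : ∀ X ∈ L, ∀ x y, b (X.mulVec x) y = -b x (X.mulVec y))
    (hbr : ∀ X ∈ L, ∀ Y ∈ L, X * Y - Y * X ∈ L)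
    (hconj : ∀ g, ∀ X ∈ L, (ρ g).map ι * X * (ρ g⁻¹).map ι ∈ L)
    (hpres : ∀ X ∈ L, ∀ v ∈ mv (act ρ ι) (S r), X.mulVec v ∈ mv (act ρ ι) (S r))
    (hne : ∃ X ∈ L, ∃ v ∈ mv (act ρ ι) (S r), X.mulVec v ≠ 0) {x y : Fin N → E}
    (hx : x ∈ mv (act ρ ι) (S r)) (hy : y ∈ mv (act ρ ι) (S r)) :
    ∃ X ∈ L, ∀ v ∈ mv (act ρ ι) (S r), X.mulVec v = b y v • x - b x v • y := by
  obtain ⟨σ, hσ⟩ := exists_mem C.res r
  have hCtx : ESO.Ctx (b.restrict (mv (act ρ ι) (S r))) (rst L (mv (act ρ ι) (S r))) (rs C r) σ := by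
    refine ⟨(rs_grp C r).symm, (rs_grp C r).nondeg, (rs_grp C r).orth, ?_, ?_, ?_, ?_, ?_⟩
    · rintro Y ⟨X, hX, h⟩ u v
      have := hskew X hX u v
      rw [← h u, ← h v] at this
      exact this
    · rintro Y ⟨X, hX, h⟩ Z ⟨X', hX', h'⟩
      refine ⟨X * X' - X' * X, hbr X hX X' hX', fun v => ?_⟩
      rw [LinearMap.sub_apply, Module.End.mul_apply, Module.End.mul_apply, Submodule.coe_sub, h,
        h', h', h, Matrix.sub_mulVec, Matrix.mulVec_mulVec, Matrix.mulVec_mulVec]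
    · rintro g Y ⟨X, hX, h⟩
      refine ⟨_, hconj g X hX, fun v => ?_⟩
      rw [Module.End.mul_apply, Module.End.mul_apply, rs_apply, h, rs_apply, act_apply,
        act_apply, Matrix.mulVec_mulVec, Matrix.mulVec_mulVec]
    · obtain ⟨X, hX, v, hv, hXv⟩ := hne
      refine ⟨X.mulVecLin.restrict (fun u hu => hpres X hX u hu), ⟨X, hX, fun v => rfl⟩, ?_⟩
      intro h
      exact hXv (congrArg Subtype.val (LinearMap.congr_fun h (⟨v, hv⟩ : mv (act ρ ι) (S r))))
    · intro U hU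
      refine rs_irr C r hσ U fun g u hu => hU _ ?_ u hu
      exact Subgroup.normalClosure_normal.conj_mem σ
        (Subgroup.subset_normalClosure (Set.mem_singleton σ)) g
  have h6 := six_le C r
  have h2 : (2 : E) ≠ 0 := two_ne_zero
  have h3 := three_ne C
  have hcube := (rs_grp C r).cube σ hσ
  have hrank := (rs_grp C r).rank σ hσ
  obtain ⟨X, hX, h⟩ := ESO.om_full3 h2 h3 hCtx hcube hrank (by omega)
    (fun U hU => ESO.om_irr3 h2 h3 hCtx hcube hrank (by omega) U hU) ⟨x, hx⟩ ⟨y, hy⟩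
  exact ⟨X, hX, fun v hv => (h ⟨v, hv⟩).symm⟩

end

end Pool.Agent.ES
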